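import Mathlib.Probability.ConditionalProbability
import Mathlib.Analysis.InnerProductSpace.Basic
import Mathlib.Analysis.Calculus.Deriv.Basic
import Mathlib.Analysis.CStarAlgebra.Classes

/-!
# Chordal SLE and the ordered multi-point Green function: the definitions used by the statement
-/

open Set MeasureTheory ProbabilityTheory Filter
open scoped ENNReal NNReal Topology

namespace Pool.Agent.MP_990230_pr

/-- `g` solves the chordal Loewner equation `g' = a / (g - U)`, `g 0 = z`, on the closed time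
interval `[0, t]` (in particular `g s ≠ U s` on that interval). -/
def IsSol (a : ℝ) (U : ℝ → ℝ) (z : ℂ) (t : ℝ) (g : ℝ → ℂ) : Prop :=
  g 0 = z ∧ ∀ s ∈ Icc (0 : ℝ) t, g s ≠ (U s : ℂ) ∧
    HasDerivWithinAt g ((a : ℂ) / (g s - (U s : ℂ))) (Icc (0 : ℝ) t) s

/-- `z` lies in the upper half-plane and its Loewner trajectory exists up to time `t`,
that is `z ∈ H_t`. -/
def Alive (a : ℝ) (U : ℝ → ℝ) (z : ℂ) (t : ℝ) : Prop :=
  0 < z.im ∧ ∃ g : ℝ → ℂ, IsSol a U z t g

/-- The points of `S` whose connected component in `S` is unbounded. -/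
def unbComp (S : Set ℂ) : Set ℂ :=
  {z | z ∈ S ∧ ¬ Bornology.IsBounded (connectedComponentIn S z)}

/-- The Loewner chain driven by `U` is generated by the curve `γ` started at `0`: for every
`t ≥ 0` the domain `H_t` is the unbounded component of `ℍ \ γ(0,t]`. -/
def Generated (a : ℝ) (U : ℝ → ℝ) (γ : ℝ → ℂ) : Prop :=
  ContinuousOn γ (Ici 0) ∧ γ 0 = 0 ∧
    ∀ t : ℝ, 0 ≤ t → {z | Alive a U z t} = unbComp ({z : ℂ | 0 < z.im} \ γ '' Ioc 0 t)

/-- `inf {t : dist(z, γ(0,t]) ≤ ε}`, equal to `∞` if there is no such `t`. -/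
noncomputable def visit (γ : ℝ → ℂ) (z : ℂ) (ε : ℝ) : ℝ≥0∞ :=
  sInf (ENNReal.ofReal '' {t : ℝ | 0 < t ∧ Metric.infDist z (γ '' Ioc 0 t) ≤ ε})

/-- The event `τ^1 < τ^2 < ... < τ^n < ∞`. -/
def Ordered {n : ℕ} (γ : ℝ → ℂ) (z : Fin n → ℂ) (ε : Fin n → ℝ) : Prop :=
  StrictMono (fun j => visit γ (z j) (ε j)) ∧ ∀ j, visit γ (z j) (ε j) < ⊤

end Pool.Agent.MP_990230_pr
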