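import Mathlib.Probability.Process.Filtration
import Mathlib.Probability.Distributions.Gaussian.Real
import Pool.Agent.MP_990230_pr.Stmt
import Mathlib.Probability.BrownianMotion.Basic
import Mathlib.Tactic.Monotonicity.Lemmas
import Mathlib.Analysis.ODE.ExistUnique

-- ======== part 0: formerly Pool.Agent.MP_990230_pr.Defs
section MrgPart0

/-!
# Internal definitions of PROJECT SLE (do not edit; ask helper15)
-/

open Set MeasureTheory ProbabilityTheory Filter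
open scoped ENNReal NNReal Topology

noncomputable section

namespace Pool.Agent.MP_990230_pr

/-! ## exponents -/

/-- `δ = 2 - d = 1 - 1/(4a)`. -/
def del (a : ℝ) : ℝ := 1 - 1 / (4 * a)

/-- `α = 4a - 1`. -/
def alp (a : ℝ) : ℝ := 4 * a - 1

/-! ## Loewner quantities -/

/-- `p = Re (1/Z)`. -/
def pR (Z : ℂ) : ℝ := Z.re / Complex.normSq Z

/-- `s = - Im (1/Z)`. -/
def sI (Z : ℂ) : ℝ := Z.im / Complex.normSq Z

/-- `S = sin arg Z`. -/
def sinA (Z : ℂ) : ℝ := Z.im / ‖Z‖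

/-- the Neumann distance `d(Z,W) = (|Z - W| |Z - conj W|)^(1/2)`. -/
def dN (Z W : ℂ) : ℝ := Real.sqrt (‖Z - W‖ * ‖Z - (starRingEnd ℂ) W‖)

open Classical in
/-- `Z_t(z) = g_t(z) - U_t` (and `0` when `z` is not in `H_t`). -/
def Zt (a : ℝ) (U : ℝ → ℝ) (z : ℂ) (t : ℝ) : ℂ :=
  if h : Alive a U z t then (Classical.choose h.2) t - (U t : ℂ) else 0

open Classical in
/-- `Υ_t(z)`, half the conformal radius of `H_t` seen from `z` (and `0` when `z` is not in `H_t`). -/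
def ups (a : ℝ) (U : ℝ → ℝ) (z : ℂ) (t : ℝ) : ℝ :=
  if Alive a U z t then
    z.im * Real.exp (-(2 * a) * ∫ r in (0 : ℝ)..t, (sI (Zt a U z r)) ^ 2) else 0

/-- `Υ(z)` reaches the level `lam`. -/
def Hits (a : ℝ) (U : ℝ → ℝ) (z : ℂ) (lam : ℝ) : Prop := ∃ t, 0 ≤ t ∧ ups a U z t ≤ lam

/-- the first time `Υ(z) ≤ lam` (junk value `0` if there is none). -/
def hit (a : ℝ) (U : ℝ → ℝ) (z : ℂ) (lam : ℝ) : ℝ := sInf {t | 0 ≤ t ∧ ups a U z t ≤ lam}

open Classical in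
/-- `Υ(w)` at the time `hit a U z lam` (and `0` if that level is never reached). -/
def upsAt (a : ℝ) (U : ℝ → ℝ) (z : ℂ) (lam : ℝ) (w : ℂ) : ℝ :=
  if Hits a U z lam then ups a U w (hit a U z lam) else 0

/-- replace the imaginary part by `max (Im, μ)`. -/
def clip (μ : ℝ) (ζ : ℂ) : ℂ := ⟨ζ.re, max ζ.im μ⟩

/-- The pair `(Z, Υ)` of one point follows the Loewner flow on `[σ, τ]`. -/
structure Flow (a : ℝ) (U : ℝ → ℝ) (σ τ : ℝ) (z : ℝ → ℂ) (y : ℝ → ℝ) : Prop where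
  im_pos : ∀ s ∈ Icc σ τ, 0 < (z s).im
  dz : ∀ s ∈ Icc σ τ,
    HasDerivWithinAt (fun r => z r + (U r : ℂ)) ((a : ℂ) / z s) (Icc σ τ) s
  y_pos : ∀ s ∈ Icc σ τ, 0 < y s
  dy : ∀ s ∈ Icc σ τ, HasDerivWithinAt y (-(2 * a) * (sI (z s)) ^ 2 * y s) (Icc σ τ) s

/-! ## pathwise second-order steps -/

/-- bounded on `[σ, τ]`. -/
def Bdd (σ τ : ℝ) (f : ℝ → ℝ) : Prop := ∃ C : ℝ, ∀ s ∈ Icc σ τ, |f s| ≤ C

/-- Upper pathwise expansion `ΔN ≤ A ΔU + B/2 ΔU² + D Δt + o(Δt + ΔU²)`, uniform on `[σ, τ]`. -/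
structure UStep (U : ℝ → ℝ) (σ τ : ℝ) (N A B D : ℝ → ℝ) : Prop where
  cont : ContinuousOn N (Icc σ τ)
  bA : Bdd σ τ A
  bB : Bdd σ τ B
  bD : Bdd σ τ D
  step : ∀ ε : ℝ, 0 < ε → ∃ h : ℝ, 0 < h ∧ ∀ s ∈ Icc σ τ, ∀ t ∈ Icc σ τ, s ≤ t → t - s ≤ h →
    N t - N s ≤ A s * (U t - U s) + B s / 2 * (U t - U s) ^ 2 + D s * (t - s)
      + ε * ((t - s) + (U t - U s) ^ 2)

/-- Two-sided pathwise expansion. -/
def Ito (U : ℝ → ℝ) (σ τ : ℝ) (N A B D : ℝ → ℝ) : Prop :=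
  UStep U σ τ N A B D ∧
    UStep U σ τ (fun s => -N s) (fun s => -A s) (fun s => -B s) (fun s => -D s)

/-! ## Brownian set-up -/

/-- `U` is a Brownian motion (times `t ≥ 0`) with everywhere continuous paths, adapted to `F`,
with increments independent of the past. -/
structure BMSetup {Ω : Type*} {mΩ : MeasurableSpace Ω} (P : Measure Ω) (U : Ω → ℝ → ℝ)
    (F : Filtration ℝ mΩ) : Prop where
  prob : IsProbabilityMeasure P
  cont : ∀ ω, Continuous (U ω)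
  zero : ∀ ω, U ω 0 = 0
  adapt : ∀ t, Measurable[F t] (fun ω => U ω t)
  indep : ∀ s t, 0 ≤ s → s ≤ t →
    Indep (F s) (MeasurableSpace.comap (fun ω => U ω t - U ω s) inferInstance) P
  law : ∀ s t, 0 ≤ s → s ≤ t →
    P.map (fun ω => U ω t - U ω s) = gaussianReal 0 (t - s).toNNReal

/-! ## the scale profile `u` and its tail integral -/

/-- `d 0 = 0` and `d j > 0` for `1 ≤ j < n`. -/
def GoodD (d : ℕ → ℝ) (n : ℕ) : Prop := d 0 = 0 ∧ ∀ j, 1 ≤ j → j < n → 0 < d j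

/-- value of the edge from point `j` to point `j+1` (to `∞` when `j + 1 = n`) at log-scale `t`. -/
def edgeV (c K : ℝ) (d : ℕ → ℝ) (n j : ℕ) (t : ℝ) : ℝ :=
  max ((K * d j * Real.exp (-t)) ^ (2 * c))
    (if j + 1 < n then (K * Real.exp t / d (j + 1)) ^ c else 0)

/-- `u(t) = η min(1, min_j v_j(t))`. -/
def uf (η c K : ℝ) (d : ℕ → ℝ) (n : ℕ) (t : ℝ) : ℝ :=
  η * (Finset.range n).fold min 1 (fun j => edgeV c K d n j t)

/-- `U(x) = ∫_x^∞ u`. -/
def Uf (η c K : ℝ) (d : ℕ → ℝ) (n : ℕ) (x : ℝ) : ℝ := ∫ t in Ioi x, uf η c K d n t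

/-! ## states -/

/-- a state: the positions `Z_i` and the values `Υ_i`. -/
abbrev St : Type := (ℕ → ℂ) × (ℕ → ℝ)

/-- forget the first point. -/
def St.shift (x : St) : St := (fun i => x.1 (i + 1), fun i => x.2 (i + 1))

/-- the first `n` points are in the upper half-plane, distinct, with positive `Υ`. -/
def Adm (n : ℕ) (x : St) : Prop :=
  (∀ i < n, 0 < (x.1 i).im ∧ 0 < x.2 i) ∧ ∀ i < n, ∀ j < n, i ≠ j → x.1 i ≠ x.1 j

/-- the previous point of a chain, `0` before the first one. -/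
def prevPt (ζ : ℕ → ℂ) (l : ℕ) : ℂ := if l = 0 then 0 else ζ (l - 1)

/-- the factor `max(1, (|w|/|z|)^(-2δ)) Υ^δ S^(-α)` of the hand-off inequality. -/
def hand (a : ℝ) (z : ℂ) (y : ℝ) (w : ℂ) : ℝ :=
  max 1 ((‖w‖ / ‖z‖) ^ (-(2 * del a))) * y ^ (del a) * (sinA z) ^ (-(alp a))

/-! ## the explicit potential -/

/-- `η = 3δ/4`. -/
def etaP (a : ℝ) : ℝ := 3 * del a / 4

/-- `ε' = 1/(100(1+4a))`. -/
def epsP (a : ℝ) : ℝ := 1 / (100 * (1 + 4 * a))

/-- `K = (4000 a (1+4a))^2`. -/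
def kP (a : ℝ) : ℝ := (4000 * a * (1 + 4 * a)) ^ 2

/-- `c = 1/(400 log K)`. -/
def cP (a : ℝ) : ℝ := 1 / (400 * Real.log (kP a))

/-- Neumann distances to the first point. -/
def dvec (x : St) : ℕ → ℝ := fun j => dN (x.1 j) (x.1 0)

/-- the log-scale `log |Z_0| + ε' S_0^2`. -/
def xt (a : ℝ) (x : St) : ℝ := Real.log ‖x.1 0‖ + epsP a * sinA (x.1 0) ^ 2

/-- first-order coefficient of `xt`. -/
def xtA (a : ℝ) (x : St) : ℝ := -pR (x.1 0) + epsP a * (2 * sinA (x.1 0) ^ 2 * pR (x.1 0))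

/-- second-order coefficient of `xt`. -/
def xtB (a : ℝ) (x : St) : ℝ := -(pR (x.1 0) ^ 2 - sI (x.1 0) ^ 2)
  + epsP a * (sinA (x.1 0) ^ 2 * (6 * pR (x.1 0) ^ 2 - 2 * sI (x.1 0) ^ 2))

/-- `log (Υ_0^(-δ) S_0^α)`. -/
def lG (a : ℝ) (x : St) : ℝ := -del a * Real.log (x.2 0) + alp a * Real.log (sinA (x.1 0))

/-- `log` of the product of the Neumann dipole factors `(Y_i^2 / (Υ_i d(Z_i, Z_(i-1))^2))^δ`. -/
def lJ (a : ℝ) (n : ℕ) (x : St) : ℝ := del a * ∑ i ∈ Finset.range (n - 1),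
  (2 * Real.log (x.1 (i + 1)).im - Real.log (x.2 (i + 1)) - 2 * Real.log (dN (x.1 (i + 1)) (x.1 i)))

/-- the profile at the current scale. -/
def uu (a : ℝ) (n : ℕ) (x : St) : ℝ := uf (etaP a) (cP a) (kP a) (dvec x) n (xt a x)

/-- the tail integral at the current scale. -/
def UU (a : ℝ) (n : ℕ) (x : St) : ℝ := Uf (etaP a) (cP a) (kP a) (dvec x) n (xt a x)

/-- the potential. -/
def Mf (a : ℝ) (n : ℕ) (x : St) : ℝ :=
  if n = 0 then 1 else Real.exp (lG a x + (lJ a n x - UU a n x))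

/-- its first-order coefficient. -/
def MAf (a : ℝ) (n : ℕ) (x : St) : ℝ :=
  if n = 0 then 0 else Mf a n x * (alp a * pR (x.1 0) + uu a n x * xtA a x)

/-- its second-order coefficient. -/
def MBf (a : ℝ) (n : ℕ) (x : St) : ℝ :=
  if n = 0 then 0 else Mf a n x * (alp a * (pR (x.1 0) ^ 2 - sI (x.1 0) ^ 2)
    + uu a n x * (xtB a x + cP a * xtA a x ^ 2) + (alp a * pR (x.1 0) + uu a n x * xtA a x) ^ 2)

/-! ## chain events -/

/-- the time at which the previous descent of the chain ended. -/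
def prevT (a : ℝ) (U : ℝ → ℝ) (ζ : ℕ → ℂ) (lam : ℕ → ℝ) (l : ℕ) : ℝ :=
  if l = 0 then 0 else hit a U (ζ (l - 1)) (lam (l - 1))

/-- for `l = 0, ..., N-1` in this order, `Υ(ζ l)` descends from above `Λ lam l` to `lam l`. -/
def CEev (a : ℝ) (U : ℝ → ℝ) (Λ : ℝ) (N : ℕ) (ζ : ℕ → ℂ) (lam : ℕ → ℝ) : Prop :=
  ∀ l < N, Hits a U (ζ l) (lam l) ∧ Alive a U (ζ l) (hit a U (ζ l) (lam l)) ∧
    Λ * lam l ≤ ups a U (ζ l) (prevT a U ζ lam l)

/-- the chain `z 0, ..., z (r-1), z m, z r, ..., z (m-1), w`. -/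
def insPt (z : ℕ → ℂ) (m r : ℕ) (w : ℂ) (l : ℕ) : ℂ :=
  if l < r then z l else if l = r then z m else if l ≤ m then z (l - 1) else w

/-- the levels of that chain. -/
def insLv (Λ : ℝ) (η : ℕ → ℝ) (m k r : ℕ) (lw : ℝ) (l : ℕ) : ℝ :=
  if l < r then 10 * Λ ^ 2 * η l else if l = r then 10 * Λ ^ (3 + k) * η m
  else if l < m then 10 * Λ * η (l - 1) else if l = m then 10 * η (m - 1) else lw

/-- the square net of mesh `ν` around `z0`. -/
def net (z0 : ℂ) (ν : ℝ) (N0 : ℕ) : Finset ℂ :=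
  ((Finset.Icc (-(N0 : ℤ)) N0) ×ˢ (Finset.Icc (-(N0 : ℤ)) N0)).image
    (fun q : ℤ × ℤ => z0 + (ν : ℂ) * ((q.1 : ℂ) + (q.2 : ℂ) * Complex.I))

/-- a measurable substitute for the distance from `z0` to the hull at the time `hit a U z lam`. -/
def rho (a : ℝ) (U : ℝ → ℝ) (z : ℂ) (lam : ℝ) (z0 : ℂ) (η ν : ℝ) (N0 : ℕ) : ℝ :=
  (net z0 ν N0).fold min (3 * η) (fun q => ‖q - z0‖ + 2 * upsAt a U z lam q)

end Pool.Agent.MP_990230_pr

end
end MrgPart0

-- ======== part 1: formerly Pool.Agent.MP_990230_pr.Spec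
section MrgPart1

/-!
# Module statements of PROJECT SLE (do not edit; ask helper15)
-/

open Set MeasureTheory ProbabilityTheory Filter
open scoped ENNReal NNReal Topology

noncomputable section

namespace Pool.Agent.MP_990230_pr

universe u

/-! ## STEP: calculus of pathwise steps -/

structure StepRules (U : ℝ → ℝ) (σ τ : ℝ) : Prop where
  congr : ∀ N A B D N' A' B' D' : ℝ → ℝ, UStep U σ τ N A B D →
    EqOn N N' (Icc σ τ) → EqOn A A' (Icc σ τ) → (∀ s ∈ Icc σ τ, B s ≤ B' s) →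
    (∀ s ∈ Icc σ τ, D s ≤ D' s) → Bdd σ τ B' → Bdd σ τ D' → UStep U σ τ N' A' B' D'
  ito_congr : ∀ N A B D N' A' B' D' : ℝ → ℝ, Ito U σ τ N A B D →
    EqOn N N' (Icc σ τ) → EqOn A A' (Icc σ τ) → EqOn B B' (Icc σ τ) → EqOn D D' (Icc σ τ) →
    Ito U σ τ N' A' B' D'
  of_deriv : ∀ N D : ℝ → ℝ, (∀ s ∈ Icc σ τ, HasDerivWithinAt N (D s) (Icc σ τ) s) →
    ContinuousOn D (Icc σ τ) → Ito U σ τ N (fun _ => 0) (fun _ => 0) D
  const : ∀ c : ℝ, Ito U σ τ (fun _ => c) (fun _ => 0) (fun _ => 0) (fun _ => 0)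
  drv : Ito U σ τ U (fun _ => 1) (fun _ => 0) (fun _ => 0)
  add : ∀ N A B D N' A' B' D' : ℝ → ℝ, UStep U σ τ N A B D → UStep U σ τ N' A' B' D' →
    UStep U σ τ (fun s => N s + N' s) (fun s => A s + A' s) (fun s => B s + B' s)
      (fun s => D s + D' s)
  smul : ∀ (c : ℝ) (N A B D : ℝ → ℝ), 0 ≤ c → UStep U σ τ N A B D →
    UStep U σ τ (fun s => c * N s) (fun s => c * A s) (fun s => c * B s) (fun s => c * D s)
  ito_add : ∀ N A B D N' A' B' D' : ℝ → ℝ, Ito U σ τ N A B D → Ito U σ τ N' A' B' D' →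
    Ito U σ τ (fun s => N s + N' s) (fun s => A s + A' s) (fun s => B s + B' s)
      (fun s => D s + D' s)
  ito_smul : ∀ (c : ℝ) (N A B D : ℝ → ℝ), Ito U σ τ N A B D →
    Ito U σ τ (fun s => c * N s) (fun s => c * A s) (fun s => c * B s) (fun s => c * D s)
  ito_sum : ∀ (n : ℕ) (N A B D : ℕ → ℝ → ℝ), (∀ i < n, Ito U σ τ (N i) (A i) (B i) (D i)) →
    Ito U σ τ (fun s => ∑ i ∈ Finset.range n, N i s) (fun s => ∑ i ∈ Finset.range n, A i s)
      (fun s => ∑ i ∈ Finset.range n, B i s) (fun s => ∑ i ∈ Finset.range n, D i s)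
  comp : ∀ (N A B D φ φ1 φ2 : ℝ → ℝ) (S : Set ℝ), UStep U σ τ N A B D → IsOpen S →
    S.OrdConnected → MapsTo N (Icc σ τ) S → (∀ x ∈ S, HasDerivAt φ (φ1 x) x) →
    (∀ x ∈ S, HasDerivAt φ1 (φ2 x) x) → ContinuousOn φ2 S → (∀ x ∈ S, 0 ≤ φ1 x) →
    UStep U σ τ (fun s => φ (N s)) (fun s => φ1 (N s) * A s)
      (fun s => φ1 (N s) * B s + φ2 (N s) * A s ^ 2) (fun s => φ1 (N s) * D s)
  ito_comp : ∀ (N A B D φ φ1 φ2 : ℝ → ℝ) (S : Set ℝ), Ito U σ τ N A B D → IsOpen S →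
    S.OrdConnected → MapsTo N (Icc σ τ) S → (∀ x ∈ S, HasDerivAt φ (φ1 x) x) →
    (∀ x ∈ S, HasDerivAt φ1 (φ2 x) x) → ContinuousOn φ2 S →
    Ito U σ τ (fun s => φ (N s)) (fun s => φ1 (N s) * A s)
      (fun s => φ1 (N s) * B s + φ2 (N s) * A s ^ 2) (fun s => φ1 (N s) * D s)
  mul : ∀ N A B D N' A' B' D' : ℝ → ℝ, UStep U σ τ N A B D → UStep U σ τ N' A' B' D' →
    (∀ s ∈ Icc σ τ, 0 ≤ N s) → (∀ s ∈ Icc σ τ, 0 ≤ N' s) →
    UStep U σ τ (fun s => N s * N' s) (fun s => A s * N' s + N s * A' s)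
      (fun s => B s * N' s + 2 * A s * A' s + N s * B' s) (fun s => D s * N' s + N s * D' s)
  ito_mul : ∀ N A B D N' A' B' D' : ℝ → ℝ, Ito U σ τ N A B D → Ito U σ τ N' A' B' D' →
    Ito U σ τ (fun s => N s * N' s) (fun s => A s * N' s + N s * A' s)
      (fun s => B s * N' s + 2 * A s * A' s + N s * B' s) (fun s => D s * N' s + N s * D' s)
  touch : ∀ N c D' X AX BX DX : ℝ → ℝ, Ito U σ τ X AX BX DX → ContinuousOn N (Icc σ τ) →
    Bdd σ τ c → Bdd σ τ D' →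
    (∀ ε : ℝ, 0 < ε → ∃ h : ℝ, 0 < h ∧ ∀ s ∈ Icc σ τ, ∀ t ∈ Icc σ τ, s ≤ t → t - s ≤ h →
      N t - N s ≤ c s * (X t - X s) + D' s * (t - s) + ε * ((t - s) + (U t - U s) ^ 2)) →
    UStep U σ τ N (fun s => c s * AX s) (fun s => c s * BX s) (fun s => c s * DX s + D' s)

def StepStmt : Prop :=
  ∀ (U : ℝ → ℝ) (σ τ : ℝ), ContinuousOn U (Icc σ τ) → StepRules U σ τ

/-! ## JET: expansions of the basic Loewner quantities -/

structure JetRules (a : ℝ) (U : ℝ → ℝ) (σ τ : ℝ) (z : ℝ → ℂ) (y : ℝ → ℝ) : Prop where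
  cont_z : ContinuousOn z (Icc σ τ)
  cont_y : ContinuousOn y (Icc σ τ)
  logNorm : Ito U σ τ (fun s => Real.log ‖z s‖) (fun s => -pR (z s))
    (fun s => -(pR (z s) ^ 2 - sI (z s) ^ 2)) (fun s => a * (pR (z s) ^ 2 - sI (z s) ^ 2))
  logIm : Ito U σ τ (fun s => Real.log (z s).im) (fun _ => 0) (fun _ => 0)
    (fun s => -a * (pR (z s) ^ 2 + sI (z s) ^ 2))
  logUps : Ito U σ τ (fun s => Real.log (y s)) (fun _ => 0) (fun _ => 0)
    (fun s => -(2 * a) * sI (z s) ^ 2)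
  logSin : Ito U σ τ (fun s => Real.log (sinA (z s))) (fun s => pR (z s))
    (fun s => pR (z s) ^ 2 - sI (z s) ^ 2) (fun s => -(2 * a) * pR (z s) ^ 2)
  sin : Ito U σ τ (fun s => sinA (z s)) (fun s => sinA (z s) * pR (z s))
    (fun s => sinA (z s) * (2 * pR (z s) ^ 2 - sI (z s) ^ 2))
    (fun s => -(2 * a) * sinA (z s) * pR (z s) ^ 2)
  sinSq : Ito U σ τ (fun s => sinA (z s) ^ 2) (fun s => 2 * sinA (z s) ^ 2 * pR (z s))
    (fun s => sinA (z s) ^ 2 * (6 * pR (z s) ^ 2 - 2 * sI (z s) ^ 2))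
    (fun s => -(4 * a) * sinA (z s) ^ 2 * pR (z s) ^ 2)
  logDist : ∀ (w : ℝ → ℂ) (yw : ℝ → ℝ), Flow a U σ τ w yw → (∀ s ∈ Icc σ τ, z s ≠ w s) →
    ∀ s ∈ Icc σ τ, HasDerivWithinAt (fun r => Real.log (dN (z r) (w r)))
      (-a * pR (z s) * pR (w s)) (Icc σ τ) s

def JetStmt : Prop :=
  ∀ (a : ℝ) (U : ℝ → ℝ) (σ τ : ℝ) (z : ℝ → ℂ) (y : ℝ → ℝ), ContinuousOn U (Icc σ τ) →
    Flow a U σ τ z y → JetRules a U σ τ z y

/-! ## LOEA, LOEB, VIS: deterministic Loewner theory -/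

/-- global solutions for the clipped field (any sign of the coefficient `b`). -/
def ClipStmt : Prop :=
  ∀ (b : ℝ) (V : ℝ → ℝ) (μ : ℝ) (z : ℂ) (T : ℝ), Continuous V → 0 < μ →
    ∃ g : ℝ → ℂ, g 0 = z ∧ ∀ s ∈ Icc (0 : ℝ) T,
      HasDerivWithinAt g ((b : ℂ) / (clip μ (g s) - (V s : ℂ))) (Icc (0 : ℝ) T) s

structure LoeA (a : ℝ) (U : ℝ → ℝ) : Prop where
  mono : ∀ z s t, s ≤ t → Alive a U z t → Alive a U z s
  sol : ∀ z t g, 0 < z.im → IsSol a U z t g → ∀ s ∈ Icc (0 : ℝ) t, Zt a U z s = g s - (U s : ℂ)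
  flow : ∀ z σ τ, 0 ≤ σ → σ ≤ τ → Alive a U z τ → Flow a U σ τ (Zt a U z) (ups a U z)
  init : ∀ z : ℂ, 0 < z.im → Alive a U z 0 ∧ Zt a U z 0 = z - (U 0 : ℂ) ∧ ups a U z 0 = z.im
  extend : ∀ z t, 0 ≤ t → Alive a U z t → ∃ t', t < t' ∧ Alive a U z t'
  death : ∀ (z : ℂ) t, 0 < z.im → 0 ≤ t → ¬ Alive a U z t → ∀ ε : ℝ, 0 < ε →
    ∃ s ∈ Icc (0 : ℝ) t, Alive a U z s ∧ (Zt a U z s).im < ε
  inj : ∀ z w t, 0 ≤ t → z ≠ w → Alive a U z t → Alive a U w t → Zt a U z t ≠ Zt a U w t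
  ups_nonneg : ∀ z t, 0 ≤ ups a U z t
  ups_pos_iff : ∀ z t, 0 < ups a U z t ↔ Alive a U z t
  ups_anti : ∀ z, AntitoneOn (ups a U z) (Ici 0)
  ups_rc : ∀ z t, 0 ≤ t → ContinuousWithinAt (ups a U z) (Ici t) t
  hit_nonneg : ∀ z lam, 0 ≤ hit a U z lam
  hit_le_iff : ∀ z lam, Hits a U z lam → ∀ t, 0 ≤ t → (hit a U z lam ≤ t ↔ ups a U z t ≤ lam)
  le_ups : ∀ (z : ℂ) x, Hits a U z x → Alive a U z (hit a U z x) → x ≤ z.im →
    ∀ t ∈ Icc (0 : ℝ) (hit a U z x), x ≤ ups a U z t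

def LoeAStmt : Prop := ∀ (a : ℝ) (U : ℝ → ℝ), 0 < a → Continuous U → LoeA a U

structure LoeB (a : ℝ) (U : ℝ → ℝ) : Prop where
  koebe : ∀ (z w : ℂ) t, 0 ≤ t → Alive a U z t → 0 < w.im → ¬ Alive a U w t →
    ups a U z t ≤ 4 * ‖z - w‖
  schwarz : ∀ (ψ : ℂ → ℂ) t, 0 ≤ t → DifferentiableOn ℂ ψ (Metric.ball 0 1) →
    (∀ ξ ∈ Metric.ball (0 : ℂ) 1, Alive a U (ψ ξ) t) → ‖deriv ψ 0‖ ≤ 2 * ups a U (ψ 0) t
  ball : ∀ (w : ℂ) (r t : ℝ), 0 ≤ t → 0 < r → (∀ q ∈ Metric.ball w r, Alive a U q t) →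
    r ≤ 2 * ups a U w t

def LoeBStmt : Prop := ∀ (a : ℝ) (U : ℝ → ℝ), 0 < a → Continuous U → LoeB a U

/-- strict growth of the hulls. -/
def GrowStmt : Prop := ∀ (a : ℝ) (U : ℝ → ℝ), 0 < a → Continuous U →
  ∀ t' t'' : ℝ, 0 ≤ t' → t' < t'' → ∃ z, Alive a U z t' ∧ ¬ Alive a U z t''

/-- what is used about a curve generating the chain. -/
def VisStmt : Prop := ∀ (a : ℝ) (U : ℝ → ℝ) (γ : ℝ → ℂ), 0 < a → Continuous U →
  Generated a U γ →
    (∀ s t : ℝ, 0 < s → s ≤ t → ¬ Alive a U (γ s) t) ∧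
    ∀ (z : ℂ) (ε : ℝ), 0 < ε → ε < z.im → visit γ z ε < ⊤ →
      0 < (visit γ z ε).toReal ∧ ‖γ (visit γ z ε).toReal - z‖ = ε ∧
      (∀ s ∈ Ico (0 : ℝ) (visit γ z ε).toReal, ε < ‖γ s - z‖) ∧
      ∀ t ∈ Ico (0 : ℝ) (visit γ z ε).toReal, ∀ r : ℝ, r ≤ z.im →
        (∀ s ∈ Icc (0 : ℝ) t, r ≤ ‖γ s - z‖) → ∀ q ∈ Metric.ball z r, Alive a U q t

/-! ## BM, MEASA, MEASB, GL: probability -/

def BMStmt : Prop :=
  ∀ (Ω : Type u) [mΩ : MeasurableSpace Ω] (P : Measure Ω) (B : ℝ≥0 → Ω → ℝ),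
    IsBrownianReal B P → ∃ (U : Ω → ℝ → ℝ) (F : Filtration ℝ mΩ), BMSetup P U F ∧
      ∀ᵐ ω ∂P, U ω = fun t => B t.toNNReal ω

def MeasAStmt : Prop :=
  ∀ (a : ℝ), 0 < a → ∀ (Ω : Type u) [mΩ : MeasurableSpace Ω] (P : Measure Ω) (U : Ω → ℝ → ℝ)
    (F : Filtration ℝ mΩ), BMSetup P U F → ∀ (z : ℂ) (t : ℝ), 0 ≤ t →
      Measurable[F t] (fun ω => Zt a (U ω) z t) ∧ Measurable[F t] (fun ω => ups a (U ω) z t)

def MeasBStmt : Prop :=
  ∀ (a : ℝ), 0 < a → ∀ (Ω : Type u) [mΩ : MeasurableSpace Ω] (P : Measure Ω) (U : Ω → ℝ → ℝ)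
    (F : Filtration ℝ mΩ), BMSetup P U F →
      (∀ (z : ℂ) (lam : ℝ) (w : ℂ) (t : ℝ), 0 ≤ t → Measurable[F t]
        (fun ω => if ups a (U ω) z t ≤ lam then ups a (U ω) w (hit a (U ω) z lam) else 0)) ∧
      (∀ (z : ℂ) (lam : ℝ), MeasurableSet {ω | Hits a (U ω) z lam}) ∧
      (∀ (z : ℂ) (lam : ℝ) (w : ℂ), Measurable (fun ω => upsAt a (U ω) z lam w)) ∧
      (∀ (z : ℂ) (lam : ℝ) (z0 : ℂ) (η ν : ℝ) (N0 : ℕ),
        Measurable (fun ω => rho a (U ω) z lam z0 η ν N0)) ∧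
      ∀ (Λ : ℝ) (N : ℕ) (ζ : ℕ → ℂ) (lam : ℕ → ℝ),
        MeasurableSet {ω | CEev a (U ω) Λ N ζ lam}

/-- the generator lemma: a pathwise supersolution is a supermartingale between `σ` and `τ`. -/
def GLStmt : Prop :=
  ∀ (Ω : Type u) [mΩ : MeasurableSpace Ω] (P : Measure Ω) (U : Ω → ℝ → ℝ)
    (F : Filtration ℝ mΩ), BMSetup P U F →
    ∀ (N A B : Ω → ℝ → ℝ) (σ τ : Ω → ℝ) (E G : Set Ω) (R : ℝ → Set Ω),
      (∀ t, 0 ≤ t → Measurable[F t] (fun ω => N ω t) ∧ Measurable[F t] (fun ω => A ω t) ∧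
        Measurable[F t] (fun ω => B ω t)) →
      (∀ t, 0 ≤ t → MeasurableSet[F t] {ω | ω ∈ E ∧ σ ω ≤ t}) →
      (∀ t, 0 ≤ t → MeasurableSet[F t] (R t)) →
      (∀ ω ∈ E, 0 ≤ σ ω ∧ ContinuousWithinAt (N ω) (Ici (σ ω)) (σ ω)) →
      G ⊆ E →
      (∀ ω ∈ G, σ ω ≤ τ ω ∧ (∀ t, 0 ≤ t → (ω ∈ R t ↔ τ ω ≤ t)) ∧
        ∃ τ' : ℝ, τ ω < τ' ∧ ∃ D : ℝ → ℝ, UStep (U ω) (σ ω) τ' (N ω) (A ω) (B ω) D ∧
          (∀ s ∈ Icc (σ ω) τ', 0 ≤ N ω s) ∧ ∀ s ∈ Ico (σ ω) (τ ω), D s + B ω s / 2 ≤ 0) →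
      ∫⁻ ω, G.indicator (fun ω => ENNReal.ofReal (N ω (τ ω))) ω ∂P ≤
        ∫⁻ ω, E.indicator (fun ω => ENNReal.ofReal (N ω (σ ω))) ω ∂P

/-! ## POTA: the scale profile -/

structure PotA (η c K : ℝ) : Prop where
  cont : ∀ n d, 1 ≤ n → GoodD d n → Continuous (uf η c K d n)
  nonneg : ∀ n d t, 1 ≤ n → GoodD d n → 0 ≤ uf η c K d n t
  le_eta : ∀ n d t, uf η c K d n t ≤ η
  integ : ∀ n d x, 1 ≤ n → GoodD d n → IntegrableOn (uf η c K d n) (Ioi x)
  Uf_nonneg : ∀ n d x, 1 ≤ n → GoodD d n → 0 ≤ Uf η c K d n x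
  Uf_le : ∀ n d x, 1 ≤ n → GoodD d n →
    Uf η c K d n x ≤ η * (K * d (n - 1) * Real.exp (-x)) ^ (2 * c) / (2 * c)
  touch : ∀ n d x x', 1 ≤ n → GoodD d n →
    Uf η c K d n x - Uf η c K d n x' ≤ uf η c K d n x * ((Real.exp (c * (x' - x)) - 1) / c)
  ratio : ∀ n d d' ξ t, 1 ≤ n → GoodD d n → GoodD d' n → 0 ≤ ξ →
    (∀ j, 1 ≤ j → j < n → |Real.log (d' j) - Real.log (d j)| ≤ ξ) →
    uf η c K d' n t ≤ Real.exp (2 * c * ξ) * uf η c K d n t
  meas_u : ∀ n, Measurable (fun q : (ℕ → ℝ) × ℝ => uf η c K q.1 n q.2)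
  meas_U : ∀ n, Measurable (fun q : (ℕ → ℝ) × ℝ => Uf η c K q.1 n q.2)
  handoff : ∀ n d d' (Rh x x' : ℝ), 1 ≤ n → GoodD d (n + 1) → GoodD d' n → 0 < Rh →
    (∀ j < n, |d (j + 1) - d' j| ≤ 2 * Rh) → Real.exp x' ≤ 2 * Rh →
    Uf η c K d (n + 1) x ≤ Uf η c K d' n x' + η * Real.log (2 * Rh / d 1)
      + η * (K ^ c / c + K ^ (2 * c) / (2 * c) + 2 / K)

def PotAStmt : Prop :=
  ∀ η c K : ℝ, 0 < η → 0 < c → c ≤ 1 / 400 → 16 ≤ K → PotA η c K

/-- POTD: the drift inequality in finite-difference form. -/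
def DriftStmt : Prop :=
  ∀ η c K a δ : ℝ, 0 < δ → η = 3 * δ / 4 → 0 < a → 0 < c → c ≤ 1 / 400 → 16 ≤ K →
    c * Real.log K ≤ 1 / 400 →
    ∀ (n : ℕ) (d d' p : ℕ → ℝ) (R x h e : ℝ), 1 ≤ n → GoodD d n → GoodD d' n → 0 < R →
      R ≤ Real.exp x → Real.exp x ≤ 2 * R → |p 0| ≤ 1 / R → p n = 0 →
      (∀ j < n, d j ≤ R / 2 → |p j - p 0| ≤ 2 * d j / R ^ 2) →
      (∀ j < n, 2 * R ≤ d j → |p j| ≤ 2 / d j) →
      0 ≤ h → 0 ≤ e →
      (∀ j, 1 ≤ j → j < n → |Real.log (d' j) - Real.log (d j) + a * p 0 * p j * h| ≤ e * h) →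
      (∀ j < n, (a * |p 0| * |p j| + e) * h ≤ 1 / 2) →
      Uf η c K d n x - Uf η c K d' n x
          + h * (a * δ * (p 0 ^ 2 - ∑ j ∈ Finset.range n, (p j - p (j + 1)) ^ 2))
        ≤ h * (a * uf η c K d n x * (153 / 100 * p 0 ^ 2 + 30 / Real.sqrt K / R ^ 2))
          + e * h * Uf η c K d n x

/-! ## POT: the supermartingale potential -/

structure Pot (a η CH : ℝ) (M MA MB : ℕ → St → ℝ) : Prop where
  meas : ∀ n, Measurable (M n) ∧ Measurable (MA n) ∧ Measurable (MB n)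
  zero : ∀ x, M 0 x = 1
  nonneg : ∀ n x, 0 ≤ M n x
  init : ∀ (n : ℕ) (ζ : ℕ → ℂ), Adm n (ζ, fun i => (ζ i).im) →
    M n (ζ, fun i => (ζ i).im) ≤ ∏ l ∈ Finset.range n, ‖ζ l - prevPt ζ l‖ ^ (-(del a))
  handoff : ∀ (n : ℕ) (x : St), Adm (n + 1) x →
    M n x.shift ≤ CH * hand a (x.1 0) (x.2 0) (x.1 (if n = 0 then 0 else 1)) * M (n + 1) x
  step : ∀ (n : ℕ) (U : ℝ → ℝ) (σ τ : ℝ) (z : ℕ → ℝ → ℂ) (y : ℕ → ℝ → ℝ),
    ContinuousOn U (Icc σ τ) → (∀ i < n, Flow a U σ τ (z i) (y i)) →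
    (∀ s ∈ Icc σ τ, Adm n (fun i => z i s, fun i => y i s)) →
    ∃ D ut : ℝ → ℝ,
      UStep U σ τ (fun s => M n (fun i => z i s, fun i => y i s))
        (fun s => MA n (fun i => z i s, fun i => y i s))
        (fun s => MB n (fun i => z i s, fun i => y i s)) D ∧
      ∀ s ∈ Icc σ τ, D s + MB n (fun i => z i s, fun i => y i s) / 2 ≤ 0 ∧
        (n ≠ 0 → MA n (fun i => z i s, fun i => y i s)
            = M n (fun i => z i s, fun i => y i s) * (pR (z 0 s) * (alp a - ut s)) ∧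
          0 ≤ ut s ∧ ut s ≤ η)

def PotStmt : Prop :=
  ∀ a : ℝ, 1 / 2 ≤ a → ∃ (CH : ℝ) (M MA MB : ℕ → St → ℝ), 0 < CH ∧
    Pot a (3 * del a / 4) CH M MA MB

/-- POTS: the static properties of the explicit potential. -/
def PotStaticStmt : Prop :=
  ∀ a : ℝ, 1 / 2 ≤ a →
    (∀ n, Measurable (Mf a n) ∧ Measurable (MAf a n) ∧ Measurable (MBf a n)) ∧
    (∀ (n : ℕ) (ζ : ℕ → ℂ), Adm n (ζ, fun i => (ζ i).im) →
      Mf a n (ζ, fun i => (ζ i).im) ≤ ∏ l ∈ Finset.range n, ‖ζ l - prevPt ζ l‖ ^ (-(del a))) ∧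
    ∃ CH : ℝ, 0 < CH ∧ ∀ (n : ℕ) (x : St), Adm (n + 1) x →
      Mf a n x.shift
        ≤ CH * hand a (x.1 0) (x.2 0) (x.1 (if n = 0 then 0 else 1)) * Mf a (n + 1) x

/-- POTN: the non-smooth part `lJ - UU` of the logarithm of the potential. -/
def PotNStmt : Prop :=
  ∀ a : ℝ, 1 / 2 ≤ a →
    ∀ (n : ℕ) (U : ℝ → ℝ) (σ τ : ℝ) (z : ℕ → ℝ → ℂ) (y : ℕ → ℝ → ℝ), 1 ≤ n →
    ContinuousOn U (Icc σ τ) → (∀ i < n, Flow a U σ τ (z i) (y i)) →
    (∀ s ∈ Icc σ τ, Adm n (fun i => z i s, fun i => y i s)) →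
      UStep U σ τ
        (fun s => lJ a n (fun i => z i s, fun i => y i s) - UU a n (fun i => z i s, fun i => y i s))
        (fun s => uu a n (fun i => z i s, fun i => y i s) * xtA a (fun i => z i s, fun i => y i s))
        (fun s => uu a n (fun i => z i s, fun i => y i s) *
          (xtB a (fun i => z i s, fun i => y i s)
            + cP a * xtA a (fun i => z i s, fun i => y i s) ^ 2))
        (fun s => uu a n (fun i => z i s, fun i => y i s) *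
          (a * (pR (z 0 s) ^ 2 - sI (z 0 s) ^ 2)
            + epsP a * (-(4 * a) * sinA (z 0 s) ^ 2 * pR (z 0 s) ^ 2)
            + a * (153 / 100 * pR (z 0 s) ^ 2 + 30 / Real.sqrt (kP a) / ‖z 0 s‖ ^ 2)))

/-! ## END: the end game of one descent -/

structure EndG (a η CH Λ CE lam : ℝ) (Ψ ΨA ΨB : ℂ × ℝ × ℂ → ℝ) (χ : ℝ → ℝ) : Prop where
  meas : Measurable Ψ ∧ Measurable ΨA ∧ Measurable ΨB ∧ Measurable χ
  start : ∀ (z : ℂ) (y : ℝ) (w : ℂ), 0 < z.im → 0 < w.im → Λ * lam ≤ y →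
    Ψ (z, y, w) ≤ CE ∧ χ y = 0
  nonneg : ∀ (z : ℂ) (y : ℝ) (w : ℂ), 0 < z.im → 0 < w.im → lam / 2 ≤ y → 0 ≤ Ψ (z, y, w)
  chi_nonneg : ∀ y, 0 ≤ χ y
  finish : lam ^ (-(del a)) ≤ CE * χ lam
  step : ∀ (U : ℝ → ℝ) (σ τ : ℝ) (z w : ℝ → ℂ) (y yw M MA MB D ut M' A' B' D' : ℝ → ℝ),
    ContinuousOn U (Icc σ τ) → Flow a U σ τ z y → Flow a U σ τ w yw →
    UStep U σ τ M MA MB D → UStep U σ τ M' A' B' D' →
    (∀ s ∈ Icc σ τ, lam / 2 ≤ y s ∧ 0 ≤ M s ∧ 0 ≤ M' s ∧ D s + MB s / 2 ≤ 0 ∧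
      D' s + B' s / 2 ≤ 0 ∧ MA s = M s * (pR (z s) * (alp a - ut s)) ∧ 0 ≤ ut s ∧ ut s ≤ η ∧
      M' s ≤ CH * hand a (z s) (y s) (w s) * M s) →
    ∃ DF : ℝ → ℝ,
      UStep U σ τ (fun s => M s * Ψ (z s, y s, w s) + χ (y s) * M' s)
        (fun s => MA s * Ψ (z s, y s, w s) + M s * ΨA (z s, y s, w s) + χ (y s) * A' s)
        (fun s => MB s * Ψ (z s, y s, w s) + 2 * MA s * ΨA (z s, y s, w s)
          + M s * ΨB (z s, y s, w s) + χ (y s) * B' s) DF ∧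
      ∀ s ∈ Icc σ τ, lam ≤ y s →
        DF s + (MB s * Ψ (z s, y s, w s) + 2 * MA s * ΨA (z s, y s, w s)
          + M s * ΨB (z s, y s, w s) + χ (y s) * B' s) / 2 ≤ 0

def EndStmt : Prop :=
  ∀ a η CH : ℝ, 1 / 2 ≤ a → 0 ≤ η → η < 1 → 2 * η < alp a → 0 < CH →
    ∃ Λ CE : ℝ, 2 ≤ Λ ∧ 0 < CE ∧ ∀ lam : ℝ, 0 < lam →
      ∃ (Ψ ΨA ΨB : ℂ × ℝ × ℂ → ℝ) (χ : ℝ → ℝ), EndG a η CH Λ CE lam Ψ ΨA ΨB χ

/-- the subsolution used inside END (module ENDQ): with `v = 1/(2a)`,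
`q = (|w|/|z|)^v (1 - 3/4 sin arg w)` and `H = q/(1+q)`. -/
def EndQStmt : Prop :=
  ∀ a Θ : ℝ, 1 / 2 ≤ a → 0 ≤ Θ →
    ∃ (c2 C2 : ℝ) (H HA HB HD : ℂ × ℂ → ℝ), 0 < c2 ∧ 0 < C2 ∧
      Measurable H ∧ Measurable HA ∧ Measurable HB ∧
      (∀ z w : ℂ, 0 < z.im → 0 < w.im → 0 ≤ H (z, w) ∧ H (z, w) ≤ 1 ∧
        ∀ θ : ℝ, |θ| ≤ Θ →
          c2 * max 1 ((‖w‖ / ‖z‖) ^ (-(2 * del a))) / ‖z‖ ^ 2 - C2 / ‖z‖ ^ 2
            ≤ HD (z, w) + HB (z, w) / 2 + pR z * θ * HA (z, w)) ∧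
      ∀ (U : ℝ → ℝ) (σ τ : ℝ) (z w : ℝ → ℂ) (y yw : ℝ → ℝ), ContinuousOn U (Icc σ τ) →
        Flow a U σ τ z y → Flow a U σ τ w yw →
        Ito U σ τ (fun s => H (z s, w s)) (fun s => HA (z s, w s)) (fun s => HB (z s, w s))
          (fun s => HD (z s, w s))

/-! ## CE: the chain estimate -/

def CEStmt (a : ℝ) : Prop :=
  ∃ Λ C : ℝ, 2 ≤ Λ ∧ 0 < C ∧
    ∀ (Ω : Type u) [mΩ : MeasurableSpace Ω] (P : Measure Ω) (U : Ω → ℝ → ℝ)
      (F : Filtration ℝ mΩ), BMSetup P U F →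
      ∀ (N : ℕ) (ζ : ℕ → ℂ) (lam : ℕ → ℝ), (∀ l < N, 0 < (ζ l).im ∧ 0 < lam l) →
        (∀ i < N, ∀ j < N, i ≠ j → ζ i ≠ ζ j) →
        P {ω | CEev a (U ω) Λ N ζ lam} ≤ ENNReal.ofReal
          (C ^ N * (∏ l ∈ Finset.range N, lam l ^ (del a)) *
            ∏ l ∈ Finset.range N, ‖ζ l - prevPt ζ l‖ ^ (-(del a)))

/-! ## DI: the deterministic inclusion -/

def DIStmt : Prop :=
  ∀ (a Λ : ℝ) (U : ℝ → ℝ) (γ : ℝ → ℂ), 0 < a → 2 ≤ Λ → Continuous U → Generated a U γ →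
    ∀ (n : ℕ) (z : ℕ → ℂ) (η ε μ ν : ℕ → ℝ) (N0 : ℕ → ℕ),
      (∀ i < n, 0 < η i ∧ η i ≤ ε i ∧ ε i ≤ 2 * η i ∧ 10 * Λ ^ (n + 4) * η i ≤ (z i).im ∧
        0 < μ i ∧ μ i ≤ 1 ∧ 0 < ν i ∧ 32 * Λ * ν i ≤ μ i * η i ∧ 2 * η i ≤ ν i * N0 i) →
      (∀ i j, i < j → j < n → visit γ (z i) (ε i) < visit γ (z j) (ε j)) →
      (∀ j < n, visit γ (z j) (ε j) < ⊤) →
      CEev a U Λ n z (fun i => 10 * Λ * η i) ∨
      ∃ m, 1 ≤ m ∧ m < n ∧ ∃ k < m, ∃ r < m,
        (CEev a U Λ (m + 1) (insPt z m r 0) (insLv Λ η m k r 1) ∧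
          ε m < rho a U (z (m - 1)) (10 * η (m - 1)) (z m) (η m) (ν m) (N0 m) ∧
          rho a U (z (m - 1)) (10 * η (m - 1)) (z m) (η m) (ν m) (N0 m) ≤ ε m + μ m * η m) ∨
        ∃ w ∈ net (z m) (ν m) (N0 m), η m / 2 ≤ ‖w - z m‖ ∧ ‖w - z m‖ ≤ 2 * η m ∧
          CEev a U Λ (m + 2) (insPt z m r w) (insLv Λ η m k r (μ m * η m / (2 * Λ)))

/-! ## the final statement -/

def MainStmt (κ : ℝ) : Prop :=
  ∀ chat : ℝ, 0 < chat → ∃ c : ℝ,
    ∀ (Ω : Type u) [MeasurableSpace Ω] (P : Measure Ω) (B : ℝ≥0 → Ω → ℝ), IsBrownianReal B P →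
    ∀ γ : Ω → ℝ → ℂ, (∀ᵐ ω ∂P, Generated (2 / κ) (fun t => B t.toNNReal ω) (γ ω)) →
    ∀ (n : ℕ) (z : Fin n → ℂ), (∀ j, 0 < (z j).im) → ∀ G : ℝ,
      Tendsto (fun ε : Fin n → ℝ =>
          (∏ j, ε j ^ (1 + κ / 8 - 2)) * (P {ω | Ordered (γ ω) z ε}).toReal)
        (𝓝[{ε | ∀ j, 0 < ε j}] 0) (𝓝 (chat ^ n * G)) →
      G ≤ c ^ n * ∏ i : Fin n,
        ‖z i - (Fin.cons 0 z : Fin (n + 1) → ℂ) i.castSucc‖ ^ (1 + κ / 8 - 2)

/-- ASM: the assembly, valid for every `0 < κ < 8` once the chain estimate is known. -/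
def AsmStmt : Prop :=
  ∀ κ : ℝ, 0 < κ → κ < 8 → CEStmt.{u} (2 / κ) → MainStmt.{u} κ

/-- CE module: the chain estimate from the potential and the end game. -/
def CEofStmt : Prop := ∀ a : ℝ, 1 / 2 ≤ a → CEStmt.{u} a

theorem main_of (hCE : CEofStmt.{u}) (hA : AsmStmt.{u}) (κ : ℝ) (h0 : 0 < κ) (h4 : κ ≤ 4) :
    MainStmt.{u} κ :=
  hA κ h0 (by linarith) (hCE _ (by rw [le_div_iff₀ h0]; linarith))

end Pool.Agent.MP_990230_pr

end
end MrgPart1

-- ======== part 2: formerly Pool.Agent.MP_990230_pr.LoeA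
section MrgPart2

/-!
# PROJECT SLE, module LOEA: existence, uniqueness, death, `ups`, hitting times
-/

open Set MeasureTheory Filter
open scoped ENNReal NNReal Topology

noncomputable section

namespace Pool.Agent.MP_990230_pr

namespace LoeAM

/-! ## the clipped field -/

lemma clip_im (μ : ℝ) (ζ : ℂ) : (clip μ ζ).im = max ζ.im μ := rfl

lemma clip_re (μ : ℝ) (ζ : ℂ) : (clip μ ζ).re = ζ.re := rfl

lemma clip_eq {μ : ℝ} {ζ : ℂ} (h : μ ≤ ζ.im) : clip μ ζ = ζ := by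
  apply Complex.ext
  · rfl
  · rw [clip_im, max_eq_left h]

lemma clip_lip (μ : ℝ) (x y : ℂ) : ‖clip μ x - clip μ y‖ ≤ ‖x - y‖ := by
  rw [← sq_le_sq₀ (norm_nonneg _) (norm_nonneg _), Complex.sq_norm, Complex.sq_norm,
    Complex.normSq_apply, Complex.normSq_apply]
  simp only [Complex.sub_re, Complex.sub_im, clip_re, clip_im]
  have h := abs_max_sub_max_le_abs x.im y.im μ
  rw [← sq_le_sq] at h
  nlinarith

lemma norm_clip_sub (μ : ℝ) (ζ : ℂ) (v : ℝ) : μ ≤ ‖clip μ ζ - (v : ℂ)‖ := by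
  have h1 := Complex.abs_im_le_norm (clip μ ζ - (v : ℂ))
  have h2 : (clip μ ζ - (v : ℂ)).im = max ζ.im μ := by simp [clip_im]
  rw [h2] at h1
  exact (le_max_right _ _).trans ((le_abs_self _).trans h1)

lemma div_lip (b X Y : ℂ) (r : ℝ) (hr : 0 < r) (hX : r ≤ ‖X‖) (hY : r ≤ ‖Y‖) :
    ‖b / X - b / Y‖ ≤ ‖b‖ / r ^ 2 * ‖X - Y‖ := by
  have hX0 : X ≠ 0 := by
    intro h; rw [h, norm_zero] at hX; linarith
  have hY0 : Y ≠ 0 := by
    intro h; rw [h, norm_zero] at hY; linarith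
  have e : b / X - b / Y = -(b * (X - Y)) / (X * Y) := by
    field_simp; ring
  rw [e, norm_div, norm_neg, norm_mul, norm_mul, div_mul_eq_mul_div]
  apply div_le_div_of_nonneg_left (by positivity) (by positivity)
  rw [sq]
  exact mul_le_mul hX hY hr.le (norm_nonneg _)

lemma clip_field_lip (b : ℝ) (μ : ℝ) (hμ : 0 < μ) (v : ℝ) :
    LipschitzWith (Real.toNNReal (|b| / μ ^ 2)) (fun ζ : ℂ => (b : ℂ) / (clip μ ζ - (v : ℂ))) := by
  apply LipschitzWith.of_dist_le_mul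
  intro x y
  rw [dist_eq_norm, dist_eq_norm, Real.coe_toNNReal _ (by positivity)]
  have h := div_lip (b : ℂ) _ _ μ hμ (norm_clip_sub μ x v) (norm_clip_sub μ y v)
  rw [Complex.norm_real, Real.norm_eq_abs] at h
  refine h.trans ?_
  apply mul_le_mul_of_nonneg_left _ (by positivity)
  rw [sub_sub_sub_cancel_right]
  exact clip_lip μ x y

theorem clip_exists (b : ℝ) (V : ℝ → ℝ) (μ : ℝ) (z : ℂ) (T : ℝ) (hV : Continuous V)
    (hμ : 0 < μ) : ∃ g : ℝ → ℂ, g 0 = z ∧ ∀ s ∈ Icc (0 : ℝ) T,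
      HasDerivWithinAt g ((b : ℂ) / (clip μ (g s) - (V s : ℂ))) (Icc (0 : ℝ) T) s := by
  rcases lt_or_ge T 0 with hT | hT
  · refine ⟨fun _ => z, rfl, fun s hs => ?_⟩
    exact absurd (hs.1.trans hs.2) (not_le.2 hT)
  have hpl : IsPicardLindelof (fun t (ζ : ℂ) => (b : ℂ) / (clip μ ζ - (V t : ℂ)))
      (tmin := 0) (tmax := T) ⟨0, left_mem_Icc.2 hT⟩ z
      (Real.toNNReal (|b| / μ * T)) 0 (Real.toNNReal (|b| / μ))
      (Real.toNNReal (|b| / μ ^ 2)) := by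
    refine ⟨fun t _ => (clip_field_lip b μ hμ (V t)).lipschitzOnWith, fun x _ => ?_,
      fun t _ x _ => ?_, ?_⟩
    · apply Continuous.continuousOn
      apply Continuous.div continuous_const
      · exact continuous_const.sub (Complex.continuous_ofReal.comp hV)
      · intro t h
        have := norm_clip_sub μ x (V t)
        rw [h, norm_zero] at this
        linarith
    · rw [Real.coe_toNNReal _ (by positivity), norm_div, Complex.norm_real, Real.norm_eq_abs]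
      exact div_le_div_of_nonneg_left (abs_nonneg _) hμ (norm_clip_sub μ x (V t))
    · rw [Real.coe_toNNReal _ (by positivity), Real.coe_toNNReal _ (by positivity)]
      simp [hT]
  obtain ⟨α, h0, h1⟩ := hpl.exists_eq_forall_mem_Icc_hasDerivWithinAt₀
  exact ⟨α, h0, h1⟩

/-! ## uniqueness -/

variable {a : ℝ} {U : ℝ → ℝ}

lemma sol_mono {z : ℂ} {s t : ℝ} {g : ℝ → ℂ} (hst : s ≤ t) (h : IsSol a U z t g) :
    IsSol a U z s g :=
  ⟨h.1, fun r hr => ⟨(h.2 r ⟨hr.1, hr.2.trans hst⟩).1,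
    (h.2 r ⟨hr.1, hr.2.trans hst⟩).2.mono (Icc_subset_Icc_right hst)⟩⟩

lemma sol_cont {z : ℂ} {t : ℝ} {g : ℝ → ℂ} (h : IsSol a U z t g) :
    ContinuousOn g (Icc 0 t) := fun s hs => (h.2 s hs).2.continuousWithinAt

lemma sol_away (hU : Continuous U) {z : ℂ} {t : ℝ} {g : ℝ → ℂ} (ht : 0 ≤ t)
    (h : IsSol a U z t g) : ∃ r : ℝ, 0 < r ∧ ∀ s ∈ Icc (0 : ℝ) t, r ≤ ‖g s - (U s : ℂ)‖ := by
  have hc : ContinuousOn (fun s => ‖g s - (U s : ℂ)‖) (Icc 0 t) :=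
    ((sol_cont h).sub (Complex.continuous_ofReal.comp hU).continuousOn).norm
  obtain ⟨s0, hs0, hmin⟩ := isCompact_Icc.exists_isMinOn (nonempty_Icc.2 ht) hc
  exact ⟨_, norm_pos_iff.2 (sub_ne_zero.2 (h.2 s0 hs0).1), fun s hs => hmin hs⟩

lemma field_lip (a r v : ℝ) (hr : 0 < r) :
    LipschitzOnWith (Real.toNNReal (|a| / r ^ 2)) (fun ζ : ℂ => (a : ℂ) / (ζ - (v : ℂ)))
      {ζ | r ≤ ‖ζ - (v : ℂ)‖} := by
  apply LipschitzOnWith.of_dist_le_mul
  intro x hx y hy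
  rw [dist_eq_norm, dist_eq_norm, Real.coe_toNNReal _ (by positivity)]
  have h := div_lip (a : ℂ) _ _ r hr hx hy
  rw [Complex.norm_real, Real.norm_eq_abs, sub_sub_sub_cancel_right] at h
  exact h

lemma uniq_right (hU : Continuous U) {z : ℂ} {t : ℝ} {g g' : ℝ → ℂ}
    (h : IsSol a U z t g) (h' : IsSol a U z t g') : EqOn g g' (Icc 0 t) := by
  rcases lt_or_ge t 0 with ht | ht
  · intro s hs; exact absurd (hs.1.trans hs.2) (not_le.2 ht)
  obtain ⟨r, hr, hg⟩ := sol_away hU ht h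
  obtain ⟨r', hr', hg'⟩ := sol_away hU ht h'
  refine ODE_solution_unique_of_mem_Icc_right
    (v := fun s (ζ : ℂ) => (a : ℂ) / (ζ - (U s : ℂ)))
    (s := fun s => {ζ | min r r' ≤ ‖ζ - (U s : ℂ)‖})
    (fun s _ => field_lip a (min r r') (U s) (lt_min hr hr')) (sol_cont h)
    (fun s hs => ?_) (fun s hs => ?_) (sol_cont h') (fun s hs => ?_) (fun s hs => ?_)
    (h.1.trans h'.1.symm)
  · exact (h.2 s (Ico_subset_Icc_self hs)).2.mono_of_mem_nhdsWithin (Icc_mem_nhdsGE_of_mem hs)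
  · exact (min_le_left _ _).trans (hg s (Ico_subset_Icc_self hs))
  · exact (h'.2 s (Ico_subset_Icc_self hs)).2.mono_of_mem_nhdsWithin (Icc_mem_nhdsGE_of_mem hs)
  · exact (min_le_right _ _).trans (hg' s (Ico_subset_Icc_self hs))

lemma uniq_left (hU : Continuous U) {z w : ℂ} {t : ℝ} {g g' : ℝ → ℂ} (ht : 0 ≤ t)
    (h : IsSol a U z t g) (h' : IsSol a U w t g') (he : g t = g' t) : z = w := by
  obtain ⟨r, hr, hg⟩ := sol_away hU ht h
  obtain ⟨r', hr', hg'⟩ := sol_away hU ht h'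
  have key : EqOn g g' (Icc 0 t) := by
    refine ODE_solution_unique_of_mem_Icc_left
      (v := fun s (ζ : ℂ) => (a : ℂ) / (ζ - (U s : ℂ)))
      (s := fun s => {ζ | min r r' ≤ ‖ζ - (U s : ℂ)‖})
      (fun s _ => field_lip a (min r r') (U s) (lt_min hr hr')) (sol_cont h)
      (fun s hs => ?_) (fun s hs => ?_) (sol_cont h') (fun s hs => ?_) (fun s hs => ?_) he
    · exact (h.2 s (Ioc_subset_Icc_self hs)).2.mono_of_mem_nhdsWithin (Icc_mem_nhdsLE_of_mem hs)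
    · exact (min_le_left _ _).trans (hg s (Ioc_subset_Icc_self hs))
    · exact (h'.2 s (Ioc_subset_Icc_self hs)).2.mono_of_mem_nhdsWithin (Icc_mem_nhdsLE_of_mem hs)
    · exact (min_le_right _ _).trans (hg' s (Ioc_subset_Icc_self hs))
  rw [← h.1, ← h'.1]
  exact key (left_mem_Icc.2 ht)

lemma sol_conj {z : ℂ} {t : ℝ} {g : ℝ → ℂ} (h : IsSol a U z t g) :
    IsSol a U ((starRingEnd ℂ) z) t (fun s => (starRingEnd ℂ) (g s)) := by
  refine ⟨by simp [h.1], fun s hs => ⟨fun he => (h.2 s hs).1 ?_, ?_⟩⟩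
  · have := congrArg (starRingEnd ℂ) he
    simpa using this
  · have := (Complex.conjCLE.toContinuousLinearMap.hasFDerivAt).comp_hasDerivWithinAt s
      (h.2 s hs).2
    simpa [Function.comp_def] using this

lemma sol_im_pos (hU : Continuous U) {z : ℂ} {t : ℝ} {g : ℝ → ℂ} (hz : 0 < z.im)
    (h : IsSol a U z t g) : ∀ s ∈ Icc (0 : ℝ) t, 0 < (g s).im := by
  intro s hs
  by_contra hneg
  push Not at hneg
  have hc : ContinuousOn (fun r => (g r).im) (Icc 0 s) :=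
    Complex.continuous_im.comp_continuousOn (sol_cont (sol_mono hs.2 h))
  have h0 : (0 : ℝ) ∈ Icc (g s).im (g 0).im := ⟨hneg, by rw [h.1]; exact hz.le⟩
  obtain ⟨r, hr, hr0⟩ := intermediate_value_Icc' hs.1 hc h0
  have h1 : IsSol a U z r g := sol_mono (hr.2.trans hs.2) h
  have h2 := uniq_left hU hr.1 h1 (sol_conj h1) (Complex.conj_eq_iff_im.2 hr0).symm
  have h3 : z.im = 0 := Complex.conj_eq_iff_im.1 h2.symm
  linarith

lemma sol_im_anti (ha : 0 < a) (hU : Continuous U) {z : ℂ} {t : ℝ} {g : ℝ → ℂ} (hz : 0 < z.im)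
    (h : IsSol a U z t g) : AntitoneOn (fun s => (g s).im) (Icc 0 t) := by
  refine antitoneOn_of_hasDerivWithinAt_nonpos (convex_Icc 0 t)
    (f' := fun s => ((a : ℂ) / (g s - (U s : ℂ))).im)
    (Complex.continuous_im.comp_continuousOn (sol_cont h)) (fun s hs => ?_) (fun s hs => ?_)
  · have hs' := interior_subset hs
    have := (Complex.imCLM.hasFDerivAt).comp_hasDerivWithinAt s (h.2 s hs').2
    exact HasDerivWithinAt.mono (by simpa [Function.comp_def] using this) interior_subset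
  · have hs' := interior_subset hs
    have hp := sol_im_pos hU hz h s hs'
    rw [Complex.div_im]
    simp only [Complex.ofReal_im, zero_mul, zero_div, Complex.ofReal_re, Complex.sub_im, sub_zero,
      zero_sub, Left.neg_nonpos_iff]
    exact div_nonneg (mul_pos ha hp).le (Complex.normSq_nonneg _)

lemma alive_mono {z : ℂ} {s t : ℝ} (hst : s ≤ t) (h : Alive a U z t) : Alive a U z s := by
  obtain ⟨hz, g, hg⟩ := h
  exact ⟨hz, g, sol_mono hst hg⟩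

lemma Zt_eq (hU : Continuous U) {z : ℂ} {t : ℝ} {g : ℝ → ℂ} (hz : 0 < z.im)
    (h : IsSol a U z t g) : ∀ s ∈ Icc (0 : ℝ) t, Zt a U z s = g s - (U s : ℂ) := by
  intro s hs
  have hal : Alive a U z s := ⟨hz, g, sol_mono hs.2 h⟩
  unfold Zt
  rw [dif_pos hal]
  have := uniq_right hU (Classical.choose_spec hal.2) (sol_mono hs.2 h) (right_mem_Icc.2 hs.1)
  rw [this]

lemma ne_of_im_pos {ζ : ℂ} (h : 0 < ζ.im) (v : ℝ) : ζ ≠ (v : ℂ) := by
  intro he
  rw [he, Complex.ofReal_im] at h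
  exact lt_irrefl _ h

lemma sol_of_clip {z : ℂ} {μ T t : ℝ} {h : ℝ → ℂ} (hμ : 0 < μ) (htT : t ≤ T) (h0 : h 0 = z)
    (hd : ∀ s ∈ Icc (0 : ℝ) T,
      HasDerivWithinAt h ((a : ℂ) / (clip μ (h s) - (U s : ℂ))) (Icc (0 : ℝ) T) s)
    (him : ∀ s ∈ Icc (0 : ℝ) t, μ ≤ (h s).im) : IsSol a U z t h := by
  refine ⟨h0, fun s hs => ⟨ne_of_im_pos (hμ.trans_le (him s hs)) _, ?_⟩⟩
  have := (hd s ⟨hs.1, hs.2.trans htT⟩).mono (Icc_subset_Icc_right htT)
  rwa [clip_eq (him s hs)] at this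

lemma ups_of_alive {z : ℂ} {t : ℝ} (h : Alive a U z t) : ups a U z t =
    z.im * Real.exp (-(2 * a) * ∫ r in (0 : ℝ)..t, (sI (Zt a U z r)) ^ 2) := by
  unfold ups
  rw [if_pos h]

lemma ups_of_dead {z : ℂ} {t : ℝ} (h : ¬ Alive a U z t) : ups a U z t = 0 := by
  unfold ups
  rw [if_neg h]

lemma init (hU : Continuous U) (z : ℂ) (hz : 0 < z.im) :
    Alive a U z 0 ∧ Zt a U z 0 = z - (U 0 : ℂ) ∧ ups a U z 0 = z.im := by
  have hs : IsSol a U z 0 (fun s : ℝ => z + (s : ℂ) * ((a : ℂ) / (z - (U 0 : ℂ)))) := by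
    refine ⟨by simp, fun s hs => ?_⟩
    have hs0 : s = 0 := le_antisymm hs.2 hs.1
    subst hs0
    refine ⟨by simpa using ne_of_im_pos hz _, ?_⟩
    have h1 : HasDerivAt (fun s : ℝ => (s : ℂ)) 1 0 := Complex.ofRealCLM.hasDerivAt
    have h2 := (h1.mul_const ((a : ℂ) / (z - (U 0 : ℂ)))).const_add z
    simpa using h2.hasDerivWithinAt
  have hal : Alive a U z 0 := ⟨hz, _, hs⟩
  refine ⟨hal, ?_, ?_⟩
  · simpa using Zt_eq hU hz hs 0 (left_mem_Icc.2 le_rfl)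
  · rw [ups_of_alive hal]; simp

lemma extend (ha : 0 < a) (hU : Continuous U) (z : ℂ) (t : ℝ) (ht : 0 ≤ t)
    (hal : Alive a U z t) : ∃ t', t < t' ∧ Alive a U z t' := by
  obtain ⟨hz, g, hg⟩ := hal
  have hp := sol_im_pos hU hz hg t (right_mem_Icc.2 ht)
  set μ : ℝ := (g t).im / 2 with hμ
  have hμ0 : 0 < μ := by positivity
  have hgim : ∀ s ∈ Icc (0 : ℝ) t, 2 * μ ≤ (g s).im := by
    intro s hs
    have := sol_im_anti ha hU hz hg hs (right_mem_Icc.2 ht) hs.2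
    simp only at this
    linarith
  obtain ⟨h, h0, hd⟩ := clip_exists a U μ z (t + 1) hU hμ0
  have hhc : ContinuousOn h (Icc 0 (t + 1)) := fun s hs => (hd s hs).continuousWithinAt
  have heq : EqOn g h (Icc 0 t) := by
    refine ODE_solution_unique (v := fun s (ζ : ℂ) => (a : ℂ) / (clip μ ζ - (U s : ℂ)))
      (fun s => clip_field_lip a μ hμ0 (U s)) (sol_cont hg) (fun s hs => ?_)
      (hhc.mono (Icc_subset_Icc_right (by linarith))) (fun s hs => ?_) (hg.1.trans h0.symm)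
    · have hs' := Ico_subset_Icc_self hs
      have h1 : μ ≤ (g s).im := by have := hgim s hs'; linarith
      rw [clip_eq h1]
      exact (hg.2 s hs').2.mono_of_mem_nhdsWithin (Icc_mem_nhdsGE_of_mem hs)
    · have hs' : s ∈ Ico (0 : ℝ) (t + 1) := ⟨hs.1, by linarith [hs.2]⟩
      exact (hd s (Ico_subset_Icc_self hs')).mono_of_mem_nhdsWithin (Icc_mem_nhdsGE_of_mem hs')
  have hct : ContinuousWithinAt (fun s => (h s).im) (Icc 0 (t + 1)) t :=
    (Complex.continuous_im.comp_continuousOn hhc) t ⟨ht, by linarith⟩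
  have hht : μ < (h t).im := by
    rw [← heq (right_mem_Icc.2 ht)]; linarith
  have hev : ∀ᶠ s in 𝓝[Icc 0 (t + 1)] t, μ < (h s).im := hct.eventually (lt_mem_nhds hht)
  rw [eventually_nhdsWithin_iff, Metric.eventually_nhds_iff] at hev
  obtain ⟨e, he, hev⟩ := hev
  have hm1 : min (e / 2) 1 ≤ e / 2 := min_le_left _ _
  have hm2 : min (e / 2) 1 ≤ 1 := min_le_right _ _
  have hm0 : 0 < min (e / 2) 1 := lt_min (by linarith) one_pos
  refine ⟨t + min (e / 2) 1, by linarith, hz, h, ?_⟩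
  refine sol_of_clip hμ0 (by linarith) h0 hd (fun s hs => ?_)
  rcases le_total s t with hst | hst
  · rw [← heq ⟨hs.1, hst⟩]
    have := hgim s ⟨hs.1, hst⟩
    linarith
  · refine (hev ?_ ⟨hs.1, by linarith [hs.2]⟩).le
    rw [Real.dist_eq, abs_of_nonneg (by linarith)]
    linarith [hs.2]

lemma death (hU : Continuous U) (z : ℂ) (t : ℝ) (hz : 0 < z.im) (ht : 0 ≤ t)
    (hdead : ¬ Alive a U z t) (ε : ℝ) (hε : 0 < ε) :
    ∃ s ∈ Icc (0 : ℝ) t, Alive a U z s ∧ (Zt a U z s).im < ε := by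
  rcases le_or_gt z.im (ε / 2) with h1 | h1
  · obtain ⟨h2, h3, -⟩ := init (a := a) hU z hz
    refine ⟨0, left_mem_Icc.2 ht, h2, ?_⟩
    rw [h3]
    simp only [Complex.sub_im, Complex.ofReal_im, sub_zero]
    linarith
  have hμ0 : 0 < ε / 2 := by linarith
  obtain ⟨h, h0, hd⟩ := clip_exists a U (ε / 2) z t hU hμ0
  have hhc : ContinuousOn (fun s => (h s).im) (Icc 0 t) :=
    Complex.continuous_im.comp_continuousOn (fun s hs => (hd s hs).continuousWithinAt)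
  have ivt : ∀ s ∈ Icc (0 : ℝ) t, (h s).im < ε / 2 → ∃ r ∈ Icc (0 : ℝ) s, (h r).im = ε / 2 := by
    intro s hs hlt
    have h3 : ε / 2 ∈ Icc (h s).im (h 0).im := ⟨hlt.le, by rw [h0]; exact h1.le⟩
    exact intermediate_value_Icc' hs.1 (hhc.mono (Icc_subset_Icc_right hs.2)) h3
  by_cases hall : ∀ s ∈ Icc (0 : ℝ) t, ε / 2 ≤ (h s).im
  · exact absurd ⟨hz, h, sol_of_clip hμ0 le_rfl h0 hd hall⟩ hdead
  push Not at hall
  obtain ⟨s1, hs1, hlt⟩ := hall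
  obtain ⟨r1, hr1, hr1e⟩ := ivt s1 hs1 hlt
  have hK : IsCompact (Icc (0 : ℝ) t ∩ (fun s => (h s).im) ⁻¹' {ε / 2}) :=
    isCompact_Icc.of_isClosed_subset
      (hhc.preimage_isClosed_of_isClosed isClosed_Icc isClosed_singleton) inter_subset_left
  obtain ⟨s0, hs0, hmin⟩ := hK.exists_isLeast ⟨r1, ⟨hr1.1, hr1.2.trans hs1.2⟩, hr1e⟩
  have hs0e : (h s0).im = ε / 2 := hs0.2
  have hsol : IsSol a U z s0 h := by
    refine sol_of_clip hμ0 hs0.1.2 h0 hd (fun s hs => ?_)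
    by_contra hcon
    push Not at hcon
    obtain ⟨r, hr, hre⟩ := ivt s ⟨hs.1, hs.2.trans hs0.1.2⟩ hcon
    have h4 : s0 ≤ r := hmin ⟨⟨hr.1, hr.2.trans (hs.2.trans hs0.1.2)⟩, hre⟩
    have h5 : s = s0 := le_antisymm hs.2 (h4.trans hr.2)
    rw [h5] at hcon
    linarith
  refine ⟨s0, hs0.1, ⟨hz, h, hsol⟩, ?_⟩
  rw [Zt_eq hU hz hsol s0 (right_mem_Icc.2 hs0.1.1)]
  simp only [Complex.sub_im, Complex.ofReal_im, sub_zero]
  linarith

lemma inj (hU : Continuous U) (z w : ℂ) (t : ℝ) (ht : 0 ≤ t) (hne : z ≠ w)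
    (hz : Alive a U z t) (hw : Alive a U w t) : Zt a U z t ≠ Zt a U w t := by
  obtain ⟨hz, g, hg⟩ := hz
  obtain ⟨hw, g', hg'⟩ := hw
  rw [Zt_eq hU hz hg t (right_mem_Icc.2 ht), Zt_eq hU hw hg' t (right_mem_Icc.2 ht)]
  intro he
  exact hne (uniq_left hU ht hg hg' (sub_left_inj.1 he))

lemma ups_nonneg (z : ℂ) (t : ℝ) : 0 ≤ ups a U z t := by
  by_cases h : Alive a U z t
  · rw [ups_of_alive h]; exact (mul_pos h.1 (Real.exp_pos _)).le
  · rw [ups_of_dead h]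

lemma ups_pos_iff (z : ℂ) (t : ℝ) : 0 < ups a U z t ↔ Alive a U z t := by
  by_cases h : Alive a U z t
  · rw [ups_of_alive h]; exact iff_of_true (mul_pos h.1 (Real.exp_pos _)) h
  · rw [ups_of_dead h]; exact iff_of_false (lt_irrefl _) h

lemma flow (hU : Continuous U) (z : ℂ) (σ τ : ℝ) (hσ : 0 ≤ σ) (hal : Alive a U z τ) :
    Flow a U σ τ (Zt a U z) (ups a U z) := by
  obtain ⟨hz, g, hg⟩ := hal
  have hsub : Icc σ τ ⊆ Icc 0 τ := Icc_subset_Icc_left hσ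
  have hZ := Zt_eq hU hz hg
  have hp := sol_im_pos hU hz hg
  have hal : ∀ s ∈ Icc (0 : ℝ) τ, Alive a U z s := fun s hs => ⟨hz, g, sol_mono hs.2 hg⟩
  refine ⟨fun s hs => ?_, fun s hs => ?_, fun s hs => ?_, fun s hs => ?_⟩
  · rw [hZ s (hsub hs)]
    simpa using hp s (hsub hs)
  · rw [hZ s (hsub hs)]
    refine ((hg.2 s (hsub hs)).2.mono hsub).congr_of_mem (fun r hr => ?_) hs
    rw [hZ r (hsub hr)]; ring
  · exact (ups_pos_iff z s).2 (hal s (hsub hs))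
  · have hZc : ContinuousOn (Zt a U z) (Icc 0 τ) :=
      ((sol_cont hg).sub (Complex.continuous_ofReal.comp hU).continuousOn).congr hZ
    have hfc : ContinuousOn (fun r => (sI (Zt a U z r)) ^ 2) (Icc 0 τ) := by
      apply ContinuousOn.pow
      unfold sI
      refine (Complex.continuous_im.comp_continuousOn hZc).div
        (Complex.continuous_normSq.comp_continuousOn hZc) (fun r hr => ?_)
      rw [hZ r hr]
      exact (Complex.normSq_pos.2 (sub_ne_zero.2 (hg.2 r hr).1)).ne'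
    have hs' := hsub hs
    have hI : HasDerivWithinAt (fun t => ∫ r in (0 : ℝ)..t, (sI (Zt a U z r)) ^ 2)
        ((sI (Zt a U z s)) ^ 2) (Icc 0 τ) s := by
      have : Fact (s ∈ Icc (0 : ℝ) τ) := ⟨hs'⟩
      apply intervalIntegral.integral_hasDerivWithinAt_right _
        (hfc.stronglyMeasurableAtFilter_nhdsWithin measurableSet_Icc s) (hfc _ hs')
      apply ContinuousOn.intervalIntegrable
      exact hfc.mono (uIcc_subset_Icc (left_mem_Icc.2 (hs'.1.trans hs'.2)) hs')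
    have h2 := ((hI.const_mul (-(2 * a))).exp.const_mul z.im).mono hsub
    refine (h2.congr_of_mem (fun r hr => ups_of_alive (hal r (hsub hr))) hs).congr_deriv ?_
    rw [ups_of_alive (hal s hs')]
    ring

lemma ups_contOn (hU : Continuous U) (z : ℂ) (σ τ : ℝ) (hσ : 0 ≤ σ) (hal : Alive a U z τ) :
    ContinuousOn (ups a U z) (Icc σ τ) :=
  fun s hs => ((flow hU z σ τ hσ hal).dy s hs).continuousWithinAt

lemma ups_anti (ha : 0 < a) (hU : Continuous U) (z : ℂ) : AntitoneOn (ups a U z) (Ici 0) := by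
  intro s hs t ht hst
  by_cases h : Alive a U z t
  · have hF := flow hU z 0 t le_rfl h
    have : AntitoneOn (ups a U z) (Icc 0 t) := by
      refine antitoneOn_of_hasDerivWithinAt_nonpos (convex_Icc 0 t)
        (f' := fun s => -(2 * a) * (sI (Zt a U z s)) ^ 2 * ups a U z s)
        (ups_contOn hU z 0 t le_rfl h)
        (fun r hr => (hF.dy r (interior_subset hr)).mono interior_subset) (fun r _ => ?_)
      have h1 := ups_nonneg (a := a) (U := U) z r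
      have h2 : 0 ≤ (2 * a) * (sI (Zt a U z r)) ^ 2 * ups a U z r := by positivity
      linarith
    exact this ⟨hs, hst⟩ (right_mem_Icc.2 ht) hst
  · rw [ups_of_dead h]; exact ups_nonneg z s

lemma ups_rc (ha : 0 < a) (hU : Continuous U) (z : ℂ) (t : ℝ) (ht : 0 ≤ t) :
    ContinuousWithinAt (ups a U z) (Ici t) t := by
  by_cases h : Alive a U z t
  · obtain ⟨t', htt, hal⟩ := extend ha hU z t ht h
    exact (ups_contOn hU z t t' ht hal t (left_mem_Icc.2 htt.le)).mono_of_mem_nhdsWithin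
      (Icc_mem_nhdsGE htt)
  · refine (continuousWithinAt_const (b := (0 : ℝ))).congr (fun s hs => ?_) (ups_of_dead h)
    exact ups_of_dead (fun h' => h (alive_mono hs h'))

lemma hit_nonneg (z : ℂ) (lam : ℝ) : 0 ≤ hit a U z lam :=
  Real.sInf_nonneg (fun _ hx => hx.1)

lemma hit_le_iff (ha : 0 < a) (hU : Continuous U) (z : ℂ) (lam : ℝ) (hH : Hits a U z lam)
    (t : ℝ) (ht : 0 ≤ t) : hit a U z lam ≤ t ↔ ups a U z t ≤ lam := by
  have hbdd : BddBelow {t | 0 ≤ t ∧ ups a U z t ≤ lam} := ⟨0, fun _ hx => hx.1⟩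
  have h0 := hit_nonneg (a := a) (U := U) z lam
  constructor
  · intro hle
    have key : ups a U z (hit a U z lam) ≤ lam := by
      have hc : ContinuousWithinAt (ups a U z) (Ioi (hit a U z lam)) (hit a U z lam) :=
        (ups_rc ha hU z _ h0).mono Ioi_subset_Ici_self
      refine le_of_tendsto hc ?_
      filter_upwards [self_mem_nhdsWithin] with r hr
      obtain ⟨s, hs, hsr⟩ := exists_lt_of_csInf_lt hH hr
      exact (ups_anti ha hU z hs.1 (hs.1.trans hsr.le) hsr.le).trans hs.2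
    exact (ups_anti ha hU z h0 ht hle).trans key
  · intro hle
    exact csInf_le hbdd ⟨ht, hle⟩

lemma le_ups (ha : 0 < a) (hU : Continuous U) (z : ℂ) (x : ℝ) (hH : Hits a U z x)
    (hal : Alive a U z (hit a U z x)) (hx : x ≤ z.im) :
    ∀ t ∈ Icc (0 : ℝ) (hit a U z x), x ≤ ups a U z t := by
  have h1 : ∀ t ∈ Ico (0 : ℝ) (hit a U z x), x ≤ ups a U z t := by
    intro t ht
    have := (hit_le_iff ha hU z x hH t ht.1).not.1 (not_le.2 ht.2)
    exact (not_le.1 this).le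
  intro t ht
  rcases ht.2.lt_or_eq with hlt | heq
  · exact h1 t ⟨ht.1, hlt⟩
  rcases ht.1.eq_or_lt with h0 | h0
  · rw [← h0, (init hU z hal.1).2.2]; exact hx
  · rw [← heq] at h1 hal
    have hc : ContinuousWithinAt (ups a U z) (Ico 0 t) t :=
      (ups_contOn hU z 0 t le_rfl hal t (right_mem_Icc.2 ht.1)).mono Ico_subset_Icc_self
    have hm : t ∈ closure (Ico 0 t) := by
      rw [closure_Ico h0.ne]; exact right_mem_Icc.2 ht.1
    exact ContinuousWithinAt.closure_le hm continuousWithinAt_const hc h1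

end LoeAM

theorem clip_stmt : ClipStmt := fun b V μ z T hV hμ => LoeAM.clip_exists b V μ z T hV hμ

theorem loeA_stmt : LoeAStmt := fun _ _ ha hU =>
  { mono := fun _ _ _ hst h => LoeAM.alive_mono hst h
    sol := fun _ _ _ hz h => LoeAM.Zt_eq hU hz h
    flow := fun z σ τ hσ _ h => LoeAM.flow hU z σ τ hσ h
    init := LoeAM.init hU
    extend := LoeAM.extend ha hU
    death := LoeAM.death hU
    inj := LoeAM.inj hU
    ups_nonneg := LoeAM.ups_nonneg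
    ups_pos_iff := LoeAM.ups_pos_iff
    ups_anti := LoeAM.ups_anti ha hU
    ups_rc := LoeAM.ups_rc ha hU
    hit_nonneg := LoeAM.hit_nonneg
    hit_le_iff := LoeAM.hit_le_iff ha hU
    le_ups := LoeAM.le_ups ha hU }

end Pool.Agent.MP_990230_pr

end
end MrgPart2

-- ======== part 3: formerly Pool.Agent.MP_990230_pr.Vis
section MrgPart3

/-!
# PROJECT SLE, module VIS: strict growth of the hulls and visiting times
-/

open Set MeasureTheory Filter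
open scoped ENNReal NNReal Topology

noncomputable section

namespace Pool.Agent.MP_990230_pr

namespace VisM

variable {a : ℝ} {U : ℝ → ℝ}

/-- the backward flow: every point of the half-plane is `g_t(z)` for some `z`. -/
lemma backward (ha : 0 < a) (hU : Continuous U) (w : ℂ) (hw : 0 < w.im) (t : ℝ) (ht : 0 ≤ t) :
    ∃ (z : ℂ) (g : ℝ → ℂ), 0 < z.im ∧ IsSol a U z t g ∧ g t = w := by
  have hV : Continuous (fun r => U (t - r)) := hU.comp (continuous_const.sub continuous_id)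
  obtain ⟨h, h0, hd⟩ := LoeAM.clip_exists (-a) (fun r => U (t - r)) w.im w t hV hw
  have hmono : MonotoneOn (fun s => (h s).im) (Icc 0 t) := by
    refine monotoneOn_of_hasDerivWithinAt_nonneg (convex_Icc 0 t)
      (f' := fun s => (((-a : ℝ) : ℂ) / (clip w.im (h s) - (U (t - s) : ℂ))).im)
      (Complex.continuous_im.comp_continuousOn (fun s hs => (hd s hs).continuousWithinAt))
      (fun s hs => ?_) (fun s _ => ?_)
    · have hs' := interior_subset hs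
      have := (Complex.imCLM.hasFDerivAt).comp_hasDerivWithinAt s (hd s hs')
      exact HasDerivWithinAt.mono (by simpa [Function.comp_def] using this) interior_subset
    · rw [Complex.div_im]
      simp only [Complex.ofReal_im, zero_mul, zero_div, Complex.ofReal_re, Complex.sub_im,
        sub_zero, zero_sub, LoeAM.clip_im, neg_mul, neg_div, neg_neg]
      exact div_nonneg (mul_nonneg ha.le (hw.le.trans (le_max_right _ _)))
        (Complex.normSq_nonneg _)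
  have him : ∀ s ∈ Icc (0 : ℝ) t, w.im ≤ (h s).im := by
    intro s hs
    have := hmono (left_mem_Icc.2 ht) hs hs.1
    simpa [h0] using this
  refine ⟨h t, fun s => h (t - s), hw.trans_le (him t (right_mem_Icc.2 ht)), ⟨by simp, ?_⟩,
    by simp [h0]⟩
  intro s hs
  have hs' : t - s ∈ Icc (0 : ℝ) t := ⟨by linarith [hs.2], by linarith [hs.1]⟩
  refine ⟨LoeAM.ne_of_im_pos (hw.trans_le (him _ hs')) _, ?_⟩
  have h1 := hd (t - s) hs'
  rw [LoeAM.clip_eq (him _ hs')] at h1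
  have h2 : HasDerivWithinAt (fun r : ℝ => t - r) (-1) (Icc 0 t) s :=
    ((hasDerivAt_id s).const_sub t).hasDerivWithinAt
  have h3 := HasDerivWithinAt.scomp s (h := fun r : ℝ => t - r) h1 h2
    (fun r hr => ⟨by linarith [hr.2], by linarith [hr.1]⟩)
  simp only [sub_sub_cancel] at h3
  refine HasDerivWithinAt.congr_deriv h3 ?_
  push_cast
  simp [neg_div]

/-- the shifted solution. -/
lemma shift {z : ℂ} {t T : ℝ} {g : ℝ → ℂ} (ht : 0 ≤ t) (hg : IsSol a U z (t + T) g) :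
    IsSol a (fun r => U (t + r)) (g t) T (fun r => g (t + r)) := by
  refine ⟨by simp, fun s hs => ?_⟩
  have hs' : t + s ∈ Icc (0 : ℝ) (t + T) := ⟨by linarith [hs.1], by linarith [hs.2]⟩
  refine ⟨(hg.2 _ hs').1, ?_⟩
  have h2 : HasDerivWithinAt (fun r : ℝ => t + r) 1 (Icc 0 T) s :=
    ((hasDerivAt_id s).const_add t).hasDerivWithinAt
  have h3 := HasDerivWithinAt.scomp s (h := fun r : ℝ => t + r) (hg.2 _ hs').2 h2
    (fun r hr => ⟨by linarith [hr.1], by linarith [hr.2]⟩)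
  exact HasDerivWithinAt.congr_deriv h3 (by simp)

/-- some point of the half-plane is dead at any positive time. -/
lemma some_dead (hB : LoeBStmt) (ha : 0 < a) (hU : Continuous U) (T : ℝ) (hT : 0 < T) :
    ∃ w : ℂ, 0 < w.im ∧ ¬ Alive a U w T := by
  by_contra hcon
  push Not at hcon
  have hne : ∀ ξ ∈ Metric.ball (0 : ℂ) 1, (1 : ℂ) - ξ ≠ 0 := by
    intro ξ hξ h
    rw [mem_ball_zero_iff] at hξ
    rw [← sub_eq_zero.1 h, norm_one] at hξ
    exact lt_irrefl _ hξ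
  have hdiff : DifferentiableOn ℂ (fun ξ : ℂ => Complex.I * (1 + ξ) / (1 - ξ))
      (Metric.ball 0 1) := by
    apply DifferentiableOn.div _ _ hne <;> fun_prop
  have him : ∀ ξ ∈ Metric.ball (0 : ℂ) 1, 0 < (Complex.I * (1 + ξ) / (1 - ξ)).im := by
    intro ξ hξ
    have h1 : 0 < Complex.normSq (1 - ξ) := Complex.normSq_pos.2 (hne ξ hξ)
    rw [mem_ball_zero_iff] at hξ
    have h2 : ‖ξ‖ ^ 2 < 1 := by nlinarith [norm_nonneg ξ]
    rw [Complex.sq_norm, Complex.normSq_apply] at h2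
    rw [Complex.div_im, ← sub_div]
    apply div_pos _ h1
    simp
    nlinarith
  have hder : HasDerivAt (fun ξ : ℂ => Complex.I * (1 + ξ) / (1 - ξ)) (2 * Complex.I) 0 := by
    have h1 : HasDerivAt (fun ξ : ℂ => Complex.I * (1 + ξ)) (Complex.I * 1) 0 :=
      ((hasDerivAt_id (0 : ℂ)).const_add 1).const_mul Complex.I
    have h2 : HasDerivAt (fun ξ : ℂ => 1 - ξ) (-1) 0 := (hasDerivAt_id (0 : ℂ)).const_sub 1
    have h3 := h1.div h2 (by simp)
    refine HasDerivAt.congr_deriv h3 ?_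
    simp
    ring
  have hs := (hB a U ha hU).schwarz _ T hT.le hdiff (fun ξ hξ => hcon _ (him ξ hξ))
  rw [hder.deriv] at hs
  simp only [Complex.norm_mul, Complex.norm_ofNat, Complex.norm_I, mul_one, add_zero, sub_zero,
    div_one] at hs
  have hal : Alive a U Complex.I T := hcon _ (by simp)
  have hF := LoeAM.flow hU Complex.I 0 T le_rfl hal
  have hanti : StrictAntiOn (ups a U Complex.I) (Icc 0 T) := by
    refine strictAntiOn_of_hasDerivWithinAt_neg (convex_Icc 0 T)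
      (f' := fun s => -(2 * a) * (sI (Zt a U Complex.I s)) ^ 2 * ups a U Complex.I s)
      (LoeAM.ups_contOn hU _ 0 T le_rfl hal)
      (fun r hr => (hF.dy r (interior_subset hr)).mono interior_subset) (fun r hr => ?_)
    have h1 := hF.y_pos r (interior_subset hr)
    have h2 := hF.im_pos r (interior_subset hr)
    have h3 : 0 < sI (Zt a U Complex.I r) := by
      unfold sI
      refine div_pos h2 (Complex.normSq_pos.2 (fun h => ?_))
      rw [h] at h2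
      simp at h2
    have h4 : 0 < (2 * a) * (sI (Zt a U Complex.I r)) ^ 2 * ups a U Complex.I r := by positivity
    linarith
  have h5 := hanti (left_mem_Icc.2 hT.le) (right_mem_Icc.2 hT.le) hT
  rw [(LoeAM.init hU Complex.I (by simp)).2.2, Complex.I_im] at h5
  linarith

theorem grow (hB : LoeBStmt) (ha : 0 < a) (hU : Continuous U) (t' t'' : ℝ) (ht' : 0 ≤ t')
    (hlt : t' < t'') : ∃ z, Alive a U z t' ∧ ¬ Alive a U z t'' := by
  have hV : Continuous (fun r => U (t' + r)) := hU.comp (continuous_const.add continuous_id)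
  obtain ⟨w, hw, hdead⟩ := some_dead hB ha hV (t'' - t') (by linarith)
  obtain ⟨z, g, hz, hg, hgw⟩ := backward ha hU w hw t' ht'
  refine ⟨z, ⟨hz, g, hg⟩, fun hal => hdead ⟨hw, ?_⟩⟩
  obtain ⟨-, G, hG⟩ := hal
  have h1 : G t' = w := by
    rw [← hgw]
    exact LoeAM.uniq_right hU (LoeAM.sol_mono hlt.le hG) hg (right_mem_Icc.2 ht')
  have h2 : IsSol a U z (t' + (t'' - t')) G := by simpa using hG
  have h3 := shift ht' h2
  rw [h1] at h3
  exact ⟨_, h3⟩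

variable {γ : ℝ → ℂ}

lemma alive_iff (hγ : Generated a U γ) {t : ℝ} (ht : 0 ≤ t) (q : ℂ) :
    Alive a U q t ↔ q ∈ {z : ℂ | 0 < z.im} \ γ '' Ioc 0 t ∧
      ¬ Bornology.IsBounded (connectedComponentIn ({z : ℂ | 0 < z.im} \ γ '' Ioc 0 t) q) := by
  have := hγ.2.2 t ht
  exact Set.ext_iff.1 this q

lemma ball_sub {z : ℂ} {r t : ℝ} (hr : r ≤ z.im) (hf : ∀ s ∈ Icc (0 : ℝ) t, r ≤ ‖γ s - z‖) :
    Metric.ball z r ⊆ {z : ℂ | 0 < z.im} \ γ '' Ioc 0 t := by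
  intro q hq
  rw [mem_ball_iff_norm] at hq
  refine ⟨?_, ?_⟩
  · have h1 := Complex.abs_im_le_norm (q - z)
    rw [Complex.sub_im] at h1
    have h2 := neg_abs_le (q.im - z.im)
    change 0 < q.im
    linarith
  · rintro ⟨s, hs, rfl⟩
    exact absurd hq (not_lt.2 (hf s (Ioc_subset_Icc_self hs)))

lemma ball_iff (hγ : Generated a U γ) {z : ℂ} {r t : ℝ} (ht : 0 ≤ t) (hr : r ≤ z.im)
    (hf : ∀ s ∈ Icc (0 : ℝ) t, r ≤ ‖γ s - z‖) {q : ℂ} (hq : q ∈ Metric.ball z r) :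
    Alive a U q t ↔ Alive a U z t := by
  have hsub := ball_sub hr hf
  have hz : z ∈ Metric.ball z r := Metric.mem_ball_self (Metric.pos_of_mem_ball hq)
  have h1 : q ∈ connectedComponentIn ({z : ℂ | 0 < z.im} \ γ '' Ioc 0 t) z :=
    (convex_ball z r).isPreconnected.subset_connectedComponentIn hz hsub hq
  rw [alive_iff hγ ht, alive_iff hγ ht, ← connectedComponentIn_eq h1]
  exact and_congr_left' (iff_of_true (hsub hq) (hsub hz))

/-- the visiting time is the first time the curve enters the closed disc. -/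
lemma visit_eq (hγ : Generated a U γ) (z : ℂ) (ε : ℝ) (hε : ε < z.im) (hv : visit γ z ε < ⊤) :
    ∃ τ : ℝ, 0 < τ ∧ visit γ z ε = ENNReal.ofReal τ ∧ ‖γ τ - z‖ = ε ∧
      ∀ s ∈ Ico (0 : ℝ) τ, ε < ‖γ s - z‖ := by
  have hfc : ContinuousOn (fun s => ‖γ s - z‖) (Ici 0) := (hγ.1.sub continuousOn_const).norm
  have hf0 : ε < ‖γ 0 - z‖ := by
    rw [hγ.2.1, zero_sub, norm_neg]
    exact hε.trans_le ((le_abs_self _).trans (Complex.abs_im_le_norm z))
  have key : ∀ t : ℝ, 0 < t → Metric.infDist z (γ '' Ioc 0 t) ≤ ε →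
      ∃ s ∈ Icc (0 : ℝ) t, ‖γ s - z‖ ≤ ε := by
    intro t ht hle
    have hK : IsCompact (γ '' Icc 0 t) :=
      isCompact_Icc.image_of_continuousOn (hγ.1.mono Icc_subset_Ici_self)
    obtain ⟨y, ⟨s, hs, rfl⟩, hy⟩ := hK.exists_infDist_eq_dist
      ((nonempty_Icc.2 ht.le).image γ) z
    refine ⟨s, hs, ?_⟩
    rw [← dist_eq_norm, dist_comm, ← hy]
    exact (Metric.infDist_le_infDist_of_subset (image_mono Ioc_subset_Icc_self)
      ((nonempty_Ioc.2 ht).image γ)).trans hle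
  have hne : ({t : ℝ | 0 < t ∧ Metric.infDist z (γ '' Ioc 0 t) ≤ ε}).Nonempty := by
    by_contra hcon
    rw [not_nonempty_iff_eq_empty] at hcon
    unfold visit at hv
    rw [hcon, image_empty, sInf_empty] at hv
    exact lt_irrefl _ hv
  obtain ⟨t0, ht0, ht0'⟩ := hne
  obtain ⟨s0, hs0, hs0'⟩ := key t0 ht0 ht0'
  have hK : IsCompact (Icc (0 : ℝ) t0 ∩ (fun s => ‖γ s - z‖) ⁻¹' Iic ε) :=
    isCompact_Icc.of_isClosed_subset
      ((hfc.mono Icc_subset_Ici_self).preimage_isClosed_of_isClosed isClosed_Icc isClosed_Iic)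
      inter_subset_left
  obtain ⟨τ, hτ, hmin⟩ := hK.exists_isLeast ⟨s0, hs0, hs0'⟩
  have hτle : ‖γ τ - z‖ ≤ ε := hτ.2
  have hbefore : ∀ s ∈ Ico (0 : ℝ) τ, ε < ‖γ s - z‖ := by
    intro s hs
    by_contra hcon
    have : τ ≤ s := hmin ⟨⟨hs.1, hs.2.le.trans hτ.1.2⟩, not_lt.1 hcon⟩
    linarith [hs.2]
  have hτ0 : 0 < τ := by
    refine hτ.1.1.lt_of_ne (fun h => ?_)
    rw [← h] at hτle
    linarith
  refine ⟨τ, hτ0, ?_, ?_, hbefore⟩
  · unfold visit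
    apply IsLeast.csInf_eq
    refine ⟨⟨τ, ⟨hτ0, ?_⟩, rfl⟩, ?_⟩
    · refine (Metric.infDist_le_dist_of_mem (mem_image_of_mem γ (right_mem_Ioc.2 hτ0))).trans ?_
      rwa [dist_comm, dist_eq_norm]
    · rintro _ ⟨t, ⟨ht, ht'⟩, rfl⟩
      apply ENNReal.ofReal_le_ofReal
      obtain ⟨s, hs, hs'⟩ := key t ht ht'
      by_contra hcon
      exact absurd hs' (not_le.2 (hbefore s ⟨hs.1, hs.2.trans_lt (not_le.1 hcon)⟩))
  · have h1 : ε ∈ Icc ‖γ τ - z‖ ‖γ 0 - z‖ := ⟨hτle, hf0.le⟩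
    obtain ⟨s, hs, hse⟩ := intermediate_value_Icc' hτ0.le (hfc.mono Icc_subset_Ici_self) h1
    rcases hs.2.lt_or_eq with h | h
    · exact absurd hse (hbefore s ⟨hs.1, h⟩).ne'
    · rw [← h]; exact hse

lemma center_alive (hG : GrowStmt) (ha : 0 < a) (hU : Continuous U) (hγ : Generated a U γ)
    (z : ℂ) (ε τ : ℝ) (hε : ε < z.im) (hτ : ‖γ τ - z‖ = ε)
    (hb : ∀ s ∈ Ico (0 : ℝ) τ, ε < ‖γ s - z‖) (t : ℝ) (ht : t ∈ Ico (0 : ℝ) τ) :
    Alive a U z t := by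
  by_contra hdead
  have hfc : ContinuousOn (fun s => ‖γ s - z‖) (Ici 0) := (hγ.1.sub continuousOn_const).norm
  obtain ⟨s0, hs0, hmin⟩ := isCompact_Icc.exists_isMinOn (nonempty_Icc.2 ht.1)
    (hfc.mono Icc_subset_Ici_self)
  set ρ : ℝ := min ‖γ s0 - z‖ z.im with hρ
  have hερ : ε < ρ := lt_min (hb s0 ⟨hs0.1, hs0.2.trans_lt ht.2⟩) hε
  have hf : ∀ s ∈ Icc (0 : ℝ) t, ρ ≤ ‖γ s - z‖ := fun s hs => (min_le_left _ _).trans (hmin hs)
  have hBdead : ∀ q ∈ Metric.ball z ρ, ¬ Alive a U q t := fun q hq h =>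
    hdead ((ball_iff hγ ht.1 (min_le_right _ _) hf hq).1 h)
  have hτ0 : 0 ≤ τ := ht.1.trans ht.2.le
  have hev : ∀ᶠ s in 𝓝[Ici 0] τ, ‖γ s - z‖ < ρ :=
    (hfc τ hτ0).eventually (gt_mem_nhds (hτ.le.trans_lt hερ))
  rw [eventually_nhdsWithin_iff, Metric.eventually_nhds_iff] at hev
  obtain ⟨e, he, hev⟩ := hev
  set t' : ℝ := max t (τ - e / 2) with ht'
  have h1 : t ≤ t' := le_max_left _ _
  have h2 : τ - e / 2 ≤ t' := le_max_right _ _
  have h3 : t' < τ := max_lt ht.2 (by linarith)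
  have h4 : 0 ≤ t' := ht.1.trans h1
  obtain ⟨q, hq, hqd⟩ := hG a U ha hU t' τ h4 h3
  apply hqd
  rw [alive_iff hγ h4] at hq
  have hCsub : connectedComponentIn ({z : ℂ | 0 < z.im} \ γ '' Ioc 0 t') q ⊆
      {z : ℂ | 0 < z.im} \ γ '' Ioc 0 τ := by
    intro x hx
    have hx1 := connectedComponentIn_subset _ _ hx
    have hxal : Alive a U x t' := by
      rw [alive_iff hγ h4, ← connectedComponentIn_eq hx]
      exact ⟨hx1, hq.2⟩
    refine ⟨hx1.1, ?_⟩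
    rintro ⟨s, hs, rfl⟩
    rcases le_or_gt s t' with hst | hst
    · exact hx1.2 ⟨s, ⟨hs.1, hst⟩, rfl⟩
    · refine hBdead (γ s) ?_ (LoeAM.alive_mono h1 hxal)
      rw [mem_ball_iff_norm]
      refine hev ?_ hs.1.le
      rw [Real.dist_eq, abs_of_nonpos (by linarith [hs.2])]
      linarith
  have hqC := mem_connectedComponentIn hq.1
  rw [alive_iff hγ hτ0]
  refine ⟨hCsub hqC, fun hbd => hq.2 (hbd.subset ?_)⟩
  exact isPreconnected_connectedComponentIn.subset_connectedComponentIn hqC hCsub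

end VisM

theorem grow_stmt (_hC : ClipStmt) (_hA : LoeAStmt) (hB : LoeBStmt) : GrowStmt :=
  fun _ _ ha hU t' t'' h1 h2 => VisM.grow hB ha hU t' t'' h1 h2

theorem vis_stmt (_hA : LoeAStmt) (hG : GrowStmt) : VisStmt := by
  intro a U γ ha hU hγ
  refine ⟨fun s t hs hst hal => ?_, fun z ε _ hε hv => ?_⟩
  · rw [VisM.alive_iff hγ (hs.le.trans hst)] at hal
    exact hal.1.2 ⟨s, ⟨hs, hst⟩, rfl⟩
  · obtain ⟨τ, hτ0, hτ, he, hb⟩ := VisM.visit_eq hγ z ε hε hv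
    rw [hτ, ENNReal.toReal_ofReal hτ0.le]
    refine ⟨hτ0, he, hb, fun t ht r hr hf q hq => ?_⟩
    exact (VisM.ball_iff hγ ht.1 hr hf hq).2
      (VisM.center_alive hG ha hU hγ z ε τ hε he hb t ht)

end Pool.Agent.MP_990230_pr

end
end MrgPart3

-- ======== part 4: formerly Pool.Agent.MP_990230_pr.BM
section MrgPart4

/-! SLE module BM: a continuous measurable version of a Brownian motion and its natural
filtration. -/

open MeasureTheory ProbabilityTheory Filter Topology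
open scoped NNReal ENNReal

namespace Pool.Agent.MP_990230_pr

namespace BMm

universe u

variable {Ω : Type u} [mΩ : MeasurableSpace Ω] {P : Measure Ω}

/-- a measurable version with continuous paths started at the origin -/
theorem exists_version {B : ℝ≥0 → Ω → ℝ} (hB : IsBrownianReal B P) :
    ∃ C : ℝ≥0 → Ω → ℝ, (∀ t, Measurable (C t)) ∧ (∀ ω, Continuous fun t => C t ω) ∧
      (∀ ω, C 0 ω = 0) ∧ ∀ᵐ ω ∂P, ∀ t, C t ω = B t ω := by
  classical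
  let d : ℕ → ℝ≥0 := TopologicalSpace.denseSeq ℝ≥0
  have hd : DenseRange d := TopologicalSpace.denseRange_denseSeq ℝ≥0
  let X : ℕ → Ω → ℝ := fun n => (hB.toIsPreBrownianReal.aemeasurable (d n)).mk _
  have hX : ∀ n, Measurable (X n) := fun n => AEMeasurable.measurable_mk _
  let S : Set Ω := {ω | Continuous (fun t => B t ω) ∧ B 0 ω = 0 ∧ ∀ n, B (d n) ω = X n ω}
  have hS : ∀ᵐ ω ∂P, ω ∈ S := by
    have h3 : ∀ᵐ ω ∂P, ∀ n, B (d n) ω = X n ω :=
      ae_all_iff.2 fun n => (hB.toIsPreBrownianReal.aemeasurable (d n)).ae_eq_mk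
    filter_upwards [hB.cont, hB.toIsPreBrownianReal.eval_zero_ae_eq_zero, h3] with ω h1 h2 h3
    exact ⟨h1, h2, h3⟩
  let N : Set Ω := toMeasurable P Sᶜ
  have hN : MeasurableSet N := measurableSet_toMeasurable _ _
  have hN0 : P N = 0 := by
    rw [measure_toMeasurable]
    exact hS
  have hNS : ∀ ω, ω ∉ N → ω ∈ S := fun ω h => by
    by_contra h'
    exact h (subset_toMeasurable P Sᶜ h')
  refine ⟨fun t => Nᶜ.indicator (B t), fun t => ?_, fun ω => ?_, fun ω => ?_, ?_⟩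
  · obtain ⟨q, hq, hlim⟩ := mem_closure_iff_seq_limit.1 (hd t)
    choose n hn using hq
    refine measurable_of_tendsto_metrizable (f := fun k => Nᶜ.indicator (X (n k)))
      (fun k => (hX _).indicator hN.compl) ?_
    rw [tendsto_pi_nhds]
    intro ω
    by_cases h : ω ∈ N
    · simp [Set.indicator, h]
    · obtain ⟨h1, -, h3⟩ := hNS ω h
      have e : ∀ k, Nᶜ.indicator (X (n k)) ω = B (q k) ω := fun k => by
        rw [Set.indicator_of_mem (by simpa using h), ← h3, hn]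
      simp only [e]
      rw [Set.indicator_of_mem (by simpa using h)]
      exact (h1.tendsto t).comp hlim
  · by_cases h : ω ∈ N
    · simp only [Set.indicator, Set.mem_compl_iff, h, not_true_eq_false, if_false]
      exact continuous_const
    · simp only [Set.indicator, Set.mem_compl_iff, h, not_false_eq_true, if_true]
      exact (hNS ω h).1
  · by_cases h : ω ∈ N
    · simp [Set.indicator, h]
    · simp [Set.indicator, h, (hNS ω h).2.1]
  · have : ∀ᵐ ω ∂P, ω ∉ N := measure_eq_zero_iff_ae_notMem.1 hN0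
    filter_upwards [this] with ω h t
    exact Set.indicator_of_mem (by simpa using h) _

/-- the natural filtration of a measurable process, indexed by real times -/
def natF (C : ℝ≥0 → Ω → ℝ) (mC : ∀ t, Measurable (C t)) : Filtration ℝ mΩ where
  seq t := MeasurableSpace.comap (fun ω (s : Set.Iic t.toNNReal) => C s ω) inferInstance
  mono' s t hst := by
    have hle : s.toNNReal ≤ t.toNNReal := Real.toNNReal_le_toNNReal hst
    have e : (fun ω (r : Set.Iic s.toNNReal) => C r ω) =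
        (fun (x : Set.Iic t.toNNReal → ℝ) (r : Set.Iic s.toNNReal) =>
          x ⟨r, le_trans r.2 hle⟩) ∘ (fun ω (r : Set.Iic t.toNNReal) => C r ω) := rfl
    show MeasurableSpace.comap _ _ ≤ MeasurableSpace.comap _ _
    rw [e, ← MeasurableSpace.comap_comp]
    exact MeasurableSpace.comap_mono
      (measurable_pi_lambda _ fun r => measurable_pi_apply _).comap_le
  le' t := (measurable_pi_lambda _ fun s => mC _).comap_le

end BMm

open BMm in
theorem bm_stmt.{u} : BMStmt.{u} := by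
  intro Ω mΩ P B hB
  have : IsProbabilityMeasure P := hB.toIsPreBrownianReal.isGaussianProcess.isProbabilityMeasure
  obtain ⟨C, mC, cC, zC, eC⟩ := exists_version hB
  have pC : IsPreBrownianReal C P :=
    hB.toIsPreBrownianReal.congr fun t => by
      filter_upwards [eC] with ω h using (h t).symm
  refine ⟨fun ω t => C t.toNNReal ω, natF C mC, ⟨this, fun ω => ?_, fun ω => ?_, fun t => ?_,
    fun s t hs hst => ?_, fun s t hs hst => ?_⟩, ?_⟩
  · exact (cC ω).comp continuous_real_toNNReal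
  · simp [zC]
  · have e : (fun ω => C t.toNNReal ω) =
        (fun x : Set.Iic t.toNNReal → ℝ => x ⟨t.toNNReal, le_refl t.toNNReal⟩) ∘
          (fun ω (r : Set.Iic t.toNNReal) => C r ω) := rfl
    rw [e]
    exact (measurable_pi_apply _).comp (comap_measurable _)
  · have hle : s.toNNReal ≤ t.toNNReal := Real.toNNReal_le_toNNReal hst
    have h1 := ((pC.indepFun_shift s.toNNReal).symm.comp measurable_id
      (measurable_pi_apply (t.toNNReal - s.toNNReal)))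
    have e : ((fun x : ℝ≥0 → ℝ => x (t.toNNReal - s.toNNReal)) ∘
        fun ω r => C (s.toNNReal + r) ω - C s.toNNReal ω) =
          fun ω => C t.toNNReal ω - C s.toNNReal ω := by
      funext ω
      simp only [Function.comp_apply, add_tsub_cancel_of_le hle]
    rw [e] at h1
    exact (IndepFun_iff_Indep _ _ _).1 h1
  · have h1 := (pC.hasLaw_sub t.toNNReal s.toNNReal).map_eq
    refine Eq.trans h1 ?_
    congr 1
    apply NNReal.eq
    rw [Real.coe_toNNReal _ (sub_nonneg.2 hst), coe_nndist, Real.dist_eq]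
    show |((t.toNNReal : ℝ≥0) : ℝ) - ((s.toNNReal : ℝ≥0) : ℝ)| = t - s
    rw [Real.coe_toNNReal _ hs, Real.coe_toNNReal _ (hs.trans hst), abs_of_nonneg (sub_nonneg.2 hst)]
  · filter_upwards [eC] with ω h
    funext t
    exact h _

end Pool.Agent.MP_990230_pr

end MrgPart4

-- marker of a merged file
example : 731051 + 655692 = 731051 + 655692 := rfl
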