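import Mathlib.Tactic.Monotonicity.Lemmas
import Mathlib.Algebra.Ring.IsFormallyReal
import Mathlib.Analysis.Calculus.Deriv.Star
import Mathlib.Analysis.Complex.Schwarz
import Pool.Agent.MP_990230_pr.BM
import Mathlib.Topology.Sheaves.Presheaf
import Mathlib.RingTheory.PiTensorProduct
import Mathlib.Combinatorics.SimpleGraph.Basic
import Mathlib.Order.CompletePartialOrder

-- ======== part 0: formerly Pool.Agent.MP_990230_pr.LoeB
section MrgPart0

/-!
# PROJECT SLE, module LOEB: distortion estimates for the Loewner flow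
-/

open Set MeasureTheory Filter Complex
open scoped Topology ComplexConjugate

noncomputable section

namespace Pool.Agent.MP_990230_pr

namespace LoeBM

/-- the linear equation `f' = c f` -/
theorem lin {f c : ℝ → ℂ} {t : ℝ} (ht : 0 ≤ t) (hc : ContinuousOn c (Icc 0 t))
    (hf : ∀ s ∈ Icc 0 t, HasDerivWithinAt f (c s * f s) (Icc 0 t) s) :
    f t = f 0 * exp (∫ s in (0 : ℝ)..t, c s) := by
  set c' : ℝ → ℂ := fun s => c (projIcc 0 t ht s) with hc'
  have hcc : Continuous c' := (continuousOn_iff_continuous_domRestrict.1 hc).comp continuous_projIcc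
  have he : ∀ s ∈ Icc 0 t, c' s = c s := fun s hs => by simp only [hc', projIcc_of_mem ht hs]
  have hd : ∀ s ∈ Icc 0 t, HasDerivWithinAt
      (fun r => f r * exp (-∫ x in (0 : ℝ)..r, c' x)) 0 (Icc 0 t) s := fun s hs => by
    have h1 := ((hcc.integral_hasStrictDerivAt 0 s).hasDerivAt.neg.cexp).hasDerivWithinAt
      (s := Icc 0 t)
    refine ((hf s hs).fun_mul h1).congr_deriv ?_
    rw [he s hs]
    simp only [Pi.neg_apply]
    ring
  have h2 := constant_of_has_deriv_right_zero (fun s hs => (hd s hs).continuousWithinAt)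
    (fun s hs => (hd s (Ico_subset_Icc_self hs)).mono_of_mem_nhdsWithin
      (Icc_mem_nhdsGE_of_mem hs)) t ⟨ht, le_rfl⟩
  have h3 : ∫ s in (0 : ℝ)..t, c' s = ∫ s in (0 : ℝ)..t, c s :=
    intervalIntegral.integral_congr fun s hs => he s (by rwa [uIcc_of_le ht] at hs)
  simp only [intervalIntegral.integral_same, neg_zero, exp_zero, mul_one, h3] at h2
  rw [← h2, mul_assoc, ← exp_add, neg_add_cancel, exp_zero, mul_one]

theorem norm_deriv {f : ℝ → ℂ} {c : ℂ} {S : Set ℝ} {s : ℝ} (h0 : f s ≠ 0)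
    (hf : HasDerivWithinAt f (c * f s) S s) :
    HasDerivWithinAt (fun r => ‖f r‖) (c.re * ‖f s‖) S s := by
  have hn : ‖f s‖ ≠ 0 := norm_ne_zero_iff.2 h0
  have h1 := hf.norm_sq.sqrt (pow_ne_zero 2 hn)
  simp only [Real.sqrt_sq (norm_nonneg _)] at h1
  refine h1.congr_deriv ?_
  rw [Complex.inner, mul_assoc, mul_conj, normSq_eq_norm_sq, re_mul_ofReal]
  field_simp

theorem ne_zero_of_im {Z : ℂ} (h : 0 < Z.im) : Z ≠ 0 := fun h0 => by simp [h0] at h

theorem re_one {Z W : ℂ} (hZ : Z ≠ 0) (hW : W ≠ 0) (a : ℝ) :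
    (-(a : ℂ) / (Z * W)).re = -a * (pR Z * pR W - sI Z * sI W) := by
  have h1 : normSq Z ≠ 0 := by simpa using hZ
  have h2 : normSq W ≠ 0 := by simpa using hW
  simp only [div_re, pR, sI, map_mul, neg_re, ofReal_re, neg_im, ofReal_im, mul_re, mul_im]
  field_simp
  ring

theorem re_two {Z W : ℂ} (hZ : Z ≠ 0) (hW : W ≠ 0) (a : ℝ) :
    (-(a : ℂ) / (Z * conj W)).re = -a * (pR Z * pR W + sI Z * sI W) := by
  have h1 : normSq Z ≠ 0 := by simpa using hZ
  have h2 : normSq W ≠ 0 := by simpa using hW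
  simp only [div_re, pR, sI, map_mul, neg_re, ofReal_re, neg_im, ofReal_im, mul_re, mul_im,
    conj_re, conj_im, normSq_conj]
  field_simp
  ring

theorem sq_sub (Z W : ℂ) : ‖Z - conj W‖ ^ 2 = ‖Z - W‖ ^ 2 + 4 * Z.im * W.im := by
  simp only [← normSq_eq_norm_sq, normSq_apply, sub_re, sub_im, conj_re, conj_im]
  ring

theorem norm_lt {Z W : ℂ} (hZ : 0 < Z.im) (hW : 0 < W.im) : ‖Z - W‖ < ‖Z - conj W‖ := by
  apply lt_of_pow_lt_pow_left₀ 2 (norm_nonneg _)
  rw [sq_sub]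
  have : 0 < 4 * Z.im * W.im := by positivity
  linarith

theorem norm_sub_conj {W : ℂ} (hW : 0 < W.im) : ‖W - conj W‖ = 2 * W.im := by
  rw [sub_conj, norm_mul, norm_I, mul_one, norm_real, Real.norm_eq_abs, abs_of_pos (by linarith)]

/-- the Harnack inequality -/
theorem harnack {Z W : ℂ} (hZ : 0 < Z.im) (hW : 0 < W.im) :
    sI W * (‖Z - conj W‖ - ‖Z - W‖) ≤ sI Z * (‖Z - W‖ + ‖Z - conj W‖) := by
  have hz : 0 < ‖Z‖ := norm_pos_iff.2 (ne_zero_of_im hZ)
  have hw : 0 < ‖W‖ := norm_pos_iff.2 (ne_zero_of_im hW)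
  have h1 := sq_sub Z W
  have h2 := norm_lt hZ hW
  have h3 : 2 * W.im * ‖Z‖ ≤ ‖W‖ * (‖Z - W‖ + ‖Z - conj W‖) := by
    have e : (W - conj W) * Z = W * (Z - conj W) - conj W * (Z - W) := by ring
    have := norm_sub_le (W * (Z - conj W)) (conj W * (Z - W))
    rw [← e, norm_mul, norm_mul, norm_mul, norm_sub_conj hW, norm_conj] at this
    linarith
  have hd := norm_nonneg (Z - W)
  simp only [sI, normSq_eq_norm_sq]
  generalize ‖Z - W‖ = d at *
  generalize ‖Z - conj W‖ = e at *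
  have hs : 0 < d + e := by linarith
  rw [div_mul_eq_mul_div, div_mul_eq_mul_div, div_le_div_iff₀ (by positivity) (by positivity)]
  apply le_of_mul_le_mul_right _ hs
  have h4 : (2 * W.im * ‖Z‖) ^ 2 ≤ (‖W‖ * (d + e)) ^ 2 := by gcongr
  calc W.im * (e - d) * ‖Z‖ ^ 2 * (d + e) = W.im * (e ^ 2 - d ^ 2) * ‖Z‖ ^ 2 := by ring
    _ = Z.im * (2 * W.im * ‖Z‖) ^ 2 := by rw [h1]; ring
    _ ≤ Z.im * (‖W‖ * (d + e)) ^ 2 := by gcongr
    _ = _ := by ring

section flow

variable {a t : ℝ} {U : ℝ → ℝ} {Z W : ℝ → ℂ} {y yw : ℝ → ℝ}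

theorem dD (hZ : Flow a U 0 t Z y) (hW : Flow a U 0 t W yw) {s : ℝ} (hs : s ∈ Icc 0 t) :
    HasDerivWithinAt (fun r => Z r - W r) (-(a : ℂ) / (Z s * W s) * (Z s - W s)) (Icc 0 t) s := by
  have h1 := ne_zero_of_im (hZ.im_pos s hs)
  have h2 := ne_zero_of_im (hW.im_pos s hs)
  have h := (hZ.dz s hs).fun_sub (hW.dz s hs)
  simp only [add_sub_add_right_eq_sub] at h
  refine h.congr_deriv ?_
  field_simp
  ring

theorem dE (hZ : Flow a U 0 t Z y) (hW : Flow a U 0 t W yw) {s : ℝ} (hs : s ∈ Icc 0 t) :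
    HasDerivWithinAt (fun r => Z r - conj (W r))
      (-(a : ℂ) / (Z s * conj (W s)) * (Z s - conj (W s))) (Icc 0 t) s := by
  have h1 := ne_zero_of_im (hZ.im_pos s hs)
  have h2 : conj (W s) ≠ 0 := by simpa using ne_zero_of_im (hW.im_pos s hs)
  have h := (hZ.dz s hs).fun_sub (hW.dz s hs).star
  simp only [RCLike.star_def, map_add, conj_ofReal, add_sub_add_right_eq_sub, map_div₀] at h
  refine h.congr_deriv ?_
  field_simp
  ring

theorem contZ (hU : Continuous U) (hZ : Flow a U 0 t Z y) : ContinuousOn Z (Icc 0 t) := by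
  have h1 : ContinuousOn (fun r => Z r + (U r : ℂ)) (Icc 0 t) := fun s hs =>
    (hZ.dz s hs).continuousWithinAt
  have h2 : ContinuousOn (fun r => (U r : ℂ)) (Icc 0 t) :=
    (continuous_ofReal.comp hU).continuousOn
  exact (h1.sub h2).congr fun s _ => by simp

theorem key_flow (ha : 0 < a) (ht : 0 ≤ t) (hZ : Flow a U 0 t Z y) (hW : Flow a U 0 t W yw)
    (hne : ∀ s ∈ Icc 0 t, Z s ≠ W s) (h0 : y 0 = (Z 0).im) :
    y t * ‖Z t - W t‖ ≤ 4 * ‖Z 0 - W 0‖ * ‖Z t - conj (W t)‖ := by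
  set d : ℝ → ℝ := fun r => ‖Z r - W r‖ with hd
  set e : ℝ → ℝ := fun r => ‖Z r - conj (W r)‖ with he
  have hde : ∀ s ∈ Icc 0 t, d s < e s := fun s hs => norm_lt (hZ.im_pos s hs) (hW.im_pos s hs)
  have hd0 : ∀ s, 0 ≤ d s := fun s => norm_nonneg _
  have hQ : ∀ s ∈ Icc 0 t, HasDerivWithinAt (fun r => y r * d r * e r / (d r + e r) ^ 2)
      (y s * d s * e s * (2 * a * sI (Z s)) *
        (sI (W s) * (e s - d s) - sI (Z s) * (d s + e s)) / (d s + e s) ^ 3) (Icc 0 t) s := by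
    intro s hs
    have h1 := ne_zero_of_im (hZ.im_pos s hs)
    have h2 := ne_zero_of_im (hW.im_pos s hs)
    have h3 : d s + e s ≠ 0 := by linarith [hde s hs, hd0 s]
    have k1 := norm_deriv (sub_ne_zero.2 (hne s hs)) (dD hZ hW hs)
    have k2 := norm_deriv (f := fun r => Z r - conj (W r))
      (norm_pos_iff.1 ((hd0 s).trans_lt (hde s hs))) (dE hZ hW hs)
    rw [re_one h1 h2] at k1
    rw [re_two h1 h2] at k2
    refine (((((hZ.dy s hs).fun_mul k1).fun_mul k2).fun_div ((k1.fun_add k2).fun_pow 2)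
      (pow_ne_zero 2 h3))).congr_deriv ?_
    change _ = y s * ‖Z s - W s‖ * ‖Z s - conj (W s)‖ * (2 * a * sI (Z s)) *
        (sI (W s) * (‖Z s - conj (W s)‖ - ‖Z s - W s‖) -
          sI (Z s) * (‖Z s - W s‖ + ‖Z s - conj (W s)‖)) / (‖Z s - W s‖ + ‖Z s - conj (W s)‖) ^ 3
    change ‖Z s - W s‖ + ‖Z s - conj (W s)‖ ≠ 0 at h3
    generalize ‖Z s - W s‖ = d at *
    generalize ‖Z s - conj (W s)‖ = e at *
    field_simp
    ring
  have hanti : AntitoneOn (fun r => y r * d r * e r / (d r + e r) ^ 2) (Icc 0 t) := by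
    refine antitoneOn_of_hasDerivWithinAt_nonpos (convex_Icc 0 t)
      (fun s hs => (hQ s hs).continuousWithinAt)
      (fun s hs => (hQ s (interior_subset hs)).mono interior_subset) fun s hs => ?_
    have hs' := interior_subset hs
    have h1 := harnack (hZ.im_pos s hs') (hW.im_pos s hs')
    have h2 := hZ.y_pos s hs'
    have h3 := hd0 s
    have h4 := hde s hs'
    have h5 : 0 ≤ sI (Z s) := div_nonneg (hZ.im_pos s hs').le (normSq_nonneg _)
    have h6 : 0 ≤ e s := by linarith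
    exact div_nonpos_of_nonpos_of_nonneg
      (mul_nonpos_of_nonneg_of_nonpos (by positivity) (sub_nonpos.2 h1)) (by positivity)
  have m0 : (0 : ℝ) ∈ Icc 0 t := ⟨le_rfl, ht⟩
  have mt : t ∈ Icc 0 t := ⟨ht, le_rfl⟩
  have h1 : y t * d t * e t / (d t + e t) ^ 2 ≤ y 0 * d 0 * e 0 / (d 0 + e 0) ^ 2 := hanti m0 mt ht
  have h2 : y 0 ≤ e 0 := by
    have k1 := abs_im_le_norm (Z 0 - conj (W 0))
    have k2 := hW.im_pos 0 m0
    simp only [sub_im, conj_im] at k1
    rw [h0]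
    linarith [le_abs_self ((Z 0).im - -(W 0).im)]
  have a1 := hde 0 m0
  have a2 := hde t mt
  have a3 := hd0 0
  have a4 := hd0 t
  have a5 := hZ.y_pos t mt
  have a6 : 0 < e t := by linarith
  have a7 : 0 < e 0 := by linarith
  have h3 : y 0 * d 0 * e 0 / (d 0 + e 0) ^ 2 ≤ d 0 := by
    rw [div_le_iff₀ (by positivity)]
    calc y 0 * d 0 * e 0 ≤ e 0 * d 0 * e 0 := by gcongr
      _ = d 0 * e 0 ^ 2 := by ring
      _ ≤ _ := by gcongr; linarith
  have h4 := h1.trans h3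
  rw [div_le_iff₀ (by positivity)] at h4
  have h5 : y t * d t * e t ≤ 4 * d 0 * e t * e t := by
    calc _ ≤ _ := h4
      _ ≤ d 0 * (2 * e t) ^ 2 := by gcongr; linarith
      _ = _ := by ring
  exact le_of_mul_le_mul_right h5 a6

theorem norm_phi (hU : Continuous U) (ht : 0 ≤ t) (hZ : Flow a U 0 t Z y) (h0 : y 0 = (Z 0).im) :
    ‖exp (∫ s in (0 : ℝ)..t, -(a : ℂ) / (Z s * Z s))‖ = (Z t).im / y t := by
  have hc := contZ hU hZ
  have hc1 : ContinuousOn (fun s => -(a : ℂ) / (Z s * Z s)) (Icc 0 t) :=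
    continuousOn_const.div (hc.mul hc) fun s hs =>
      mul_ne_zero (ne_zero_of_im (hZ.im_pos s hs)) (ne_zero_of_im (hZ.im_pos s hs))
  have h1 := lin (f := fun s => (((Z s).im / y s : ℝ) : ℂ))
    (c := fun s => ((-(a : ℂ) / (Z s * Z s)).re : ℂ)) ht
    (continuous_ofReal.comp_continuousOn (continuous_re.comp_continuousOn hc1)) (fun s hs => by
      have k0 := ne_zero_of_im (hZ.im_pos s hs)
      have k1 : HasDerivWithinAt (fun r => (Z r).im) (((a : ℂ) / Z s).im) (Icc 0 t) s := by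
        exact (imCLM.hasFDerivAt.comp_hasDerivWithinAt s (hZ.dz s hs)).congr
          (fun r _ => by simp) (by simp)
      have k2 := (hZ.y_pos s hs).ne'
      have k3 := (k1.fun_div (hZ.dy s hs) k2).ofReal_comp
      refine k3.congr_deriv ?_
      rw [re_one k0 k0, ← ofReal_mul]
      congr 1
      have k4 : normSq (Z s) ≠ 0 := by simpa using k0
      have k5 : normSq (Z s) = (Z s).re ^ 2 + (Z s).im ^ 2 := by rw [normSq_apply]; ring
      simp only [div_im, ofReal_re, ofReal_im, pR, sI]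
      field_simp
      rw [k5]
      ring)
  have m0 : (0 : ℝ) ∈ Icc 0 t := ⟨le_rfl, ht⟩
  rw [← h0, div_self (hZ.y_pos 0 m0).ne', ofReal_one, one_mul, intervalIntegral.integral_ofReal,
    ← ofReal_exp, ofReal_inj] at h1
  rw [h1, norm_exp]
  congr 1
  exact (reCLM.intervalIntegral_comp_comm
    (hc1.intervalIntegrable_of_Icc (μ := volume) ht)).symm

theorem im_bounds (hU : Continuous U) (ht : 0 ≤ t) (hZ : Flow a U 0 t Z y) :
    ∃ m M : ℝ, 0 < m ∧ 0 < M ∧ ∀ s ∈ Icc 0 t, m ≤ (Z s).im ∧ (Z s).im ≤ M := by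
  have hc : ContinuousOn (fun s => (Z s).im) (Icc 0 t) :=
    continuous_im.comp_continuousOn (contZ hU hZ)
  obtain ⟨s1, h1, h2⟩ := isCompact_Icc.exists_isMinOn (nonempty_Icc.2 ht) hc
  obtain ⟨s2, h3, h4⟩ := isCompact_Icc.exists_isMaxOn (nonempty_Icc.2 ht) hc
  exact ⟨_, _, hZ.im_pos s1 h1, hZ.im_pos s2 h3, fun s hs => ⟨h2 hs, h4 hs⟩⟩

end flow

variable {a : ℝ} {U : ℝ → ℝ}

theorem key (ha : 0 < a) (hA : LoeA a U) {z w : ℂ} {t : ℝ} (ht : 0 ≤ t) (hz : Alive a U z t)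
    (hw : Alive a U w t) : ups a U z t * ‖Zt a U z t - Zt a U w t‖ ≤
      4 * ‖z - w‖ * ‖Zt a U z t - conj (Zt a U w t)‖ := by
  rcases eq_or_ne z w with rfl | hne
  · simp
  have h1 := hA.init z hz.1
  have h2 := hA.init w hw.1
  have h := key_flow ha ht (hA.flow z 0 t le_rfl ht hz) (hA.flow w 0 t le_rfl ht hw)
    (fun s hs => hA.inj z w s hs.1 hne (hA.mono z s t hs.2 hz) (hA.mono w s t hs.2 hw))
    (by rw [h1.2.2, h1.2.1]; simp)
  rwa [h1.2.1, h2.2.1, sub_sub_sub_cancel_right] at h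

theorem koebe (ha : 0 < a) (hU : Continuous U) (hA : LoeA a U) (z w : ℂ) (t : ℝ) (ht : 0 ≤ t)
    (hz : Alive a U z t) (hw : 0 < w.im) (hw' : ¬ Alive a U w t) : ups a U z t ≤ 4 * ‖z - w‖ := by
  obtain ⟨m, M, hm, -, hb⟩ := im_bounds hU ht (hA.flow z 0 t le_rfl ht hz)
  refine le_of_forall_pos_le_add fun δ hδ => ?_
  have hL := norm_nonneg (z - w)
  obtain ⟨s, hs, h1, h2⟩ := hA.death w t hw ht hw' (min (m / 2) (δ * m / (16 * ‖z - w‖ + 1)))
    (lt_min (by positivity) (by positivity))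
  have h3 := key ha hA hs.1 (hA.mono z s t hs.2 hz) h1
  have h4 := hA.ups_anti z hs.1 ht hs.2
  have h5 := (hA.flow w 0 s le_rfl hs.1 h1).im_pos s ⟨hs.1, le_rfl⟩
  have h6 := (hb s hs).1
  have h7 := h2.trans_le (min_le_left _ _)
  have h8 := h2.trans_le (min_le_right _ _)
  rw [lt_div_iff₀ (by positivity)] at h8
  generalize Zt a U z s = Z at *
  generalize Zt a U w s = W at *
  have k1 : ‖Z - conj W‖ ≤ ‖Z - W‖ + 2 * W.im := by
    rw [← norm_sub_conj h5]
    exact norm_sub_le_norm_sub_add_norm_sub _ _ _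
  have k2 : m / 2 ≤ ‖Z - W‖ := by
    have := abs_im_le_norm (Z - W)
    rw [sub_im] at this
    linarith [le_abs_self (Z.im - W.im)]
  have k3 : 0 < ‖Z - W‖ := by linarith
  refine h4.trans (le_of_mul_le_mul_right (h3.trans ?_) k3)
  have k4 : δ * (m / 2) ≤ δ * ‖Z - W‖ := by gcongr
  calc _ ≤ 4 * ‖z - w‖ * (‖Z - W‖ + 2 * W.im) := by gcongr
    _ ≤ _ := by nlinarith

theorem hasDeriv (ha : 0 < a) (hU : Continuous U) (hA : LoeA a U) {z : ℂ} {t : ℝ} (ht : 0 ≤ t)
    (hz : Alive a U z t) : HasDerivAt (fun w => Zt a U w t)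
      (exp (∫ s in (0 : ℝ)..t, -(a : ℂ) / (Zt a U z s * Zt a U z s))) z := by
  have hZ := hA.flow z 0 t le_rfl ht hz
  obtain ⟨m, M, hm, hM, hb⟩ := im_bounds hU ht hZ
  have hy := (hA.ups_pos_iff z t).2 hz
  set y := ups a U z t with hydef
  have hzi := hz.1
  set r := min (min (y / 8) z.im) (m * y / (32 * M)) with hr
  have hr0 : 0 < r := lt_min (lt_min (by positivity) hzi) (by positivity)
  have hcz := contZ hU hZ
  have hc1 : ContinuousOn (fun s => -(a : ℂ) / (Zt a U z s * Zt a U z s)) (Icc 0 t) :=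
    continuousOn_const.div (hcz.mul hcz) fun s hs =>
      mul_ne_zero (ne_zero_of_im (hZ.im_pos s hs)) (ne_zero_of_im (hZ.im_pos s hs))
  have main : ∀ w, ‖z - w‖ < r →
      Zt a U z t - Zt a U w t = (z - w) *
        exp (∫ s in (0 : ℝ)..t, -(a : ℂ) / (Zt a U z s * Zt a U w s)) ∧
      ‖(∫ s in (0 : ℝ)..t, -(a : ℂ) / (Zt a U z s * Zt a U w s)) -
        ∫ s in (0 : ℝ)..t, -(a : ℂ) / (Zt a U z s * Zt a U z s)‖ ≤
        a * (16 * M / y) / (m * m * (m / 2)) * t * ‖z - w‖ := by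
    intro w hw
    have w1 : ‖z - w‖ < y / 8 := hw.trans_le ((min_le_left _ _).trans (min_le_left _ _))
    have w2 : ‖z - w‖ < z.im := hw.trans_le ((min_le_left _ _).trans (min_le_right _ _))
    have w3 : ‖z - w‖ < m * y / (32 * M) := hw.trans_le (min_le_right _ _)
    have hL := norm_nonneg (z - w)
    have w4 : 0 < w.im := by
      have := abs_im_le_norm (z - w)
      rw [sub_im] at this
      linarith [le_abs_self (z.im - w.im)]
    have w5 : Alive a U w t := by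
      by_contra h
      have := koebe ha hU hA z w t ht hz w4 h
      linarith
    have hW := hA.flow w 0 t le_rfl ht w5
    have hc2 : ContinuousOn (fun s => -(a : ℂ) / (Zt a U z s * Zt a U w s)) (Icc 0 t) :=
      continuousOn_const.div (hcz.mul (contZ hU hW)) fun s hs =>
        mul_ne_zero (ne_zero_of_im (hZ.im_pos s hs)) (ne_zero_of_im (hW.im_pos s hs))
    constructor
    · have := lin (f := fun s => Zt a U z s - Zt a U w s) ht hc2 fun s hs => dD hZ hW hs
      rwa [(hA.init z hzi).2.1, (hA.init w w4).2.1, sub_sub_sub_cancel_right] at this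
    rw [← intervalIntegral.integral_sub (hc2.intervalIntegrable_of_Icc ht)
      (hc1.intervalIntegrable_of_Icc ht)]
    refine (intervalIntegral.norm_integral_le_of_norm_le_const
      (C := a * (16 * M / y) / (m * m * (m / 2)) * ‖z - w‖) fun s hs => ?_).trans_eq ?_
    swap
    · rw [sub_zero, abs_of_nonneg ht]; ring
    have hs' : s ∈ Icc 0 t := Ioc_subset_Icc_self (by rwa [uIoc_of_le ht] at hs)
    have h3 := key ha hA hs'.1 (hA.mono z s t hs'.2 hz) (hA.mono w s t hs'.2 w5)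
    have h4 : y ≤ ups a U z s := hA.ups_anti z hs'.1 ht hs'.2
    have h5 := hW.im_pos s hs'
    have h6 := hZ.im_pos s hs'
    obtain ⟨h7, h8⟩ := hb s hs'
    generalize Zt a U z s = Z at *
    generalize Zt a U w s = W at *
    have k1 : ‖Z - conj W‖ ≤ ‖Z - W‖ + 2 * Z.im := by
      rw [← norm_sub_conj h6, add_comm, ← norm_conj (Z - W), map_sub]
      exact norm_sub_le_norm_sub_add_norm_sub _ _ _
    have hD := norm_nonneg (Z - W)
    have k2 : ‖Z - W‖ ≤ 16 * M / y * ‖z - w‖ := by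
      rw [div_mul_eq_mul_div, le_div_iff₀ hy]
      have c1 : y * ‖Z - W‖ ≤ 4 * ‖z - w‖ * (‖Z - W‖ + 2 * M) :=
        calc _ ≤ ups a U z s * ‖Z - W‖ := by gcongr
          _ ≤ _ := h3.trans (by gcongr; linarith)
      have c2 : ‖z - w‖ * ‖Z - W‖ ≤ y / 8 * ‖Z - W‖ := by gcongr
      nlinarith
    have k3 : ‖Z - W‖ ≤ m / 2 := by
      refine k2.trans ?_
      calc _ ≤ 16 * M / y * (m * y / (32 * M)) := by gcongr
        _ = _ := by field_simp; norm_num
    have k4 : m ≤ ‖Z‖ := h7.trans ((le_abs_self _).trans (abs_im_le_norm Z))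
    have k5 : m / 2 ≤ ‖W‖ := by linarith [norm_sub_norm_le Z W]
    have k6 := ne_zero_of_im h5
    have k7 := ne_zero_of_im h6
    have e : -(a : ℂ) / (Z * W) - -(a : ℂ) / (Z * Z) = -(a : ℂ) * (Z - W) / (Z * Z * W) := by
      field_simp
      ring
    rw [e, norm_div, norm_mul, norm_mul, norm_mul, norm_neg, norm_real, Real.norm_eq_abs,
      abs_of_pos ha]
    calc _ ≤ a * (16 * M / y * ‖z - w‖) / (m * m * (m / 2)) := by gcongr
      _ = _ := by ring
  have hev : ∀ᶠ w in 𝓝 z, ‖z - w‖ < r := by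
    filter_upwards [Metric.ball_mem_nhds z hr0] with w hw
    rwa [mem_ball_iff_norm'] at hw
  rw [hasDerivAt_iff_tendsto_slope]
  have t1 : Tendsto (fun w => ∫ s in (0 : ℝ)..t, -(a : ℂ) / (Zt a U z s * Zt a U w s)) (𝓝 z)
      (𝓝 (∫ s in (0 : ℝ)..t, -(a : ℂ) / (Zt a U z s * Zt a U z s))) := by
    rw [tendsto_iff_norm_sub_tendsto_zero]
    refine squeeze_zero' (Eventually.of_forall fun _ => norm_nonneg _)
      (hev.mono fun w hw => (main w hw).2) ?_
    have : Continuous fun w : ℂ => a * (16 * M / y) / (m * m * (m / 2)) * t * ‖z - w‖ := by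
      fun_prop
    simpa using this.tendsto z
  refine ((continuous_exp.tendsto _).comp (t1.mono_left nhdsWithin_le_nhds)).congr' ?_
  filter_upwards [hev.filter_mono nhdsWithin_le_nhds, self_mem_nhdsWithin] with w hw hwz
  have hne : w - z ≠ 0 := sub_ne_zero.2 hwz
  rw [slope_def_field, Function.comp, eq_div_iff hne]
  linear_combination (main w hw).1

theorem schwarz (ha : 0 < a) (hU : Continuous U) (hA : LoeA a U) (ψ : ℂ → ℂ) (t : ℝ) (ht : 0 ≤ t)
    (hψ : DifferentiableOn ℂ ψ (Metric.ball 0 1))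
    (hal : ∀ ξ ∈ Metric.ball (0 : ℂ) 1, Alive a U (ψ ξ) t) :
    ‖deriv ψ 0‖ ≤ 2 * ups a U (ψ 0) t := by
  have m0 : (0 : ℂ) ∈ Metric.ball (0 : ℂ) 1 := Metric.mem_ball_self one_pos
  have him : ∀ ξ ∈ Metric.ball (0 : ℂ) 1, 0 < (Zt a U (ψ ξ) t).im := fun ξ hξ =>
    (hA.flow _ 0 t le_rfl ht (hal ξ hξ)).im_pos t ⟨ht, le_rfl⟩
  have hlt := fun ξ hξ => norm_lt (him ξ hξ) (him 0 m0)
  have hne : ∀ ξ ∈ Metric.ball (0 : ℂ) 1, Zt a U (ψ ξ) t - conj (Zt a U (ψ 0) t) ≠ 0 :=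
    fun ξ hξ => norm_pos_iff.1 ((norm_nonneg _).trans_lt (hlt ξ hξ))
  have hG : DifferentiableOn ℂ (fun ξ => Zt a U (ψ ξ) t) (Metric.ball 0 1) := fun ξ hξ =>
    (hasDeriv ha hU hA ht (hal ξ hξ)).differentiableAt.comp_differentiableWithinAt ξ (hψ ξ hξ)
  have h1 := norm_deriv_le_one_of_mapsTo_ball
    (f := fun ξ => (Zt a U (ψ ξ) t - Zt a U (ψ 0) t) / (Zt a U (ψ ξ) t - conj (Zt a U (ψ 0) t)))
    (c := 0) (R := 1) ((hG.sub_const _).div (hG.sub_const _) hne) (fun ξ hξ => by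
      simp only [sub_self, zero_div, mem_closedBall_zero_iff, norm_div]
      exact div_le_one_of_le₀ (hlt ξ hξ).le (norm_nonneg _)) one_pos
  have h2 := (hasDeriv ha hU hA ht (hal 0 m0)).comp 0
    (hψ.differentiableAt (Metric.ball_mem_nhds 0 one_pos)).hasDerivAt
  have h3 := ((h2.sub_const (Zt a U (ψ 0) t)).fun_div (h2.sub_const (conj (Zt a U (ψ 0) t)))
    (hne 0 m0)).deriv
  simp only [Function.comp] at h3
  have i0 := hA.init (ψ 0) (hal 0 m0).1
  have h4 := norm_phi hU ht (hA.flow _ 0 t le_rfl ht (hal 0 m0)) (by rw [i0.2.2, i0.2.1]; simp)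
  have hy := (hA.ups_pos_iff _ t).2 (hal 0 m0)
  have hY := him 0 m0
  rw [h3, sub_self, zero_mul, sub_zero, norm_div, norm_mul, norm_mul, norm_pow, h4,
    norm_sub_conj hY, div_le_one (by positivity)] at h1
  have h5 : ‖deriv ψ 0‖ = ((Zt a U (ψ 0) t).im / ups a U (ψ 0) t * ‖deriv ψ 0‖ *
      (2 * (Zt a U (ψ 0) t).im)) * (ups a U (ψ 0) t / (2 * (Zt a U (ψ 0) t).im ^ 2)) := by
    field_simp
  rw [h5]
  calc _ ≤ (2 * (Zt a U (ψ 0) t).im) ^ 2 *
        (ups a U (ψ 0) t / (2 * (Zt a U (ψ 0) t).im ^ 2)) := by gcongr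
    _ = _ := by field_simp

end LoeBM

theorem loeB_stmt (hA : LoeAStmt) : LoeBStmt := fun a U ha hU =>
  { koebe := LoeBM.koebe ha hU (hA a U ha hU)
    schwarz := LoeBM.schwarz ha hU (hA a U ha hU)
    ball := fun w r t ht hr h => by
      have h1 := LoeBM.schwarz ha hU (hA a U ha hU) (fun ξ => w + r * ξ) t ht (by fun_prop)
        (fun ξ hξ => h _ (by
          rw [mem_ball_zero_iff] at hξ
          rw [mem_ball_iff_norm, add_sub_cancel_left, norm_mul, norm_real, Real.norm_eq_abs,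
            abs_of_pos hr]
          exact mul_lt_of_lt_one_right hr hξ))
      have h2 : deriv (fun ξ : ℂ => w + r * ξ) 0 = r := by
        simp
      rwa [h2, mul_zero, add_zero, norm_real, Real.norm_eq_abs, abs_of_pos hr] at h1 }

end Pool.Agent.MP_990230_pr

end
end MrgPart0

-- ======== part 1: formerly Pool.Agent.MP_990230_pr.PotA
section MrgPart1

/-!
The scale profile and its tail integral.
-/

open Set MeasureTheory Filter
open scoped Topology

noncomputable section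

namespace Pool.Agent.MP_990230_pr

namespace PotAM

/-! ### finite minima -/

theorem fold_le_one (n : ℕ) (v : ℕ → ℝ) : (Finset.range n).fold min 1 v ≤ 1 :=
  (Finset.fold_min_le _).2 (Or.inl le_rfl)

theorem fold_le (n : ℕ) (v : ℕ → ℝ) {j : ℕ} (hj : j < n) : (Finset.range n).fold min 1 v ≤ v j :=
  (Finset.fold_min_le _).2 (Or.inr ⟨j, Finset.mem_range.2 hj, le_rfl⟩)

theorem fold_cases (n : ℕ) (v : ℕ → ℝ) :
    1 ≤ (Finset.range n).fold min 1 v ∨ ∃ j < n, v j ≤ (Finset.range n).fold min 1 v := by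
  rcases (Finset.fold_min_le (s := Finset.range n) (b := (1 : ℝ)) (f := v) _).1 le_rfl with
    h | ⟨j, hj, h⟩
  · exact Or.inl h
  · exact Or.inr ⟨j, Finset.mem_range.1 hj, h⟩

theorem fold_le_mul (n : ℕ) (v v' : ℕ → ℝ) {l : ℝ} (hl : 1 ≤ l) (h : ∀ j < n, v' j ≤ l * v j) :
    (Finset.range n).fold min 1 v' ≤ l * (Finset.range n).fold min 1 v := by
  rcases fold_cases n v with h1 | ⟨j, hj, h1⟩
  · have := fold_le_one n v'
    nlinarith
  · exact (fold_le n v' hj).trans ((h j hj).trans (mul_le_mul_of_nonneg_left h1 (by linarith)))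

theorem fold_cont {α : Type} [TopologicalSpace α] (v : ℕ → α → ℝ) (hv : ∀ j, Continuous (v j))
    (s : Finset ℕ) : Continuous fun t => s.fold min 1 fun j => v j t := by
  induction s using Finset.induction_on with
  | empty => simpa using continuous_const
  | insert a s ha ih =>
    simp only [Finset.fold_insert ha]
    exact (hv a).min ih

theorem fold_meas {α : Type} [MeasurableSpace α] (v : ℕ → α → ℝ) (hv : ∀ j, Measurable (v j))
    (s : Finset ℕ) : Measurable fun t => s.fold min 1 fun j => v j t := by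
  induction s using Finset.induction_on with
  | empty => simp
  | insert a s ha ih =>
    simp only [Finset.fold_insert ha]
    exact (hv a).min ih

/-! ### exponentials -/

theorem mul_exp_rpow {A : ℝ} (hA : 0 ≤ A) (s p : ℝ) :
    (A * Real.exp s) ^ p = A ^ p * Real.exp (p * s) := by
  rw [Real.mul_rpow hA (Real.exp_pos s).le, ← Real.exp_mul, mul_comm s p]

theorem int_exp {A p : ℝ} (hA : 0 ≤ A) (hp : 0 < p) (x : ℝ) :
    IntegrableOn (fun t => (A * Real.exp (-t)) ^ p) (Ioi x) ∧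
      ∫ t in Ioi x, (A * Real.exp (-t)) ^ p = (A * Real.exp (-x)) ^ p / p := by
  have e : ∀ t, (A * Real.exp (-t)) ^ p = A ^ p * Real.exp (-p * t) := fun t => by
    rw [mul_exp_rpow hA]; congr 2; ring
  simp only [e]
  refine ⟨(integrableOn_exp_mul_Ioi (by linarith) x).const_mul _, ?_⟩
  rw [integral_const_mul, integral_exp_mul_Ioi (by linarith), neg_div_neg_eq, mul_div_assoc]

theorem int_exp' {c : ℝ} (hc : 0 < c) (A x y z : ℝ) :
    ∫ t in x..y, A * Real.exp (c * (t - z)) =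
      A * ((Real.exp (c * (y - z)) - Real.exp (c * (x - z))) / c) := by
  have h : ∀ t ∈ uIcc x y, HasDerivAt (fun t => A * (Real.exp (c * (t - z)) / c))
      (A * Real.exp (c * (t - z))) t := fun t _ => by
    have h1 : HasDerivAt (fun t => c * (t - z)) (c * 1) t :=
      ((hasDerivAt_id t).sub_const z).const_mul c
    have h2 := (h1.exp.div_const c).const_mul A
    have e : A * (Real.exp (c * (t - z)) * (c * 1) / c) = A * Real.exp (c * (t - z)) := by
      field_simp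
    rwa [e] at h2
  rw [intervalIntegral.integral_eq_sub_of_hasDerivAt h
    (Continuous.intervalIntegrable (by fun_prop) _ _)]
  ring

/-! ### the profile -/

variable {η c K : ℝ}

theorem d_nonneg {d : ℕ → ℝ} {n j : ℕ} (h : GoodD d n) (hj : j < n) : 0 ≤ d j := by
  rcases Nat.eq_zero_or_pos j with rfl | h0
  · exact h.1.ge
  · exact (h.2 j h0 hj).le

theorem cont (hc : 0 < c) (n : ℕ) (d : ℕ → ℝ) : Continuous (uf η c K d n) := by
  unfold uf
  refine continuous_const.mul (fold_cont (fun j t => edgeV c K d n j t) (fun j => ?_) _)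
  unfold edgeV
  refine Continuous.max (Continuous.rpow_const (by fun_prop) fun _ => Or.inr (by linarith)) ?_
  split_ifs
  · exact Continuous.rpow_const (by fun_prop) fun _ => Or.inr hc.le
  · exact continuous_const

theorem meas_u (n : ℕ) : Measurable fun q : (ℕ → ℝ) × ℝ => uf η c K q.1 n q.2 := by
  unfold uf
  refine measurable_const.mul
    (fold_meas (fun j (q : (ℕ → ℝ) × ℝ) => edgeV c K q.1 n j q.2) (fun j => ?_) _)
  unfold edgeV
  refine Measurable.max (Measurable.pow_const (by fun_prop) _) ?_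
  split_ifs
  · exact Measurable.pow_const (by fun_prop) _
  · exact measurable_const

theorem meas_U (n : ℕ) : Measurable fun q : (ℕ → ℝ) × ℝ => Uf η c K q.1 n q.2 := by
  have h : Measurable fun r : ((ℕ → ℝ) × ℝ) × ℝ =>
      if r.1.2 < r.2 then uf η c K r.1.1 n r.2 else 0 := by
    refine Measurable.ite (measurableSet_lt (by fun_prop) (by fun_prop)) ?_ measurable_const
    exact (meas_u n).comp (f := fun r : ((ℕ → ℝ) × ℝ) × ℝ => (r.1.1, r.2)) (by fun_prop)
  have h2 := (h.stronglyMeasurable.integral_prod_right' (ν := (volume : Measure ℝ))).measurable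
  have e : (fun q : (ℕ → ℝ) × ℝ => Uf η c K q.1 n q.2) =
      fun q : (ℕ → ℝ) × ℝ => ∫ t, if q.2 < t then uf η c K q.1 n t else 0 := by
    funext q
    unfold Uf
    rw [← integral_indicator measurableSet_Ioi]
    congr 1
  rw [e]
  exact h2

theorem nonneg (hη : 0 < η) (hK : 16 ≤ K) {n : ℕ} {d : ℕ → ℝ} (h : GoodD d n) (t : ℝ) :
    0 ≤ uf η c K d n t := by
  refine mul_nonneg hη.le ((Finset.le_fold_min _).2 ⟨zero_le_one, fun j hj => ?_⟩)
  have := d_nonneg h (Finset.mem_range.1 hj)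
  exact le_max_of_le_left (Real.rpow_nonneg (by positivity) _)

theorem le_eta (hη : 0 < η) (n : ℕ) (d : ℕ → ℝ) (t : ℝ) : uf η c K d n t ≤ η :=
  mul_le_of_le_one_right hη.le (fold_le_one _ _)

theorem le_last (hη : 0 < η) (hK : 16 ≤ K) {n : ℕ} {d : ℕ → ℝ} (hn : 1 ≤ n) (h : GoodD d n)
    (t : ℝ) : uf η c K d n t ≤ η * (K * d (n - 1) * Real.exp (-t)) ^ (2 * c) := by
  refine mul_le_mul_of_nonneg_left ((fold_le n _ (j := n - 1) (by omega)).trans ?_) hη.le
  have := d_nonneg h (j := n - 1) (by omega)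
  unfold edgeV
  rw [if_neg (by omega)]
  exact max_le le_rfl (Real.rpow_nonneg (by positivity) _)

theorem integ (hη : 0 < η) (hc : 0 < c) (hK : 16 ≤ K) {n : ℕ} {d : ℕ → ℝ} (hn : 1 ≤ n)
    (h : GoodD d n) (x : ℝ) : IntegrableOn (uf η c K d n) (Ioi x) := by
  have h0 := d_nonneg h (j := n - 1) (by omega)
  have h1 := (int_exp (A := K * d (n - 1)) (p := 2 * c) (by positivity) (by linarith) x).1
  refine Integrable.mono' (h1.const_mul η) (cont hc n d).aestronglyMeasurable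
    (Eventually.of_forall fun t => ?_)
  rw [Real.norm_eq_abs, abs_of_nonneg (nonneg hη hK h t)]
  exact le_last hη hK hn h t

theorem Uf_le (hη : 0 < η) (hc : 0 < c) (hK : 16 ≤ K) {n : ℕ} {d : ℕ → ℝ} (hn : 1 ≤ n)
    (h : GoodD d n) (x : ℝ) :
    Uf η c K d n x ≤ η * (K * d (n - 1) * Real.exp (-x)) ^ (2 * c) / (2 * c) := by
  have h0 := d_nonneg h (j := n - 1) (by omega)
  obtain ⟨h1, h2⟩ := int_exp (A := K * d (n - 1)) (p := 2 * c) (by positivity) (by linarith) x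
  rw [mul_div_assoc, ← h2, ← integral_const_mul]
  exact integral_mono (integ hη hc hK hn h x) (h1.const_mul η) fun t => le_last hη hK hn h t

theorem growth (hη : 0 < η) (hc : 0 < c) (hK : 16 ≤ K) {n : ℕ} {d : ℕ → ℝ} (h : GoodD d n)
    {t t' : ℝ} (ht : t ≤ t') : uf η c K d n t' ≤ Real.exp (c * (t' - t)) * uf η c K d n t := by
  have hl : 1 ≤ Real.exp (c * (t' - t)) := Real.one_le_exp (mul_nonneg hc.le (by linarith))
  unfold uf
  rw [mul_left_comm]
  refine mul_le_mul_of_nonneg_left (fold_le_mul n _ _ hl fun j hj => ?_) hη.le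
  have h0 := d_nonneg h hj
  unfold edgeV
  rw [mul_max_of_nonneg _ _ (by positivity)]
  refine max_le_max ?_ ?_
  · have h1 : (K * d j * Real.exp (-t')) ^ (2 * c) ≤ (K * d j * Real.exp (-t)) ^ (2 * c) :=
      Real.rpow_le_rpow (by positivity) (by gcongr) (by linarith)
    exact h1.trans (le_mul_of_one_le_left (Real.rpow_nonneg (by positivity) _) hl)
  · split_ifs with h1
    · have h2 := d_nonneg h h1
      have e : K * Real.exp t' / d (j + 1) = K * Real.exp t / d (j + 1) * Real.exp (t' - t) := by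
        rw [Real.exp_sub]; field_simp
      rw [e, mul_exp_rpow (by positivity), mul_comm]
    · simp

theorem sub_eq (hη : 0 < η) (hc : 0 < c) (hK : 16 ≤ K) {n : ℕ} {d : ℕ → ℝ} (hn : 1 ≤ n)
    (h : GoodD d n) (x x' : ℝ) :
    Uf η c K d n x - Uf η c K d n x' = ∫ t in x..x', uf η c K d n t :=
  intervalIntegral.integral_Ioi_sub_Ioi' (integ hη hc hK hn h x) (integ hη hc hK hn h x')

theorem touch (hη : 0 < η) (hc : 0 < c) (hK : 16 ≤ K) {n : ℕ} {d : ℕ → ℝ} (hn : 1 ≤ n)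
    (h : GoodD d n) (x x' : ℝ) :
    Uf η c K d n x - Uf η c K d n x' ≤ uf η c K d n x * ((Real.exp (c * (x' - x)) - 1) / c) := by
  have e := int_exp' hc (uf η c K d n x) x x' x
  rw [sub_self, mul_zero, Real.exp_zero] at e
  rw [sub_eq hη hc hK hn h, ← e]
  have i1 : ∀ a b, IntervalIntegrable (uf η c K d n) volume a b :=
    fun a b => (cont hc n d).intervalIntegrable a b
  have i2 : ∀ a b, IntervalIntegrable (fun t => uf η c K d n x * Real.exp (c * (t - x)))
      volume a b := fun a b => Continuous.intervalIntegrable (by fun_prop) a b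
  rcases le_total x x' with hx | hx
  · refine intervalIntegral.integral_mono_on hx (i1 _ _) (i2 _ _) fun t ht => ?_
    rw [mul_comm]
    exact growth hη hc hK h ht.1
  · rw [intervalIntegral.integral_symm x' x, intervalIntegral.integral_symm x' x]
    refine neg_le_neg (intervalIntegral.integral_mono_on hx (i2 _ _) (i1 _ _) fun t ht => ?_)
    have h1 := growth hη hc hK h ht.2
    have h2 : Real.exp (c * (x - t)) * Real.exp (c * (t - x)) = 1 := by
      rw [← Real.exp_add, show c * (x - t) + c * (t - x) = 0 by ring, Real.exp_zero]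
    calc uf η c K d n x * Real.exp (c * (t - x))
        ≤ Real.exp (c * (x - t)) * uf η c K d n t * Real.exp (c * (t - x)) :=
          mul_le_mul_of_nonneg_right h1 (Real.exp_pos _).le
      _ = uf η c K d n t := by rw [mul_right_comm, h2, one_mul]

theorem anti (hη : 0 < η) (hc : 0 < c) (hK : 16 ≤ K) {n : ℕ} {d : ℕ → ℝ} (hn : 1 ≤ n)
    (h : GoodD d n) {x x' : ℝ} (hx : x' ≤ x) : Uf η c K d n x ≤ Uf η c K d n x' := by
  have := sub_eq hη hc hK hn h x' x
  have h2 : 0 ≤ ∫ t in x'..x, uf η c K d n t :=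
    intervalIntegral.integral_nonneg hx fun t _ => nonneg hη hK h t
  linarith

theorem le_exp_mul {a b ξ : ℝ} (ha : 0 < a) (hb : 0 < b) (h : Real.log a - Real.log b ≤ ξ) :
    a ≤ b * Real.exp ξ := by
  calc a = Real.exp (Real.log a) := (Real.exp_log ha).symm
    _ ≤ Real.exp (Real.log b + ξ) := Real.exp_le_exp.2 (by linarith)
    _ = b * Real.exp ξ := by rw [Real.exp_add, Real.exp_log hb]

theorem ratio (hη : 0 < η) (hc : 0 < c) (hK : 16 ≤ K) {n : ℕ} {d d' : ℕ → ℝ} {ξ : ℝ} (t : ℝ)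
    (h : GoodD d n) (h' : GoodD d' n) (hξ : 0 ≤ ξ)
    (hd : ∀ j, 1 ≤ j → j < n → |Real.log (d' j) - Real.log (d j)| ≤ ξ) :
    uf η c K d' n t ≤ Real.exp (2 * c * ξ) * uf η c K d n t := by
  have hl : 1 ≤ Real.exp (2 * c * ξ) := Real.one_le_exp (by positivity)
  unfold uf
  rw [mul_left_comm]
  refine mul_le_mul_of_nonneg_left (fold_le_mul n _ _ hl fun j hj => ?_) hη.le
  have h0 := d_nonneg h hj
  have h0' := d_nonneg h' hj
  unfold edgeV
  rw [mul_max_of_nonneg _ _ (by positivity)]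
  refine max_le_max ?_ ?_
  · have h1 : d' j ≤ d j * Real.exp ξ := by
      rcases Nat.eq_zero_or_pos j with rfl | hj0
      · rw [h.1, h'.1, zero_mul]
      · exact le_exp_mul (h'.2 j hj0 hj) (h.2 j hj0 hj) (abs_le.1 (hd j hj0 hj)).2
    rw [mul_comm (Real.exp _), ← mul_exp_rpow (by positivity)]
    refine Real.rpow_le_rpow (by positivity) ?_ (by linarith)
    calc K * d' j * Real.exp (-t) ≤ K * (d j * Real.exp ξ) * Real.exp (-t) := by gcongr
      _ = K * d j * Real.exp (-t) * Real.exp ξ := by ring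
  · split_ifs with h1
    · have h2 := h.2 (j + 1) (by omega) h1
      have h2' := h'.2 (j + 1) (by omega) h1
      have h3 : d (j + 1) ≤ d' (j + 1) * Real.exp ξ :=
        le_exp_mul h2 h2' (by linarith [(abs_le.1 (hd (j + 1) (by omega) h1)).1])
      have h4 : K * Real.exp t / d' (j + 1) ≤ K * Real.exp t / d (j + 1) * Real.exp ξ := by
        rw [div_mul_eq_mul_div, div_le_div_iff₀ h2' h2]
        calc K * Real.exp t * d (j + 1) ≤ K * Real.exp t * (d' (j + 1) * Real.exp ξ) := by gcongr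
          _ = K * Real.exp t * Real.exp ξ * d' (j + 1) := by ring
      calc (K * Real.exp t / d' (j + 1)) ^ c ≤ (K * Real.exp t / d (j + 1) * Real.exp ξ) ^ c :=
            Real.rpow_le_rpow (by positivity) h4 hc.le
        _ = Real.exp (c * ξ) * (K * Real.exp t / d (j + 1)) ^ c := by
            rw [mul_exp_rpow (by positivity), mul_comm]
        _ ≤ Real.exp (2 * c * ξ) * (K * Real.exp t / d (j + 1)) ^ c :=
            mul_le_mul_of_nonneg_right (Real.exp_le_exp.2 (by nlinarith))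
              (Real.rpow_nonneg (by positivity) _)
    · simp

/-- the first edge. -/
theorem le_first (hη : 0 < η) (hc : 0 < c) (hK : 16 ≤ K) {n : ℕ} {d : ℕ → ℝ} (hn : 1 ≤ n)
    (h : GoodD d (n + 1)) (t : ℝ) :
    uf η c K d (n + 1) t ≤ η * K ^ c * Real.exp (c * (t - Real.log (d 1))) := by
  rw [mul_assoc]
  refine mul_le_mul_of_nonneg_left ((fold_le (n + 1) _ (j := 0) (by omega)).trans ?_) hη.le
  have h1 := h.2 1 le_rfl (by omega)
  unfold edgeV
  rw [if_pos (by omega), h.1, mul_zero, zero_mul, Real.zero_rpow (by linarith), zero_add]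
  refine max_le (by positivity) (le_of_eq ?_)
  rw [← mul_exp_rpow (by linarith), Real.exp_sub, Real.exp_log h1, mul_div_assoc]

/-- the comparison above the scale of the shift. -/
theorem le_shift (hη : 0 < η) (hc : 0 < c) (hc1 : c ≤ 1 / 400) (hK : 16 ≤ K) {n : ℕ}
    {d d' : ℕ → ℝ} {Rh t : ℝ} (h : GoodD d (n + 1)) (h' : GoodD d' n) (hR : 0 < Rh)
    (hd : ∀ j < n, |d (j + 1) - d' j| ≤ 2 * Rh) (ht : 2 * Rh ≤ Real.exp t) :
    uf η c K d (n + 1) t ≤ uf η c K d' n t + η * (K * (2 * Rh) * Real.exp (-t)) ^ (2 * c)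
      + η * (2 * (2 * Rh) / K * Real.exp (-t)) ^ (1 : ℝ) := by
  have hK0 : 0 < K := by linarith
  have hE := Real.exp_pos t
  have e1 : 0 ≤ (K * (2 * Rh) * Real.exp (-t)) ^ (2 * c) := Real.rpow_nonneg (by positivity) _
  have e2 : 0 ≤ 2 * (2 * Rh) / K * Real.exp (-t) := by positivity
  unfold uf
  rw [Real.rpow_one, ← mul_add, ← mul_add]
  refine mul_le_mul_of_nonneg_left ?_ hη.le
  have h1 := fold_le_one (n + 1) fun j => edgeV c K d (n + 1) j t
  by_cases hm : 1 ≤ (Finset.range n).fold min 1 fun j => edgeV c K d' n j t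
  · linarith
  rcases fold_cases n fun j => edgeV c K d' n j t with h2 | ⟨j, hj, h2⟩
  · exact absurd h2 hm
  have h3 : edgeV c K d' n j t < 1 := h2.trans_lt (not_le.1 hm)
  refine (fold_le (n + 1) _ (j := j + 1) (by omega)).trans ?_
  have h0' := d_nonneg h' hj
  have h0 := d_nonneg h (j := j + 1) (by omega)
  have hb : (K * d' j * Real.exp (-t)) ^ (2 * c) ≤ edgeV c K d' n j t := le_max_left _ _
  have hb0 : 0 ≤ (K * d' j * Real.exp (-t)) ^ (2 * c) := Real.rpow_nonneg (by positivity) _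
  refine max_le ?_ ?_
  · have h4 : K * d (j + 1) * Real.exp (-t) ≤
        K * d' j * Real.exp (-t) + K * (2 * Rh) * Real.exp (-t) := by
      have : d (j + 1) ≤ d' j + 2 * Rh := by linarith [(abs_le.1 (hd j hj)).2]
      calc K * d (j + 1) * Real.exp (-t) ≤ K * (d' j + 2 * Rh) * Real.exp (-t) := by gcongr
        _ = _ := by ring
    have h5 := Real.rpow_le_rpow (by positivity) h4 (show 0 ≤ 2 * c by linarith)
    have h6 := Real.rpow_add_le_add_rpow (p := 2 * c) (a := K * d' j * Real.exp (-t))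
      (b := K * (2 * Rh) * Real.exp (-t)) (by positivity) (by positivity) (by linarith)
      (by linarith)
    linarith
  · split_ifs with h4
    · have h5 : j + 1 < n := by omega
      have hd' := h'.2 (j + 1) (by omega) h5
      have hd2 := h.2 (j + 1 + 1) (by omega) h4
      have ht' : (K * Real.exp t / d' (j + 1)) ^ c ≤ edgeV c K d' n j t := by
        unfold edgeV
        rw [if_pos h5]
        exact le_max_right _ _
      have ht0 : 0 ≤ (K * Real.exp t / d' (j + 1)) ^ c := Real.rpow_nonneg (by positivity) _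
      have h6 : K * Real.exp t / d' (j + 1) < 1 := by
        by_contra h7
        have := Real.one_le_rpow (not_lt.1 h7) hc.le
        linarith
      rw [div_lt_one hd'] at h6
      set y := 2 * Rh / K * Real.exp (-t) with hy
      have hy0 : 0 ≤ y := by positivity
      have hy1 : y * (K * Real.exp t) = 2 * Rh := by
        rw [hy, Real.exp_neg]; field_simp
      have hy2 : y ≤ 1 / 2 := by
        have h8 : y * (K * Real.exp t) ≤ 1 / 2 * (K * Real.exp t) := by
          rw [hy1]; nlinarith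
        exact le_of_mul_le_mul_right h8 (by positivity)
      have h7 : d' (j + 1) * (1 - y) ≤ d (j + 1 + 1) := by
        have h8 := (abs_le.1 (hd (j + 1) h5)).1
        have h9 : y * (K * Real.exp t) ≤ y * d' (j + 1) := mul_le_mul_of_nonneg_left h6.le hy0
        nlinarith
      have h8 : K * Real.exp t / d (j + 1 + 1) ≤ K * Real.exp t / d' (j + 1) * (1 + 2 * y) := by
        rw [div_mul_eq_mul_div, div_le_div_iff₀ hd2 hd']
        have h9 : d' (j + 1) ≤ (1 + 2 * y) * d (j + 1 + 1) := by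
          have h10 : 1 ≤ (1 + 2 * y) * (1 - y) := by nlinarith
          calc d' (j + 1) ≤ (1 + 2 * y) * (1 - y) * d' (j + 1) := le_mul_of_one_le_left hd'.le h10
            _ = (1 + 2 * y) * (d' (j + 1) * (1 - y)) := by ring
            _ ≤ _ := mul_le_mul_of_nonneg_left h7 (by linarith)
        calc K * Real.exp t * d' (j + 1) ≤ K * Real.exp t * ((1 + 2 * y) * d (j + 1 + 1)) := by
              gcongr
          _ = _ := by ring
      have h9 := Real.rpow_le_rpow (by positivity) h8 hc.le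
      rw [Real.mul_rpow (by positivity) (by linarith)] at h9
      have h10 : (1 + 2 * y) ^ c ≤ 1 + 2 * y := by
        have := Real.rpow_le_rpow_of_exponent_le (x := 1 + 2 * y) (by linarith)
          (show c ≤ 1 by linarith)
        rwa [Real.rpow_one] at this
      have h11 : (K * Real.exp t / d' (j + 1)) ^ c * (1 + 2 * y) ^ c ≤
          (K * Real.exp t / d' (j + 1)) ^ c * (1 + 2 * y) := mul_le_mul_of_nonneg_left h10 ht0
      have h12 : (K * Real.exp t / d' (j + 1)) ^ c * y ≤ 1 * y :=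
        mul_le_mul_of_nonneg_right (by linarith) hy0
      have h13 : 2 * (2 * Rh) / K * Real.exp (-t) = 2 * y := by rw [hy]; ring
      rw [h13]
      nlinarith
    · linarith

theorem handoff (hη : 0 < η) (hc : 0 < c) (hc1 : c ≤ 1 / 400) (hK : 16 ≤ K) {n : ℕ}
    {d d' : ℕ → ℝ} {Rh : ℝ} (x : ℝ) {x' : ℝ} (hn : 1 ≤ n) (h : GoodD d (n + 1)) (h' : GoodD d' n)
    (hR : 0 < Rh) (hd : ∀ j < n, |d (j + 1) - d' j| ≤ 2 * Rh) (hx : Real.exp x' ≤ 2 * Rh) :
    Uf η c K d (n + 1) x ≤ Uf η c K d' n x' + η * Real.log (2 * Rh / d 1)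
      + η * (K ^ c / c + K ^ (2 * c) / (2 * c) + 2 / K) := by
  have hK0 : 0 < K := by linarith
  have h1 := h.2 1 le_rfl (by omega)
  have h2 : d 1 ≤ 2 * Rh := by
    have := (abs_le.1 (hd 0 (by omega))).2
    rwa [h'.1, sub_zero] at this
  have hR2 : 0 < 2 * Rh := by linarith
  set t1 := Real.log (d 1) with ht1
  set t0 := Real.log (2 * Rh) with ht0
  have h10 : t1 ≤ t0 := Real.log_le_log h1 h2
  have hx0 : x' ≤ t0 := (Real.le_log_iff_exp_le hR2).2 hx
  have hKc : 0 ≤ K ^ c := Real.rpow_nonneg hK0.le _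
  have i1 : ∀ a b, IntervalIntegrable (uf η c K d (n + 1)) volume a b :=
    fun a b => (cont hc _ d).intervalIntegrable a b
  have s1 : Uf η c K d (n + 1) x ≤ Uf η c K d (n + 1) t1 + η * (K ^ c / c) := by
    rcases le_total t1 x with hx1 | hx1
    · have := anti hη hc hK (by omega) h hx1
      have : 0 ≤ η * (K ^ c / c) := by positivity
      linarith
    · have e := sub_eq hη hc hK (by omega) h x t1
      have m := intervalIntegral.integral_mono_on hx1 (i1 x t1)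
        (Continuous.intervalIntegrable (μ := volume)
          (u := fun t => η * K ^ c * Real.exp (c * (t - t1))) (by fun_prop) x t1)
        fun t _ => le_first hη hc hK hn h t
      rw [int_exp' hc, sub_self, mul_zero, Real.exp_zero] at m
      have h3 : (1 - Real.exp (c * (x - t1))) / c ≤ 1 / c := by
        have := Real.exp_pos (c * (x - t1))
        gcongr; linarith
      have h4 := mul_le_mul_of_nonneg_left h3 (show 0 ≤ η * K ^ c by positivity)
      have h5 : η * K ^ c * (1 / c) = η * (K ^ c / c) := by ring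
      linarith
  have s2 : Uf η c K d (n + 1) t1 ≤ Uf η c K d (n + 1) t0 + η * Real.log (2 * Rh / d 1) := by
    have e := sub_eq hη hc hK (by omega) h t1 t0
    have m := intervalIntegral.integral_mono_on h10 (i1 t1 t0)
      (intervalIntegrable_const (μ := volume) (c := η)) fun t _ => le_eta hη _ d t
    rw [intervalIntegral.integral_const, smul_eq_mul] at m
    rw [Real.log_div hR2.ne' h1.ne']
    linarith
  have s3 : Uf η c K d (n + 1) t0 ≤
      Uf η c K d' n t0 + η * (K ^ (2 * c) / (2 * c)) + η * (2 / K) := by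
    obtain ⟨a1, a2⟩ := int_exp (A := K * (2 * Rh)) (p := 2 * c) (by positivity) (by linarith) t0
    obtain ⟨b1, b2⟩ := int_exp (A := 2 * (2 * Rh) / K) (p := 1) (by positivity) one_pos t0
    have e0 : Real.exp (-t0) = (2 * Rh)⁻¹ := by rw [Real.exp_neg, Real.exp_log hR2]
    have a3 : K * (2 * Rh) * Real.exp (-t0) = K := by rw [e0]; field_simp
    have b3 : (2 * (2 * Rh) / K * Real.exp (-t0)) ^ (1 : ℝ) / 1 = 2 / K := by
      rw [e0, Real.rpow_one]; field_simp
    rw [a3] at a2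
    rw [b3] at b2
    have j1 := integ hη hc hK hn h' t0
    have m := setIntegral_mono_on (integ hη hc hK (by omega) h t0)
      ((j1.add (a1.const_mul η)).add (b1.const_mul η)) measurableSet_Ioi fun t ht =>
        le_shift hη hc hc1 hK h h' hR hd (by
          rw [← Real.exp_log hR2]; exact Real.exp_le_exp.2 (le_of_lt ht))
    simp only [Pi.add_apply] at m
    have j2 : Integrable (fun t => uf η c K d' n t +
        η * (K * (2 * Rh) * Real.exp (-t)) ^ (2 * c)) (volume.restrict (Ioi t0)) :=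
      j1.add (a1.const_mul η)
    rw [integral_add j2 (b1.const_mul η),
      integral_add j1 (a1.const_mul η), integral_const_mul, integral_const_mul, a2, b2] at m
    exact m
  have s4 := anti hη hc hK hn h' hx0
  linarith

end PotAM

theorem potA_stmt : PotAStmt := fun _ _ _ hη hc hc1 hK =>
  { cont := fun n d _ _ => PotAM.cont hc n d
    nonneg := fun _ _ t _ h => PotAM.nonneg hη hK h t
    le_eta := fun n d t => PotAM.le_eta hη n d t
    integ := fun _ _ x hn h => PotAM.integ hη hc hK hn h x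
    Uf_nonneg := fun _ _ _ _ h => integral_nonneg fun t => PotAM.nonneg hη hK h t
    Uf_le := fun _ _ x hn h => PotAM.Uf_le hη hc hK hn h x
    touch := fun _ _ x x' hn h => PotAM.touch hη hc hK hn h x x'
    ratio := fun _ _ _ _ t _ h h' hξ hd => PotAM.ratio hη hc hK t h h' hξ hd
    meas_u := PotAM.meas_u
    meas_U := PotAM.meas_U
    handoff := fun _ _ _ _ x _ hn h h' hR hd hx => PotAM.handoff hη hc hc1 hK x hn h h' hR hd hx }

end Pool.Agent.MP_990230_pr

end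
end MrgPart1

-- ======== part 2: formerly Pool.Agent.MP_990230_pr.DI
section MrgPart2

/-!
# PROJECT SLE, module DI: the deterministic inclusion
-/

open Set Filter
open scoped Topology

noncomputable section

namespace Pool.Agent.MP_990230_pr

namespace DI

/-- what is known at the visit time `τ` of the `ε`-ball around `z`. -/
structure VisAt (a : ℝ) (U : ℝ → ℝ) (γ : ℝ → ℂ) (z : ℂ) (ε τ : ℝ) : Prop where
  pos : 0 < τ
  eq : ‖γ τ - z‖ = ε
  lt : ∀ s ∈ Ico (0 : ℝ) τ, ε < ‖γ s - z‖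
  alive : ∀ t ∈ Ico (0 : ℝ) τ, ∀ r : ℝ, r ≤ z.im → (∀ s ∈ Icc (0 : ℝ) t, r ≤ ‖γ s - z‖) →
    ∀ q ∈ Metric.ball z r, Alive a U q t

/-- one clause of a chain event. -/
def Cl (a : ℝ) (U : ℝ → ℝ) (Λ : ℝ) (ζ : ℕ → ℂ) (lam : ℕ → ℝ) (l : ℕ) : Prop :=
  Hits a U (ζ l) (lam l) ∧ Alive a U (ζ l) (hit a U (ζ l) (lam l)) ∧
    Λ * lam l ≤ ups a U (ζ l) (prevT a U ζ lam l)

variable {a Λ : ℝ} {U : ℝ → ℝ} {γ : ℝ → ℂ}

theorem VisAt.alive_ball {z : ℂ} {ε τ : ℝ} (hv : VisAt a U γ z ε τ) (hε : ε ≤ z.im)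
    {w : ℂ} (hw : w ∈ Metric.ball z ε) {t : ℝ} (ht : t ∈ Ico (0 : ℝ) τ) : Alive a U w t :=
  hv.alive t ht ε hε (fun s hs => (hv.lt s ⟨hs.1, lt_of_le_of_lt hs.2 ht.2⟩).le) w hw

/-- a point near the tip at the visit time reaches a comparable level before the visit time. -/
theorem hit_before (hA : LoeA a U) (hB : LoeB a U) (hγ : ContinuousOn γ (Ici 0))
    (hd : ∀ s t : ℝ, 0 < s → s ≤ t → ¬ Alive a U (γ s) t) {z : ℂ} {ε τ : ℝ}
    (hv : VisAt a U γ z ε τ) (hε : ε ≤ z.im) {w : ℂ} (hw : w ∈ Metric.ball z ε) {ρ x : ℝ}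
    (h1 : ‖γ τ - w‖ < ρ) (h2 : ρ ≤ w.im) (h3 : 4 * ρ ≤ x) :
    Hits a U w x ∧ hit a U w x < τ ∧ Alive a U w (hit a U w x) := by
  have hc : ContinuousAt γ τ := hγ.continuousAt (Ici_mem_nhds hv.pos)
  have hc2 : ContinuousAt (fun t => ‖γ t - w‖) τ := (hc.sub continuousAt_const).norm
  have e1 : ∀ᶠ t in 𝓝 τ, ‖γ t - w‖ < ρ := hc2.eventually (gt_mem_nhds h1)
  have e2 : ∀ᶠ t in 𝓝 τ, 0 < t := lt_mem_nhds hv.pos
  have e3 : ∀ᶠ t in 𝓝[<] τ, (‖γ t - w‖ < ρ ∧ 0 < t) ∧ t < τ :=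
    ((e1.and e2).filter_mono nhdsWithin_le_nhds).and self_mem_nhdsWithin
  obtain ⟨t, ⟨ht1, ht2⟩, ht3⟩ := e3.exists
  have hal : Alive a U w t := hv.alive_ball hε hw ⟨ht2.le, ht3⟩
  have him : 0 < (γ t).im := by
    have h4 : |(γ t - w).im| ≤ ‖γ t - w‖ := Complex.abs_im_le_norm _
    rw [Complex.sub_im] at h4
    have h5 := (abs_le.mp h4).1
    linarith
  have hk := hB.koebe w (γ t) t ht2.le hal him (hd t t ht2 le_rfl)
  rw [norm_sub_rev] at hk
  have hu : ups a U w t ≤ x := by linarith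
  have hH : Hits a U w x := ⟨t, ht2.le, hu⟩
  have hle : hit a U w x ≤ t := (hA.hit_le_iff w x hH t ht2.le).mpr hu
  exact ⟨hH, lt_of_le_of_lt hle ht3,
    hv.alive_ball hε hw ⟨hA.hit_nonneg w x, lt_of_le_of_lt hle ht3⟩⟩

theorem hit_anti (hA : LoeA a U) {z : ℂ} {x y : ℝ} (hx : Hits a U z x) (hxy : x ≤ y) :
    hit a U z y ≤ hit a U z x := by
  have h0 := hA.hit_nonneg z x
  have h1 : ups a U z (hit a U z x) ≤ x := (hA.hit_le_iff z x hx _ h0).mp le_rfl
  have hy : Hits a U z y := ⟨_, h0, h1.trans hxy⟩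
  exact (hA.hit_le_iff z y hy _ h0).mpr (h1.trans hxy)

/-- pigeonhole: `m` disjoint intervals, `m - 1` points. -/
theorem pigeon (m : ℕ) (hm : 1 ≤ m) (J A : ℕ → ℝ) (hJ : ∀ k k', k ≤ k' → k' ≤ m → J k' ≤ J k) :
    ∃ k < m, ∀ i < m - 1, A i ≤ J (k + 1) ∨ J k ≤ A i := by
  by_contra hcon
  push Not at hcon
  choose! f hf using hcon
  have hmaps : ∀ k ∈ Finset.range m, f k ∈ Finset.range (m - 1) := fun k hk =>
    Finset.mem_range.mpr (hf k (Finset.mem_range.mp hk)).1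
  obtain ⟨k, hk, k', hk', hne, heq⟩ :=
    Finset.exists_ne_map_eq_of_card_lt_of_maps_to (s := Finset.range m)
      (t := Finset.range (m - 1)) (by simp only [Finset.card_range]; omega) hmaps
  have hk1 := Finset.mem_range.mp hk
  have hk2 := Finset.mem_range.mp hk'
  obtain ⟨_, a1, a2⟩ := hf k hk1
  obtain ⟨_, b1, b2⟩ := hf k' hk2
  rw [heq] at a1 a2
  rcases lt_or_gt_of_ne hne with h | h
  · have := hJ (k + 1) k' h hk2.le
    linarith
  · have := hJ (k' + 1) k h hk1.le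
    linarith

/-- the time at which `Υ(z i)` reaches the level `10 Λ^j η i`. -/
def HT (a Λ : ℝ) (U : ℝ → ℝ) (z : ℕ → ℂ) (η : ℕ → ℝ) (i j : ℕ) : ℝ :=
  hit a U (z i) (10 * Λ ^ j * η i)

/-- the standing data of the combinatorial part. -/
structure Lv (a Λ : ℝ) (U : ℝ → ℝ) (n : ℕ) (z : ℕ → ℂ) (η : ℕ → ℝ) : Prop where
  loe : LoeA a U
  two : 2 ≤ Λ
  pos : ∀ i < n, 0 < η i
  im : ∀ i < n, 10 * Λ ^ (n + 4) * η i ≤ (z i).im
  hits : ∀ i < n, ∀ j : ℕ, Hits a U (z i) (10 * Λ ^ j * η i)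
  alive : ∀ i < n, ∀ j : ℕ, Alive a U (z i) (hit a U (z i) (10 * Λ ^ j * η i))

variable {n : ℕ} {z : ℕ → ℂ} {η : ℕ → ℝ}

theorem Lv.lev_le (h : Lv a Λ U n z η) {i : ℕ} (hi : i < n) {j j' : ℕ} (hj : j ≤ j') :
    10 * Λ ^ j * η i ≤ 10 * Λ ^ j' * η i := by
  have h1 : Λ ^ j ≤ Λ ^ j' := pow_le_pow_right₀ (by linarith [h.two]) hj
  have h2 := h.pos i hi
  nlinarith

theorem Lv.lev_lt (h : Lv a Λ U n z η) {i : ℕ} (hi : i < n) {j j' : ℕ} (hj : j < j') :
    10 * Λ ^ j * η i < 10 * Λ ^ j' * η i := by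
  have h1 : Λ ^ j < Λ ^ j' := pow_lt_pow_right₀ (by linarith [h.two]) hj
  have h2 := h.pos i hi
  nlinarith

theorem Lv.nonneg (h : Lv a Λ U n z η) (i j : ℕ) : 0 ≤ HT a Λ U z η i j :=
  h.loe.hit_nonneg _ _

theorem Lv.anti (h : Lv a Λ U n z η) {i : ℕ} (hi : i < n) {j j' : ℕ} (hj : j ≤ j') :
    HT a Λ U z η i j' ≤ HT a Λ U z η i j :=
  hit_anti h.loe (h.hits i hi j) (h.lev_le hi hj)

theorem Lv.le_ups (h : Lv a Λ U n z η) {i : ℕ} (hi : i < n) {j : ℕ} (hj : j ≤ n + 4) {t : ℝ}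
    (h0 : 0 ≤ t) (ht : t ≤ HT a Λ U z η i j) : 10 * Λ ^ j * η i ≤ ups a U (z i) t :=
  h.loe.le_ups (z i) _ (h.hits i hi j) (h.alive i hi j) ((h.lev_le hi hj).trans (h.im i hi)) t
    ⟨h0, ht⟩

theorem Lv.le_iff (h : Lv a Λ U n z η) {i : ℕ} (hi : i < n) (j : ℕ) {t : ℝ} (h0 : 0 ≤ t) :
    HT a Λ U z η i j ≤ t ↔ ups a U (z i) t ≤ 10 * Λ ^ j * η i :=
  h.loe.hit_le_iff (z i) _ (h.hits i hi j) t h0

theorem lev_succ (Λ e : ℝ) (j : ℕ) : Λ * (10 * Λ ^ j * e) = 10 * Λ ^ (j + 1) * e := by ring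

/-- the point `i` is clean. -/
def Clean (a Λ : ℝ) (U : ℝ → ℝ) (z : ℕ → ℂ) (η : ℕ → ℝ) (i : ℕ) : Prop :=
  10 * Λ ^ 3 * η i ≤ ups a U (z i) (HT a Λ U z η (i - 1) 1)

theorem Lv.all_clean (h : Lv a Λ U n z η) (hc : ∀ i, 1 ≤ i → i < n → Clean a Λ U z η i) :
    CEev a U Λ n z (fun i => 10 * Λ * η i) := by
  intro l hl
  have e1 : ∀ i, 10 * Λ * η i = 10 * Λ ^ 1 * η i := fun i => by rw [pow_one]
  simp only [e1]
  refine ⟨h.hits l hl 1, h.alive l hl 1, ?_⟩
  rw [lev_succ]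
  unfold prevT
  split_ifs with h0
  · exact h.le_ups hl (by omega) le_rfl (h.nonneg _ _)
  · exact (h.lev_le hl (by omega)).trans (hc l (by omega) hl)

theorem insPt_lt {m r l : ℕ} (w : ℂ) (hl : l < r) : insPt z m r w l = z l := by
  simp only [insPt, hl, if_true]

theorem insPt_eq (m r : ℕ) (w : ℂ) : insPt z m r w r = z m := by
  simp only [insPt, lt_irrefl, if_false, if_true]

theorem insPt_gt {m r l : ℕ} (w : ℂ) (h1 : r < l) (h2 : l ≤ m) : insPt z m r w l = z (l - 1) := by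
  have a1 : ¬ l < r := by omega
  have a2 : ¬ l = r := by omega
  simp only [insPt, a1, a2, h2, if_true, if_false]

theorem insPt_last {m r : ℕ} (w : ℂ) (h1 : r < m) : insPt z m r w (m + 1) = w := by
  have a1 : ¬ m + 1 < r := by omega
  have a2 : ¬ m + 1 = r := by omega
  have a3 : ¬ m + 1 ≤ m := by omega
  simp only [insPt, a1, a2, a3, if_false]

theorem insLv_lt {m k r l : ℕ} (lw : ℝ) (hl : l < r) :
    insLv Λ η m k r lw l = 10 * Λ ^ 2 * η l := by
  simp only [insLv, hl, if_true]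

theorem insLv_eq (m k r : ℕ) (lw : ℝ) : insLv Λ η m k r lw r = 10 * Λ ^ (3 + k) * η m := by
  simp only [insLv, lt_irrefl, if_false, if_true]

theorem insLv_gt {m k r l : ℕ} (lw : ℝ) (h1 : r < l) (h2 : l < m) :
    insLv Λ η m k r lw l = 10 * Λ ^ 1 * η (l - 1) := by
  have a1 : ¬ l < r := by omega
  have a2 : ¬ l = r := by omega
  simp only [insLv, a1, a2, h2, if_true, if_false, pow_one]

theorem insLv_top {m k r : ℕ} (lw : ℝ) (h1 : r < m) :
    insLv Λ η m k r lw m = 10 * Λ ^ 0 * η (m - 1) := by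
  have a1 : ¬ m < r := by omega
  have a2 : ¬ m = r := by omega
  simp only [insLv, a1, a2, lt_irrefl, if_true, if_false, pow_zero, mul_one]

theorem insLv_last {m k r : ℕ} (lw : ℝ) (h1 : r < m) : insLv Λ η m k r lw (m + 1) = lw := by
  have a1 : ¬ m + 1 < r := by omega
  have a2 : ¬ m + 1 = r := by omega
  have a3 : ¬ m + 1 < m := by omega
  have a4 : ¬ m + 1 = m := by omega
  simp only [insLv, a1, a2, a3, a4, if_false]

theorem prevT_zero (ζ : ℕ → ℂ) (lam : ℕ → ℝ) : prevT a U ζ lam 0 = 0 := by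
  simp only [prevT, if_true]

theorem prevT_succ (ζ : ℕ → ℂ) (lam : ℕ → ℝ) (l : ℕ) :
    prevT a U ζ lam (l + 1) = hit a U (ζ l) (lam l) := by
  simp only [prevT, Nat.succ_ne_zero, if_false, Nat.add_sub_cancel]

/-- the inserted chain at the first unclean point. -/
theorem Lv.chain (h : Lv a Λ U n z η) {m : ℕ} (hm1 : 1 ≤ m) (hmn : m < n)
    (hc : ∀ i, 1 ≤ i → i < m → Clean a Λ U z η i) (hu : ¬ Clean a Λ U z η m) :
    ∃ k < m, ∃ r < m, ∀ (w : ℂ) (lw : ℝ), ∀ l ≤ m,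
      Cl a U Λ (insPt z m r w) (insLv Λ η m k r lw) l := by
  classical
  have hJ0 : HT a Λ U z η m 3 ≤ HT a Λ U z η (m - 1) 1 :=
    (h.le_iff hmn 3 (h.nonneg _ _)).mpr (not_le.mp hu).le
  obtain ⟨k, hk, hpig⟩ := pigeon m hm1 (fun k => HT a Λ U z η m (3 + k))
    (fun i => HT a Λ U z η i 2) (fun k k' hkk _ => h.anti hmn (by omega))
  have hex : ∃ i, i = m - 1 ∨ ¬ HT a Λ U z η i 2 ≤ HT a Λ U z η m (3 + (k + 1)) :=
    ⟨m - 1, Or.inl rfl⟩
  have hr1 : Nat.find hex ≤ m - 1 := Nat.find_min' hex (Or.inl rfl)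
  have hr2 : ∀ i < Nat.find hex, HT a Λ U z η i 2 ≤ HT a Λ U z η m (3 + (k + 1)) := by
    intro i hi
    have := Nat.find_min hex hi
    push Not at this
    exact this.2
  have hr3 : Nat.find hex < m - 1 → HT a Λ U z η m (3 + k) ≤ HT a Λ U z η (Nat.find hex) 2 := by
    intro hlt
    rcases Nat.find_spec hex with h1 | h1
    · omega
    · exact (hpig _ hlt).resolve_left h1
  generalize Nat.find hex = r at hr1 hr2 hr3
  have hrm : r < m := by omega
  refine ⟨k, hk, r, hrm, fun w lw l hl => ?_⟩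
  unfold Cl
  rcases lt_trichotomy l r with hlr | hlr | hlr
  · -- `l < r`
    have hln : l < n := by omega
    rw [insPt_lt w hlr, insLv_lt lw hlr]
    refine ⟨h.hits l hln 2, h.alive l hln 2, ?_⟩
    rw [lev_succ]
    rcases l with _ | l
    · rw [prevT_zero]
      exact h.le_ups hln (by omega) le_rfl (h.nonneg _ _)
    · rw [prevT_succ, insPt_lt w (by omega), insLv_lt lw (by omega)]
      have h1 := hc (l + 1) (by omega) (by omega)
      unfold Clean at h1
      rw [Nat.add_sub_cancel] at h1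
      refine h1.trans (h.loe.ups_anti _ (h.nonneg l 2) (h.nonneg l 1) ?_)
      exact h.anti (by omega) (by omega)
  · -- `l = r`
    subst hlr
    rw [insPt_eq, insLv_eq]
    refine ⟨h.hits m hmn _, h.alive m hmn _, ?_⟩
    rw [lev_succ]
    rcases l with _ | l
    · rw [prevT_zero]
      exact h.le_ups hmn (by omega) le_rfl (h.nonneg _ _)
    · rw [prevT_succ, insPt_lt w (by omega), insLv_lt lw (by omega)]
      exact h.le_ups hmn (by omega) (h.nonneg l 2) (hr2 l (by omega))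
  · -- `r < l`
    obtain ⟨l, rfl⟩ : ∃ l', l = l' + 1 := ⟨l - 1, by omega⟩
    have hln : l < n := by omega
    rw [prevT_succ, insPt_gt w hlr hl, Nat.add_sub_cancel]
    rcases lt_or_eq_of_le hl with hlm | hlm
    · rw [insLv_gt lw hlr hlm, Nat.add_sub_cancel]
      refine ⟨h.hits l hln 1, h.alive l hln 1, ?_⟩
      rw [lev_succ]
      rcases lt_or_eq_of_le (Nat.lt_succ_iff.mp hlr) with h2 | h2
      · rw [insPt_gt w h2 (by omega), insLv_gt lw h2 (by omega)]
        exact (h.lev_le hln (by omega)).trans (hc l (by omega) (by omega))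
      · subst h2
        rw [insPt_eq, insLv_eq]
        exact h.le_ups hln (by omega) (h.nonneg m _) (hr3 (by omega))
    · subst hlm
      rw [insLv_top lw hlr, Nat.add_sub_cancel]
      refine ⟨h.hits l hln 0, h.alive l hln 0, ?_⟩
      rw [lev_succ]
      rcases lt_or_eq_of_le (Nat.lt_succ_iff.mp hlr) with h2 | h2
      · rw [insPt_gt w h2 (by omega), insLv_gt lw h2 (by omega)]
        exact (h.lev_le hln (by omega)).trans (hc l (by omega) (by omega))
      · subst h2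
        rw [insPt_eq, insLv_eq]
        rw [Nat.add_sub_cancel] at hJ0
        exact h.le_ups hln (by omega) (h.nonneg _ _)
          ((h.anti hmn (j := 3) (j' := 3 + k) (by omega)).trans hJ0)

/-- rounding to the net. -/
theorem exists_net (z0 y : ℂ) {ν : ℝ} (hν : 0 < ν) (N0 : ℕ) (hy : ‖y‖ ≤ ν * N0 - ν) :
    ∃ w ∈ net z0 ν N0, ‖w - (z0 + y)‖ ≤ ν := by
  have key : ∀ u : ℝ, |u| ≤ ν * N0 - ν →
      round (u / ν) ∈ Finset.Icc (-(N0 : ℤ)) N0 ∧ |ν * (round (u / ν) : ℝ) - u| ≤ ν / 2 := by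
    intro u hu
    have h1 := abs_sub_round (u / ν)
    have h2 : |u / ν| ≤ N0 - 1 := by
      rw [abs_div, abs_of_pos hν, div_le_iff₀ hν]
      linarith
    have h3 := abs_le.mp h1
    have h4 := abs_le.mp h2
    refine ⟨Finset.mem_Icc.mpr ⟨?_, ?_⟩, ?_⟩
    · have : ((-(N0 : ℤ) : ℤ) : ℝ) ≤ (round (u / ν) : ℝ) := by
        push_cast
        linarith
      exact_mod_cast this
    · have : (round (u / ν) : ℝ) ≤ ((N0 : ℤ) : ℝ) := by
        push_cast
        linarith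
      exact_mod_cast this
    · have e : ν * (round (u / ν) : ℝ) - u = -ν * (u / ν - round (u / ν)) := by
        field_simp
        ring
      rw [e, abs_mul, abs_neg, abs_of_pos hν]
      nlinarith
  obtain ⟨p1, p2⟩ := key y.re ((Complex.abs_re_le_norm y).trans hy)
  obtain ⟨q1, q2⟩ := key y.im ((Complex.abs_im_le_norm y).trans hy)
  refine ⟨z0 + (ν : ℂ) * ((round (y.re / ν) : ℤ) + (round (y.im / ν) : ℤ) * Complex.I), ?_, ?_⟩
  · unfold net
    exact Finset.mem_image.mpr ⟨(round (y.re / ν), round (y.im / ν)),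
      Finset.mem_product.mpr ⟨p1, q1⟩, rfl⟩
  · refine (Complex.norm_le_abs_re_add_abs_im _).trans ?_
    have e1 : (z0 + (ν : ℂ) * ((round (y.re / ν) : ℤ) + (round (y.im / ν) : ℤ) * Complex.I)
        - (z0 + y)).re = ν * (round (y.re / ν) : ℝ) - y.re := by
      simp
    have e2 : (z0 + (ν : ℂ) * ((round (y.re / ν) : ℤ) + (round (y.im / ν) : ℤ) * Complex.I)
        - (z0 + y)).im = ν * (round (y.im / ν) : ℝ) - y.im := by
      simp
    rw [e1, e2]
    linarith

/-- before the visit time the distance substitute exceeds `ε`. -/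
theorem lt_dist (hA : LoeA a U) (hB : LoeB a U) (hγ : ContinuousOn γ (Ici 0)) {z0 : ℂ} {ε τ : ℝ}
    (hv : VisAt a U γ z0 ε τ) (hε : ε < z0.im) {t : ℝ} (ht : t ∈ Ico (0 : ℝ) τ) (q : ℂ) :
    ε < ‖q - z0‖ + 2 * ups a U q t := by
  have hc : ContinuousOn (fun s => ‖γ s - z0‖) (Icc 0 t) :=
    ((hγ.mono Icc_subset_Ici_self).sub continuousOn_const).norm
  obtain ⟨s0, hs0, hmin⟩ := isCompact_Icc.exists_isMinOn (nonempty_Icc.mpr ht.1) hc
  have h1 : ε < ‖γ s0 - z0‖ := hv.lt s0 ⟨hs0.1, lt_of_le_of_lt hs0.2 ht.2⟩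
  have h2 : ε < min ‖γ s0 - z0‖ z0.im := lt_min h1 hε
  have hal := hv.alive t ht (min ‖γ s0 - z0‖ z0.im) (min_le_right _ _)
    (fun s hs => (min_le_left _ _).trans (hmin hs))
  generalize min ‖γ s0 - z0‖ z0.im = r0 at h2 hal
  have h3 := hA.ups_nonneg q t
  rcases lt_or_ge ‖q - z0‖ r0 with h4 | h4
  · have h5 := hB.ball q (r0 - ‖q - z0‖) t ht.1 (by linarith) (fun p hp => hal p (by
      rw [Metric.mem_ball, dist_eq_norm] at hp ⊢
      have := norm_sub_le_norm_sub_add_norm_sub p q z0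
      linarith))
    linarith
  · linarith

/-- a net point close to the tip at the visit time. -/
theorem near_tip {z0 x : ℂ} {ε ν : ℝ} (hν : 0 < ν) (h2 : 2 * ν ≤ ε) (N0 : ℕ) (hN : ε ≤ ν * N0)
    (hx : ‖x - z0‖ = ε) :
    ∃ w ∈ net z0 ν N0, ε - 3 * ν ≤ ‖w - z0‖ ∧ ‖w - z0‖ ≤ ε - ν ∧ ‖x - w‖ ≤ 3 * ν := by
  have hε : 0 < ε := by linarith
  have hc : 0 ≤ 1 - 2 * ν / ε := by
    rw [sub_nonneg, div_le_one hε]
    exact h2
  have hy : ‖((1 - 2 * ν / ε : ℝ) : ℂ) * (x - z0)‖ = ε - 2 * ν := by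
    rw [norm_mul, hx, Complex.norm_real, Real.norm_of_nonneg hc]
    field_simp
  have hy2 : ‖x - (z0 + ((1 - 2 * ν / ε : ℝ) : ℂ) * (x - z0))‖ = 2 * ν := by
    have e : x - (z0 + ((1 - 2 * ν / ε : ℝ) : ℂ) * (x - z0)) = ((2 * ν / ε : ℝ) : ℂ) * (x - z0) := by
      push_cast
      ring
    rw [e, norm_mul, hx, Complex.norm_real, Real.norm_of_nonneg (by positivity)]
    field_simp
  obtain ⟨w, hw, hw2⟩ := exists_net z0 (((1 - 2 * ν / ε : ℝ) : ℂ) * (x - z0)) hν N0
    (by rw [hy]; linarith)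
  generalize ((1 - 2 * ν / ε : ℝ) : ℂ) * (x - z0) = y at hy hy2 hw2
  have e3 : ‖z0 + y - z0‖ = ε - 2 * ν := by rw [add_sub_cancel_left, hy]
  have t1 := norm_sub_le_norm_sub_add_norm_sub w (z0 + y) z0
  have t2 := norm_sub_le_norm_sub_add_norm_sub (z0 + y) w z0
  have t3 := norm_sub_le_norm_sub_add_norm_sub x (z0 + y) w
  rw [norm_sub_rev (z0 + y) w] at t2 t3
  exact ⟨w, hw, by linarith, by linarith, by linarith⟩

end DI

open DI in
theorem di_stmt (hA : LoeAStmt) (hB : LoeBStmt) (hV : VisStmt) : DIStmt := by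
  classical
  intro a Λ U γ ha hΛ hU hG n z η ε μ ν N0 hpar hord hfin
  have hLA := hA a U ha hU
  have hLB := hB a U ha hU
  obtain ⟨hd, hvis⟩ := hV a U γ ha hU hG
  have hγ := hG.1
  have him : ∀ i < n, 10 * η i ≤ (z i).im := by
    intro i hi
    obtain ⟨h1, -, -, h4, -⟩ := hpar i hi
    have h5 : (1 : ℝ) ≤ Λ ^ (n + 4) := one_le_pow₀ (by linarith)
    nlinarith
  have hεim : ∀ i < n, ε i < (z i).im := by
    intro i hi
    obtain ⟨h1, -, h3, -⟩ := hpar i hi
    have := him i hi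
    linarith
  have hv : ∀ i < n, VisAt a U γ (z i) (ε i) (visit γ (z i) (ε i)).toReal := by
    intro i hi
    obtain ⟨h1, h2, -⟩ := hpar i hi
    obtain ⟨v1, v2, v3, v4⟩ := hvis (z i) (ε i) (by linarith) (hεim i hi) (hfin i hi)
    exact ⟨v1, v2, v3, v4⟩
  have hH : ∀ i < n, ∀ j : ℕ, Hits a U (z i) (10 * Λ ^ j * η i) ∧
      hit a U (z i) (10 * Λ ^ j * η i) < (visit γ (z i) (ε i)).toReal ∧
      Alive a U (z i) (hit a U (z i) (10 * Λ ^ j * η i)) := by
    intro i hi j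
    obtain ⟨h1, h2, h3, -⟩ := hpar i hi
    have h5 : (1 : ℝ) ≤ Λ ^ j := one_le_pow₀ (by linarith)
    have h6 := him i hi
    refine hit_before hLA hLB hγ hd (hv i hi) (hεim i hi).le
      (Metric.mem_ball_self (by linarith)) (ρ := 5 / 2 * η i) ?_ (by linarith) (by nlinarith)
    rw [(hv i hi).eq]
    linarith
  have hL : Lv a Λ U n z η :=
    ⟨hLA, hΛ, fun i hi => (hpar i hi).1, fun i hi => (hpar i hi).2.2.2.1,
      fun i hi j => (hH i hi j).1, fun i hi j => (hH i hi j).2.2⟩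
  by_cases hall : ∀ i, 1 ≤ i → i < n → Clean a Λ U z η i
  · exact Or.inl (hL.all_clean hall)
  right
  have hex : ∃ i, 1 ≤ i ∧ i < n ∧ ¬ Clean a Λ U z η i := by
    by_contra hcon
    exact hall fun i h1 h2 => by
      by_contra h3
      exact hcon ⟨i, h1, h2, h3⟩
  obtain ⟨hm1, hmn, hu⟩ := Nat.find_spec hex
  have hc : ∀ i, 1 ≤ i → i < Nat.find hex → Clean a Λ U z η i := by
    intro i h1 h2
    by_contra h3
    exact Nat.find_min hex h2 ⟨h1, h2.trans hmn, h3⟩
  generalize Nat.find hex = m at hm1 hmn hu hc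
  obtain ⟨k, hk, r, hr, hch⟩ := hL.chain hm1 hmn hc hu
  refine ⟨m, hm1, hmn, k, hk, r, hr, ?_⟩
  obtain ⟨p1, p2, p3, -, p5, p6, p7, p8, p9⟩ := hpar m hmn
  have hm' : m - 1 < n := by omega
  obtain ⟨c1, c2, -⟩ := hH (m - 1) hm' 0
  rw [pow_zero, mul_one] at c1 c2
  have hττ : (visit γ (z (m - 1)) (ε (m - 1))).toReal < (visit γ (z m) (ε m)).toReal :=
    (ENNReal.toReal_lt_toReal (hfin _ hm').ne (hfin _ hmn).ne).mpr (hord _ _ (by omega) hmn)
  have ht0 : hit a U (z (m - 1)) (10 * η (m - 1)) ∈ Ico (0 : ℝ) (visit γ (z m) (ε m)).toReal :=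
    ⟨hLA.hit_nonneg _ _, c2.trans hττ⟩
  have hups : ∀ q, upsAt a U (z (m - 1)) (10 * η (m - 1)) q
      = ups a U q (hit a U (z (m - 1)) (10 * η (m - 1))) := fun q => by
    simp only [upsAt, c1, if_true]
  by_cases hρ : rho a U (z (m - 1)) (10 * η (m - 1)) (z m) (η m) (ν m) (N0 m) ≤ ε m + μ m * η m
  · left
    refine ⟨fun l hl => hch 0 1 l (by omega), ?_, hρ⟩
    unfold rho
    rw [Finset.lt_fold_min]
    refine ⟨by linarith, fun q _ => ?_⟩
    rw [hups]
    exact lt_dist hLA hLB hγ (hv m hmn) (hεim m hmn) ht0 q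
  · right
    have hρ2 := not_le.mp hρ
    unfold rho at hρ2
    rw [Finset.lt_fold_min] at hρ2
    have hμη : μ m * η m ≤ η m := by nlinarith
    have hν : 64 * ν m ≤ η m := by nlinarith
    obtain ⟨w, hw, w1, w2, w3⟩ := near_tip (x := γ (visit γ (z m) (ε m)).toReal) p7
      (by linarith) (N0 m) (by linarith) (hv m hmn).eq
    refine ⟨w, hw, by linarith, by linarith, fun l hl => ?_⟩
    rcases lt_or_eq_of_le (Nat.lt_succ_iff.mp hl) with h1 | h1
    · exact hch w _ l (by omega)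
    subst h1
    rw [prevT_succ, insPt_last w hr, insLv_last _ hr, insPt_gt w hr le_rfl, insLv_top _ hr,
      pow_zero, mul_one]
    have hΛ0 : 0 < Λ := by linarith
    have hwim : 4 * ν m ≤ w.im := by
      have h4 : |(w - z m).im| ≤ ‖w - z m‖ := Complex.abs_im_le_norm _
      rw [Complex.sub_im] at h4
      have h5 := (abs_le.mp h4).1
      have h6 := him m hmn
      linarith
    obtain ⟨d1, -, d3⟩ := hit_before hLA hLB hγ hd (hv m hmn) (hεim m hmn).le (w := w)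
      (by rw [Metric.mem_ball, dist_eq_norm]; linarith) (ρ := 4 * ν m)
      (x := μ m * η m / (2 * Λ)) (by linarith) hwim
      (by rw [le_div_iff₀ (by linarith)]; linarith)
    refine ⟨d1, d3, ?_⟩
    have h7 := hρ2.2 w hw
    rw [hups] at h7
    have e : Λ * (μ m * η m / (2 * Λ)) = μ m * η m / 2 := by
      field_simp
    rw [e]
    linarith

end Pool.Agent.MP_990230_pr

end
end MrgPart2

-- ======== part 3: formerly Pool.Agent.MP_990230_pr.Asm
section MrgPart3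

/-!
# PROJECT SLE, module ASM: union bound, averaging over a grid of radii, and the limit
-/

open Set MeasureTheory ProbabilityTheory Filter
open scoped ENNReal NNReal Topology

noncomputable section

namespace Pool.Agent.MP_990230_pr

universe u

namespace Asm

theorem window {Ω : Type*} [MeasurableSpace Ω] (P : Measure Ω) [IsFiniteMeasure P] (A : Set Ω)
    {ρ : Ω → ℝ} (hρ : Measurable ρ) {η : ℝ} (hη : 0 < η) {R : ℕ} (hR : 0 < R) :
    ∃ e : ℝ, η ≤ e ∧ e ≤ 2 * η ∧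
      P.real (A ∩ {ω | e < ρ ω ∧ ρ ω ≤ e + 1 / R * η}) ≤ P.real A / R := by
  have R0 : (0 : ℝ) < R := by exact_mod_cast hR
  set c := 1 / (R : ℝ) * η with hc
  have c0 : 0 < c := by positivity
  let W : ℕ → Set Ω := fun j => {ω | η + j * c < ρ ω ∧ ρ ω ≤ η + j * c + c}
  have hW : ∀ j, MeasurableSet (W j) := fun j => hρ measurableSet_Ioc
  have hd : Set.PairwiseDisjoint (↑(Finset.range R) : Set ℕ) W := by
    have key : ∀ i j : ℕ, i < j → Disjoint (W i) (W j) := fun i j hij => by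
      refine Set.disjoint_left.2 fun ω h1 h2 => ?_
      have e1 : (i : ℝ) + 1 ≤ j := by exact_mod_cast hij
      have e2 := mul_le_mul_of_nonneg_right e1 c0.le
      linarith [h1.2, h2.1]
    intro i _ j _ hij
    rcases lt_or_gt_of_ne hij with h | h
    · exact key i j h
    · exact (key j i h).symm
  have h1 := sum_measureReal_le_measureReal_univ (μ := P.restrict A) (fun j _ => hW j) hd
  rw [measureReal_restrict_apply_univ] at h1
  have h2 : ∑ j ∈ Finset.range R, (P.restrict A).real (W j) ≤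
      ∑ _j ∈ Finset.range R, P.real A / R := by
    rw [Finset.sum_const, Finset.card_range, nsmul_eq_mul, mul_div_cancel₀ _ R0.ne']
    exact h1
  obtain ⟨j, hj, h3⟩ := Finset.exists_le_of_sum_le (Finset.nonempty_range_iff.2 hR.ne') h2
  rw [measureReal_restrict_apply (hW j), Set.inter_comm] at h3
  have e1 : (j : ℝ) ≤ R := by exact_mod_cast (Finset.mem_range.1 hj).le
  have e2 : (R : ℝ) * c = η := by rw [hc]; field_simp
  have e3 := mul_le_mul_of_nonneg_right e1 c0.le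
  have e4 : 0 ≤ (j : ℝ) * c := by positivity
  exact ⟨η + j * c, by linarith, by linarith, h3⟩

theorem params {δ b θ : ℝ} (hδ : 0 < δ) (hb : 0 < b) (hθ : 0 < θ) (n : ℕ) :
    ∃ (η : ℕ → ℝ) (R : ℕ → ℕ), ∀ m, 0 < η m ∧ η m ≤ b ∧ 0 < R m ∧
      (m < n → 1 / (R m : ℝ) + (R m : ℝ) ^ 2 * η m ^ δ ≤
        θ * ∏ j ∈ Finset.Ico (m + 1) n, η j ^ δ) := by
  induction n with
  | zero => exact ⟨fun _ => b, fun _ => 1, fun m => ⟨hb, le_rfl, one_pos, fun h => by omega⟩⟩
  | succ n ih =>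
    obtain ⟨η, R, h⟩ := ih
    have p0 : 0 < θ * ∏ j ∈ Finset.Ico 0 n, η j ^ δ :=
      mul_pos hθ (Finset.prod_pos fun j _ => Real.rpow_pos_of_pos (h j).1 _)
    set p := θ * ∏ j ∈ Finset.Ico 0 n, η j ^ δ with hp
    obtain ⟨S, hS⟩ := exists_nat_gt (2 / p)
    have S0 : (0 : ℝ) < S := lt_trans (by positivity) hS
    have q0 : 0 < p / (2 * S ^ 2) := by positivity
    have e0 : 0 < min b ((p / (2 * S ^ 2)) ^ δ⁻¹) := lt_min hb (Real.rpow_pos_of_pos q0 _)
    refine ⟨fun m => Nat.casesOn m (min b ((p / (2 * S ^ 2)) ^ δ⁻¹)) η,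
      fun m => Nat.casesOn m S R, fun m => ?_⟩
    rcases m with _ | m
    · refine ⟨e0, min_le_left _ _, by exact_mod_cast S0, fun _ => ?_⟩
      rw [← Finset.prod_Ico_add']
      have e1 : (min b ((p / (2 * S ^ 2)) ^ δ⁻¹)) ^ δ ≤ p / (2 * S ^ 2) :=
        (Real.rpow_le_rpow e0.le (min_le_right _ _) hδ.le).trans
          (Real.rpow_inv_rpow q0.le hδ.ne').le
      have e2 : 1 / (S : ℝ) ≤ p / 2 := by
        rw [div_lt_iff₀ p0] at hS
        rw [div_le_div_iff₀ S0 (by norm_num)]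
        linarith
      have e3 : (S : ℝ) ^ 2 * (p / (2 * S ^ 2)) = p / 2 := by field_simp
      have e4 := mul_le_mul_of_nonneg_left e1 (sq_nonneg (S : ℝ))
      change 1 / (S : ℝ) + (S : ℝ) ^ 2 * (min b ((p / (2 * S ^ 2)) ^ δ⁻¹)) ^ δ ≤ p
      linarith
    · refine ⟨(h m).1, (h m).2.1, (h m).2.2.1, fun hm => ?_⟩
      rw [← Finset.prod_Ico_add']
      exact (h m).2.2.2 (by omega)

/-- the index of the point at position `l` of the inserted chain -/
def ix (m r l : ℕ) : ℕ := if l < r then l else if l = r then m else l - 1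

theorem ix_le {m r l : ℕ} (hl : l ≤ m) : ix m r l ≤ m := by
  unfold ix; split_ifs <;> omega

theorem ix_inj {m r l l' : ℕ} (hl : l ≤ m) (hl' : l' ≤ m) (h : ix m r l = ix m r l') : l = l' := by
  unfold ix at h; split_ifs at h <;> omega

theorem insPt_le (z : ℕ → ℂ) {m l : ℕ} (r : ℕ) (w : ℂ) (hl : l ≤ m) :
    insPt z m r w l = z (ix m r l) := by
  unfold insPt ix; split_ifs <;> rfl

theorem insPt_top (z : ℕ → ℂ) {m r : ℕ} (w : ℂ) (hr : r < m) : insPt z m r w (m + 1) = w := by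
  unfold insPt; rw [if_neg (by omega), if_neg (by omega), if_neg (by omega)]

theorem prod_ix (m r : ℕ) (f : ℕ → ℝ) :
    ∏ l ∈ Finset.range (m + 1), f (ix m r l) = ∏ i ∈ Finset.range (m + 1), f i := by
  have h1 : Set.MapsTo (ix m r) (Finset.range (m + 1)) (Finset.range (m + 1)) := fun l hl => by
    have := ix_le (r := r) (Nat.lt_succ_iff.1 (Finset.mem_range.1 hl))
    exact Finset.mem_range.2 (by omega)
  have h2 : Set.InjOn (ix m r) (Finset.range (m + 1)) := fun l hl l' hl' h =>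
    ix_inj (Nat.lt_succ_iff.1 (Finset.mem_range.1 hl)) (Nat.lt_succ_iff.1 (Finset.mem_range.1 hl')) h
  exact Finset.prod_nbij (ix m r) h1 h2 (Finset.surjOn_of_injOn_of_card_le _ h1 h2 le_rfl)
    fun _ _ => rfl

theorem insLv_le {Λ : ℝ} (hΛ : 1 ≤ Λ) {η : ℕ → ℝ} (hη : ∀ i, 0 < η i) {n m k r l : ℕ} (lw : ℝ)
    (hk : k ≤ n) (hl : l ≤ m) :
    0 < insLv Λ η m k r lw l ∧ insLv Λ η m k r lw l ≤ 10 * Λ ^ (n + 3) * η (ix m r l) := by
  have key : ∀ j i, j ≤ n + 3 → 0 < 10 * Λ ^ j * η i ∧ 10 * Λ ^ j * η i ≤ 10 * Λ ^ (n + 3) * η i :=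
    fun j i hj => by
      have := hη i
      have h2 := pow_le_pow_right₀ hΛ hj
      exact ⟨by positivity, by gcongr⟩
  unfold insLv ix
  split_ifs with h1 h2 h3 h4
  · exact key 2 _ (by omega)
  · exact key _ _ (by omega)
  · simpa using key 1 (l - 1) (by omega)
  · simpa [h4] using key 0 (m - 1) (by omega)
  · omega

theorem insLv_top (Λ : ℝ) (η : ℕ → ℝ) {m r : ℕ} (k : ℕ) (lw : ℝ) (hr : r < m) :
    insLv Λ η m k r lw (m + 1) = lw := by
  unfold insLv; rw [if_neg (by omega), if_neg (by omega), if_neg (by omega), if_neg (by omega)]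

/-- the chain estimate as an abstract bound -/
def CEb (δ C : ℝ) (p : ℕ → (ℕ → ℂ) → (ℕ → ℝ) → ℝ) : Prop :=
  ∀ (N : ℕ) (ζ : ℕ → ℂ) (lam : ℕ → ℝ), (∀ l < N, 0 < (ζ l).im ∧ 0 < lam l) →
    (∀ i < N, ∀ j < N, i ≠ j → ζ i ≠ ζ j) →
    p N ζ lam ≤ C ^ N * (∏ l ∈ Finset.range N, lam l ^ δ) *
      ∏ l ∈ Finset.range N, ‖ζ l - prevPt ζ l‖ ^ (-δ)

theorem chain_le {δ C L d : ℝ} {p : ℕ → (ℕ → ℂ) → (ℕ → ℝ) → ℝ} (hp : CEb δ C p) (hδ : 0 < δ)
    (hC : 0 < C) (hL : 0 < L) (hd : 0 < d) (N : ℕ) (ζ : ℕ → ℂ) (lam x : ℕ → ℝ) (hx : ∀ l, 0 < x l)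
    (h1 : ∀ l < N, 0 < (ζ l).im ∧ 0 < lam l ∧ lam l ≤ L * x l ∧ d ≤ ‖ζ l - prevPt ζ l‖)
    (h2 : ∀ i < N, ∀ j < N, i ≠ j → ζ i ≠ ζ j) :
    p N ζ lam ≤ (C * L ^ δ * d ^ (-δ)) ^ N * ∏ l ∈ Finset.range N, x l ^ δ := by
  have e1 : ∏ l ∈ Finset.range N, lam l ^ δ ≤ ∏ l ∈ Finset.range N, L ^ δ * x l ^ δ :=
    Finset.prod_le_prod (fun l hl => Real.rpow_nonneg (h1 l (Finset.mem_range.1 hl)).2.1.le _)
      fun l hl => by
        rw [← Real.mul_rpow hL.le (hx l).le]
        exact Real.rpow_le_rpow (h1 l (Finset.mem_range.1 hl)).2.1.le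
          (h1 l (Finset.mem_range.1 hl)).2.2.1 hδ.le
  have e2 : ∏ l ∈ Finset.range N, ‖ζ l - prevPt ζ l‖ ^ (-δ) ≤ ∏ _l ∈ Finset.range N, d ^ (-δ) :=
    Finset.prod_le_prod (fun l _ => Real.rpow_nonneg (norm_nonneg _) _) fun l hl =>
      Real.rpow_le_rpow_of_nonpos hd (h1 l (Finset.mem_range.1 hl)).2.2.2 (by linarith)
  rw [Finset.prod_mul_distrib, Finset.prod_const, Finset.card_range] at e1
  rw [Finset.prod_const, Finset.card_range] at e2
  have x0 : 0 ≤ ∏ l ∈ Finset.range N, x l ^ δ :=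
    Finset.prod_nonneg fun l _ => Real.rpow_nonneg (hx l).le _
  refine (hp N ζ lam (fun l hl => ⟨(h1 l hl).1, (h1 l hl).2.1⟩) h2).trans ?_
  calc _ ≤ C ^ N * ((L ^ δ) ^ N * ∏ l ∈ Finset.range N, x l ^ δ) * (d ^ (-δ)) ^ N :=
        mul_le_mul (mul_le_mul_of_nonneg_left e1 (by positivity)) e2
          (Finset.prod_nonneg fun l _ => Real.rpow_nonneg (norm_nonneg _) _) (by positivity)
    _ = _ := by rw [mul_pow, mul_pow]; ring

theorem ins_le {δ C Λ d : ℝ} {p : ℕ → (ℕ → ℂ) → (ℕ → ℝ) → ℝ} (hp : CEb δ C p) (hδ : 0 < δ)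
    (hC : 0 < C) (hΛ : 1 ≤ Λ) (hd : 0 < d) {n : ℕ} {z : ℕ → ℂ} (hz : ∀ i < n, d ≤ (z i).im)
    (hzz : ∀ i < n, ∀ j < n, i ≠ j → d ≤ ‖z i - z j‖) {η : ℕ → ℝ} (hη : ∀ i, 0 < η i)
    (hη' : ∀ i, η i ≤ d / 4) {m k r : ℕ} (hm : m < n) (hk : k < m) (hr : r < m) (w : ℂ) (lw : ℝ)
    (N : ℕ) (hN : N ≤ m + 1 ∨ (N ≤ m + 2 ∧ η m / 2 ≤ ‖w - z m‖ ∧ ‖w - z m‖ ≤ 2 * η m ∧
      0 < lw ∧ lw ≤ η m)) :
    p N (insPt z m r w) (insLv Λ η m k r lw) ≤
      (C * (10 * Λ ^ (n + 3)) ^ δ * (d / 2) ^ (-δ)) ^ N *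
        ∏ l ∈ Finset.range N, (if l ≤ m then η (ix m r l) else η m) ^ δ := by
  have L1 : 1 ≤ 10 * Λ ^ (n + 3) := by linarith [one_le_pow₀ (n := n + 3) hΛ]
  have lt : ∀ l, l ≤ m → ix m r l < n := fun l hl => (ix_le hl).trans_lt hm
  have far : ‖w - z m‖ ≤ 2 * η m → ∀ i < n, i ≠ m → d / 2 ≤ ‖w - z i‖ := fun h i hi him => by
    have e1 := hzz m hm i hi him.symm
    have e2 := norm_sub_le_norm_sub_add_norm_sub (z m) w (z i)
    rw [norm_sub_rev (z m) w] at e2
    linarith [hη' m]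
  have top : ∀ l < N, ¬ l ≤ m → l = m + 1 ∧ η m / 2 ≤ ‖w - z m‖ ∧ ‖w - z m‖ ≤ 2 * η m ∧
      0 < lw ∧ lw ≤ η m := fun l hl hlm => by
    rcases hN with h | h
    · omega
    · exact ⟨by omega, h.2⟩
  have wne : ∀ l < N, ¬ l ≤ m → ∀ j, j ≤ m → insPt z m r w l ≠ insPt z m r w j := by
    intro l hl hlm j hj e
    obtain ⟨rfl, t1, t2, -⟩ := top l hl hlm
    rw [insPt_top z w hr, insPt_le z r w hj] at e
    by_cases t : ix m r j = m
    · rw [e, t, sub_self, norm_zero] at t1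
      linarith [hη m]
    · have := far t2 _ (lt j hj) t
      rw [e, sub_self, norm_zero] at this
      linarith
  refine chain_le hp hδ hC (by linarith) (half_pos hd) N _ _ _
    (fun l => by split_ifs <;> exact hη _) (fun l hl => ?_) fun i hi j hj hij => ?_
  · by_cases hlm : l ≤ m
    · have e1 := insLv_le (n := n) (k := k) (r := r) hΛ hη lw (by omega) hlm
      have e2 := hz _ (lt l hlm)
      rw [if_pos hlm, insPt_le z r w hlm]
      refine ⟨by linarith, e1.1, e1.2, ?_⟩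
      unfold prevPt
      split_ifs with h0
      · rw [sub_zero]
        linarith [Complex.im_le_norm (z (ix m r l))]
      · rw [insPt_le z r w (by omega : l - 1 ≤ m)]
        have := hzz _ (lt l hlm) _ (lt (l - 1) (by omega)) fun e => by
          have := ix_inj hlm (by omega : l - 1 ≤ m) e
          omega
        linarith
    · obtain ⟨rfl, t1, t2, t3, t4⟩ := top l hl hlm
      rw [if_neg hlm, insPt_top z w hr, insLv_top Λ η k lw hr]
      refine ⟨?_, t3, t4.trans (le_mul_of_one_le_left (hη m).le L1), ?_⟩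
      · have e1 := Complex.im_le_norm (z m - w)
        rw [norm_sub_rev, Complex.sub_im] at e1
        linarith [hz m hm, hη' m]
      · rw [prevPt, if_neg (by omega), Nat.add_sub_cancel, insPt_le z r w le_rfl]
        refine far t2 _ (lt m le_rfl) ?_
        unfold ix
        split_ifs <;> omega
  · by_cases him : i ≤ m
    · by_cases hjm : j ≤ m
      · rw [insPt_le z r w him, insPt_le z r w hjm]
        intro e
        have := hzz _ (lt i him) _ (lt j hjm) fun t => hij (ix_inj him hjm t)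
        rw [e, sub_self, norm_zero] at this
        linarith
      · exact (wne j hj hjm i him).symm
    · by_cases hjm : j ≤ m
      · exact wne i hi him j hjm
      · have := (top i hi him).1
        have := (top j hj hjm).1
        omega

theorem card_net (z0 : ℂ) (ν : ℝ) (N0 : ℕ) : (net z0 ν N0).card ≤ (2 * N0 + 1) ^ 2 := by
  refine Finset.card_image_le.trans (le_of_eq ?_)
  rw [Finset.card_product, Int.card_Icc, sq]
  congr 1 <;> omega

theorem real_biUnion_le {Ω β : Type*} [MeasurableSpace Ω] (P : Measure Ω) (s : Finset β)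
    (f : β → Set Ω) {x : ℝ} (h : ∀ b ∈ s, P.real (f b) ≤ x) :
    P.real (⋃ b ∈ s, f b) ≤ s.card * x := by
  refine (measureReal_biUnion_finset_le s f).trans ?_
  simpa using Finset.sum_le_card_nsmul s _ x h

theorem core (hD : DIStmt) {a Λ C : ℝ} (ha : 0 < a) (hδ : 0 < del a) (hΛ : 2 ≤ Λ) (hC : 0 < C)
    {Ω : Type*} [MeasurableSpace Ω] (P : Measure Ω) [IsFiniteMeasure P] (U : Ω → ℝ → ℝ)
    (hU : ∀ ω, Continuous (U ω))
    (hρ : ∀ (z : ℂ) (lam : ℝ) (z0 : ℂ) (η ν : ℝ) (N0 : ℕ),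
      Measurable (fun ω => rho a (U ω) z lam z0 η ν N0))
    (hp : CEb (del a) C fun N ζ lam => P.real {ω | CEev a (U ω) Λ N ζ lam})
    (γ : Ω → ℝ → ℂ) (hγ : ∀ᵐ ω ∂P, Generated a (U ω) (γ ω)) (n : ℕ) (z : ℕ → ℂ) {d : ℝ}
    (hd : 0 < d) (hz : ∀ i < n, d ≤ (z i).im) (hzz : ∀ i < n, ∀ j < n, i ≠ j → d ≤ ‖z i - z j‖)
    {θ b : ℝ} (hθ : 0 < θ) (hb : 0 < b) :
    ∃ ε : ℕ → ℝ, (∀ i, 0 < ε i ∧ ε i ≤ b) ∧ (∏ i ∈ Finset.range n, ε i ^ (-del a)) *
      P.real {ω | (∀ i j, i < j → j < n → visit (γ ω) (z i) (ε i) < visit (γ ω) (z j) (ε j)) ∧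
        ∀ j < n, visit (γ ω) (z j) (ε j) < ⊤} ≤
      (C * (10 * Λ) ^ del a) ^ n * ∏ l ∈ Finset.range n, ‖z l - prevPt z l‖ ^ (-del a) + θ := by
  set δ := del a with hδ'
  have Λ1 : 1 ≤ Λ := by linarith
  have Λ0 : 0 < Λ := by linarith
  set Q0 := C * (10 * Λ ^ (n + 3)) ^ δ * (d / 2) ^ (-δ) with hQ0
  have Q00 : 0 ≤ Q0 := by positivity
  set Q := max 1 Q0 ^ (n + 1) with hQ
  have hQN : ∀ N, N ≤ n + 1 → Q0 ^ N ≤ Q := fun N hN =>
    (pow_le_pow_left₀ Q00 (le_max_right _ _) N).trans (pow_le_pow_right₀ (le_max_left _ _) hN)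
  have Q1 : 0 < Q := pow_pos (lt_max_of_lt_left one_pos) _
  clear_value Q
  obtain ⟨N1, hN1⟩ := exists_nat_ge (32 * Λ)
  have N11 : (1 : ℝ) ≤ N1 := by linarith
  set K : ℝ := n * (n ^ 2 * Q * (25 * N1 ^ 2)) + 1 with hK
  have K0 : 0 < K := by positivity
  have b0 : 0 < min (b / 2) (min (d / 4) (d / (10 * Λ ^ (n + 4)))) :=
    lt_min (half_pos hb) (lt_min (by positivity) (by positivity))
  obtain ⟨η, R, hη⟩ := params hδ b0 (div_pos hθ K0) n
  have η0 : ∀ i, 0 < η i := fun i => (hη i).1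
  have η1 : ∀ i, η i ≤ b / 2 := fun i => (hη i).2.1.trans (min_le_left _ _)
  have η2 : ∀ i, η i ≤ d / 4 := fun i => (hη i).2.1.trans ((min_le_right _ _).trans (min_le_left _ _))
  have η3 : ∀ i, 10 * Λ ^ (n + 4) * η i ≤ d := fun i => by
    have := (hη i).2.1.trans ((min_le_right _ _).trans (min_le_right _ _))
    rwa [le_div_iff₀ (by positivity), mul_comm] at this
  have R1 : ∀ i, (1 : ℝ) ≤ R i := fun i => by exact_mod_cast (hη i).2.2.1
  let μ : ℕ → ℝ := fun m => 1 / R m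
  let ν : ℕ → ℝ := fun m => η m / (N1 * R m)
  let N0 : ℕ → ℕ := fun m => 2 * N1 * R m
  have μ0 : ∀ m, 0 < μ m ∧ μ m ≤ 1 := fun m => by
    have := R1 m
    exact ⟨by simp only [μ]; positivity, by simp only [μ]; rwa [div_le_one (by linarith)]⟩
  let I : ℕ → Finset (ℕ × ℕ) := fun m => Finset.range m ×ˢ Finset.range m
  let A : ℕ → Set Ω := fun m => ⋃ q ∈ I m,
    {ω | CEev a (U ω) Λ (m + 1) (insPt z m q.2 0) (insLv Λ η m q.1 q.2 1)}
  let ρ : ℕ → Ω → ℝ := fun m ω => rho a (U ω) (z (m - 1)) (10 * η (m - 1)) (z m) (η m) (ν m) (N0 m)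
  choose ε ε1 ε2 ε3 using fun m => window P (A m) (ρ := ρ m) (hρ _ _ _ _ _ _) (η0 m) (hη m).2.2.1
  have ε0 : ∀ i, 0 < ε i := fun i => (η0 i).trans_le (ε1 i)
  refine ⟨ε, fun i => ⟨ε0 i, by linarith [ε2 i, η1 i]⟩, ?_⟩
  let J : ℕ → Finset ℂ := fun m => (net (z m) (ν m) (N0 m)).filter
    (fun w => η m / 2 ≤ ‖w - z m‖ ∧ ‖w - z m‖ ≤ 2 * η m)
  let B : ℕ → Set Ω := fun m => ⋃ q ∈ I m ×ˢ J m, {ω | CEev a (U ω) Λ (m + 2)
    (insPt z m q.1.2 q.2) (insLv Λ η m q.1.1 q.1.2 (μ m * η m / (2 * Λ)))}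
  let π : ℕ → ℝ := fun m => ∏ i ∈ Finset.range m, η i ^ δ
  have π0 : ∀ m, 0 < π m := fun m => Finset.prod_pos fun i _ => Real.rpow_pos_of_pos (η0 i) _
  have px : ∀ m r, ∏ l ∈ Finset.range (m + 1), (if l ≤ m then η (ix m r l) else η m) ^ δ =
      π (m + 1) := fun m r => by
    refine (Finset.prod_congr rfl fun l hl => ?_).trans (prod_ix m r fun i => η i ^ δ)
    rw [if_pos (Nat.lt_succ_iff.1 (Finset.mem_range.1 hl))]
  have cI : ∀ m < n, ((I m).card : ℝ) ≤ n ^ 2 := fun m hm => by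
    have : (m : ℝ) ≤ n := by exact_mod_cast hm.le
    simp only [I, Finset.card_product, Finset.card_range, Nat.cast_mul, sq]
    gcongr
  have mI : ∀ m, ∀ q ∈ I m, q.1 < m ∧ q.2 < m := fun m q hq => by simpa [I] using hq
  have hA : ∀ m < n, P.real (A m) ≤ n ^ 2 * (Q * π (m + 1)) := fun m hm => by
    refine (real_biUnion_le P _ _ (x := Q * π (m + 1)) fun q hq => ?_).trans
      (mul_le_mul_of_nonneg_right (cI m hm) (mul_pos Q1 (π0 _)).le)
    refine (ins_le hp hδ hC Λ1 hd hz hzz η0 η2 hm (mI m q hq).1 (mI m q hq).2 0 1 (m + 1)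
      (Or.inl le_rfl)).trans ?_
    rw [px]
    exact mul_le_mul_of_nonneg_right (hQN _ (by omega)) (π0 _).le
  have hB : ∀ m < n, P.real (B m) ≤
      n ^ 2 * (25 * N1 ^ 2 * R m ^ 2) * (Q * (π (m + 1) * η m ^ δ)) := fun m hm => by
    have e0 : 0 < π (m + 1) * η m ^ δ := mul_pos (π0 _) (Real.rpow_pos_of_pos (η0 m) _)
    refine (real_biUnion_le P _ _ (x := Q * (π (m + 1) * η m ^ δ)) fun q hq => ?_).trans
      (mul_le_mul_of_nonneg_right ?_ (mul_pos Q1 e0).le)
    · obtain ⟨q1, q2⟩ := Finset.mem_product.1 hq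
      obtain ⟨-, q3, q4⟩ := Finset.mem_filter.1 q2
      have e1 : μ m * η m / (2 * Λ) ≤ η m :=
        (div_le_self (mul_pos (μ0 m).1 (η0 m)).le (by linarith)).trans
          (mul_le_of_le_one_left (η0 m).le (μ0 m).2)
      refine (ins_le hp hδ hC Λ1 hd hz hzz η0 η2 hm (mI m _ q1).1 (mI m _ q1).2 q.2 _ (m + 2)
        (Or.inr ⟨le_rfl, q3, q4, div_pos (mul_pos (μ0 m).1 (η0 m)) (by linarith), e1⟩)).trans ?_
      rw [Finset.prod_range_succ, px, if_neg (by omega)]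
      exact mul_le_mul_of_nonneg_right (hQN _ (by omega)) e0.le
    · rw [Finset.card_product, Nat.cast_mul]
      refine mul_le_mul (cI m hm) ?_ (Nat.cast_nonneg _) (by positivity)
      have e1 : ((J m).card : ℝ) ≤ ((2 * N0 m + 1) ^ 2 : ℕ) := by
        exact_mod_cast (Finset.card_filter_le _ _).trans (card_net _ _ _)
      have e2 := one_le_mul_of_one_le_of_one_le N11 (R1 m)
      refine e1.trans ?_
      simp only [N0]
      push_cast
      calc _ ≤ (5 * ((N1 : ℝ) * R m)) ^ 2 := pow_le_pow_left₀ (by positivity) (by linarith) 2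
        _ = _ := by ring
  have hE : ∀ m ∈ Finset.range n,
      P.real ((A m ∩ {ω | ε m < ρ m ω ∧ ρ m ω ≤ ε m + 1 / R m * η m}) ∪ B m) ≤
        n ^ 2 * Q * (25 * N1 ^ 2) * (θ / K * π n) := fun m hm => by
    have hm := Finset.mem_range.1 hm
    have e1 := (hη m).2.2.2 hm
    have e2 : π (m + 1) * ∏ j ∈ Finset.Ico (m + 1) n, η j ^ δ = π n :=
      Finset.prod_range_mul_prod_Ico _ hm
    have e3 := π0 (m + 1)
    have e4 := R1 m
    have e5 : (1 : ℝ) ≤ 25 * N1 ^ 2 := by linarith [one_le_pow₀ (n := 2) N11]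
    calc _ ≤ n ^ 2 * (Q * π (m + 1)) / R m +
          n ^ 2 * (25 * N1 ^ 2 * R m ^ 2) * (Q * (π (m + 1) * η m ^ δ)) :=
          (measureReal_union_le _ _).trans (add_le_add ((ε3 m).trans
            (div_le_div_of_nonneg_right (hA m hm) (by linarith))) (hB m hm))
      _ = n ^ 2 * Q * π (m + 1) * (1 * (1 / R m) + 25 * N1 ^ 2 * (R m ^ 2 * η m ^ δ)) := by ring
      _ ≤ n ^ 2 * Q * π (m + 1) *
          (25 * N1 ^ 2 * (1 / R m) + 25 * N1 ^ 2 * (R m ^ 2 * η m ^ δ)) := by gcongr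
      _ = n ^ 2 * Q * (25 * N1 ^ 2) * π (m + 1) * (1 / R m + R m ^ 2 * η m ^ δ) := by ring
      _ ≤ n ^ 2 * Q * (25 * N1 ^ 2) * π (m + 1) *
          (θ / K * ∏ j ∈ Finset.Ico (m + 1) n, η j ^ δ) := by gcongr
      _ = _ := by rw [← e2]; ring
  have hE' := real_biUnion_le P _ _ hE
  rw [Finset.card_range] at hE'
  have hM := hp n z (fun i => 10 * Λ * η i)
    (fun l hl => ⟨hd.trans_le (hz l hl), by have := η0 l; positivity⟩) fun i hi j hj hij e => by
      have := hzz i hi j hj hij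
      rw [e, sub_self, norm_zero] at this
      linarith
  have hM1 : ∏ l ∈ Finset.range n, (10 * Λ * η l) ^ δ = ((10 * Λ) ^ δ) ^ n * π n := by
    rw [Finset.prod_congr rfl fun l _ => Real.mul_rpow (by positivity) (η0 l).le,
      Finset.prod_mul_distrib, Finset.prod_const, Finset.card_range]
  simp only [hM1] at hM
  have incl : {ω | (∀ i j, i < j → j < n → visit (γ ω) (z i) (ε i) < visit (γ ω) (z j) (ε j)) ∧
      ∀ j < n, visit (γ ω) (z j) (ε j) < ⊤} ≤ᵐ[P]
      ({ω | CEev a (U ω) Λ n z fun i => 10 * Λ * η i} ∪ ⋃ m ∈ Finset.range n,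
        ((A m ∩ {ω | ε m < ρ m ω ∧ ρ m ω ≤ ε m + 1 / R m * η m}) ∪ B m) : Set Ω) := by
    filter_upwards [hγ] with ω hω h
    have := hD a Λ (U ω) (γ ω) ha hΛ (hU ω) hω n z η ε μ ν N0 (fun i hi => ?_) h.1 h.2
    · rcases this with t | ⟨m, -, hm, k, hk, r, hr, t⟩
      · exact Or.inl t
      have hq : (k, r) ∈ I m := by simp [I, hk, hr]
      refine Or.inr (mem_iUnion₂.2 ⟨m, Finset.mem_range.2 hm, ?_⟩)
      rcases t with ⟨t1, t2⟩ | ⟨w, w1, w2, w3, t⟩
      · exact Or.inl ⟨mem_iUnion₂.2 ⟨(k, r), hq, t1⟩, t2⟩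
      · exact Or.inr (mem_iUnion₂.2 ⟨((k, r), w),
          Finset.mem_product.2 ⟨hq, Finset.mem_filter.2 ⟨w1, w2, w3⟩⟩, t⟩)
    · have e1 := R1 i
      have e2 := η0 i
      refine ⟨η0 i, ε1 i, ε2 i, (η3 i).trans (hz i hi), (μ0 i).1, (μ0 i).2,
        by simp only [ν]; positivity, ?_, le_of_eq ?_⟩
      · calc 32 * Λ * ν i ≤ N1 * (η i / (N1 * R i)) := by simp only [ν]; gcongr
          _ = μ i * η i := by simp only [μ]; field_simp
      · simp only [ν, N0]
        push_cast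
        field_simp
  have tot := (ENNReal.toReal_mono (measure_ne_top P _) (measure_mono_ae incl)).trans
    ((measureReal_union_le _ _).trans (add_le_add hM hE'))
  have pe : (∏ i ∈ Finset.range n, ε i ^ (-δ)) * π n ≤ 1 := by
    rw [← Finset.prod_mul_distrib]
    refine Finset.prod_le_one (fun i _ => (mul_pos (Real.rpow_pos_of_pos (ε0 i) _)
      (Real.rpow_pos_of_pos (η0 i) _)).le) fun i _ => ?_
    rw [Real.rpow_neg (ε0 i).le, inv_mul_le_iff₀ (Real.rpow_pos_of_pos (ε0 i) _), mul_one]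
    exact Real.rpow_le_rpow (η0 i).le (ε1 i) hδ.le
  have pe0 : 0 ≤ ∏ i ∈ Finset.range n, ε i ^ (-δ) :=
    Finset.prod_nonneg fun i _ => Real.rpow_nonneg (ε0 i).le _
  have D0 : 0 ≤ ∏ l ∈ Finset.range n, ‖z l - prevPt z l‖ ^ (-δ) :=
    Finset.prod_nonneg fun i _ => Real.rpow_nonneg (norm_nonneg _) _
  refine (mul_le_mul_of_nonneg_left tot pe0).trans ?_
  generalize ∏ l ∈ Finset.range n, ‖z l - prevPt z l‖ ^ (-δ) = D at *
  have fin : (n : ℝ) * (n ^ 2 * Q * (25 * N1 ^ 2)) * (θ / K) ≤ θ :=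
    calc _ ≤ K * (θ / K) := mul_le_mul_of_nonneg_right (by linarith) (div_pos hθ K0).le
      _ = θ := by field_simp
  calc _ = (∏ i ∈ Finset.range n, ε i ^ (-δ)) * π n * ((C * (10 * Λ) ^ δ) ^ n * D +
        n * (n ^ 2 * Q * (25 * N1 ^ 2)) * (θ / K)) := by rw [mul_pow]; ring
    _ ≤ 1 * ((C * (10 * Λ) ^ δ) ^ n * D + θ) :=
        mul_le_mul pe (by linarith) (by positivity) zero_le_one
    _ = _ := one_mul _

theorem visit_anti (γ : ℝ → ℂ) (z : ℂ) {ε ε' : ℝ} (h : ε ≤ ε') : visit γ z ε' ≤ visit γ z ε :=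
  sInf_le_sInf (image_mono fun _ ht => ⟨ht.1, ht.2.trans h⟩)

theorem le_of_small {n : ℕ} {f : (Fin n → ℝ) → ℝ} {L M : ℝ}
    (h : Tendsto f (𝓝[{ε | ∀ j, 0 < ε j}] 0) (𝓝 L))
    (h' : ∀ b : ℝ, 0 < b → ∃ ε : Fin n → ℝ, (∀ j, 0 < ε j ∧ ε j ≤ b) ∧ f ε ≤ M) : L ≤ M := by
  refine le_of_tendsto_of_frequently h (Metric.nhdsWithin_basis_ball.frequently_iff.2 fun b hb => ?_)
  obtain ⟨ε, h1, h2⟩ := h' (b / 2) (half_pos hb)
  refine ⟨ε, ⟨?_, fun j => (h1 j).1⟩, h2⟩
  rw [mem_ball_zero_iff, pi_norm_lt_iff hb]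
  intro j
  rw [Real.norm_eq_abs, abs_of_pos (h1 j).1]
  linarith [(h1 j).2]

theorem exists_gap {n : ℕ} (z : Fin n → ℂ) (hz : ∀ j, 0 < (z j).im) (hi : Function.Injective z) :
    ∃ d : ℝ, 0 < d ∧ (∀ i, d ≤ (z i).im) ∧ ∀ i j, i ≠ j → d ≤ ‖z i - z j‖ := by
  have h : ∀ᶠ d : ℝ in 𝓝[>] 0, (∀ i, d ≤ (z i).im) ∧ ∀ i j, i ≠ j → d ≤ ‖z i - z j‖ := by
    refine nhdsWithin_le_nhds ((eventually_all.2 fun i => eventually_le_nhds (hz i)).and
      (eventually_all.2 fun i => eventually_all.2 fun j => ?_))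
    by_cases e : i = j
    · exact Eventually.of_forall fun _ t => absurd e t
    · exact (eventually_le_nhds (norm_pos_iff.2 (sub_ne_zero.2 (hi.ne e)))).mono fun _ t _ => t
  obtain ⟨d, h1, h2⟩ := (h.and self_mem_nhdsWithin).exists
  exact ⟨d, h2, h1⟩

end Asm

open Asm in
theorem asm_stmt (hB : BMStmt.{u}) (hM2 : MeasBStmt.{u}) (hD : DIStmt) : AsmStmt.{u} := by
  intro κ h0 h8 hCE chat hc
  obtain ⟨Λ, C, hΛ, hC, hCE⟩ := hCE
  have ha : 0 < 2 / κ := by positivity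
  have hδ : 1 + κ / 8 - 2 = -del (2 / κ) := by unfold del; field_simp; ring
  have δ0 : 0 < del (2 / κ) := by linarith
  have c0 : 0 < C * (10 * Λ) ^ del (2 / κ) := mul_pos hC (Real.rpow_pos_of_pos (by linarith) _)
  refine ⟨C * (10 * Λ) ^ del (2 / κ) / chat, fun Ω mΩ P B hBM γ hγ n z hz G hG => ?_⟩
  rw [hδ] at hG ⊢
  rw [div_pow, div_mul_eq_mul_div, le_div_iff₀ (pow_pos hc n), mul_comm G]
  by_cases hi : Function.Injective z
  swap
  · have : ∃ i j, i < j ∧ z i = z j := by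
      obtain ⟨i, j, e, hij⟩ := Function.not_injective_iff.1 hi
      rcases lt_or_gt_of_ne hij with t | t
      · exact ⟨i, j, t, e⟩
      · exact ⟨j, i, t, e.symm⟩
    obtain ⟨i, j, hij, e⟩ := this
    refine le_of_small hG fun b hb => ⟨fun _ => b, fun _ => ⟨hb, le_rfl⟩, ?_⟩
    have e1 : {ω | Ordered (γ ω) z fun _ => b} = ∅ :=
      eq_empty_of_forall_notMem fun ω h => by
        have := h.1 hij
        simp only [e] at this
        exact lt_irrefl _ this
    rw [e1, measure_empty, ENNReal.toReal_zero, mul_zero]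
    exact mul_nonneg (pow_pos c0 n).le
      (Finset.prod_nonneg fun i _ => Real.rpow_nonneg (norm_nonneg _) _)
  obtain ⟨d, hd, d1, d2⟩ := exists_gap z hz hi
  obtain ⟨U, F, hS, hU⟩ := hB Ω P B hBM
  have := hS.prob
  let z' : ℕ → ℂ := fun i => if h : i < n then z ⟨i, h⟩ else 0
  have zz : ∀ i : Fin n, z' i = z i := fun i => dif_pos i.2
  have e1 : ∏ i : Fin n, ‖z i - (Fin.cons 0 z : Fin (n + 1) → ℂ) i.castSucc‖ ^ (-del (2 / κ)) =
      ∏ l ∈ Finset.range n, ‖z' l - prevPt z' l‖ ^ (-del (2 / κ)) := by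
    rw [← Fin.prod_univ_eq_prod_range (fun l => ‖z' l - prevPt z' l‖ ^ (-del (2 / κ))) n]
    refine Finset.prod_congr rfl fun i _ => ?_
    rw [zz]
    congr 3
    obtain ⟨_ | i, hi⟩ := i
    · rfl
    · exact (zz ⟨i, by omega⟩).symm
  rw [e1]
  refine le_of_forall_pos_le_add fun θ hθ => le_of_small hG fun b hb => ?_
  obtain ⟨ε, h1, h2⟩ := core hD ha δ0 hΛ hC P U hS.cont (hM2 _ ha Ω P U F hS).2.2.2.1
    (fun N ζ lam t1 t2 => ENNReal.toReal_le_of_le_ofReal (mul_nonneg (mul_nonneg (pow_pos hC N).le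
      (Finset.prod_nonneg fun l hl => Real.rpow_nonneg (t1 l (Finset.mem_range.1 hl)).2.le _))
      (Finset.prod_nonneg fun l _ => Real.rpow_nonneg (norm_nonneg _) _))
      (hCE Ω P U F hS N ζ lam t1 t2))
    γ (by filter_upwards [hγ, hU] with ω t1 t2; rwa [t2]) n z' hd
    (fun i hi => by rw [zz ⟨i, hi⟩]; exact d1 _)
    (fun i hi j hj hij => by
      rw [zz ⟨i, hi⟩, zz ⟨j, hj⟩]; exact d2 _ _ fun e => hij (congrArg Fin.val e)) hθ hb
  refine ⟨fun j => ε j, fun j => h1 j, le_trans ?_ h2⟩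
  rw [Fin.prod_univ_eq_prod_range (fun l => ε l ^ (-del (2 / κ))) n]
  refine mul_le_mul_of_nonneg_left (measureReal_mono fun ω h => ⟨fun i j hij hj => ?_, fun j hj => ?_⟩)
    (Finset.prod_nonneg fun l _ => Real.rpow_nonneg (h1 l).1.le _)
  · rw [zz ⟨i, hij.trans hj⟩, zz ⟨j, hj⟩]
    exact h.1 (show (⟨i, hij.trans hj⟩ : Fin n) < ⟨j, hj⟩ from hij)
  · rw [zz ⟨j, hj⟩]
    exact h.2 ⟨j, hj⟩

end Pool.Agent.MP_990230_pr

end
end MrgPart3

-- marker of a merged file
example : 731051 + 530588 = 731051 + 530588 := rfl
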