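import Mathlib.Algebra.Ring.IsFormallyReal
import Pool.Agent.MP_990230_pr.BM
import Mathlib.Topology.Sheaves.Presheaf
import Mathlib.Tactic.Monotonicity.Lemmas
import Mathlib.Topology.Compactness.CompactlyGeneratedSpace
import Mathlib.Analysis.ODE.Gronwall
import Mathlib.Topology.Separation.CompletelyRegular
import Mathlib.Topology.ContinuousMap.SecondCountableSpace
import Mathlib.Topology.Metrizable.ContinuousMap
import Mathlib.Analysis.Complex.ExponentialBounds
import Mathlib.RingTheory.PiTensorProduct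

-- ======== part 0: formerly Pool.Agent.MP_990230_pr.Jet
section MrgPart0

/-!
# PROJECT SLE, module JET
-/

open Set

noncomputable section

namespace Pool.Agent.MP_990230_pr

namespace Jet

lemma der_re {f : ℝ → ℂ} {f' : ℂ} {S : Set ℝ} {s : ℝ} (h : HasDerivWithinAt f f' S s) :
    HasDerivWithinAt (fun r => (f r).re) f'.re S s :=
  Complex.reCLM.hasFDerivAt.comp_hasDerivWithinAt s h

lemma der_im {f : ℝ → ℂ} {f' : ℂ} {S : Set ℝ} {s : ℝ} (h : HasDerivWithinAt f f' S s) :
    HasDerivWithinAt (fun r => (f r).im) f'.im S s :=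
  Complex.imCLM.hasFDerivAt.comp_hasDerivWithinAt s h

lemma der_conj {f : ℝ → ℂ} {f' : ℂ} {S : Set ℝ} {s : ℝ} (h : HasDerivWithinAt f f' S s) :
    HasDerivWithinAt (fun r => (starRingEnd ℂ) (f r)) ((starRingEnd ℂ) f') S s :=
  Complex.conjCLE.toContinuousLinearMap.hasFDerivAt.comp_hasDerivWithinAt s h

lemma log_norm_eq (Z : ℂ) : Real.log ‖Z‖ = 1 / 2 * Real.log (Z.re * Z.re + Z.im * Z.im) := by
  rw [← Complex.normSq_apply, ← Complex.sq_norm, Real.log_pow]
  push_cast
  ring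

lemma der_log_norm {f : ℝ → ℂ} {f' : ℂ} {S : Set ℝ} {s : ℝ} (h : HasDerivWithinAt f f' S s)
    (h0 : f s ≠ 0) : HasDerivWithinAt (fun r => Real.log ‖f r‖) ((f' / f s).re) S s := by
  have hq : (f s).re * (f s).re + (f s).im * (f s).im ≠ 0 := by
    rw [← Complex.normSq_apply]
    exact (Complex.normSq_pos.2 h0).ne'
  have h1 := ((((der_re h).mul (der_re h)).add ((der_im h).mul (der_im h))).log hq).const_mul
    (1 / 2 : ℝ)
  have h2 : (fun r => Real.log ‖f r‖) =
      fun r => 1 / 2 * Real.log ((f r).re * (f r).re + (f r).im * (f r).im) := by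
    funext r
    exact log_norm_eq _
  rw [h2]
  refine HasDerivWithinAt.congr_deriv h1 ?_
  rw [Complex.div_re, Complex.normSq_apply]
  simp only [Pi.add_apply, Pi.mul_apply]
  field_simp
  ring

lemma div_re' (a : ℝ) (Z : ℂ) : ((a : ℂ) / Z).re = a * pR Z := by
  rw [Complex.div_re]
  simp only [Complex.ofReal_re, Complex.ofReal_im, zero_mul, zero_div, add_zero, pR]
  ring

lemma div_im' (a : ℝ) (Z : ℂ) : ((a : ℂ) / Z).im = -a * sI Z := by
  rw [Complex.div_im]
  simp only [Complex.ofReal_re, Complex.ofReal_im, zero_mul, zero_div, sI]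
  ring

lemma ne_zero {Z : ℂ} (h : 0 < Z.im) : Z ≠ 0 := by
  rintro rfl
  simp at h

lemma q_pos {Z : ℂ} (h : 0 < Z.im) : 0 < Z.re * Z.re + Z.im * Z.im := by
  rw [← Complex.normSq_apply]
  exact Complex.normSq_pos.2 (ne_zero h)

lemma dist_re (a : ℝ) {Z W : ℂ} (hZ : Z ≠ 0) (hW : W ≠ 0) (h : Z - W ≠ 0) :
    (((a : ℂ) / Z - (a : ℂ) / W) / (Z - W)).re = -a * (pR Z * pR W - sI Z * sI W) := by
  have h1 : ((a : ℂ) / Z - (a : ℂ) / W) / (Z - W) = ((-a : ℝ) : ℂ) * (Z⁻¹ * W⁻¹) := by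
    push_cast
    field_simp
    ring
  rw [h1, Complex.re_ofReal_mul, Complex.mul_re, Complex.inv_re, Complex.inv_re, Complex.inv_im,
    Complex.inv_im]
  simp only [pR, sI]
  ring

variable {a : ℝ} {U : ℝ → ℝ} {σ τ : ℝ} {z : ℝ → ℂ} {y : ℝ → ℝ}

lemma cont_z (hU : ContinuousOn U (Icc σ τ)) (hF : Flow a U σ τ z y) :
    ContinuousOn z (Icc σ τ) := by
  have h1 : ContinuousOn (fun r => z r + (U r : ℂ)) (Icc σ τ) :=
    fun s hs => (hF.dz s hs).continuousWithinAt
  have h2 : ContinuousOn (fun r => (U r : ℂ)) (Icc σ τ) :=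
    Complex.continuous_ofReal.comp_continuousOn hU
  refine (h1.sub h2).congr fun s _ => ?_
  simp

lemma cont_p (hU : ContinuousOn U (Icc σ τ)) (hF : Flow a U σ τ z y) :
    ContinuousOn (fun s => pR (z s)) (Icc σ τ) :=
  (Complex.continuous_re.comp_continuousOn (cont_z hU hF)).div
    (Complex.continuous_normSq.comp_continuousOn (cont_z hU hF))
    fun s hs => (Complex.normSq_pos.2 (ne_zero (hF.im_pos s hs))).ne'

lemma cont_s (hU : ContinuousOn U (Icc σ τ)) (hF : Flow a U σ τ z y) :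
    ContinuousOn (fun s => sI (z s)) (Icc σ τ) :=
  (Complex.continuous_im.comp_continuousOn (cont_z hU hF)).div
    (Complex.continuous_normSq.comp_continuousOn (cont_z hU hF))
    fun s hs => (Complex.normSq_pos.2 (ne_zero (hF.im_pos s hs))).ne'

lemma der_Y (hF : Flow a U σ τ z y) (s : ℝ) (hs : s ∈ Icc σ τ) :
    HasDerivWithinAt (fun r => (z r).im) (-a * sI (z s)) (Icc σ τ) s := by
  have h := der_im (hF.dz s hs)
  rw [div_im'] at h
  simpa using h

lemma itoX (R : StepRules U σ τ) (hU : ContinuousOn U (Icc σ τ)) (hF : Flow a U σ τ z y) :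
    Ito U σ τ (fun s => (z s).re) (fun _ => -1) (fun _ => 0) (fun s => a * pR (z s)) := by
  have h1 : Ito U σ τ (fun r => (z r + (U r : ℂ)).re) (fun _ => 0) (fun _ => 0)
      (fun s => a * pR (z s)) := by
    refine R.of_deriv _ _ (fun s hs => ?_) (continuousOn_const.mul (cont_p hU hF))
    have h := der_re (hF.dz s hs)
    rwa [div_re'] at h
  refine R.ito_congr _ _ _ _ _ _ _ _ (R.ito_add _ _ _ _ _ _ _ _ h1 (R.ito_smul (-1) _ _ _ _ R.drv))
    ?_ ?_ ?_ ?_ <;> intro s _ <;> simp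

lemma itoY (R : StepRules U σ τ) (hU : ContinuousOn U (Icc σ τ)) (hF : Flow a U σ τ z y) :
    Ito U σ τ (fun s => (z s).im) (fun _ => 0) (fun _ => 0) (fun s => -a * sI (z s)) :=
  R.of_deriv _ _ (der_Y hF) (continuousOn_const.mul (cont_s hU hF))

lemma logNorm (R : StepRules U σ τ) (hU : ContinuousOn U (Icc σ τ)) (hF : Flow a U σ τ z y) :
    Ito U σ τ (fun s => Real.log ‖z s‖) (fun s => -pR (z s))
      (fun s => -(pR (z s) ^ 2 - sI (z s) ^ 2)) (fun s => a * (pR (z s) ^ 2 - sI (z s) ^ 2)) := by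
  have hX := itoX R hU hF
  have hY := itoY R hU hF
  have hQ := R.ito_add _ _ _ _ _ _ _ _ (R.ito_mul _ _ _ _ _ _ _ _ hX hX)
    (R.ito_mul _ _ _ _ _ _ _ _ hY hY)
  have hC := R.ito_comp _ _ _ _ (fun x => 1 / 2 * Real.log x) (fun x => 1 / 2 * x⁻¹)
    (fun x => 1 / 2 * (-(x ^ 2)⁻¹)) (Ioi 0) hQ isOpen_Ioi ordConnected_Ioi
    (fun s hs => q_pos (hF.im_pos s hs))
    (fun x hx => (Real.hasDerivAt_log (ne_of_gt hx)).const_mul _)
    (fun x hx => (hasDerivAt_inv (ne_of_gt hx)).const_mul _)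
    (continuousOn_const.mul ((continuousOn_pow 2).inv₀
      fun x hx => pow_ne_zero 2 (ne_of_gt hx)).neg)
  refine R.ito_congr _ _ _ _ _ _ _ _ hC ?_ ?_ ?_ ?_ <;> intro s hs
  · exact (log_norm_eq _).symm
  all_goals
    have hq := (q_pos (hF.im_pos s hs)).ne'
    simp only [pR, sI, Complex.normSq_apply]
    field_simp
    ring

lemma logIm (R : StepRules U σ τ) (hU : ContinuousOn U (Icc σ τ)) (hF : Flow a U σ τ z y) :
    Ito U σ τ (fun s => Real.log (z s).im) (fun _ => 0) (fun _ => 0)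
      (fun s => -a * (pR (z s) ^ 2 + sI (z s) ^ 2)) := by
  refine R.of_deriv _ _ (fun s hs => ?_)
    (continuousOn_const.mul (((cont_p hU hF).pow 2).add ((cont_s hU hF).pow 2)))
  have h0 := (hF.im_pos s hs).ne'
  have hq := (q_pos (hF.im_pos s hs)).ne'
  convert (der_Y hF s hs).log h0 using 1
  simp only [pR, sI, Complex.normSq_apply]
  field_simp

lemma logUps (R : StepRules U σ τ) (hU : ContinuousOn U (Icc σ τ)) (hF : Flow a U σ τ z y) :
    Ito U σ τ (fun s => Real.log (y s)) (fun _ => 0) (fun _ => 0)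
      (fun s => -(2 * a) * sI (z s) ^ 2) := by
  refine R.of_deriv _ _ (fun s hs => ?_) (continuousOn_const.mul ((cont_s hU hF).pow 2))
  have h0 := (hF.y_pos s hs).ne'
  convert (hF.dy s hs).log h0 using 1
  field_simp

lemma logSin (R : StepRules U σ τ) (hU : ContinuousOn U (Icc σ τ)) (hF : Flow a U σ τ z y) :
    Ito U σ τ (fun s => Real.log (sinA (z s))) (fun s => pR (z s))
      (fun s => pR (z s) ^ 2 - sI (z s) ^ 2) (fun s => -(2 * a) * pR (z s) ^ 2) := by
  refine R.ito_congr _ _ _ _ _ _ _ _ (R.ito_add _ _ _ _ _ _ _ _ (logIm R hU hF)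
    (R.ito_smul (-1) _ _ _ _ (logNorm R hU hF))) ?_ ?_ ?_ ?_ <;> intro s hs
  · have h0 := hF.im_pos s hs
    simp only [sinA]
    rw [Real.log_div h0.ne' (norm_ne_zero_iff.2 (ne_zero h0))]
    ring
  all_goals
    simp only
    ring

lemma sin (R : StepRules U σ τ) (hU : ContinuousOn U (Icc σ τ)) (hF : Flow a U σ τ z y) :
    Ito U σ τ (fun s => sinA (z s)) (fun s => sinA (z s) * pR (z s))
      (fun s => sinA (z s) * (2 * pR (z s) ^ 2 - sI (z s) ^ 2))
      (fun s => -(2 * a) * sinA (z s) * pR (z s) ^ 2) := by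
  have hC := R.ito_comp _ _ _ _ Real.exp Real.exp Real.exp univ (logSin R hU hF) isOpen_univ
    ordConnected_univ (mapsTo_univ _ _) (fun x _ => Real.hasDerivAt_exp x)
    (fun x _ => Real.hasDerivAt_exp x) Real.continuous_exp.continuousOn
  refine R.ito_congr _ _ _ _ _ _ _ _ hC ?_ ?_ ?_ ?_ <;> intro s hs
  all_goals
    have h0 := hF.im_pos s hs
    have hp : 0 < sinA (z s) := div_pos h0 (norm_pos_iff.2 (ne_zero h0))
    simp only [Real.exp_log hp]
  all_goals ring

lemma sinSq (R : StepRules U σ τ) (hU : ContinuousOn U (Icc σ τ)) (hF : Flow a U σ τ z y) :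
    Ito U σ τ (fun s => sinA (z s) ^ 2) (fun s => 2 * sinA (z s) ^ 2 * pR (z s))
      (fun s => sinA (z s) ^ 2 * (6 * pR (z s) ^ 2 - 2 * sI (z s) ^ 2))
      (fun s => -(4 * a) * sinA (z s) ^ 2 * pR (z s) ^ 2) := by
  have h := sin R hU hF
  refine R.ito_congr _ _ _ _ _ _ _ _ (R.ito_mul _ _ _ _ _ _ _ _ h h) ?_ ?_ ?_ ?_ <;> intro s _
  all_goals
    simp only
    ring

lemma logDist (hF : Flow a U σ τ z y) (w : ℝ → ℂ) (yw : ℝ → ℝ) (hW : Flow a U σ τ w yw)
    (hne : ∀ s ∈ Icc σ τ, z s ≠ w s) (s : ℝ) (hs : s ∈ Icc σ τ) :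
    HasDerivWithinAt (fun r => Real.log (dN (z r) (w r))) (-a * pR (z s) * pR (w s))
      (Icc σ τ) s := by
  have hc : ∀ r ∈ Icc σ τ, z r - (starRingEnd ℂ) (w r) ≠ 0 := by
    intro r hr h
    have h1 := congrArg Complex.im h
    have h2 := hF.im_pos r hr
    have h3 := hW.im_pos r hr
    simp only [Complex.sub_im, Complex.conj_im, Complex.zero_im] at h1
    linarith
  have hz0 := ne_zero (hF.im_pos s hs)
  have hw0 := ne_zero (hW.im_pos s hs)
  have hf : HasDerivWithinAt (fun r => z r - w r) ((a : ℂ) / z s - (a : ℂ) / w s) (Icc σ τ) s := by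
    refine ((hF.dz s hs).sub (hW.dz s hs)).congr (fun r _ => ?_) ?_ <;> simp
  have hg : HasDerivWithinAt (fun r => z r - (starRingEnd ℂ) (w r))
      ((a : ℂ) / z s - (a : ℂ) / (starRingEnd ℂ) (w s)) (Icc σ τ) s := by
    refine (((hF.dz s hs).sub (der_conj (hW.dz s hs))).congr (fun r _ => ?_) ?_).congr_deriv ?_
      <;> simp
  have h1 := der_log_norm hf (sub_ne_zero.2 (hne s hs))
  have h2 := der_log_norm hg (hc s hs)
  rw [dist_re a hz0 hw0 (sub_ne_zero.2 (hne s hs))] at h1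
  rw [dist_re a hz0 (by simpa using hw0) (hc s hs)] at h2
  have h3 := (h1.add h2).div_const 2
  have key : ∀ r ∈ Icc σ τ, Real.log (dN (z r) (w r)) =
      (Real.log ‖z r - w r‖ + Real.log ‖z r - (starRingEnd ℂ) (w r)‖) / 2 := by
    intro r hr
    rw [dN, Real.log_sqrt (by positivity), Real.log_mul
      (norm_ne_zero_iff.2 (sub_ne_zero.2 (hne r hr))) (norm_ne_zero_iff.2 (hc r hr))]
  refine (HasDerivWithinAt.congr h3 key (key s hs)).congr_deriv ?_
  simp only [pR, sI, Complex.conj_re, Complex.conj_im, Complex.normSq_conj]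
  ring

end Jet

theorem jet_stmt (hS : StepStmt) : JetStmt := by
  intro a U σ τ z y hU hF
  have R := hS U σ τ hU
  exact ⟨Jet.cont_z hU hF, fun s hs => (hF.dy s hs).continuousWithinAt, Jet.logNorm R hU hF,
    Jet.logIm R hU hF, Jet.logUps R hU hF, Jet.logSin R hU hF, Jet.sin R hU hF,
    Jet.sinSq R hU hF, Jet.logDist hF⟩

end Pool.Agent.MP_990230_pr

end
end MrgPart0

-- ======== part 1: formerly Pool.Agent.MP_990230_pr.MeasA
section MrgPart1

/-! PROJECT SLE, module MEASA: the Loewner flow is adapted. -/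

open Set MeasureTheory ProbabilityTheory Filter
open scoped ENNReal NNReal Topology

noncomputable section

namespace Pool.Agent.MP_990230_pr

namespace MeasA

/-- A map into a space of continuous functions is Borel as soon as its evaluations are. -/
theorem measurable_cm {Ω K : Type*} {m : MeasurableSpace Ω} [TopologicalSpace K] [CompactSpace K]
    [T2Space K] [SecondCountableTopology K] [MeasurableSpace C(K, ℝ)] [BorelSpace C(K, ℝ)]
    {Φ : Ω → C(K, ℝ)} (h : ∀ s, Measurable[m] fun ω => Φ ω s) : Measurable[m] Φ := by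
  obtain ⟨D, hD, hd⟩ := TopologicalSpace.exists_countable_dense K
  have := hD.to_subtype
  have h1 : Continuous fun (f : C(K, ℝ)) (x : D) => f x := by fun_prop
  have h2 : Function.Injective fun (f : C(K, ℝ)) (x : D) => f x := fun f g hfg =>
    ContinuousMap.ext (congrFun (Continuous.ext_on hd f.continuous g.continuous
      fun x hx => congrFun hfg ⟨x, hx⟩))
  exact (h1.measurableEmbedding h2).measurable_comp_iff.1 (measurable_pi_lambda _ fun x => h x)

theorem clip_lip (μ : ℝ) (x y : ℂ) : ‖clip μ x - clip μ y‖ ≤ ‖x - y‖ := by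
  refine (sq_le_sq₀ (norm_nonneg _) (norm_nonneg _)).1 ?_
  rw [Complex.sq_norm, Complex.sq_norm, Complex.normSq_apply, Complex.normSq_apply]
  have := mul_self_le_mul_self (abs_nonneg _) (abs_max_sub_max_le_abs x.im y.im μ)
  rw [abs_mul_abs_self, abs_mul_abs_self] at this
  simpa [clip] using this

theorem clip_eq {μ : ℝ} {x : ℂ} (h : μ ≤ x.im) : clip μ x = x :=
  Complex.ext rfl (max_eq_left h)

theorem field_lip {a μ : ℝ} (ha : 0 < a) (hμ : 0 < μ) (x y : ℂ) (u v : ℝ) :
    ‖(a : ℂ) / (clip μ x - u) - a / (clip μ y - v)‖ ≤ a / μ ^ 2 * (‖x - y‖ + |u - v|) := by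
  have h : ∀ (x : ℂ) (u : ℝ), μ ≤ ‖clip μ x - u‖ := fun x u =>
    le_trans (by simp [clip]) (Complex.im_le_norm _)
  have h1 := h x u
  have h2 := h y v
  have n1 : clip μ x - u ≠ 0 := norm_pos_iff.1 (hμ.trans_le h1)
  have n2 : clip μ y - v ≠ 0 := norm_pos_iff.1 (hμ.trans_le h2)
  have e : (a : ℂ) / (clip μ x - u) - a / (clip μ y - v) =
      a * (((u - v : ℝ) : ℂ) - (clip μ x - clip μ y)) / ((clip μ x - u) * (clip μ y - v)) := by
    push_cast
    field_simp
    ring
  have h3 : ‖((u - v : ℝ) : ℂ) - (clip μ x - clip μ y)‖ ≤ ‖x - y‖ + |u - v| := by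
    refine (norm_sub_le _ _).trans ?_
    rw [Complex.norm_real, Real.norm_eq_abs, add_comm]
    exact add_le_add (clip_lip μ x y) le_rfl
  rw [e, norm_div, norm_mul, norm_mul, Complex.norm_real, Real.norm_of_nonneg ha.le,
    div_mul_eq_mul_div, sq]
  gcongr

theorem isSol_congr {a : ℝ} {U V : ℝ → ℝ} {z : ℂ} {t : ℝ} (h : EqOn U V (Icc 0 t)) {g : ℝ → ℂ}
    (hg : IsSol a U z t g) : IsSol a V z t g :=
  ⟨hg.1, fun s hs => h hs ▸ hg.2 s hs⟩

/-- Stability of the flow under uniform perturbations of the driving function. -/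
theorem near (hC : ClipStmt) (hA : LoeAStmt) {a : ℝ} (ha : 0 < a) {U : ℝ → ℝ} (hU : Continuous U)
    {z : ℂ} {t : ℝ} (ht : 0 ≤ t) (h : Alive a U z t) : ∃ μ : ℝ, 0 < μ ∧ ∀ ε : ℝ, 0 < ε →
      ∃ δ : ℝ, 0 < δ ∧ ∀ V : ℝ → ℝ, Continuous V → (∀ s ∈ Icc 0 t, |V s - U s| ≤ δ) →
        Alive a V z t ∧ ∀ s ∈ Icc 0 t, μ ≤ (Zt a V z s).im ∧ ‖Zt a V z s - Zt a U z s‖ ≤ ε := by
  obtain ⟨hz, g0, hg0⟩ := h
  have L := hA a U ha hU
  have c0 : ContinuousOn g0 (Icc 0 t) := fun s hs => (hg0.2 s hs).2.continuousWithinAt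
  obtain ⟨s0, hs0, hmin⟩ := isCompact_Icc.exists_isMinOn (nonempty_Icc.2 ht)
    (Complex.continuous_im.comp_continuousOn c0)
  have hpos : 0 < (g0 s0).im := by
    have := (L.flow z 0 t le_rfl ht ⟨hz, g0, hg0⟩).im_pos s0 hs0
    rwa [L.sol z t g0 hz hg0 s0 hs0, Complex.sub_im, Complex.ofReal_im, sub_zero] at this
  obtain ⟨μ, hμ, hμ2⟩ : ∃ μ : ℝ, 0 < μ ∧ ∀ s ∈ Icc 0 t, 2 * μ ≤ (g0 s).im :=
    ⟨(g0 s0).im / 2, half_pos hpos, fun s hs => by
      have : (g0 s0).im ≤ (g0 s).im := hmin hs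
      linarith⟩
  refine ⟨μ, hμ, fun ε hε => ?_⟩
  let K : ℝ≥0 := ⟨a / μ ^ 2, by positivity⟩
  have hK : (K : ℝ) = a / μ ^ 2 := rfl
  have e1 : ∀ᶠ δ : ℝ in 𝓝 0, gronwallBound 0 K (0 + K * δ) t + δ < min μ ε :=
    ContinuousAt.eventually_lt ((((gronwallBound_continuous_ε 0 K t).comp
      (by fun_prop : Continuous fun δ : ℝ => 0 + K * δ)).add continuous_id).continuousAt)
      continuousAt_const (by simp [gronwallBound_ε0_δ0, hμ, hε])
  obtain ⟨δ, hδ1, hδ⟩ := ((e1.filter_mono nhdsWithin_le_nhds).and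
    (self_mem_nhdsWithin (a := (0 : ℝ)) (s := Ioi 0))).exists
  have hδ : 0 < δ := hδ
  refine ⟨δ, hδ, fun V hV hVU => ?_⟩
  obtain ⟨g, hgz, hg⟩ := hC a V μ z t hV hμ
  have hI : ∀ s ∈ Ico 0 t, Icc 0 t ∈ 𝓝[Ici s] s := fun s hs => Icc_mem_nhdsGE_of_mem hs
  have key := dist_le_of_approx_trajectories_ODE (K := K) (εf := 0) (εg := K * δ) (δ := 0)
    (v := fun s x => (a : ℂ) / (clip μ x - U s))
    (fun s => LipschitzWith.of_dist_le_mul fun x y => by
      simpa [dist_eq_norm, hK] using field_lip ha hμ x y (U s) (U s))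
    c0 (fun s hs => (hg0.2 s (Ico_subset_Icc_self hs)).2.mono_of_mem_nhdsWithin (hI s hs))
    (fun s hs => by
      rw [clip_eq (by linarith [hμ2 s (Ico_subset_Icc_self hs)]), dist_self])
    (fun s hs => (hg s hs).continuousWithinAt)
    (fun s hs => (hg s (Ico_subset_Icc_self hs)).mono_of_mem_nhdsWithin (hI s hs))
    (fun s hs => by
      have := field_lip ha hμ (g s) (g s) (V s) (U s)
      rw [sub_self, norm_zero, zero_add] at this
      rw [dist_eq_norm, hK]
      exact this.trans (by gcongr; exact hVU s (Ico_subset_Icc_self hs)))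
    (by rw [hgz, hg0.1, dist_self])
  have k2 : ∀ s ∈ Icc 0 t, ‖g s - g0 s‖ + δ < min μ ε := fun s hs => by
    have h1 := key s hs
    have h2 := gronwallBound_mono (δ := 0) (K := K) (ε := 0 + K * δ) le_rfl (by positivity)
      K.2 (show s - 0 ≤ t by linarith [hs.2])
    rw [dist_comm, dist_eq_norm] at h1
    linarith
  have k3 : ∀ s ∈ Icc 0 t, μ ≤ (g s).im := fun s hs => by
    have h1 := (k2 s hs).trans_le (min_le_left _ _)
    have h2 := (abs_le.1 (Complex.abs_im_le_norm (g s - g0 s))).1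
    rw [Complex.sub_im] at h2
    linarith [hμ2 s hs]
  have hs : IsSol a V z t g := ⟨hgz, fun s hs => ⟨fun he => by
    have := k3 s hs
    rw [he, Complex.ofReal_im] at this
    linarith, by simpa only [clip_eq (k3 s hs)] using hg s hs⟩⟩
  refine ⟨⟨hz, g, hs⟩, fun s hs' => ?_⟩
  rw [(hA a V ha hV).sol z t g hz hs s hs', L.sol z t g0 hz hg0 s hs']
  refine ⟨by simpa using k3 s hs', ?_⟩
  have e : g s - V s - (g0 s - U s) = g s - g0 s - ((V s - U s : ℝ) : ℂ) := by
    push_cast; ring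
  rw [e]
  refine (norm_sub_le _ _).trans ?_
  rw [Complex.norm_real, Real.norm_eq_abs]
  linarith [hVU s hs', (k2 s hs').trans_le (min_le_right _ _)]

/-- Extension of a function on `[0, t]`. -/
def ext {t : ℝ} (ht : 0 ≤ t) (V : C(Icc (0 : ℝ) t, ℝ)) : ℝ → ℝ := fun s => V (projIcc 0 t ht s)

theorem ext_cont {t : ℝ} (ht : 0 ≤ t) (V : C(Icc (0 : ℝ) t, ℝ)) : Continuous (ext ht V) :=
  V.continuous.comp continuous_projIcc

theorem near' (hC : ClipStmt) (hA : LoeAStmt) {a : ℝ} (ha : 0 < a) {z : ℂ} {t : ℝ} (ht : 0 ≤ t)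
    {U : C(Icc (0 : ℝ) t, ℝ)} (h : Alive a (ext ht U) z t) : ∃ μ : ℝ, 0 < μ ∧
      (∀ᶠ V in 𝓝 U, Alive a (ext ht V) z t ∧ ∀ s ∈ Icc 0 t, μ ≤ (Zt a (ext ht V) z s).im) ∧
      ∀ s ∈ Icc 0 t, ContinuousAt (fun V => Zt a (ext ht V) z s) U := by
  obtain ⟨μ, hμ, H⟩ := near hC hA ha (ext_cont ht U) ht h
  have H' : ∀ ε : ℝ, 0 < ε → ∀ᶠ V in 𝓝 U, Alive a (ext ht V) z t ∧ ∀ s ∈ Icc 0 t,
      μ ≤ (Zt a (ext ht V) z s).im ∧ ‖Zt a (ext ht V) z s - Zt a (ext ht U) z s‖ ≤ ε := by
    intro ε hε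
    obtain ⟨δ, hδ, H1⟩ := H ε hε
    filter_upwards [Metric.closedBall_mem_nhds U hδ] with V hV
    exact H1 _ (ext_cont ht V) fun s _ => (ContinuousMap.dist_apply_le_dist _).trans hV
  refine ⟨μ, hμ, (H' 1 one_pos).mono fun V hV => ⟨hV.1, fun s hs => (hV.2 s hs).1⟩,
    fun s hs => Metric.nhds_basis_closedBall.tendsto_right_iff.2 fun ε hε => ?_⟩
  exact (H' ε hε).mono fun V hV => mem_closedBall_iff_norm.2 (hV.2 s hs).2

theorem sI_contAt {Z : ℂ} (h : 0 < Z.im) : ContinuousAt sI Z :=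
  Complex.continuous_im.continuousAt.div Complex.continuous_normSq.continuousAt
    (by rw [Ne, Complex.normSq_eq_zero]; rintro rfl; simp at h)

theorem sI_sq_le {μ : ℝ} (hμ : 0 < μ) {Z : ℂ} (h : μ ≤ Z.im) : ‖sI Z ^ 2‖ ≤ (1 / μ) ^ 2 := by
  have h0 : 0 < Z.im := hμ.trans_le h
  have h1 : Z.im * Z.im ≤ Complex.normSq Z := Complex.im_sq_le_normSq Z
  have h2 : 0 < Complex.normSq Z := (mul_pos h0 h0).trans_le h1
  rw [Real.norm_of_nonneg (sq_nonneg _), sI]
  refine pow_le_pow_left₀ (by positivity) ?_ 2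
  rw [div_le_div_iff₀ h2 hμ]
  nlinarith

theorem meas_ext (hC : ClipStmt) (hA : LoeAStmt) {a : ℝ} (ha : 0 < a) (z : ℂ) {t : ℝ} (ht : 0 ≤ t)
    [MeasurableSpace C(Icc (0 : ℝ) t, ℝ)] [BorelSpace C(Icc (0 : ℝ) t, ℝ)] :
    Measurable (fun V => Zt a (ext ht V) z t) ∧ Measurable fun V => ups a (ext ht V) z t := by
  classical
  let A : Set C(Icc (0 : ℝ) t, ℝ) := {V | Alive a (ext ht V) z t}
  have hAo : IsOpen A := isOpen_iff_mem_nhds.2 fun U hU => by
    obtain ⟨μ, -, h, -⟩ := near' hC hA ha ht hU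
    exact h.mono fun V hV => hV.1
  constructor
  · rw [← A.piecewise_same fun V => Zt a (ext ht V) z t]
    refine ContinuousOn.measurable_piecewise (fun U hU => ?_)
      (continuousOn_const.congr fun V hV => dif_neg hV) hAo.measurableSet
    obtain ⟨μ, -, -, h⟩ := near' hC hA ha ht hU
    exact (h t ⟨ht, le_rfl⟩).continuousWithinAt
  · rw [← A.piecewise_same fun V => ups a (ext ht V) z t]
    refine ContinuousOn.measurable_piecewise (ContinuousOn.congr (fun U hU => ?_)
      fun V hV => if_pos hV) (continuousOn_const.congr fun V hV => if_neg hV) hAo.measurableSet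
    obtain ⟨μ, hμ, h1, h2⟩ := near' hC hA ha ht hU
    have hI : uIoc 0 t ⊆ Icc 0 t := by rw [uIoc_of_le ht]; exact Ioc_subset_Icc_self
    have h3 : ContinuousAt (fun V => ∫ r in (0 : ℝ)..t, sI (Zt a (ext ht V) z r) ^ 2) U := by
      refine intervalIntegral.continuousAt_of_dominated_interval (bound := fun _ => (1 / μ) ^ 2)
        (h1.mono fun V hV => ?_) (h1.mono fun V hV => Eventually.of_forall fun s hs =>
          sI_sq_le hμ (hV.2 s (hI hs))) intervalIntegrable_const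
        (Eventually.of_forall fun s hs => (ContinuousAt.comp (f := fun V => Zt a (ext ht V) z s)
          (sI_contAt (hμ.trans_le (h1.self_of_nhds.2 s (hI hs)))) (h2 s (hI hs))).pow 2)
      refine ContinuousOn.aestronglyMeasurable (fun s hs => ?_) measurableSet_uIoc
      have f := ((hA a _ ha (ext_cont ht V)).flow z 0 t le_rfl ht hV.1).dz s (hI hs)
      have f2 : ContinuousWithinAt (Zt a (ext ht V) z) (Icc 0 t) s := by
        simpa [Pi.sub_def] using f.continuousWithinAt.sub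
          (Complex.continuous_ofReal.comp (ext_cont ht V)).continuousWithinAt
      exact (((sI_contAt (hμ.trans_le (hV.2 s (hI hs)))).comp_continuousWithinAt f2).pow 2).mono hI
    exact (continuousAt_const.mul (continuousAt_const.mul h3).rexp).continuousWithinAt

theorem congr_drv (hA : LoeAStmt) {a : ℝ} (ha : 0 < a) {U V : ℝ → ℝ} (hU : Continuous U)
    (hV : Continuous V) (z : ℂ) {t : ℝ} (ht : 0 ≤ t) (h : EqOn U V (Icc 0 t)) :
    Zt a U z t = Zt a V z t ∧ ups a U z t = ups a V z t := by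
  by_cases h1 : Alive a U z t
  · obtain ⟨hz, g, hg⟩ := h1
    have hg' := isSol_congr h hg
    have e : ∀ s ∈ Icc 0 t, Zt a U z s = Zt a V z s := fun s hs => by
      rw [(hA a U ha hU).sol z t g hz hg s hs, (hA a V ha hV).sol z t g hz hg' s hs, h hs]
    refine ⟨e t ⟨ht, le_rfl⟩, ?_⟩
    rw [ups, ups, if_pos ⟨hz, g, hg⟩, if_pos ⟨hz, g, hg'⟩,
      intervalIntegral.integral_congr fun s hs => by rw [e s (by rwa [uIcc_of_le ht] at hs)]]
  · have h2 : ¬Alive a V z t := fun ⟨hz, g, hg⟩ => h1 ⟨hz, g, isSol_congr h.symm hg⟩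
    rw [Zt, Zt, ups, ups, dif_neg h1, dif_neg h2, if_neg h1, if_neg h2]
    exact ⟨rfl, rfl⟩

end MeasA

universe u

open MeasA in
theorem measA_stmt (hC : ClipStmt) (hA : LoeAStmt) : MeasAStmt.{u} := by
  intro a ha Ω mΩ P U F hB z t ht
  borelize C(Icc (0 : ℝ) t, ℝ)
  let Φ : Ω → C(Icc (0 : ℝ) t, ℝ) := fun ω =>
    ⟨fun s => U ω s, (hB.cont ω).comp continuous_subtype_val⟩
  have hΦ : Measurable[F t] Φ :=
    measurable_cm fun s => (hB.adapt s).mono (F.mono s.2.2) le_rfl
  have e : ∀ ω, _ := fun ω => congr_drv hA ha (hB.cont ω) (ext_cont ht (Φ ω)) z ht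
    fun s hs => by simp [MeasA.ext, Φ, projIcc_of_mem ht hs]
  obtain ⟨h1, h2⟩ := meas_ext hC hA ha z ht
  simp only [fun ω => (e ω).1, fun ω => (e ω).2]
  exact ⟨h1.comp hΦ, h2.comp hΦ⟩

end Pool.Agent.MP_990230_pr

end
end MrgPart1

-- ======== part 2: formerly Pool.Agent.MP_990230_pr.MeasB
section MrgPart2

/-!
# Module MEASB of PROJECT SLE: measurability of values at hitting times and of chain events
-/

open Set MeasureTheory ProbabilityTheory Filter
open scoped ENNReal NNReal Topology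

noncomputable section

namespace Pool.Agent.MP_990230_pr

universe u

namespace MeasB

section det

variable {a : ℝ} {U : ℝ → ℝ}

lemma lt_ups_hit_iff (hL : LoeA a U) (z w : ℂ) (lam c : ℝ) {t : ℝ} (ht : 0 ≤ t)
    (h : ups a U z t ≤ lam) :
    c < ups a U w (hit a U z lam) ↔ (c < ups a U w t ∨
      ∃ q : ℚ, (0 ≤ (q : ℝ) ∧ (q : ℝ) ≤ t) ∧ ups a U z q ≤ lam ∧ c < ups a U w q) := by
  have hH : Hits a U z lam := ⟨t, ht, h⟩
  have h0 := hL.hit_nonneg z lam
  have h1 : hit a U z lam ≤ t := (hL.hit_le_iff z lam hH t ht).2 h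
  constructor
  · intro hc
    rcases h1.eq_or_lt with h2 | h2
    · left; rwa [← h2]
    · right
      have h3 : ∀ᶠ s in 𝓝[≥] (hit a U z lam), c < ups a U w s :=
        (hL.ups_rc w _ h0).eventually (lt_mem_nhds hc)
      obtain ⟨v, hv, hsub⟩ := mem_nhdsGE_iff_exists_Ico_subset.1 h3
      obtain ⟨q, hq1, hq2⟩ := exists_rat_btwn (lt_min (mem_Ioi.1 hv) h2)
      refine ⟨q, ⟨h0.trans hq1.le, (hq2.trans_le (min_le_right _ _)).le⟩,
        (hL.hit_le_iff z lam hH q (h0.trans hq1.le)).1 hq1.le, ?_⟩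
      exact hsub ⟨hq1.le, hq2.trans_le (min_le_left _ _)⟩
  · rintro (hc | ⟨q, ⟨hq0, -⟩, hq1, hq2⟩)
    · exact hc.trans_le (hL.ups_anti w h0 ht h1)
    · exact hq2.trans_le (hL.ups_anti w h0 hq0 ((hL.hit_le_iff z lam hH q hq0).2 hq1))

lemma hits_iff (hL : LoeA a U) (z : ℂ) (lam : ℝ) :
    Hits a U z lam ↔ ∃ n : ℕ, ups a U z n ≤ lam := by
  constructor
  · rintro ⟨t, ht, h⟩
    obtain ⟨n, hn⟩ := exists_nat_ge t
    exact ⟨n, (hL.ups_anti z ht (ht.trans hn) hn).trans h⟩
  · rintro ⟨n, hn⟩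
    exact ⟨n, Nat.cast_nonneg n, hn⟩

lemma ceev_iff (hL : LoeA a U) (Λ : ℝ) (N : ℕ) (ζ : ℕ → ℂ) (lam : ℕ → ℝ) :
    CEev a U Λ N ζ lam ↔ ∀ l < N, Hits a U (ζ l) (lam l) ∧ 0 < upsAt a U (ζ l) (lam l) (ζ l) ∧
      Λ * lam l ≤ (if l = 0 then ups a U (ζ l) 0 else
        upsAt a U (ζ (l - 1)) (lam (l - 1)) (ζ l)) := by
  have key : (∀ l < N, Hits a U (ζ l) (lam l)) → ∀ l < N,
      (Alive a U (ζ l) (hit a U (ζ l) (lam l)) ↔ 0 < upsAt a U (ζ l) (lam l) (ζ l)) ∧
      ups a U (ζ l) (prevT a U ζ lam l) = (if l = 0 then ups a U (ζ l) 0 else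
        upsAt a U (ζ (l - 1)) (lam (l - 1)) (ζ l)) := by
    intro h l hl
    refine ⟨?_, ?_⟩
    · unfold upsAt
      rw [if_pos (h l hl), hL.ups_pos_iff]
    · unfold prevT upsAt
      by_cases h0 : l = 0
      · simp [h0]
      · rw [if_neg h0, if_neg h0, if_pos (h (l - 1) (by omega))]
  constructor
  · intro h l hl
    obtain ⟨k1, k2⟩ := key (fun l hl => (h l hl).1) l hl
    exact ⟨(h l hl).1, k1.1 (h l hl).2.1, k2 ▸ (h l hl).2.2⟩
  · intro h l hl
    obtain ⟨k1, k2⟩ := key (fun l hl => (h l hl).1) l hl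
    exact ⟨(h l hl).1, k1.2 (h l hl).2.1, k2 ▸ (h l hl).2.2⟩

end det

lemma meas_fold_min {Ω ι : Type*} [MeasurableSpace Ω] (s : Finset ι) (b : ℝ) (f : ι → Ω → ℝ)
    (hf : ∀ i, Measurable (f i)) : Measurable (fun ω => s.fold min b (fun i => f i ω)) := by
  classical
  induction s using Finset.induction_on with
  | empty => simp
  | insert i s hi ih =>
    simp only [Finset.fold_insert hi]
    exact (hf i).min ih

section prob

variable {a : ℝ} {Ω : Type u} [mΩ : MeasurableSpace Ω] {P : Measure Ω} {U : Ω → ℝ → ℝ}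
  {F : Filtration ℝ mΩ}

lemma meas_first (ha : 0 < a) (hA : LoeAStmt) (hM : MeasAStmt.{u}) (hB : BMSetup P U F)
    (z : ℂ) (lam : ℝ) (w : ℂ) (t : ℝ) (ht : 0 ≤ t) : Measurable[F t]
      (fun ω => if ups a (U ω) z t ≤ lam then ups a (U ω) w (hit a (U ω) z lam) else 0) := by
  have hu : ∀ (x : ℂ) (s : ℝ), 0 ≤ s ∧ s ≤ t → Measurable[F t] (fun ω => ups a (U ω) x s) :=
    fun x s hs => ((hM a ha Ω P U F hB x s hs.1).2).mono (F.mono hs.2) le_rfl
  let _ : MeasurableSpace Ω := F t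
  refine measurable_of_Ioi fun c => ?_
  have e : (fun ω => if ups a (U ω) z t ≤ lam then ups a (U ω) w (hit a (U ω) z lam) else 0) ⁻¹'
      Ioi c = {ω | (ups a (U ω) z t ≤ lam ∧ (c < ups a (U ω) w t ∨
        ∃ q : ℚ, (0 ≤ (q : ℝ) ∧ (q : ℝ) ≤ t) ∧ ups a (U ω) z q ≤ lam ∧ c < ups a (U ω) w q)) ∨
        (lam < ups a (U ω) z t ∧ c < 0)} := by
    ext ω
    simp only [mem_preimage, mem_Ioi, mem_ofPred_eq]
    by_cases h : ups a (U ω) z t ≤ lam
    · rw [if_pos h, lt_ups_hit_iff (hA a (U ω) ha (hB.cont ω)) z w lam c ht h]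
      simp [h, not_lt.2 h]
    · rw [if_neg h]
      simp [h, not_le.1 h]
  rw [e]
  refine measurableSet_setOfPred.2 (Measurable.or (Measurable.and ?_ (Measurable.or ?_
    (Measurable.exists fun q => ?_))) (Measurable.and ?_ measurable_const))
  · exact measurableSet_setOfPred.1 (measurableSet_le (hu z t ⟨ht, le_rfl⟩) measurable_const)
  · exact measurableSet_setOfPred.1 (measurableSet_lt measurable_const (hu w t ⟨ht, le_rfl⟩))
  · by_cases hq : 0 ≤ (q : ℝ) ∧ (q : ℝ) ≤ t
    · exact Measurable.and measurable_const (Measurable.and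
        (measurableSet_setOfPred.1 (measurableSet_le (hu z q hq) measurable_const))
        (measurableSet_setOfPred.1 (measurableSet_lt measurable_const (hu w q hq))))
    · simp only [hq, false_and]
      exact measurable_const
  · exact measurableSet_setOfPred.1 (measurableSet_lt measurable_const (hu z t ⟨ht, le_rfl⟩))

lemma meas_ups (ha : 0 < a) (hM : MeasAStmt.{u}) (hB : BMSetup P U F) (x : ℂ) (s : ℝ)
    (hs : 0 ≤ s) : Measurable (fun ω => ups a (U ω) x s) :=
  ((hM a ha Ω P U F hB x s hs).2).mono (F.le s) le_rfl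

lemma meas_hits (ha : 0 < a) (hA : LoeAStmt) (hM : MeasAStmt.{u}) (hB : BMSetup P U F)
    (z : ℂ) (lam : ℝ) : MeasurableSet {ω | Hits a (U ω) z lam} := by
  have e : {ω | Hits a (U ω) z lam} = {ω | ∃ n : ℕ, ups a (U ω) z n ≤ lam} := by
    ext ω
    exact hits_iff (hA a (U ω) ha (hB.cont ω)) z lam
  rw [e]
  exact measurableSet_setOfPred.2 (Measurable.exists fun n => measurableSet_setOfPred.1
    (measurableSet_le (meas_ups ha hM hB z n (Nat.cast_nonneg n)) measurable_const))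

lemma meas_upsAt (ha : 0 < a) (hA : LoeAStmt) (hM : MeasAStmt.{u}) (hB : BMSetup P U F)
    (z : ℂ) (lam : ℝ) (w : ℂ) : Measurable (fun ω => upsAt a (U ω) z lam w) := by
  have hf : ∀ n : ℕ, Measurable (fun ω =>
      if ups a (U ω) z n ≤ lam then ups a (U ω) w (hit a (U ω) z lam) else 0) :=
    fun n => (meas_first ha hA hM hB z lam w n (Nat.cast_nonneg n)).mono (F.le _) le_rfl
  refine measurable_of_Ioi fun c => ?_
  have e : (fun ω => upsAt a (U ω) z lam w) ⁻¹' Ioi c = {ω | (∃ n : ℕ, ups a (U ω) z n ≤ lam ∧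
      c < (if ups a (U ω) z n ≤ lam then ups a (U ω) w (hit a (U ω) z lam) else 0)) ∨
      (¬ Hits a (U ω) z lam ∧ c < 0)} := by
    ext ω
    simp only [mem_preimage, mem_Ioi, mem_ofPred_eq]
    have hi := hits_iff (hA a (U ω) ha (hB.cont ω)) z lam
    unfold upsAt
    by_cases h : Hits a (U ω) z lam
    · rw [if_pos h]
      constructor
      · intro hc
        obtain ⟨n, hn⟩ := hi.1 h
        exact Or.inl ⟨n, hn, by rwa [if_pos hn]⟩
      · rintro (⟨n, hn, hc⟩ | ⟨hn, -⟩)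
        · rwa [if_pos hn] at hc
        · exact absurd h hn
    · rw [if_neg h]
      constructor
      · intro hc
        exact Or.inr ⟨h, hc⟩
      · rintro (⟨n, hn, -⟩ | ⟨-, hc⟩)
        · exact absurd (hi.2 ⟨n, hn⟩) h
        · exact hc
  rw [e]
  refine measurableSet_setOfPred.2 (Measurable.or (Measurable.exists fun n => Measurable.and ?_ ?_)
    (Measurable.and (Measurable.not ?_) measurable_const))
  · exact measurableSet_setOfPred.1
      (measurableSet_le (meas_ups ha hM hB z n (Nat.cast_nonneg n)) measurable_const)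
  · exact measurableSet_setOfPred.1 (measurableSet_lt measurable_const (hf n))
  · exact measurableSet_setOfPred.1 (meas_hits ha hA hM hB z lam)

end prob

end MeasB

theorem measB_stmt (hA : LoeAStmt) (hM : MeasAStmt.{u}) : MeasBStmt.{u} := by
  intro a ha Ω mΩ P U F hB
  refine ⟨fun z lam w t ht => MeasB.meas_first ha hA hM hB z lam w t ht,
    fun z lam => MeasB.meas_hits ha hA hM hB z lam,
    fun z lam w => MeasB.meas_upsAt ha hA hM hB z lam w, fun z lam z0 η ν N0 => ?_,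
    fun Λ N ζ lam => ?_⟩
  · unfold rho
    exact MeasB.meas_fold_min (net z0 ν N0) (3 * η)
      (fun q ω => ‖q - z0‖ + 2 * upsAt a (U ω) z lam q) fun q =>
        measurable_const.add ((MeasB.meas_upsAt ha hA hM hB z lam q).const_mul 2)
  · have e : {ω | CEev a (U ω) Λ N ζ lam} = {ω | ∀ l < N, Hits a (U ω) (ζ l) (lam l) ∧
        0 < upsAt a (U ω) (ζ l) (lam l) (ζ l) ∧
        Λ * lam l ≤ (if l = 0 then ups a (U ω) (ζ l) 0 else
          upsAt a (U ω) (ζ (l - 1)) (lam (l - 1)) (ζ l))} := by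
      ext ω
      exact MeasB.ceev_iff (hA a (U ω) ha (hB.cont ω)) Λ N ζ lam
    rw [e]
    refine measurableSet_setOfPred.2 (Measurable.forall fun l => Measurable.imp measurable_const
      (Measurable.and ?_ (Measurable.and ?_ ?_)))
    · exact measurableSet_setOfPred.1 (MeasB.meas_hits ha hA hM hB _ _)
    · exact measurableSet_setOfPred.1
        (measurableSet_lt measurable_const (MeasB.meas_upsAt ha hA hM hB _ _ _))
    · refine measurableSet_setOfPred.1 (measurableSet_le measurable_const ?_)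
      by_cases h0 : l = 0
      · simp only [if_pos h0]
        exact MeasB.meas_ups ha hM hB _ 0 le_rfl
      · simp only [if_neg h0]
        exact MeasB.meas_upsAt ha hA hM hB _ _ _

end Pool.Agent.MP_990230_pr

end
end MrgPart2

-- ======== part 3: formerly Pool.Agent.MP_990230_pr.GL1
section MrgPart3

/-!
# PROJECT SLE, module GL, part 1: Gaussian moments and the discrete inequality
-/

open Set MeasureTheory ProbabilityTheory Filter
open scoped ENNReal NNReal Topology

noncomputable section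

namespace Pool.Agent.MP_990230_pr

namespace GenL

/-- the fourth moment of the standard Gaussian. -/
def c4 : ℝ := ∫ x, x ^ 4 ∂gaussianReal 0 1

lemma gint (v : ℝ≥0) (k : ℕ) : Integrable (fun x : ℝ => x ^ k) (gaussianReal 0 v) :=
  integrable_pow_of_mem_interior_integrableExpSet (X := fun x : ℝ => x)
    (by simp [integrableExpSet_fun_id_gaussianReal]) k

lemma gm2 (v : ℝ≥0) : ∫ x, x ^ 2 ∂gaussianReal 0 v = v := by
  have h := variance_fun_id_gaussianReal (μ := 0) (v := v)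
  rw [variance_of_integral_eq_zero (by fun_prop) integral_id_gaussianReal] at h
  exact h

lemma gm4 (v : ℝ≥0) : ∫ x, x ^ 4 ∂gaussianReal 0 v = (v : ℝ) ^ 2 * c4 := by
  have h := gaussianReal_map_const_mul (μ := 0) (v := 1) (Real.sqrt v)
  have e : (NNReal.mk (Real.sqrt v ^ 2) (sq_nonneg _) * 1 : ℝ≥0) = v := by
    ext; simp
  rw [e, mul_zero] at h
  rw [← h, integral_map (by fun_prop) (by fun_prop), c4, ← integral_const_mul]
  refine integral_congr_ae (Eventually.of_forall fun x => ?_)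
  have : Real.sqrt v ^ 2 = v := Real.sq_sqrt v.2
  simp only
  calc (Real.sqrt v * x) ^ 4 = (Real.sqrt v ^ 2) ^ 2 * x ^ 4 := by ring
    _ = _ := by rw [this]

variable {Ω : Type*} {mΩ : MeasurableSpace Ω} {P : Measure Ω} {U : Ω → ℝ → ℝ}
  {F : Filtration ℝ mΩ}

lemma measU (hB : BMSetup P U F) (t : ℝ) : Measurable (fun ω => U ω t) :=
  (hB.adapt t).mono (F.le t) le_rfl

lemma measD (hB : BMSetup P U F) (s t : ℝ) : Measurable (fun ω => U ω t - U ω s) :=
  (measU hB t).sub (measU hB s)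

lemma intD (hB : BMSetup P U F) {s t : ℝ} (hs : 0 ≤ s) (hst : s ≤ t) (k : ℕ) :
    Integrable (fun ω => (U ω t - U ω s) ^ k) P := by
  have h := gint (t - s).toNNReal k
  rw [← hB.law s t hs hst] at h
  exact (integrable_map_measure (continuous_pow k).aestronglyMeasurable
    (measD hB s t).aemeasurable).1 h

lemma expD (hB : BMSetup P U F) {s t : ℝ} (hs : 0 ≤ s) (hst : s ≤ t) (φ : ℝ → ℝ)
    (hφ : Continuous φ) :
    ∫ ω, φ (U ω t - U ω s) ∂P = ∫ x, φ x ∂gaussianReal 0 (t - s).toNNReal := by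
  rw [← hB.law s t hs hst, integral_map (measD hB s t).aemeasurable hφ.aestronglyMeasurable]

lemma exp1 (hB : BMSetup P U F) {s t : ℝ} (hs : 0 ≤ s) (hst : s ≤ t) :
    ∫ ω, (U ω t - U ω s) ∂P = 0 := by
  rw [expD hB hs hst (fun x => x) continuous_id, integral_id_gaussianReal]

lemma exp2 (hB : BMSetup P U F) {s t : ℝ} (hs : 0 ≤ s) (hst : s ≤ t) :
    ∫ ω, (U ω t - U ω s) ^ 2 ∂P = t - s := by
  rw [expD hB hs hst (fun x => x ^ 2) (by fun_prop), gm2, Real.coe_toNNReal _ (by linarith)]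

lemma exp4 (hB : BMSetup P U F) {s t : ℝ} (hs : 0 ≤ s) (hst : s ≤ t) :
    ∫ ω, (U ω t - U ω s) ^ 4 ∂P = (t - s) ^ 2 * c4 := by
  rw [expD hB hs hst (fun x => x ^ 4) (by fun_prop), gm4, Real.coe_toNNReal _ (by linarith)]

lemma indepD (hB : BMSetup P U F) {s t : ℝ} (hs : 0 ≤ s) (hst : s ≤ t) {f : Ω → ℝ}
    (hf : Measurable[F s] f) : IndepFun f (fun ω => U ω t - U ω s) P := by
  rw [IndepFun_iff_Indep]
  exact indep_of_indep_of_le_left (hB.indep s t hs hst) hf.comap_le

/-- the martingale increment is integrable with integral zero. -/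
lemma mart (hB : BMSetup P U F) {s t : ℝ} (hs : 0 ≤ s) (hst : s ≤ t) {f g : Ω → ℝ} {m : ℝ}
    (hf : Measurable[F s] f) (hg : Measurable[F s] g) (bf : ∀ ω, |f ω| ≤ m)
    (bg : ∀ ω, |g ω| ≤ m) :
    Integrable (fun ω => f ω * (U ω t - U ω s) + g ω * ((U ω t - U ω s) ^ 2 - (t - s))) P ∧
      ∫ ω, (f ω * (U ω t - U ω s) + g ω * ((U ω t - U ω s) ^ 2 - (t - s))) ∂P = 0 := by
  have := hB.prob
  have hf' : Measurable f := hf.mono (F.le s) le_rfl
  have hg' : Measurable g := hg.mono (F.le s) le_rfl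
  have i1 : Integrable (fun ω => U ω t - U ω s) P := by simpa using intD hB hs hst 1
  have i2 : Integrable (fun ω => (U ω t - U ω s) ^ 2 - (t - s)) P :=
    (intD hB hs hst 2).sub (integrable_const _)
  have j1 : Integrable (fun ω => f ω * (U ω t - U ω s)) P :=
    i1.bdd_mul (c := m) hf'.aestronglyMeasurable (Eventually.of_forall bf)
  have j2 : Integrable (fun ω => g ω * ((U ω t - U ω s) ^ 2 - (t - s))) P :=
    i2.bdd_mul (c := m) hg'.aestronglyMeasurable (Eventually.of_forall bg)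
  refine ⟨j1.add j2, ?_⟩
  rw [integral_add j1 j2]
  have e1 := (indepD hB hs hst hf).integral_fun_mul_eq_mul_integral hf'.aestronglyMeasurable
    i1.aestronglyMeasurable
  have hI : IndepFun g (fun ω => (U ω t - U ω s) ^ 2 - (t - s)) P :=
    (indepD hB hs hst hg).comp (φ := id) (ψ := fun x : ℝ => x ^ 2 - (t - s)) measurable_id
      (by fun_prop)
  have e2 := hI.integral_fun_mul_eq_mul_integral hg'.aestronglyMeasurable i2.aestronglyMeasurable
  have e3 : ∫ ω, ((U ω t - U ω s) ^ 2 - (t - s)) ∂P = 0 := by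
    rw [integral_sub (intD hB hs hst 2) (integrable_const _), exp2 hB hs hst]
    simp
  rw [e1, e2, exp1 hB hs hst, e3]
  simp

/-! ### the discrete scheme -/

/-- the first grid index at which the scheme has started. -/
def first (St : ℕ → Set Ω) : ℕ → Set Ω
  | 0 => St 0
  | k + 1 => St (k + 1) \ St k

/-- the scheme has arrived correctly at the grid index `k`. -/
def pre (St Rk good : ℕ → Set Ω) : ℕ → Set Ω
  | 0 => St 0
  | k + 1 => first St (k + 1) ∪ ((pre St Rk good k \ Rk k) ∩ good k)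

/-- the pointwise telescoping inequality. -/
lemma tele (St Rk good : ℕ → Set Ω) (n x y : ℕ → Ω → ℝ) (ω : Ω) (hn : ∀ k, 0 ≤ n k ω)
    (hy : ∀ k, 0 ≤ y k ω) (hgood : ∀ k, ω ∈ good k → n (k + 1) ω - n k ω ≤ x k ω + y k ω)
    (hbad : ∀ k, -n k ω ≤ x k ω + y k ω) (K : ℕ) :
    ∑ k ∈ Finset.range K, (pre St Rk good k ∩ Rk k).indicator (n k) ω
        + (pre St Rk good K).indicator (n K) ω
      ≤ ∑ k ∈ Finset.range (K + 1), (first St k).indicator (n k) ω
        + ∑ k ∈ Finset.range K, ((pre St Rk good k \ Rk k).indicator (x k) ω + y k ω) := by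
  classical
  induction K with
  | zero => simp [pre, first]
  | succ K ih =>
    rw [Finset.sum_range_succ, Finset.sum_range_succ _ (K + 1), Finset.sum_range_succ _ K]
    rw [Finset.sum_range_succ] at ih
    rw [Finset.sum_range_succ (fun k => (pre St Rk good k \ Rk k).indicator (x k) ω + y k ω)]
    have key : (pre St Rk good K ∩ Rk K).indicator (n K) ω
        + (pre St Rk good (K + 1)).indicator (n (K + 1)) ω
        ≤ (pre St Rk good K).indicator (n K) ω + (first St (K + 1)).indicator (n (K + 1)) ω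
          + ((pre St Rk good K \ Rk K).indicator (x K) ω + y K ω) := by
      have h1 := hn K
      have h2 := hn (K + 1)
      have h3 := hy K
      have h4 := hgood K
      have h5 := hbad K
      simp only [pre, indicator_apply, mem_inter_iff, Set.mem_sdiff, mem_union]
      by_cases a1 : ω ∈ pre St Rk good K <;> by_cases a2 : ω ∈ Rk K <;>
        by_cases a3 : ω ∈ good K <;> by_cases a4 : ω ∈ first St (K + 1) <;>
        simp only [a1, a2, a3, a4, not_true_eq_false, not_false_eq_true, and_true, and_false,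
          or_true, or_false, if_true, if_false, and_self,
          forall_const] at h4 ⊢ <;> linarith
    linarith

lemma meas_first {St : ℕ → Set Ω} {t : ℕ → ℝ} (ht : Monotone t)
    (hS : ∀ k, MeasurableSet[F (t k)] (St k)) (k : ℕ) :
    MeasurableSet[F (t k)] (first St k) := by
  cases k with
  | zero => exact hS 0
  | succ k => exact (hS (k + 1)).diff (F.mono (ht (Nat.le_succ k)) _ (hS k))

lemma meas_pre {St Rk good : ℕ → Set Ω} {t : ℕ → ℝ} (ht : Monotone t)
    (hS : ∀ k, MeasurableSet[F (t k)] (St k)) (hR : ∀ k, MeasurableSet[F (t k)] (Rk k))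
    (hg : ∀ k, MeasurableSet[F (t (k + 1))] (good k)) (k : ℕ) :
    MeasurableSet[F (t k)] (pre St Rk good k) := by
  induction k with
  | zero => exact hS 0
  | succ k ih =>
    exact (meas_first ht hS (k + 1)).union
      ((F.mono (ht (Nat.le_succ k)) _ (ih.diff (hR k))).inter (hg k))

/-! ### the concrete scheme -/

/-- grid times. -/
def tk (h : ℝ) (k : ℕ) : ℝ := (k : ℝ) * h

/-- truncation to `[-m, m]`. -/
def cl (m x : ℝ) : ℝ := max (-m) (min x m)

/-- the capped and shifted process. -/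
def nn (N : Ω → ℝ → ℝ) (m e h : ℝ) (k : ℕ) (ω : Ω) : ℝ :=
  min (max (N ω (tk h k)) 0) m + 2 * m * e

/-- the martingale increment. -/
def xx (U A B : Ω → ℝ → ℝ) (m h : ℝ) (k : ℕ) (ω : Ω) : ℝ :=
  cl m (A ω (tk h k)) * (U ω (tk h (k + 1)) - U ω (tk h k))
    + cl m (B ω (tk h k)) / 2 * ((U ω (tk h (k + 1)) - U ω (tk h k)) ^ 2 - (tk h (k + 1) - tk h k))

/-- the error allowed in one step. -/
def yy (U : Ω → ℝ → ℝ) (m e h : ℝ) (k : ℕ) (ω : Ω) : ℝ :=
  e * (h + (U ω (tk h (k + 1)) - U ω (tk h k)) ^ 2)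
    + 2 * m / e ^ 3 * (U ω (tk h (k + 1)) - U ω (tk h k)) ^ 4

/-- started. -/
def St (E : Set Ω) (σ : Ω → ℝ) (h : ℝ) (k : ℕ) : Set Ω := {ω | ω ∈ E ∧ σ ω ≤ tk h k}

/-- the step is good. -/
def gd (U N A B : Ω → ℝ → ℝ) (m e h : ℝ) (k : ℕ) : Set Ω :=
  {ω | nn N m e h (k + 1) ω - nn N m e h k ω ≤ xx U A B m h k ω + yy U m e h k ω}

/-- the value collected at the stopping index. -/
def VV (U N A B : Ω → ℝ → ℝ) (E : Set Ω) (σ : Ω → ℝ) (R : ℝ → Set Ω) (m e h : ℝ) (K : ℕ)
    (ω : Ω) : ℝ :=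
  ∑ k ∈ Finset.range K,
    (pre (St E σ h) (fun k => R (tk h k)) (gd U N A B m e h) k ∩ R (tk h k)).indicator
      (nn N m e h k) ω

/-- the value at the starting index. -/
def SS (N : Ω → ℝ → ℝ) (E : Set Ω) (σ : Ω → ℝ) (m e h : ℝ) (K : ℕ) (ω : Ω) : ℝ :=
  ∑ k ∈ Finset.range (K + 1), (first (St E σ h) k).indicator (nn N m e h k) ω

lemma tk_succ (h : ℝ) (k : ℕ) : tk h (k + 1) - tk h k = h := by
  simp only [tk]; push_cast; ring

lemma tk_nonneg {h : ℝ} (hh : 0 ≤ h) (k : ℕ) : 0 ≤ tk h k := by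
  simp only [tk]; positivity

lemma tk_mono {h : ℝ} (hh : 0 ≤ h) : Monotone (tk h) := fun _ _ hab =>
  mul_le_mul_of_nonneg_right (Nat.cast_le.2 hab) hh

lemma cl_abs {m : ℝ} (hm : 0 ≤ m) (x : ℝ) : |cl m x| ≤ m := by
  rw [abs_le]
  exact ⟨le_max_left _ _, max_le (by linarith) (min_le_right _ _)⟩

lemma cl_eq {m x : ℝ} (hx : |x| ≤ m) : cl m x = x := by
  rw [abs_le] at hx
  rw [cl, min_eq_left hx.2, max_eq_right hx.1]

lemma nn_ge {N : Ω → ℝ → ℝ} {m e h : ℝ} (hm : 0 ≤ m) (k : ℕ) (ω : Ω) :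
    2 * m * e ≤ nn N m e h k ω := by
  have : 0 ≤ min (max (N ω (tk h k)) 0) m := le_min (le_max_right _ _) hm
  simp only [nn]; linarith

lemma nn_le {N : Ω → ℝ → ℝ} {m e h : ℝ} (k : ℕ) (ω : Ω) :
    nn N m e h k ω ≤ m + 2 * m * e := by
  have : min (max (N ω (tk h k)) 0) m ≤ m := min_le_right _ _
  simp only [nn]; linarith

lemma abs_le_four {e : ℝ} (he : 0 < e) (d : ℝ) : |d| ≤ e + d ^ 4 / e ^ 3 := by
  have h4 : 0 ≤ d ^ 4 / e ^ 3 := by positivity
  rcases le_total |d| e with h | h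
  · linarith
  · have h0 : d ^ 4 = |d| ^ 3 * |d| := by
      rw [← pow_succ, ← abs_pow, abs_of_nonneg (show 0 ≤ d ^ 4 by positivity)]
    have h1 : e ^ 3 ≤ |d| ^ 3 := pow_le_pow_left₀ he.le h 3
    have h2 : |d| ≤ d ^ 4 / e ^ 3 := by
      rw [le_div_iff₀ (by positivity), h0, mul_comm]
      exact mul_le_mul_of_nonneg_right h1 (abs_nonneg _)
    linarith

lemma sq_le_four {e : ℝ} (he : 0 < e) (he1 : e ≤ 1) (d : ℝ) : d ^ 2 ≤ e + d ^ 4 / e ^ 3 := by
  have h4 : 0 ≤ d ^ 4 / e ^ 3 := by positivity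
  rcases le_total (d ^ 2) e with h | h
  · linarith
  · have h1 : e ^ 3 ≤ d ^ 2 := by
      have : e ^ 3 ≤ e := by
        have := pow_le_pow_of_le_one he.le he1 (show 1 ≤ 3 by norm_num)
        simpa using this
      linarith
    have h2 : d ^ 2 ≤ d ^ 4 / e ^ 3 := by
      rw [le_div_iff₀ (by positivity)]
      nlinarith [sq_nonneg d]
    linarith

lemma bad_le {a b d m e h : ℝ} (ha : |a| ≤ m) (hb : |b| ≤ m) (he : 0 < e) (he1 : e ≤ 1)
    (hh : 0 ≤ h) (hhe : h ≤ e) :
    -(2 * m * e) ≤ a * d + b / 2 * (d ^ 2 - h) + 2 * m / e ^ 3 * d ^ 4 := by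
  have hm : 0 ≤ m := (abs_nonneg _).trans ha
  have h1 := abs_le_four he d
  have h2 := sq_le_four he he1 d
  have h4 : 0 ≤ d ^ 4 / e ^ 3 := by positivity
  have e1 : 2 * m / e ^ 3 * d ^ 4 = 2 * m * (d ^ 4 / e ^ 3) := by ring
  have h5 : -(m * |d|) ≤ a * d := by
    have := neg_abs_le (a * d)
    rw [abs_mul] at this
    have h6 := mul_le_mul_of_nonneg_right ha (abs_nonneg d)
    linarith
  have h6 : -(m * (d ^ 2 + h)) ≤ b * (d ^ 2 - h) := by
    have := neg_abs_le (b * (d ^ 2 - h))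
    rw [abs_mul] at this
    have h7 : |d ^ 2 - h| ≤ d ^ 2 + h := by
      rw [abs_le]; constructor <;> nlinarith [sq_nonneg d]
    have h8 := mul_le_mul hb h7 (abs_nonneg _) hm
    linarith
  have h7 := mul_le_mul_of_nonneg_left h1 hm
  have h8 := mul_le_mul_of_nonneg_left h2 hm
  have h9 := mul_le_mul_of_nonneg_left hhe hm
  have h10 := mul_nonneg hm h4
  rw [e1]
  nlinarith

end GenL

end Pool.Agent.MP_990230_pr

end
end MrgPart3

-- ======== part 4: formerly Pool.Agent.MP_990230_pr.PotD1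
section MrgPart4

/-!
# POTD, part 1: pointwise facts about the profile
-/

open Set MeasureTheory Filter
open scoped Topology

noncomputable section

namespace Pool.Agent.MP_990230_pr.PotD

/-- the bottom value of an edge. -/
def bb (c K : ℝ) (d : ℕ → ℝ) (j : ℕ) (t : ℝ) : ℝ := (K * d j * Real.exp (-t)) ^ (2 * c)

/-- the top value of an edge. -/
def th (c K : ℝ) (d : ℕ → ℝ) (n j : ℕ) (t : ℝ) : ℝ :=
  if j + 1 < n then (K * Real.exp t / d (j + 1)) ^ c else 0

lemma edge_eq (c K : ℝ) (d : ℕ → ℝ) (n j : ℕ) (t : ℝ) :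
    edgeV c K d n j t = max (bb c K d j t) (th c K d n j t) := rfl

lemma d_nonneg {d : ℕ → ℝ} {n j : ℕ} (hd : GoodD d n) (hj : j < n) : 0 ≤ d j := by
  rcases Nat.eq_zero_or_pos j with h | h
  · rw [h, hd.1]
  · exact (hd.2 j h hj).le

lemma uf_le_eta {η : ℝ} (hη : 0 < η) (c K : ℝ) (d : ℕ → ℝ) (n : ℕ) (t : ℝ) :
    uf η c K d n t ≤ η := by
  unfold uf
  have : (Finset.range n).fold min 1 (fun j => edgeV c K d n j t) ≤ 1 :=
    (Finset.fold_min_le _).2 (Or.inl le_rfl)
  nlinarith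

lemma uf_le_edge {η : ℝ} (hη : 0 < η) (c K : ℝ) (d : ℕ → ℝ) {n j : ℕ} (hj : j < n) (t : ℝ) :
    uf η c K d n t ≤ η * edgeV c K d n j t := by
  unfold uf
  have : (Finset.range n).fold min 1 (fun j => edgeV c K d n j t) ≤ edgeV c K d n j t :=
    (Finset.fold_min_le _).2 (Or.inr ⟨j, Finset.mem_range.2 hj, le_rfl⟩)
  exact mul_le_mul_of_nonneg_left this hη.le

lemma exists_edge {η : ℝ} (hη : 0 < η) (c K : ℝ) (d : ℕ → ℝ) (n : ℕ) (t : ℝ)
    (h : uf η c K d n t < η) : ∃ j < n, uf η c K d n t = η * edgeV c K d n j t := by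
  have h1 : (Finset.range n).fold min 1 (fun j => edgeV c K d n j t) < 1 := by
    unfold uf at h
    by_contra hc
    push Not at hc
    nlinarith
  rcases (Finset.fold_min_le _).1
    (le_refl ((Finset.range n).fold min 1 (fun j => edgeV c K d n j t))) with h2 | ⟨j, hj, h2⟩
  · linarith
  · have hj' := Finset.mem_range.1 hj
    refine ⟨j, hj', le_antisymm (uf_le_edge hη c K d hj' t) ?_⟩
    unfold uf
    exact mul_le_mul_of_nonneg_left h2 hη.le

lemma bb_nonneg {c K : ℝ} (hK : 0 ≤ K) {d : ℕ → ℝ} {j : ℕ} (hd : 0 ≤ d j) (t : ℝ) :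
    0 ≤ bb c K d j t := by
  unfold bb
  positivity

lemma th_nonneg {c K : ℝ} (hK : 0 ≤ K) {d : ℕ → ℝ} {n : ℕ} (hd : GoodD d n) (j : ℕ) (t : ℝ) :
    0 ≤ th c K d n j t := by
  unfold th
  split_ifs with h
  · have := d_nonneg hd h
    positivity
  · exact le_rfl

lemma exp_rpow (y s : ℝ) : (Real.exp y) ^ s = Real.exp (s * y) := by
  rw [← Real.exp_mul, mul_comm]

lemma bb_shift {c K : ℝ} (hK : 0 ≤ K) {d : ℕ → ℝ} {j : ℕ} (hd : 0 ≤ d j) (x t : ℝ) :
    bb c K d j t = bb c K d j x * Real.exp (-(2 * c) * (t - x)) := by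
  unfold bb
  have h1 : K * d j * Real.exp (-t) = (K * d j * Real.exp (-x)) * Real.exp (-(t - x)) := by
    rw [mul_assoc (K * d j), ← Real.exp_add]
    congr 2
    ring
  rw [h1, Real.mul_rpow (by positivity) (Real.exp_pos _).le, exp_rpow]
  congr 2
  ring

lemma th_shift {c K : ℝ} (hK : 0 ≤ K) {d : ℕ → ℝ} {n : ℕ} (hd : GoodD d n) (j : ℕ) (x t : ℝ) :
    th c K d n j t = th c K d n j x * Real.exp (c * (t - x)) := by
  unfold th
  split_ifs with h
  · have h0 := d_nonneg hd h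
    have h1 : K * Real.exp t / d (j + 1)
        = (K * Real.exp x / d (j + 1)) * Real.exp (t - x) := by
      rw [div_mul_eq_mul_div, mul_assoc, ← Real.exp_add]
      congr 3
      ring
    rw [h1, Real.mul_rpow (by positivity) (Real.exp_pos _).le, exp_rpow]
  · simp

lemma bb_ratio {c K : ℝ} (hK : 0 ≤ K) {d d' : ℕ → ℝ} {j : ℕ} (hd : 0 < d j) (hd' : 0 < d' j)
    (t : ℝ) :
    bb c K d' j t = bb c K d j t * Real.exp (2 * c * (Real.log (d' j) - Real.log (d j))) := by
  unfold bb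
  have h1 : K * d' j * Real.exp (-t)
      = (K * d j * Real.exp (-t)) * Real.exp (Real.log (d' j) - Real.log (d j)) := by
    rw [Real.exp_sub, Real.exp_log hd, Real.exp_log hd']
    field_simp
  rw [h1, Real.mul_rpow (by positivity) (Real.exp_pos _).le, exp_rpow]

lemma th_ratio {c K : ℝ} (hK : 0 ≤ K) {d d' : ℕ → ℝ} {n j : ℕ} (hd : GoodD d n)
    (hd' : GoodD d' n) (t : ℝ) :
    th c K d' n j t = th c K d n j t
      * Real.exp (-(c * (Real.log (d' (j + 1)) - Real.log (d (j + 1))))) := by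
  unfold th
  split_ifs with h
  · have h0 := hd.2 (j + 1) (by omega) h
    have h0' := hd'.2 (j + 1) (by omega) h
    have h1 : K * Real.exp t / d' (j + 1) = (K * Real.exp t / d (j + 1))
        * Real.exp (-(Real.log (d' (j + 1)) - Real.log (d (j + 1)))) := by
      rw [neg_sub, Real.exp_sub, Real.exp_log h0, Real.exp_log h0']
      field_simp
    rw [h1, Real.mul_rpow (by positivity) (Real.exp_pos _).le, exp_rpow]
    congr 2
    ring
  · simp

lemma bb_zero {c K : ℝ} (hc : 0 < c) {d : ℕ → ℝ} {n : ℕ} (hd : GoodD d n) (t : ℝ) :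
    bb c K d 0 t = 0 := by
  unfold bb
  rw [hd.1, mul_zero, zero_mul, Real.zero_rpow (by positivity)]

lemma growth {η c K : ℝ} (hη : 0 < η) (hc : 0 < c) (hK : 0 ≤ K) {d : ℕ → ℝ} {n : ℕ}
    (hd : GoodD d n) {x t : ℝ} (hxt : x ≤ t) :
    uf η c K d n t ≤ Real.exp (c * (t - x)) * uf η c K d n x := by
  have h1 : 1 ≤ Real.exp (c * (t - x)) := Real.one_le_exp (mul_nonneg hc.le (by linarith))
  rcases lt_or_ge (uf η c K d n x) η with h | h
  · obtain ⟨j, hj, he⟩ := exists_edge hη c K d n x h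
    have h2 := uf_le_edge hη c K d hj t
    have hb := bb_nonneg (c := c) hK (d_nonneg hd hj) x
    have ht := th_nonneg (c := c) hK hd j x
    have h3 : edgeV c K d n j t ≤ Real.exp (c * (t - x)) * edgeV c K d n j x := by
      rw [edge_eq, edge_eq]
      have hm1 := le_max_left (bb c K d j x) (th c K d n j x)
      have hm2 := le_max_right (bb c K d j x) (th c K d n j x)
      refine max_le ?_ ?_
      · rw [bb_shift hK (d_nonneg hd hj) x t]
        have h4 : Real.exp (-(2 * c) * (t - x)) ≤ 1 :=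
          Real.exp_le_one_iff.2 (by nlinarith)
        nlinarith
      · rw [th_shift hK hd j x t]
        nlinarith
    rw [he]
    nlinarith
  · have := uf_le_eta hη c K d n t
    nlinarith

lemma exp_c_le {c : ℝ} (hc : 0 < c) (hc1 : c ≤ 1 / 400) : Real.exp c ≤ 101 / 100 := by
  have h := Real.exp_bound_div_one_sub_of_interval' hc (by linarith : c < 1)
  have h2 : 1 / (1 - c) ≤ 101 / 100 := by
    rw [div_le_div_iff₀ (by linarith) (by norm_num)]
    linarith
  linarith

/-- the upper neighbour of an edge with small top value is far away. -/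
lemma p_next {c K R x t : ℝ} (hc : 0 < c) (hK : 16 ≤ K) (hR : 0 < R) (hX : R ≤ Real.exp x)
    (hxt : x ≤ t) {d p : ℕ → ℝ} {n j : ℕ} (hd : GoodD d n) (hj : j < n) (hpn : p n = 0)
    (hfar : ∀ j < n, 2 * R ≤ d j → |p j| ≤ 2 / d j) (hth : th c K d n j t ≤ Real.exp c) :
    |p (j + 1)| ≤ 6 * Real.exp (-(t - x)) / (K * R) := by
  by_cases h : j + 1 < n
  · have h0 := hd.2 (j + 1) (by omega) h
    unfold th at hth
    rw [if_pos h] at hth
    have h1 : K * Real.exp t / d (j + 1) ≤ Real.exp 1 := by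
      have h2 : Real.exp c = (Real.exp 1) ^ c := by rw [exp_rpow, mul_one]
      rw [h2] at hth
      exact (Real.rpow_le_rpow_iff (by positivity) (Real.exp_pos _).le hc).1 hth
    have he : Real.exp 1 ≤ 3 := by
      have := Real.exp_one_lt_d9
      linarith
    have h3 : K * Real.exp t ≤ 3 * d (j + 1) := by
      rw [div_le_iff₀ h0] at h1
      nlinarith
    have h4 : Real.exp t = Real.exp x * Real.exp (t - x) := by
      rw [← Real.exp_add]; congr 1; ring
    have h5 : 1 ≤ Real.exp (t - x) := Real.one_le_exp (by linarith)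
    have h6 : R * Real.exp (t - x) ≤ Real.exp t := by
      rw [h4]; exact mul_le_mul_of_nonneg_right hX (by linarith)
    have h7 : K * (R * Real.exp (t - x)) ≤ 3 * d (j + 1) :=
      le_trans (mul_le_mul_of_nonneg_left h6 (by linarith)) h3
    have h8 : 2 * R ≤ d (j + 1) := by
      have : R ≤ R * Real.exp (t - x) := by nlinarith
      nlinarith
    refine le_trans (hfar _ h h8) ?_
    rw [Real.exp_neg, div_le_div_iff₀ h0 (by positivity)]
    have h9 : 0 < Real.exp (t - x) := Real.exp_pos _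
    have h10 : 6 * (Real.exp (t - x))⁻¹ * d (j + 1)
        = (2 * (3 * d (j + 1))) / Real.exp (t - x) := by
      field_simp
      ring
    rw [h10, le_div_iff₀ h9]
    nlinarith
  · have : j + 1 = n := by omega
    rw [this, hpn, abs_zero]
    positivity

/-- the pointwise comparison of the two profiles. -/
lemma pt {η c K a R x t h e : ℝ} (hη : 0 < η) (hc : 0 < c) (hc1 : c ≤ 1 / 400) (hK : 16 ≤ K)
    (ha : 0 < a) (hR : 0 < R) (hX : R ≤ Real.exp x) (hxt : x ≤ t) {d d' p : ℕ → ℝ} {n : ℕ}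
    (hd : GoodD d n) (hd' : GoodD d' n) (hpn : p n = 0)
    (hfar : ∀ j < n, 2 * R ≤ d j → |p j| ≤ 2 / d j) (hh : 0 ≤ h) (he : 0 ≤ e)
    (hlog : ∀ j, 1 ≤ j → j < n →
      |Real.log (d' j) - Real.log (d j) + a * p 0 * p j * h| ≤ e * h)
    (hsm : ∀ j < n, (a * |p 0| * |p j| + e) * h ≤ 1 / 2)
    (hlt : uf η c K d' n t < uf η c K d n t) :
    ∃ j < n, |p (j + 1)| ≤ 6 * Real.exp (-(t - x)) / (K * R) ∧
      ((η * bb c K d j t ≤ Real.exp c * uf η c K d n t ∧ bb c K d j t ≤ Real.exp c ∧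
        uf η c K d n t - uf η c K d' n t
          ≤ h * (η * bb c K d j t * (2 * c * a * (p 0 * p j))) + e * h * uf η c K d n t) ∨
       uf η c K d n t - uf η c K d' n t
          ≤ h * (Real.exp c * uf η c K d n t * (c * a * (|p 0| * |p (j + 1)|)))
            + e * h * uf η c K d n t) := by
  have hK0 : 0 ≤ K := by linarith
  have hue := uf_le_eta hη c K d n t
  obtain ⟨j, hj, hje⟩ := exists_edge hη c K d' n t (lt_of_lt_of_le hlt hue)
  have hξ : ∀ i, 1 ≤ i → i < n → |Real.log (d' i) - Real.log (d i)| ≤ 1 / 2 := by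
    intro i h1 h2
    have h3 := hlog i h1 h2
    have h4 := hsm i h2
    have h5 : |a * p 0 * p i * h| = a * |p 0| * |p i| * h := by
      rw [abs_mul, abs_mul, abs_mul, abs_of_pos ha, abs_of_nonneg hh]
    have h6 := abs_sub (Real.log (d' i) - Real.log (d i) + a * p 0 * p i * h) (a * p 0 * p i * h)
    rw [add_sub_cancel_right, h5] at h6
    nlinarith
  have hec := exp_c_le hc hc1
  have hec0 := Real.exp_pos c
  have hb0 := bb_nonneg (c := c) hK0 (d_nonneg hd hj) t
  have hb0' := bb_nonneg (c := c) hK0 (d_nonneg hd' hj) t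
  have ht0 := th_nonneg (c := c) hK0 hd j t
  have ht0' := th_nonneg (c := c) hK0 hd' j t
  set v' := edgeV c K d' n j t with hv'
  have hbv' : bb c K d' j t ≤ v' := le_max_left _ _
  have htv' : th c K d' n j t ≤ v' := le_max_right _ _
  have hv'1 : v' < 1 := by
    by_contra hc2
    push Not at hc2
    nlinarith
  -- the two ratio bounds
  have hbr : bb c K d j t ≤ Real.exp c * bb c K d' j t := by
    rcases Nat.eq_zero_or_pos j with h0 | h0
    · rw [h0, bb_zero hc hd, bb_zero hc hd', mul_zero]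
    · rw [bb_ratio hK0 (hd.2 j h0 hj) (hd'.2 j h0 hj) t, mul_left_comm, ← Real.exp_add]
      have h1 := abs_le.1 (hξ j h0 hj)
      have h2 : 1 ≤ Real.exp (c + 2 * c * (Real.log (d' j) - Real.log (d j))) :=
        Real.one_le_exp (by nlinarith)
      nlinarith
  have htr : th c K d n j t ≤ Real.exp c * th c K d' n j t := by
    by_cases h0 : j + 1 < n
    · rw [th_ratio hK0 hd hd' t, mul_left_comm, ← Real.exp_add]
      have h1 := abs_le.1 (hξ (j + 1) (by omega) h0)
      have h2 : 1 ≤ Real.exp (c + -(c * (Real.log (d' (j + 1)) - Real.log (d (j + 1))))) :=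
        Real.one_le_exp (by nlinarith)
      nlinarith
    · unfold th
      rw [if_neg h0, if_neg h0, mul_zero]
  have hb1 : bb c K d j t ≤ Real.exp c * v' :=
    le_trans hbr (mul_le_mul_of_nonneg_left hbv' hec0.le)
  have ht1 : th c K d n j t ≤ Real.exp c * v' :=
    le_trans htr (mul_le_mul_of_nonneg_left htv' hec0.le)
  have hv'0 : 0 ≤ v' := le_trans hb0' hbv'
  have hu0 : 0 ≤ uf η c K d n t := by
    have : 0 ≤ η * v' := by positivity
    linarith
  have hev : Real.exp c * v' ≤ Real.exp c := by nlinarith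
  have hηv : η * (Real.exp c * v') ≤ Real.exp c * uf η c K d n t := by
    have : η * (Real.exp c * v') = Real.exp c * (η * v') := by ring
    rw [this, ← hje]
    exact mul_le_mul_of_nonneg_left hlt.le hec0.le
  refine ⟨j, hj, p_next hc hK hR hX hxt hd hj hpn hfar (le_trans ht1 hev), ?_⟩
  have hue2 := uf_le_edge hη c K d hj t
  rw [edge_eq] at hue2
  have heh : 0 ≤ e * h := mul_nonneg he hh
  rcases le_total (th c K d n j t) (bb c K d j t) with hcase | hcase
  · left
    rw [max_eq_left hcase] at hue2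
    have hηb : η * bb c K d j t ≤ Real.exp c * uf η c K d n t :=
      le_trans (mul_le_mul_of_nonneg_left hb1 hη.le) hηv
    refine ⟨hηb, le_trans hb1 hev, ?_⟩
    have hkey : bb c K d j t - v'
        ≤ bb c K d j t * (2 * c * (a * p 0 * p j * h + e * h)) := by
      rcases Nat.eq_zero_or_pos j with h0 | h0
      · rw [h0, bb_zero hc hd]
        linarith
      · have h1 := abs_le.1 (hlog j h0 hj)
        have h2 := Real.add_one_le_exp (2 * c * (Real.log (d' j) - Real.log (d j)))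
        rw [bb_ratio hK0 (hd.2 j h0 hj) (hd'.2 j h0 hj) t] at hbv'
        have h3 : bb c K d j t * (2 * c * (Real.log (d' j) - Real.log (d j)) + 1) ≤ v' :=
          le_trans (mul_le_mul_of_nonneg_left h2 hb0) hbv'
        have h4 : -(2 * c * (Real.log (d' j) - Real.log (d j)))
            ≤ 2 * c * (a * p 0 * p j * h + e * h) := by nlinarith
        have h5 := mul_le_mul_of_nonneg_left h4 hb0
        nlinarith
    have h6 : η * bb c K d j t * (2 * c * (e * h)) ≤ e * h * uf η c K d n t := by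
      have h7 : η * bb c K d j t * (2 * c) ≤ uf η c K d n t := by
        have h8 : η * bb c K d j t * (2 * c) ≤ Real.exp c * uf η c K d n t * (2 * c) :=
          mul_le_mul_of_nonneg_right hηb (by positivity)
        have h9 : Real.exp c * (2 * c) ≤ 1 := by nlinarith
        nlinarith
      nlinarith
    have h10 := mul_le_mul_of_nonneg_left hkey hη.le
    rw [hje]
    nlinarith
  · right
    rw [max_eq_right hcase] at hue2
    have hηt : η * th c K d n j t ≤ Real.exp c * uf η c K d n t :=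
      le_trans (mul_le_mul_of_nonneg_left ht1 hη.le) hηv
    have hkey : th c K d n j t - v'
        ≤ th c K d n j t * (c * (a * (|p 0| * |p (j + 1)|) * h + e * h)) := by
      by_cases h0 : j + 1 < n
      · have h1 := abs_le.1 (hlog (j + 1) (by omega) h0)
        have h2 := Real.add_one_le_exp
          (-(c * (Real.log (d' (j + 1)) - Real.log (d (j + 1)))))
        rw [th_ratio hK0 hd hd' t] at htv'
        have h3 := le_trans (mul_le_mul_of_nonneg_left h2 ht0) htv'
        have h11 : -(p 0 * p (j + 1)) ≤ |p 0| * |p (j + 1)| := by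
          rw [← abs_mul]; exact neg_le_abs _
        have h12 : -(a * p 0 * p (j + 1) * h) ≤ a * (|p 0| * |p (j + 1)|) * h := by
          have := mul_le_mul_of_nonneg_left h11 (mul_nonneg ha.le hh)
          nlinarith
        have h4 : c * (Real.log (d' (j + 1)) - Real.log (d (j + 1)))
            ≤ c * (a * (|p 0| * |p (j + 1)|) * h + e * h) :=
          mul_le_mul_of_nonneg_left (by linarith) hc.le
        have h5 := mul_le_mul_of_nonneg_left h4 ht0
        nlinarith
      · have : th c K d n j t = 0 := by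
          unfold th
          rw [if_neg h0]
        rw [this]
        linarith
    have hq : 0 ≤ c * (a * (|p 0| * |p (j + 1)|) * h + e * h) := by positivity
    have h10 := mul_le_mul_of_nonneg_left hkey hη.le
    have h13 := mul_le_mul_of_nonneg_right hηt hq
    have h14 : Real.exp c * uf η c K d n t * (c * (e * h)) ≤ e * h * uf η c K d n t := by
      have h9 : Real.exp c * c ≤ 1 := by nlinarith
      have h15 : 0 ≤ e * h * uf η c K d n t := mul_nonneg heh hu0
      nlinarith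
    rw [hje]
    nlinarith

end Pool.Agent.MP_990230_pr.PotD

end
end MrgPart4

-- ======== part 5: formerly Pool.Agent.MP_990230_pr.PotS
section MrgPart5

/-!
# Module POTS of PROJECT SLE: static properties of the explicit potential
-/

open Set MeasureTheory ProbabilityTheory Filter
open scoped ENNReal NNReal Topology

noncomputable section

namespace Pool.Agent.MP_990230_pr

namespace PotS

/-! ### parameters -/

lemma del_ge {a : ℝ} (ha : 1 / 2 ≤ a) : 1 / 2 ≤ del a := by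
  have h4 : 1 / (4 * a) ≤ 1 / 2 := one_div_le_one_div_of_le (by norm_num) (by linarith)
  unfold del; linarith

lemma two_del_le {a : ℝ} (ha : 1 / 2 ≤ a) : 2 * del a ≤ alp a := by
  have h4 : 1 / (4 * a) ≤ 1 / 2 := one_div_le_one_div_of_le (by norm_num) (by linarith)
  have h6 : 4 * a * (1 / (4 * a)) = 1 := by field_simp
  unfold del alp
  nlinarith

lemma kP_ge {a : ℝ} (ha : 1 / 2 ≤ a) : 16 ≤ kP a := by
  have h : 6000 ≤ 4000 * a * (1 + 4 * a) := by nlinarith
  unfold kP
  nlinarith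

lemma log_kP_ge {a : ℝ} (ha : 1 / 2 ≤ a) : 1 ≤ Real.log (kP a) := by
  have h := kP_ge ha
  rw [Real.le_log_iff_exp_le (by linarith)]
  have := Real.exp_one_lt_d9
  linarith

lemma cP_pos {a : ℝ} (ha : 1 / 2 ≤ a) : 0 < cP a := by
  have h := log_kP_ge ha
  unfold cP
  positivity

lemma cP_le {a : ℝ} (ha : 1 / 2 ≤ a) : cP a ≤ 1 / 400 := by
  have h := log_kP_ge ha
  unfold cP
  exact one_div_le_one_div_of_le (by norm_num) (by linarith)

lemma etaP_pos {a : ℝ} (ha : 1 / 2 ≤ a) : 0 < etaP a := by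
  have h := del_ge ha
  unfold etaP
  linarith

lemma epsP_le {a : ℝ} (ha : 1 / 2 ≤ a) : 0 < epsP a ∧ epsP a ≤ 1 / 300 := by
  unfold epsP
  exact ⟨by positivity, one_div_le_one_div_of_le (by norm_num) (by linarith)⟩

lemma potA (hA : PotAStmt) {a : ℝ} (ha : 1 / 2 ≤ a) : PotA (etaP a) (cP a) (kP a) :=
  hA _ _ _ (etaP_pos ha) (cP_pos ha) (cP_le ha) (kP_ge ha)

/-! ### elementary geometry -/

lemma norm_pos_of_im {z : ℂ} (hz : 0 < z.im) : 0 < ‖z‖ :=
  norm_pos_iff.2 fun h => by simp [h] at hz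

lemma sinA_pos {z : ℂ} (hz : 0 < z.im) : 0 < sinA z := div_pos hz (norm_pos_of_im hz)

lemma sinA_le_one {z : ℂ} (hz : 0 < z.im) : sinA z ≤ 1 :=
  (div_le_one (norm_pos_of_im hz)).2 (Complex.im_le_norm z)

lemma log_im {z : ℂ} (hz : 0 < z.im) : Real.log z.im = Real.log ‖z‖ + Real.log (sinA z) := by
  unfold sinA
  rw [Real.log_div hz.ne' (norm_pos_of_im hz).ne']
  ring

lemma log_sinA_nonpos {z : ℂ} (hz : 0 < z.im) : Real.log (sinA z) ≤ 0 :=
  Real.log_nonpos (sinA_pos hz).le (sinA_le_one hz)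

lemma im_le_conj {z w : ℂ} (hw : 0 < w.im) : z.im ≤ ‖z - (starRingEnd ℂ) w‖ := by
  have h := Complex.im_le_norm (z - (starRingEnd ℂ) w)
  simp only [Complex.sub_im, Complex.conj_im] at h
  linarith

lemma dN_self (z : ℂ) : dN z z = 0 := by simp [dN]

lemma dN_pos {z w : ℂ} (hz : 0 < z.im) (hw : 0 < w.im) (h : z ≠ w) : 0 < dN z w :=
  Real.sqrt_pos.2 (mul_pos (norm_pos_iff.2 (sub_ne_zero.2 h)) (hz.trans_le (im_le_conj hw)))

lemma dN_le (z w : ℂ) : dN z w ≤ ‖z‖ + ‖w‖ := by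
  have h1 : ‖z - w‖ ≤ ‖z‖ + ‖w‖ := norm_sub_le z w
  have h2 : ‖z - (starRingEnd ℂ) w‖ ≤ ‖z‖ + ‖w‖ := by
    simpa using norm_sub_le z ((starRingEnd ℂ) w)
  unfold dN
  rw [Real.sqrt_le_iff]
  refine ⟨by positivity, ?_⟩
  rw [sq]
  exact mul_le_mul h1 h2 (norm_nonneg _) (by positivity)

lemma le_dN (z w : ℂ) : ‖z‖ - ‖w‖ ≤ dN z w := by
  have h1 : |‖z‖ - ‖w‖| ≤ ‖z - w‖ := abs_norm_sub_norm_le z w
  have h2 : |‖z‖ - ‖w‖| ≤ ‖z - (starRingEnd ℂ) w‖ := by
    simpa using abs_norm_sub_norm_le z ((starRingEnd ℂ) w)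
  refine (le_abs_self _).trans (Real.abs_le_sqrt ?_)
  rw [← sq_abs, sq]
  exact mul_le_mul h1 h2 (abs_nonneg _) (norm_nonneg _)

lemma two_log_dN {z w : ℂ} (hz : 0 < z.im) (hw : 0 < w.im) (h : z ≠ w) :
    2 * Real.log (dN z w) = Real.log ‖z - w‖ + Real.log ‖z - (starRingEnd ℂ) w‖ := by
  have h1 : 0 < ‖z - w‖ := norm_pos_iff.2 (sub_ne_zero.2 h)
  have h2 : 0 < ‖z - (starRingEnd ℂ) w‖ := hz.trans_le (im_le_conj hw)
  unfold dN
  rw [Real.log_sqrt (by positivity), Real.log_mul h1.ne' h2.ne']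
  ring

lemma goodD {n : ℕ} {x : St} (h : Adm n x) : GoodD (dvec x) n :=
  ⟨dN_self _, fun j h1 hj => dN_pos (h.1 j hj).1 (h.1 0 (by omega)).1
    (h.2 j hj 0 (by omega) (by omega))⟩

lemma adm_shift {n : ℕ} {x : St} (h : Adm (n + 1) x) : Adm n x.shift :=
  ⟨fun i hi => h.1 (i + 1) (by omega),
    fun i hi j hj hij => h.2 (i + 1) (by omega) (j + 1) (by omega) (by omega)⟩

lemma exp_xt_le {a : ℝ} (ha : 1 / 2 ≤ a) {x : St} (hx : 0 < (x.1 0).im) :
    Real.exp (xt a x) ≤ 2 * ‖x.1 0‖ := by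
  obtain ⟨e1, e2⟩ := epsP_le ha
  have h1 := sinA_pos hx
  have h2 := sinA_le_one hx
  have h3 : sinA (x.1 0) ^ 2 ≤ 1 := by nlinarith
  have h4 : epsP a * sinA (x.1 0) ^ 2 ≤ Real.log 2 := by
    have := Real.log_two_gt_d9
    nlinarith
  unfold xt
  rw [Real.exp_add, Real.exp_log (norm_pos_of_im hx), mul_comm]
  refine mul_le_mul_of_nonneg_right ?_ (norm_nonneg _)
  exact (Real.exp_le_exp.2 h4).trans (Real.exp_log (by norm_num)).le

/-! ### measurability -/

lemma meas_z (i : ℕ) : Measurable (fun x : St => x.1 i) :=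
  (measurable_pi_apply i).comp measurable_fst

lemma meas_y (i : ℕ) : Measurable (fun x : St => x.2 i) :=
  (measurable_pi_apply i).comp measurable_snd

lemma meas_pR : Measurable pR :=
  Complex.measurable_re.div Complex.continuous_normSq.measurable

lemma meas_sI : Measurable sI :=
  Complex.measurable_im.div Complex.continuous_normSq.measurable

lemma meas_sinA : Measurable sinA := Complex.measurable_im.div measurable_norm

lemma meas_dN (i j : ℕ) : Measurable (fun x : St => dN (x.1 i) (x.1 j)) := by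
  have h : Continuous (fun q : ℂ × ℂ => dN q.1 q.2) := by
    unfold dN
    fun_prop
  exact h.measurable.comp ((meas_z i).prodMk (meas_z j))

lemma meas_dvec : Measurable dvec := measurable_pi_lambda _ fun j => meas_dN j 0

lemma meas_xt (a : ℝ) : Measurable (xt a) :=
  (meas_z 0).norm.log.add (((meas_sinA.comp (meas_z 0)).pow_const 2).const_mul _)

lemma meas_xtA (a : ℝ) : Measurable (xtA a) := by
  have h1 := meas_pR.comp (meas_z 0)
  have h2 := meas_sinA.comp (meas_z 0)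
  exact h1.neg.add ((((h2.pow_const 2).const_mul 2).mul h1).const_mul _)

lemma meas_xtB (a : ℝ) : Measurable (xtB a) := by
  have h1 := meas_pR.comp (meas_z 0)
  have h2 := meas_sinA.comp (meas_z 0)
  have h3 := meas_sI.comp (meas_z 0)
  exact ((h1.pow_const 2).sub (h3.pow_const 2)).neg.add
    (((h2.pow_const 2).mul (((h1.pow_const 2).const_mul 6).sub
      ((h3.pow_const 2).const_mul 2))).const_mul _)

lemma meas_lG (a : ℝ) : Measurable (lG a) :=
  ((meas_y 0).log.const_mul _).add ((meas_sinA.comp (meas_z 0)).log.const_mul _)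

lemma meas_lJ (a : ℝ) (n : ℕ) : Measurable (lJ a n) := by
  unfold lJ
  refine Measurable.const_mul (Finset.measurable_sum _ fun i _ => ?_) _
  exact (((Complex.measurable_im.comp (meas_z (i + 1))).log.const_mul 2).sub
    (meas_y (i + 1)).log).sub ((meas_dN (i + 1) i).log.const_mul 2)

lemma meas_all (hA : PotAStmt) {a : ℝ} (ha : 1 / 2 ≤ a) (n : ℕ) :
    Measurable (Mf a n) ∧ Measurable (MAf a n) ∧ Measurable (MBf a n) := by
  have hP := potA hA ha
  have hu : Measurable (uu a n) := (hP.meas_u n).comp (meas_dvec.prodMk (meas_xt a))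
  have hU : Measurable (UU a n) := (hP.meas_U n).comp (meas_dvec.prodMk (meas_xt a))
  have h1 := meas_pR.comp (meas_z 0)
  have h3 := meas_sI.comp (meas_z 0)
  have hM : Measurable (Mf a n) := by
    unfold Mf
    split_ifs
    · exact measurable_const
    · exact ((meas_lG a).add ((meas_lJ a n).sub hU)).exp
  have h4 := (h1.const_mul (alp a)).add (hu.mul (meas_xtA a))
  refine ⟨hM, ?_, ?_⟩
  · unfold MAf
    split_ifs
    · exact measurable_const
    · exact hM.mul h4
  · unfold MBf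
    split_ifs
    · exact measurable_const
    · exact hM.mul (((((h1.pow_const 2).sub (h3.pow_const 2)).const_mul _).add
        (hu.mul ((meas_xtB a).add (((meas_xtA a).pow_const 2).const_mul _)))).add
          (h4.pow_const 2))

/-! ### the initial bound -/

lemma init_bound (hA : PotAStmt) {a : ℝ} (ha : 1 / 2 ≤ a) (n : ℕ) (ζ : ℕ → ℂ)
    (h : Adm n (ζ, fun i => (ζ i).im)) :
    Mf a n (ζ, fun i => (ζ i).im) ≤ ∏ l ∈ Finset.range n, ‖ζ l - prevPt ζ l‖ ^ (-(del a)) := by
  rcases n with _ | m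
  · simp [Mf]
  have hP := potA hA ha
  have hδ := del_ge ha
  have hα := two_del_le ha
  have him : ∀ i < m + 1, 0 < (ζ i).im := fun i hi => (h.1 i hi).1
  have hne : ∀ i < m, ζ (i + 1) ≠ ζ i := fun i hi => h.2 (i + 1) (by omega) i (by omega) (by omega)
  have hU : 0 ≤ UU a (m + 1) (ζ, fun i => (ζ i).im) :=
    hP.Uf_nonneg _ _ _ (by omega) (goodD h)
  have hG : lG a (ζ, fun i => (ζ i).im) ≤ -del a * Real.log ‖ζ 0‖ := by
    have h1 := log_im (him 0 (by omega))
    have h2 := log_sinA_nonpos (him 0 (by omega))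
    simp only [lG]
    rw [h1]
    nlinarith
  have hJ : lJ a (m + 1) (ζ, fun i => (ζ i).im) ≤
      ∑ i ∈ Finset.range m, -del a * Real.log ‖ζ (i + 1) - ζ i‖ := by
    simp only [lJ, Nat.add_sub_cancel, Finset.mul_sum]
    refine Finset.sum_le_sum fun i hi => ?_
    have hi' := Finset.mem_range.1 hi
    have h1 := two_log_dN (him (i + 1) (by omega)) (him i (by omega)) (hne i hi')
    have h2 := Real.log_le_log (him (i + 1) (by omega))
      (im_le_conj (z := ζ (i + 1)) (him i (by omega)))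
    rw [h1]
    nlinarith
  have e : ∏ l ∈ Finset.range (m + 1), ‖ζ l - prevPt ζ l‖ ^ (-(del a)) =
      Real.exp ((∑ i ∈ Finset.range m, -del a * Real.log ‖ζ (i + 1) - ζ i‖)
        + -del a * Real.log ‖ζ 0‖) := by
    rw [Finset.prod_range_succ', Real.exp_add, Real.exp_sum]
    congr 1
    · refine Finset.prod_congr rfl fun i hi => ?_
      have h1 : 0 < ‖ζ (i + 1) - ζ i‖ :=
        norm_pos_iff.2 (sub_ne_zero.2 (hne i (Finset.mem_range.1 hi)))
      simp only [prevPt, Nat.add_one_ne_zero, if_false, Nat.add_sub_cancel]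
      rw [Real.rpow_def_of_pos h1, mul_comm]
    · simp only [prevPt, if_true, sub_zero]
      rw [Real.rpow_def_of_pos (norm_pos_of_im (him 0 (by omega))), mul_comm]
  rw [e]
  simp only [Mf, Nat.add_one_ne_zero, if_false]
  exact Real.exp_le_exp.2 (by linarith)

/-! ### the hand-off inequality -/

/-- the constant of the hand-off inequality for the tail integral. -/
def C0 (a : ℝ) : ℝ := kP a ^ cP a / cP a + kP a ^ (2 * cP a) / (2 * cP a) + 2 / kP a

lemma C0_nonneg {a : ℝ} (ha : 1 / 2 ≤ a) : 0 ≤ C0 a := by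
  have h1 := cP_pos ha
  have h2 : 0 < kP a := by linarith [kP_ge ha]
  unfold C0
  positivity

lemma hand_eq (a : ℝ) {x : St} (hz : 0 < (x.1 0).im) (hy : 0 < x.2 0) (w : ℂ) :
    hand a (x.1 0) (x.2 0) w =
      Real.exp (Real.log (max 1 ((‖w‖ / ‖x.1 0‖) ^ (-(2 * del a)))) - lG a x) := by
  have h1 : 0 < max 1 ((‖w‖ / ‖x.1 0‖) ^ (-(2 * del a))) := lt_max_of_lt_left one_pos
  unfold hand lG
  rw [Real.rpow_def_of_pos hy, Real.rpow_def_of_pos (sinA_pos hz), sub_eq_add_neg, Real.exp_add,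
    Real.exp_log h1, mul_assoc, ← Real.exp_add]
  congr 2
  ring

lemma handoff (hA : PotAStmt) {a : ℝ} (ha : 1 / 2 ≤ a) (n : ℕ) (x : St) (h : Adm (n + 1) x) :
    Mf a n x.shift ≤ Real.exp (2 * del a * Real.log 2 + etaP a * C0 a) *
      hand a (x.1 0) (x.2 0) (x.1 (if n = 0 then 0 else 1)) * Mf a (n + 1) x := by
  have hP := potA hA ha
  have hδ := del_ge ha
  have hα := two_del_le ha
  have hη := etaP_pos ha
  have hC := C0_nonneg ha
  have hc := cP_pos ha
  have hl2 : 0 < Real.log 2 := Real.log_pos (by norm_num)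
  obtain ⟨hz0, hy0⟩ := h.1 0 (by omega)
  rw [hand_eq a hz0 hy0]
  set L := Real.log (max 1 ((‖x.1 (if n = 0 then 0 else 1)‖ / ‖x.1 0‖) ^ (-(2 * del a)))) with hL
  have hL0 : 0 ≤ L := Real.log_nonneg (le_max_left _ _)
  have hM : Mf a (n + 1) x = Real.exp (lG a x + (lJ a (n + 1) x - UU a (n + 1) x)) := by
    simp [Mf]
  rw [hM, ← Real.exp_add, ← Real.exp_add]
  rcases n with _ | m
  · have h1 : UU a (0 + 1) x ≤ 0 := by
      have h2 := hP.Uf_le (0 + 1) (dvec x) (xt a x) le_rfl (goodD h)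
      have h3 : dvec x (0 + 1 - 1) = 0 := dN_self _
      rw [h3, mul_zero, zero_mul, Real.zero_rpow (by linarith)] at h2
      simpa [UU] using h2
    have h2 : lJ a (0 + 1) x = 0 := by simp [lJ]
    have h3 : Mf a 0 x.shift = Real.exp 0 := by simp [Mf]
    rw [h3, h2]
    refine Real.exp_le_exp.2 ?_
    have h4 : 0 ≤ 2 * del a * Real.log 2 := by positivity
    have h5 : 0 ≤ etaP a * C0 a := by positivity
    linarith
  · obtain ⟨hz1, hy1⟩ := h.1 1 (by omega)
    have hn0 := norm_pos_of_im hz0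
    have hn1 := norm_pos_of_im hz1
    have hM' : Mf a (m + 1) x.shift =
        Real.exp (lG a x.shift + (lJ a (m + 1) x.shift - UU a (m + 1) x.shift)) := by
      simp [Mf]
    rw [hM']
    refine Real.exp_le_exp.2 ?_
    set Rh := max ‖x.1 0‖ ‖x.1 1‖ with hRh
    have r0 : ‖x.1 0‖ ≤ Rh := le_max_left _ _
    have r1 : ‖x.1 1‖ ≤ Rh := le_max_right _ _
    have hR : 0 < Rh := hn0.trans_le r0
    have hd : 0 < dN (x.1 1) (x.1 0) := dN_pos hz1 hz0 (h.2 1 (by omega) 0 (by omega) (by omega))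
    have hU : UU a (m + 1 + 1) x ≤ UU a (m + 1) x.shift
        + etaP a * Real.log (2 * Rh / dN (x.1 1) (x.1 0)) + etaP a * C0 a := by
      refine hP.handoff (m + 1) (dvec x) (dvec x.shift) Rh (xt a x) (xt a x.shift) (by omega)
        (goodD h) (goodD (adm_shift h)) hR (fun j _ => ?_) ?_
      · have e1 : dvec x (j + 1) = dN (x.1 (j + 1)) (x.1 0) := rfl
        have e2 : dvec x.shift j = dN (x.1 (j + 1)) (x.1 1) := rfl
        rw [e1, e2, abs_le]
        have a1 := dN_le (x.1 (j + 1)) (x.1 0)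
        have a2 := dN_le (x.1 (j + 1)) (x.1 1)
        have a3 := le_dN (x.1 (j + 1)) (x.1 0)
        have a4 := le_dN (x.1 (j + 1)) (x.1 1)
        constructor <;> linarith
      · have e1 := exp_xt_le ha (x := x.shift) hz1
        have e2 : x.shift.1 0 = x.1 1 := rfl
        rw [e2] at e1
        linarith
    have hJ : lJ a (m + 1 + 1) x = lJ a (m + 1) x.shift + del a *
        (2 * Real.log (x.1 1).im - Real.log (x.2 1) - 2 * Real.log (dN (x.1 1) (x.1 0))) := by
      simp only [lJ, Nat.add_sub_cancel]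
      rw [Finset.sum_range_succ', mul_add]
      rfl
    have hG : lG a x.shift = -del a * Real.log (x.2 1) + alp a * Real.log (sinA (x.1 1)) := rfl
    have h1 := log_im hz1
    have h2 := log_sinA_nonpos hz1
    have h3 : Real.log (2 * Rh / dN (x.1 1) (x.1 0)) =
        Real.log 2 + Real.log Rh - Real.log (dN (x.1 1) (x.1 0)) := by
      rw [Real.log_div (by positivity) hd.ne', Real.log_mul (by norm_num) hR.ne']
    have h4 : 0 ≤ Real.log (2 * Rh / dN (x.1 1) (x.1 0)) := by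
      refine Real.log_nonneg ((one_le_div hd).2 ?_)
      linarith [dN_le (x.1 1) (x.1 0)]
    have h5 : 2 * del a * (Real.log Rh - Real.log ‖x.1 1‖) ≤ L := by
      rcases le_total ‖x.1 0‖ ‖x.1 1‖ with hle | hle
      · rw [hRh, max_eq_right hle, sub_self, mul_zero]
        exact hL0
      · rw [hRh, max_eq_left hle, hL]
        simp only [Nat.add_one_ne_zero, if_false]
        refine le_trans (le_of_eq ?_)
          (Real.log_le_log (Real.rpow_pos_of_pos (div_pos hn1 hn0) _) (le_max_right _ _))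
        rw [Real.log_rpow (div_pos hn1 hn0), Real.log_div hn1.ne' hn0.ne']
        ring
    have h6 : etaP a * Real.log (2 * Rh / dN (x.1 1) (x.1 0)) ≤
        2 * del a * Real.log (2 * Rh / dN (x.1 1) (x.1 0)) :=
      mul_le_mul_of_nonneg_right (by unfold etaP; linarith) h4
    have h7 : (alp a - 2 * del a) * Real.log (sinA (x.1 1)) ≤ 0 :=
      mul_nonpos_of_nonneg_of_nonpos (by linarith) h2
    rw [hJ, hG, h1]
    rw [h3] at h6 hU
    linarith

end PotS

theorem potStatic_stmt (hA : PotAStmt) : PotStaticStmt := fun _ ha =>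
  ⟨PotS.meas_all hA ha, PotS.init_bound hA ha, _, Real.exp_pos _, PotS.handoff hA ha⟩

end Pool.Agent.MP_990230_pr

end
end MrgPart5

-- ======== part 6: formerly Pool.Agent.MP_990230_pr.Pot
section MrgPart6

/-! SLE module POT: the explicit potential is a pathwise supersolution. -/

open Set

namespace Pool.Agent.MP_990230_pr

namespace PotM

theorem del_pos {a : ℝ} (ha : 1 / 2 ≤ a) : 0 < del a := by
  have h : 1 / (4 * a) ≤ 1 / 2 := one_div_le_one_div_of_le (by norm_num) (by linarith)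
  unfold del
  linarith

theorem del_le {a : ℝ} (ha : 1 / 2 ≤ a) : del a ≤ a := by
  have h0 : 0 < 4 * a := by linarith
  have h : 1 - a ≤ 1 / (4 * a) := by
    rw [le_div_iff₀ h0]
    nlinarith [sq_nonneg (2 * a - 1)]
  unfold del
  linarith

theorem two_a_del {a : ℝ} (ha : 1 / 2 ≤ a) : 2 * a * del a = alp a / 2 := by
  have h0 : a ≠ 0 := by linarith
  unfold del alp
  field_simp
  ring

theorem kP_ge {a : ℝ} (ha : 1 / 2 ≤ a) : 16 ≤ kP a := by
  have h : 4 ≤ 4000 * a * (1 + 4 * a) := by nlinarith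
  unfold kP
  nlinarith

theorem log_kP {a : ℝ} (ha : 1 / 2 ≤ a) : 1 ≤ Real.log (kP a) := by
  have h := kP_ge ha
  rw [Real.le_log_iff_exp_le (by linarith)]
  have := Real.exp_one_lt_d9
  linarith

theorem cP_pos {a : ℝ} (ha : 1 / 2 ≤ a) : 0 < cP a := by
  have := log_kP ha
  unfold cP
  positivity

theorem cP_le {a : ℝ} (ha : 1 / 2 ≤ a) : cP a ≤ 1 / 400 := by
  have := log_kP ha
  unfold cP
  exact one_div_le_one_div_of_le (by norm_num) (by linarith)

theorem eps_pos {a : ℝ} (ha : 1 / 2 ≤ a) : 0 < epsP a := by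
  have : 0 < a := by linarith
  unfold epsP
  positivity

theorem eps_mul {a : ℝ} (ha : 1 / 2 ≤ a) : epsP a * (1 + 4 * a) = 1 / 100 := by
  have : (1 + 4 * a) ≠ 0 := by linarith
  unfold epsP
  field_simp

theorem eps_le {a : ℝ} (ha : 1 / 2 ≤ a) : epsP a ≤ 1 / 300 := by
  have h1 := eps_mul ha
  have h2 := eps_pos ha
  nlinarith

theorem sqrt_k {a : ℝ} (ha : 1 / 2 ≤ a) : a * (30 / Real.sqrt (kP a)) = 3 / 4 * epsP a := by
  have h0 : 0 < a := by linarith
  have h1 : Real.sqrt (kP a) = 4000 * a * (1 + 4 * a) := by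
    unfold kP
    exact Real.sqrt_sq (by positivity)
  rw [h1]
  unfold epsP
  field_simp
  ring

theorem goodD {n : ℕ} {x : St} (hn : 1 ≤ n) (h : Adm n x) : GoodD (dvec x) n := by
  refine ⟨by simp [dvec, dN], fun j hj hjn => ?_⟩
  have h1 : x.1 j ≠ x.1 0 := h.2 j hjn 0 hn (by omega)
  have h2 : x.1 j ≠ (starRingEnd ℂ) (x.1 0) := by
    intro e
    have e1 := congrArg Complex.im e
    rw [Complex.conj_im] at e1
    have := (h.1 j hjn).1
    have := (h.1 0 hn).1
    linarith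
  unfold dvec dN
  exact Real.sqrt_pos.2 (mul_pos (norm_pos_iff.2 (sub_ne_zero.2 h1))
    (norm_pos_iff.2 (sub_ne_zero.2 h2)))

theorem geom {Z : ℂ} (hZ : 0 < Z.im) :
    0 ≤ sinA Z ^ 2 ∧ sinA Z ^ 2 ≤ 1 ∧ pR Z ^ 2 = (1 - sinA Z ^ 2) * (1 / ‖Z‖ ^ 2) ∧
      sI Z ^ 2 = sinA Z ^ 2 * (1 / ‖Z‖ ^ 2) := by
  have h0 : Z ≠ 0 := by
    intro e
    rw [e] at hZ
    simp at hZ
  have hn : 0 < ‖Z‖ := norm_pos_iff.2 h0
  have h1 : Complex.normSq Z = ‖Z‖ ^ 2 := Complex.normSq_eq_norm_sq Z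
  have h2 : ‖Z‖ ^ 2 = Z.re ^ 2 + Z.im ^ 2 := by
    rw [← h1, Complex.normSq_apply]
    ring
  refine ⟨sq_nonneg _, ?_, ?_, ?_⟩
  · unfold sinA
    rw [div_pow, div_le_one (by positivity), h2]
    nlinarith [sq_nonneg Z.re]
  · unfold pR sinA
    rw [h1]
    field_simp
    linarith
  · unfold sI sinA
    rw [h1]
    field_simp

/-- the final drift inequality -/
theorem drift {a d c e u σ w p2 s2 x2 : ℝ} (ha : 1 / 2 ≤ a) (hd : d ≤ a)
    (hc : c ≤ 1 / 400) (hc0 : 0 ≤ c) (he0 : 0 < e) (he : e ≤ 1 / 300)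
    (hem : e * (1 + 4 * a) = 1 / 100) (hu0 : 0 ≤ u) (hu : u ≤ 3 * d / 4) (hs0 : 0 ≤ σ)
    (hs : σ ≤ 1) (hw : 0 ≤ w) (hp : p2 = (1 - σ) * w) (hs2 : s2 = σ * w)
    (hx : x2 ≤ p2) :
    -(147 / 100 * a - 1 / 2) * p2 - (a - 1 / 2) * s2 + e * σ * ((1 + 4 * a) * p2 - s2)
      + (c + u) * x2 / 2 + 3 / 4 * e * w ≤ 0 := by
  have hp0 : 0 ≤ p2 := by
    rw [hp]
    exact mul_nonneg (by linarith) hw
  have hs20 : 0 ≤ s2 := by
    rw [hs2]
    exact mul_nonneg hs0 hw
  have h1 : (c + u) * x2 ≤ (1 / 400 + 3 * a / 4) * p2 :=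
    (mul_le_mul_of_nonneg_left hx (by linarith)).trans
      (mul_le_mul_of_nonneg_right (by linarith) hp0)
  have h2 : e * σ * ((1 + 4 * a) * p2) ≤ 1 / 100 * p2 := by
    have : e * σ * ((1 + 4 * a) * p2) = σ * (e * (1 + 4 * a)) * p2 := by ring
    rw [this, hem]
    exact mul_le_mul_of_nonneg_right (by linarith) hp0
  have h3 : 0 ≤ (a - 1 / 2) * s2 := mul_nonneg (by linarith) hs20
  have h4 : 3 / 4 * e * w ≤ e * p2 + e * σ * s2 := by
    have : e * p2 + e * σ * s2 - 3 / 4 * e * w = e * w * (σ - 1 / 2) ^ 2 := by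
      rw [hp, hs2]
      ring
    have h5 : 0 ≤ e * w * (σ - 1 / 2) ^ 2 := by positivity
    linarith
  have h5 : e * p2 ≤ 1 / 300 * p2 := mul_le_mul_of_nonneg_right he hp0
  have h6 : 0 ≤ (a - 1 / 2) * p2 := mul_nonneg (by linarith) hp0
  nlinarith

end PotM

open PotM in
theorem pot_stmt (hS : StepStmt) (hJ : JetStmt) (hA : PotAStmt) (h1 : PotStaticStmt)
    (h2 : PotNStmt) : PotStmt := by
  intro a ha
  obtain ⟨hm, hi, CH, hCH, hh⟩ := h1 a ha
  refine ⟨CH, Mf a, MAf a, MBf a, hCH, hm, fun x => by simp [Mf], fun n x => ?_, hi, hh, ?_⟩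
  · unfold Mf
    split_ifs
    · exact zero_le_one
    · exact (Real.exp_pos _).le
  intro n U σ τ z y hU hF hAd
  have R := hS U σ τ hU
  by_cases hn : n = 0
  · subst hn
    refine ⟨fun _ => 0, fun _ => 0, ?_, fun s _ => ⟨by simp [MBf], fun h => absurd rfl h⟩⟩
    simpa [Mf, MAf, MBf] using (R.const 1).1
  have hn1 : 1 ≤ n := Nat.one_le_iff_ne_zero.2 hn
  have J := hJ a U σ τ (z 0) (y 0) hU (hF 0 hn1)
  have hG := (R.ito_add _ _ _ _ _ _ _ _ (R.ito_smul (-del a) _ _ _ _ J.logUps)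
    (R.ito_smul (alp a) _ _ _ _ J.logSin)).1
  have hN := R.add _ _ _ _ _ _ _ _ hG (h2 a ha n U σ τ z y hn1 hU hF hAd)
  have hE := R.comp _ _ _ _ Real.exp Real.exp Real.exp univ hN isOpen_univ ordConnected_univ
    (mapsTo_univ _ _) (fun x _ => Real.hasDerivAt_exp x) (fun x _ => Real.hasDerivAt_exp x)
    Real.continuous_exp.continuousOn (fun x _ => (Real.exp_pos x).le)
  have PA := hA (etaP a) (cP a) (kP a) (by have := del_pos ha; unfold etaP; positivity)
    (cP_pos ha) (cP_le ha) (kP_ge ha)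
  refine ⟨_, fun s => uu a n (fun i => z i s, fun i => y i s) * (1 - 2 * epsP a * sinA (z 0 s) ^ 2),
    by
      convert hE using 2 with s s s
      · simp only [Mf, lG, hn, if_false]
      · simp only [MAf, Mf, lG, hn, if_false]
        ring
      · simp only [MBf, Mf, lG, hn, if_false]
        ring, fun s hs => ?_⟩
  have hu0 : 0 ≤ uu a n (fun i => z i s, fun i => y i s) :=
    PA.nonneg n _ _ hn1 (goodD hn1 (hAd s hs))
  have hu1 : uu a n (fun i => z i s, fun i => y i s) ≤ 3 * del a / 4 := PA.le_eta n _ _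
  obtain ⟨g0, g1, gp, gs⟩ := geom ((hAd s hs).1 0 hn1).1
  have he0 := eps_pos ha
  have he1 := eps_le ha
  have k0 : 0 ≤ 2 * epsP a * sinA (z 0 s) ^ 2 := by positivity
  have k1 : 2 * epsP a * sinA (z 0 s) ^ 2 ≤ 1 := by nlinarith
  have hxA : xtA a (fun i => z i s, fun i => y i s)
      = -(pR (z 0 s) * (1 - 2 * epsP a * sinA (z 0 s) ^ 2)) := by
    simp only [xtA]
    ring
  refine ⟨?_, fun _ => ⟨?_, mul_nonneg hu0 (by linarith), ?_⟩⟩
  · have hx : xtA a (fun i => z i s, fun i => y i s) ^ 2 ≤ pR (z 0 s) ^ 2 := by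
      rw [hxA, neg_sq, mul_pow]
      exact mul_le_of_le_one_right (sq_nonneg _) (by nlinarith)
    have key := drift ha (del_le ha) (cP_le ha) (cP_pos ha).le he0 he1 (eps_mul ha) hu0 hu1 g0 g1
      (by positivity) gp gs hx
    have key2 := mul_nonpos_of_nonneg_of_nonpos
      (mul_nonneg (Real.exp_pos (lG a (fun i => z i s, fun i => y i s)
        + (lJ a n (fun i => z i s, fun i => y i s) - UU a n (fun i => z i s, fun i => y i s)))).le
        hu0) key
    refine le_of_eq_of_le ?_ key2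
    have e1 := two_a_del ha
    have e2 := sqrt_k ha
    simp only [MBf, Mf, lG, hn, if_false, xtB]
    rw [hxA]
    generalize Real.exp _ = M
    generalize uu a n _ = u
    generalize sinA (z 0 s) ^ 2 = S
    generalize pR (z 0 s) = p
    generalize sI (z 0 s) = q
    rw [div_eq_mul_one_div (30 / Real.sqrt (kP a))]
    generalize 1 / ‖z 0 s‖ ^ 2 = w
    unfold alp at e1 ⊢
    linear_combination (M * q ^ 2) * e1 + (M * u * w) * e2
  · simp only [MAf, hn, if_false]
    rw [hxA]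
    ring
  · exact (mul_le_of_le_one_right hu0 (by linarith)).trans hu1

end Pool.Agent.MP_990230_pr

end MrgPart6

-- marker of a merged file
example : 731051 + 563001 = 731051 + 563001 := rfl
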