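import Mathlib.Topology.Sheaves.Presheaf
import Pool.Agent.MP_990230_pr.Pot
import Mathlib.RingTheory.PiTensorProduct
import Mathlib.Algebra.Ring.IsFormallyReal
import Pool.Agent.MP_990230_pr.BM
import Mathlib.Tactic.Monotonicity.Lemmas

-- ======== part 0: formerly Pool.Agent.MP_990230_pr.GL2
section MrgPart0

/-!
# PROJECT SLE, module GL, part 2: the discrete inequality in expectation
-/

open Set MeasureTheory ProbabilityTheory Filter
open scoped ENNReal NNReal Topology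

noncomputable section

namespace Pool.Agent.MP_990230_pr

namespace GenL

variable {Ω : Type*} {mΩ : MeasurableSpace Ω} {P : Measure Ω} {U : Ω → ℝ → ℝ}
  {F : Filtration ℝ mΩ} {N A B : Ω → ℝ → ℝ} {σ : Ω → ℝ} {E : Set Ω} {R : ℝ → Set Ω}

/-- the measurability hypotheses. -/
structure Ad (F : Filtration ℝ mΩ) (N A B : Ω → ℝ → ℝ) (σ : Ω → ℝ) (E : Set Ω)
    (R : ℝ → Set Ω) : Prop where
  hN : ∀ t, 0 ≤ t → Measurable[F t] (fun ω => N ω t) ∧ Measurable[F t] (fun ω => A ω t) ∧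
    Measurable[F t] (fun ω => B ω t)
  hE : ∀ t, 0 ≤ t → MeasurableSet[F t] {ω | ω ∈ E ∧ σ ω ≤ t}
  hR : ∀ t, 0 ≤ t → MeasurableSet[F t] (R t)

lemma meas_cl (m : ℝ) : Measurable (cl m) := by
  unfold cl; fun_prop

lemma meas_nn (H : Ad F N A B σ E R) (m e : ℝ) {h : ℝ} (hh : 0 ≤ h) (k : ℕ) :
    Measurable[F (tk h k)] (nn N m e h k) := by
  have h1 := (H.hN _ (tk_nonneg hh k)).1
  have : Measurable (fun x : ℝ => min (max x 0) m + 2 * m * e) := by fun_prop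
  exact this.comp h1

lemma meas_xy (hB : BMSetup P U F) (H : Ad F N A B σ E R) (m e : ℝ) {h : ℝ} (hh : 0 ≤ h)
    (k : ℕ) : Measurable[F (tk h (k + 1))]
      (fun ω => xx U A B m h k ω + yy U m e h k ω) := by
  have hle : F (tk h k) ≤ F (tk h (k + 1)) := F.mono (tk_mono hh (Nat.le_succ k))
  have h1 : Measurable[F (tk h (k + 1))] (fun ω => cl m (A ω (tk h k))) :=
    ((meas_cl m).comp (H.hN _ (tk_nonneg hh k)).2.1).mono hle le_rfl
  have h2 : Measurable[F (tk h (k + 1))] (fun ω => cl m (B ω (tk h k))) :=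
    ((meas_cl m).comp (H.hN _ (tk_nonneg hh k)).2.2).mono hle le_rfl
  have h3 : Measurable[F (tk h (k + 1))] (fun ω => U ω (tk h (k + 1)) - U ω (tk h k)) :=
    (hB.adapt _).sub ((hB.adapt _).mono hle le_rfl)
  have h4 : Measurable (fun q : ℝ × ℝ × ℝ => q.1 * q.2.2
      + q.2.1 / 2 * (q.2.2 ^ 2 - (tk h (k + 1) - tk h k))
      + (e * (h + q.2.2 ^ 2) + 2 * m / e ^ 3 * q.2.2 ^ 4)) := by fun_prop
  exact h4.comp (h1.prodMk (h2.prodMk h3))

lemma meas_gd (hB : BMSetup P U F) (H : Ad F N A B σ E R) (m e : ℝ) {h : ℝ} (hh : 0 ≤ h)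
    (k : ℕ) : MeasurableSet[F (tk h (k + 1))] (gd U N A B m e h k) := by
  have hle : F (tk h k) ≤ F (tk h (k + 1)) := F.mono (tk_mono hh (Nat.le_succ k))
  have h1 := (meas_nn H m e hh (k + 1)).sub ((meas_nn H m e hh k).mono hle le_rfl)
  exact measurableSet_le h1 (meas_xy hB H m e hh k)

lemma meas_pr (hB : BMSetup P U F) (H : Ad F N A B σ E R) (m e : ℝ) {h : ℝ} (hh : 0 ≤ h)
    (k : ℕ) : MeasurableSet[F (tk h k)]
      (pre (St E σ h) (fun k => R (tk h k)) (gd U N A B m e h) k) :=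
  meas_pre (tk_mono hh) (fun k => H.hE _ (tk_nonneg hh k)) (fun k => H.hR _ (tk_nonneg hh k))
    (meas_gd hB H m e hh) k

lemma meas_VV (hB : BMSetup P U F) (H : Ad F N A B σ E R) (m e : ℝ) {h : ℝ} (hh : 0 ≤ h)
    (K : ℕ) : Measurable (VV U N A B E σ R m e h K) := by
  refine Finset.measurable_sum _ fun k _ => ?_
  exact ((meas_nn H m e hh k).mono (F.le _) le_rfl).indicator
    (F.le _ _ ((meas_pr hB H m e hh k).inter (H.hR _ (tk_nonneg hh k))))

lemma meas_SS (H : Ad F N A B σ E R) (m e : ℝ) {h : ℝ} (hh : 0 ≤ h)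
    (K : ℕ) : Measurable (SS N E σ m e h K) := by
  refine Finset.measurable_sum _ fun k _ => ?_
  exact ((meas_nn H m e hh k).mono (F.le _) le_rfl).indicator
    (F.le _ _ (meas_first (St := St E σ h) (tk_mono hh) (fun k => H.hE _ (tk_nonneg hh k)) k))

lemma int_nn (hB : BMSetup P U F) (H : Ad F N A B σ E R) {m e h : ℝ} (hm : 0 ≤ m) (he : 0 ≤ e)
    (hh : 0 ≤ h) (k : ℕ) : Integrable (nn N m e h k) P := by
  have := hB.prob
  refine Integrable.of_bound ((meas_nn H m e hh k).mono (F.le _) le_rfl).aestronglyMeasurable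
    (m + 2 * m * e) (Eventually.of_forall fun ω => ?_)
  have h1 := nn_ge (N := N) (e := e) (h := h) hm k ω
  have h2 := nn_le (N := N) (m := m) (e := e) (h := h) k ω
  have h3 : 0 ≤ 2 * m * e := by positivity
  rw [Real.norm_eq_abs, abs_of_nonneg (by linarith)]
  exact h2

lemma VV_nonneg {m e h : ℝ} (hm : 0 ≤ m) (he : 0 ≤ e) (K : ℕ) (ω : Ω) :
    0 ≤ VV U N A B E σ R m e h K ω := by
  refine Finset.sum_nonneg fun k _ => indicator_apply_nonneg fun _ => ?_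
  exact le_trans (by positivity) (nn_ge hm k ω)

lemma SS_nonneg {m e h : ℝ} (hm : 0 ≤ m) (he : 0 ≤ e) (K : ℕ) (ω : Ω) :
    0 ≤ SS N E σ m e h K ω := by
  refine Finset.sum_nonneg fun k _ => indicator_apply_nonneg fun _ => ?_
  exact le_trans (by positivity) (nn_ge hm k ω)

lemma discrete (hB : BMSetup P U F) (H : Ad F N A B σ E R) {m e h : ℝ} (hm : 0 ≤ m)
    (he : 0 < e) (he1 : e ≤ 1) (hh : 0 ≤ h) (hhe : h ≤ e) (K : ℕ) :
    ∫⁻ ω, ENNReal.ofReal (VV U N A B E σ R m e h K ω) ∂P ≤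
      ∫⁻ ω, ENNReal.ofReal (SS N E σ m e h K ω) ∂P
        + ENNReal.ofReal (K * (2 * e * h + 2 * m / e ^ 3 * (h ^ 2 * c4))) := by
  have := hB.prob
  set pr := pre (St E σ h) (fun k => R (tk h k)) (gd U N A B m e h) with hpr
  have iV : Integrable (VV U N A B E σ R m e h K) P := by
    refine integrable_finsetSum _ fun k _ => ?_
    exact (int_nn hB H hm he.le hh k).indicator
      (F.le _ _ ((meas_pr hB H m e hh k).inter (H.hR _ (tk_nonneg hh k))))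
  have iS : Integrable (SS N E σ m e h K) P := by
    refine integrable_finsetSum _ fun k _ => ?_
    exact (int_nn hB H hm he.le hh k).indicator
      (F.le _ _ (meas_first (St := St E σ h) (tk_mono hh) (fun k => H.hE _ (tk_nonneg hh k)) k))
  have hx : ∀ k, Integrable ((pr k \ R (tk h k)).indicator (xx U A B m h k)) P ∧
      ∫ ω, (pr k \ R (tk h k)).indicator (xx U A B m h k) ω ∂P = 0 := by
    intro k
    have hms : MeasurableSet[F (tk h k)] (pr k \ R (tk h k)) :=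
      (meas_pr hB H m e hh k).diff (H.hR _ (tk_nonneg hh k))
    have h1 : Measurable[F (tk h k)] (fun ω => cl m (A ω (tk h k))) :=
      (meas_cl m).comp (H.hN _ (tk_nonneg hh k)).2.1
    have h2 : Measurable[F (tk h k)] (fun ω => cl m (B ω (tk h k)) / 2) :=
      ((meas_cl m).comp (H.hN _ (tk_nonneg hh k)).2.2).div_const 2
    have := mart hB (tk_nonneg hh k) (tk_mono hh (Nat.le_succ k)) (m := m)
      (h1.indicator hms) (h2.indicator hms)
      (fun ω => by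
        by_cases hω : ω ∈ pr k \ R (tk h k)
        · rw [indicator_of_mem hω]; exact cl_abs hm _
        · rw [indicator_of_notMem hω]; simpa using hm)
      (fun ω => by
        by_cases hω : ω ∈ pr k \ R (tk h k)
        · rw [indicator_of_mem hω, abs_div, abs_two]
          have := cl_abs hm (B ω (tk h k))
          have h0 := abs_nonneg (cl m (B ω (tk h k)))
          linarith
        · rw [indicator_of_notMem hω]; simpa using hm)
    have e1 : (pr k \ R (tk h k)).indicator (xx U A B m h k) = fun ω =>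
        (pr k \ R (tk h k)).indicator (fun ω => cl m (A ω (tk h k))) ω
          * (U ω (tk h (k + 1)) - U ω (tk h k))
        + (pr k \ R (tk h k)).indicator (fun ω => cl m (B ω (tk h k)) / 2) ω
          * ((U ω (tk h (k + 1)) - U ω (tk h k)) ^ 2 - (tk h (k + 1) - tk h k)) := by
      funext ω
      by_cases hω : ω ∈ pr k \ R (tk h k)
      · simp only [indicator_of_mem hω, xx]
      · simp only [indicator_of_notMem hω, zero_mul, add_zero]
    rw [e1]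
    exact this
  have hy : ∀ k, Integrable (yy U m e h k) P ∧
      ∫ ω, yy U m e h k ω ∂P = 2 * e * h + 2 * m / e ^ 3 * (h ^ 2 * c4) := by
    intro k
    have h0 := tk_nonneg hh k
    have h1 : tk h k ≤ tk h (k + 1) := tk_mono hh (Nat.le_succ k)
    have i2 := intD hB h0 h1 2
    have i4 := intD hB h0 h1 4
    have j2 : Integrable (fun ω => e * (h + (U ω (tk h (k + 1)) - U ω (tk h k)) ^ 2)) P :=
      ((integrable_const h).add i2).const_mul e
    have j4 := i4.const_mul (2 * m / e ^ 3)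
    refine ⟨j2.add j4, ?_⟩
    simp only [yy]
    rw [integral_add j2 j4, integral_const_mul, integral_const_mul,
      integral_add (integrable_const h) i2, exp2 hB h0 h1, exp4 hB h0 h1, tk_succ]
    simp only [integral_const, probReal_univ, smul_eq_mul, one_mul]
    ring
  have iT : Integrable (fun ω => ∑ k ∈ Finset.range K,
      ((pr k \ R (tk h k)).indicator (xx U A B m h k) ω + yy U m e h k ω)) P :=
    integrable_finsetSum _ fun k _ => (hx k).1.add (hy k).1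
  have eT : ∫ ω, ∑ k ∈ Finset.range K,
      ((pr k \ R (tk h k)).indicator (xx U A B m h k) ω + yy U m e h k ω) ∂P
      = K * (2 * e * h + 2 * m / e ^ 3 * (h ^ 2 * c4)) := by
    rw [integral_finsetSum (f := fun k ω =>
      (pr k \ R (tk h k)).indicator (xx U A B m h k) ω + yy U m e h k ω) _
      fun k _ => (hx k).1.add (hy k).1]
    rw [Finset.sum_congr rfl (g := fun _ => 2 * e * h + 2 * m / e ^ 3 * (h ^ 2 * c4))]
    · rw [Finset.sum_const, Finset.card_range, nsmul_eq_mul]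
    · intro k _
      rw [integral_add (hx k).1 (hy k).1, (hx k).2, (hy k).2, zero_add]
  have hpt : ∀ ω, VV U N A B E σ R m e h K ω ≤ SS N E σ m e h K ω + ∑ k ∈ Finset.range K,
      ((pr k \ R (tk h k)).indicator (xx U A B m h k) ω + yy U m e h k ω) := by
    intro ω
    have hn : ∀ k, 0 ≤ nn N m e h k ω := fun k => le_trans (by positivity) (nn_ge hm k ω)
    have ht := tele (St E σ h) (fun k => R (tk h k)) (gd U N A B m e h) (nn N m e h)
      (xx U A B m h) (yy U m e h) ω hn (fun k => by simp only [yy]; positivity)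
      (fun k hk => hk) (fun k => by
        have h1 := nn_ge (N := N) (e := e) (h := h) hm k ω
        have h2 := bad_le (d := U ω (tk h (k + 1)) - U ω (tk h k)) (cl_abs hm (A ω (tk h k)))
          (cl_abs hm (B ω (tk h k))) he he1 hh hhe
        have h3 : 0 ≤ e * (h + (U ω (tk h (k + 1)) - U ω (tk h k)) ^ 2) := by positivity
        simp only [xx, yy, tk_succ]
        linarith) K
    have h0 : 0 ≤ (pr K).indicator (nn N m e h K) ω := indicator_apply_nonneg fun _ => hn K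
    simp only [VV, SS]
    linarith
  have hint : ∫ ω, VV U N A B E σ R m e h K ω ∂P ≤ ∫ ω, SS N E σ m e h K ω ∂P
      + K * (2 * e * h + 2 * m / e ^ 3 * (h ^ 2 * c4)) := by
    rw [← eT, ← integral_add iS iT]
    exact integral_mono iV (iS.add iT) hpt
  rw [← ofReal_integral_eq_lintegral_ofReal iV (Eventually.of_forall (VV_nonneg hm he.le K)),
    ← ofReal_integral_eq_lintegral_ofReal iS (Eventually.of_forall (SS_nonneg hm he.le K))]
  exact (ENNReal.ofReal_le_ofReal hint).trans ENNReal.ofReal_add_le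

end GenL

end Pool.Agent.MP_990230_pr

end
end MrgPart0

-- ======== part 1: formerly Pool.Agent.MP_990230_pr.GL
section MrgPart1

/-!
# PROJECT SLE, module GL: the generator lemma
-/

open Set MeasureTheory ProbabilityTheory Filter
open scoped ENNReal NNReal Topology

noncomputable section

namespace Pool.Agent.MP_990230_pr

universe u

namespace GenL

variable {Ω : Type*} {mΩ : MeasurableSpace Ω} {P : Measure Ω} {U : Ω → ℝ → ℝ}
  {F : Filtration ℝ mΩ} {N A B : Ω → ℝ → ℝ} {σ : Ω → ℝ} {E : Set Ω} {R : ℝ → Set Ω}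

/-- the first grid index at or after `x`. -/
def idx (x h : ℝ) : ℕ := ⌈x / h⌉₊

/-- the mesh. -/
def ms (i : ℕ) : ℝ := 1 / ((i : ℝ) + 1)

lemma ms_pos (i : ℕ) : 0 < ms i := by unfold ms; positivity

lemma ms_lim : Tendsto ms atTop (𝓝 0) := tendsto_one_div_add_atTop_nhds_zero_nat

lemma tk_ms (M i : ℕ) : tk (ms i) (M * (i + 1)) = M := by
  simp only [tk, ms]; push_cast; field_simp

lemma le_tk_iff {h : ℝ} (hh : 0 < h) (x : ℝ) (k : ℕ) : x ≤ tk h k ↔ idx x h ≤ k := by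
  rw [idx, Nat.ceil_le, div_le_iff₀ hh, tk]

lemma tk_idx_lt {h x : ℝ} (hh : 0 < h) (hx : 0 ≤ x) : tk h (idx x h) < x + h := by
  have := Nat.ceil_lt_add_one (div_nonneg hx hh.le)
  have h2 := mul_lt_mul_of_pos_right this hh
  rw [add_mul, div_mul_cancel₀ _ hh.ne', one_mul] at h2
  exact h2

lemma le_tk_idx {h : ℝ} (hh : 0 < h) (x : ℝ) : x ≤ tk h (idx x h) :=
  (le_tk_iff hh x _).2 le_rfl

lemma grid_lim {x : ℝ} (hx : 0 ≤ x) :
    Tendsto (fun i => tk (ms i) (idx x (ms i))) atTop (𝓝 x) := by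
  have h1 : Tendsto (fun i => x + ms i) atTop (𝓝 x) := by
    simpa using ms_lim.const_add x
  exact tendsto_of_tendsto_of_tendsto_of_le_of_le tendsto_const_nhds h1
    (fun i => le_tk_idx (ms_pos i) x) (fun i => (tk_idx_lt (ms_pos i) hx).le)

lemma mem_first {h : ℝ} (hh : 0 < h) (ω : Ω) (k : ℕ) :
    ω ∈ first (St E σ h) k ↔ ω ∈ E ∧ k = idx (σ ω) h := by
  cases k with
  | zero =>
    simp only [first, St, mem_ofPred_eq, le_tk_iff hh]
    exact and_congr_right fun _ => by omega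
  | succ k =>
    simp only [first, St, Set.mem_sdiff, mem_ofPred_eq, le_tk_iff hh, not_and]
    constructor
    · rintro ⟨⟨h1, h2⟩, h3⟩
      have := h3 h1
      exact ⟨h1, by omega⟩
    · rintro ⟨h1, h2⟩
      exact ⟨⟨h1, by omega⟩, fun _ => by omega⟩

open Classical in
lemma SS_eq {m e h : ℝ} (hh : 0 < h) (K : ℕ) (ω : Ω) :
    SS N E σ m e h K ω =
      if ω ∈ E ∧ σ ω ≤ tk h K then nn N m e h (idx (σ ω) h) ω else 0 := by
  simp only [SS, indicator_apply, mem_first hh, le_tk_iff hh]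
  by_cases hω : ω ∈ E
  · simp only [hω, true_and, Finset.sum_ite_eq', Finset.mem_range, Nat.lt_succ_iff]
  · simp [hω]

/-- the limit of the starting values. -/
lemma SS_lim (hB : BMSetup P U F) (H : Ad F N A B σ E R)
    (hE0 : ∀ ω ∈ E, 0 ≤ σ ω ∧ ContinuousWithinAt (N ω) (Ici (σ ω)) (σ ω)) (M : ℕ) {e : ℝ}
    (he : 0 ≤ e) : ∃ L : ℝ≥0∞,
      Tendsto (fun i => ∫⁻ ω, ENNReal.ofReal (SS N E σ M e (ms i) (M * (i + 1)) ω) ∂P) atTop (𝓝 L)
      ∧ L ≤ ∫⁻ ω, E.indicator (fun ω => ENNReal.ofReal (N ω (σ ω))) ω ∂P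
        + ENNReal.ofReal (2 * M * e) := by
  classical
  have := hB.prob
  have hM : (0 : ℝ) ≤ M := Nat.cast_nonneg M
  refine ⟨∫⁻ ω, ENNReal.ofReal (if ω ∈ E ∧ σ ω ≤ M then
    min (max (N ω (σ ω)) 0) M + 2 * M * e else 0) ∂P, ?_, ?_⟩
  · refine tendsto_lintegral_of_dominated_convergence (fun _ => ENNReal.ofReal (M + 2 * M * e))
      (fun i => (meas_SS H M e (ms_pos i).le _).ennreal_ofReal)
      (fun i => Eventually.of_forall fun ω => ?_) (by simp) (Eventually.of_forall fun ω => ?_)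
    · refine ENNReal.ofReal_le_ofReal ?_
      rw [SS_eq (ms_pos i)]
      split_ifs
      · exact nn_le _ _
      · positivity
    · refine (ENNReal.continuous_ofReal.tendsto _).comp ?_
      simp only [SS_eq (ms_pos _), tk_ms]
      split_ifs with hω
      · obtain ⟨h0, hc⟩ := hE0 ω hω.1
        have h1 : Tendsto (fun i => tk (ms i) (idx (σ ω) (ms i))) atTop (𝓝[Ici (σ ω)] (σ ω)) :=
          tendsto_nhdsWithin_iff.2 ⟨grid_lim h0,
            Eventually.of_forall fun i => le_tk_idx (ms_pos i) _⟩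
        have h2 := hc.tendsto.comp h1
        have h3 : Continuous (fun x : ℝ => min (max x 0) (M : ℝ) + 2 * M * e) := by fun_prop
        exact (h3.tendsto _).comp h2
      · exact tendsto_const_nhds
  · calc _ ≤ ∫⁻ ω, (E.indicator (fun ω => ENNReal.ofReal (N ω (σ ω))) ω
          + ENNReal.ofReal (2 * M * e)) ∂P := by
          refine lintegral_mono fun ω => ?_
          simp only
          split_ifs with hω
          · rw [indicator_of_mem hω.1]
            refine ENNReal.ofReal_add_le.trans (add_le_add ?_ le_rfl)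
            refine (ENNReal.ofReal_le_ofReal (min_le_left _ _)).trans ?_
            rcases le_total (N ω (σ ω)) 0 with h | h
            · rw [max_eq_right h]; simp
            · rw [max_eq_left h]
          · simp
      _ = _ := by
          rw [lintegral_add_right _ measurable_const]
          simp

/-- the bound for one value of the cap. -/
lemma cap_bound (hB : BMSetup P U F) (H : Ad F N A B σ E R)
    (hE0 : ∀ ω ∈ E, 0 ≤ σ ω ∧ ContinuousWithinAt (N ω) (Ici (σ ω)) (σ ω)) (M : ℕ) {e : ℝ}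
    (he : 0 < e) (he1 : e ≤ 1) :
    ∫⁻ ω, liminf (fun i => ENNReal.ofReal (VV U N A B E σ R M e (ms i) (M * (i + 1)) ω)) atTop ∂P
      ≤ ∫⁻ ω, E.indicator (fun ω => ENNReal.ofReal (N ω (σ ω))) ω ∂P
        + ENNReal.ofReal (4 * M * e) := by
  have hM : (0 : ℝ) ≤ M := Nat.cast_nonneg M
  obtain ⟨L, hL, hL'⟩ := SS_lim hB H hE0 M he.le
  have h1 : Tendsto (fun i => ENNReal.ofReal (((M * (i + 1) : ℕ) : ℝ) *
      (2 * e * ms i + 2 * M / e ^ 3 * (ms i ^ 2 * c4)))) atTop (𝓝 (ENNReal.ofReal (2 * M * e))) := by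
    refine (ENNReal.continuous_ofReal.tendsto _).comp ?_
    have h2 : Tendsto (fun i => 2 * M * e + 2 * M * M / e ^ 3 * c4 * ms i) atTop
        (𝓝 (2 * M * e)) := by
      simpa using (ms_lim.const_mul (2 * M * M / e ^ 3 * c4)).const_add (2 * M * e)
    refine h2.congr fun i => ?_
    simp only [ms]; push_cast; field_simp
  refine (lintegral_liminf_le fun i => (meas_VV hB H M e (ms_pos i).le _).ennreal_ofReal).trans ?_
  have h3 := (hL.add h1).liminf_eq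
  refine (liminf_le_liminf ?_).trans (h3.le.trans ?_)
  · filter_upwards [ms_lim.eventually (eventually_le_nhds he)] with i hi
    exact discrete hB H hM he he1 (ms_pos i).le hi _
  · refine (add_le_add hL' le_rfl).trans ?_
    rw [add_assoc, ← ENNReal.ofReal_add (by positivity) (by positivity)]
    refine add_le_add le_rfl (ENNReal.ofReal_le_ofReal (le_of_eq ?_))
    ring

/-- on a good path the collected value is eventually the value at the grid time after `τ`. -/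
lemma path_low {ω : Ω} {τ τ' m e : ℝ} {D : ℝ → ℝ} (hω : ω ∈ E) (h0 : 0 ≤ σ ω) (hστ : σ ω ≤ τ)
    (hR : ∀ t, 0 ≤ t → (ω ∈ R t ↔ τ ≤ t)) (hτ : τ < τ')
    (hS : UStep (U ω) (σ ω) τ' (N ω) (A ω) (B ω) D) (hN0 : ∀ s ∈ Icc (σ ω) τ', 0 ≤ N ω s)
    (hD : ∀ s ∈ Ico (σ ω) τ, D s + B ω s / 2 ≤ 0) (he : 0 < e)
    (bN : ∀ s ∈ Icc (σ ω) τ', |N ω s| ≤ m) (bA : ∀ s ∈ Icc (σ ω) τ', |A ω s| ≤ m)
    (bB : ∀ s ∈ Icc (σ ω) τ', |B ω s| ≤ m) :
    ∃ h1 : ℝ, 0 < h1 ∧ ∀ h, 0 < h → h ≤ h1 → ∀ K : ℕ, τ' ≤ tk h K →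
      tk h (idx τ h) ∈ Icc (σ ω) τ' ∧ N ω (tk h (idx τ h)) ≤ VV U N A B E σ R m e h K ω := by
  obtain ⟨h1, h1pos, hstep⟩ := hS.step e he
  have hm : 0 ≤ m := (abs_nonneg _).trans (bN _ ⟨le_rfl, by linarith⟩)
  refine ⟨min h1 (τ' - τ), lt_min h1pos (by linarith), fun h hh hle K hK => ?_⟩
  have hh1 : h ≤ h1 := hle.trans (min_le_left _ _)
  have hh2 : h ≤ τ' - τ := hle.trans (min_le_right _ _)
  have hτ0 : 0 ≤ τ := h0.trans hστ
  have hlt := tk_idx_lt hh hτ0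
  have hk01 : idx (σ ω) h ≤ idx τ h := (le_tk_iff hh _ _).1 (hστ.trans (le_tk_idx hh τ))
  have hmem : ∀ k, idx (σ ω) h ≤ k → k ≤ idx τ h → tk h k ∈ Icc (σ ω) τ' := fun k h1 h2 =>
    ⟨(le_tk_iff hh _ _).2 h1, by linarith [tk_mono hh.le h2]⟩
  have hnn : ∀ k, idx (σ ω) h ≤ k → k ≤ idx τ h →
      nn N m e h k ω = N ω (tk h k) + 2 * m * e := by
    intro k h1 h2
    have h3 := hmem k h1 h2
    rw [nn, max_eq_left (hN0 _ h3), min_eq_left ((le_abs_self _).trans (bN _ h3))]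
  have hpre : ∀ k, idx (σ ω) h ≤ k → k ≤ idx τ h →
      ω ∈ pre (St E σ h) (fun k => R (tk h k)) (gd U N A B m e h) k := by
    intro k hk
    induction k, hk using Nat.le_induction with
    | base =>
      intro _
      have h3 : ω ∈ first (St E σ h) (idx (σ ω) h) := (mem_first hh ω _).2 ⟨hω, rfl⟩
      revert h3
      cases idx (σ ω) h with
      | zero => exact fun h3 => h3
      | succ j => exact fun h3 => Or.inl h3
    | succ k hk ih =>
      intro hk1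
      have hkτ : tk h k < τ := by
        by_contra hc
        have := (le_tk_iff hh _ _).1 (not_lt.1 hc)
        omega
      have m1 := hmem k hk (by omega)
      have m2 := hmem (k + 1) (by omega) hk1
      refine Or.inr ⟨⟨ih (by omega), fun hc => ?_⟩, ?_⟩
      · exact absurd ((hR _ (tk_nonneg hh.le k)).1 hc) (not_le.2 hkτ)
      · have h3 := hstep _ m1 _ m2 (tk_mono hh.le (Nat.le_succ k)) (by rw [tk_succ]; exact hh1)
        have h4 := hD _ ⟨m1.1, hkτ⟩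
        have h5 : 0 ≤ 2 * m / e ^ 3 * (U ω (tk h (k + 1)) - U ω (tk h k)) ^ 4 := by positivity
        have h6 := mul_le_mul_of_nonneg_right h4 hh.le
        simp only [gd, mem_ofPred_eq, xx, yy, hnn k hk (by omega), hnn (k + 1) (by omega) hk1,
          cl_eq (bA _ m1), cl_eq (bB _ m1)]
        rw [tk_succ] at h3 ⊢
        linarith
  refine ⟨hmem _ hk01 le_rfl, ?_⟩
  have hK' : idx τ h < K := by
    by_contra hc
    have := tk_mono hh.le (not_lt.1 hc)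
    linarith
  have h7 := Finset.single_le_sum (s := Finset.range K) (f := fun k =>
    (pre (St E σ h) (fun k => R (tk h k)) (gd U N A B m e h) k ∩ R (tk h k)).indicator
      (nn N m e h k) ω)
    (fun k _ => indicator_apply_nonneg fun _ => le_trans (by positivity) (nn_ge hm k ω))
    (Finset.mem_range.2 hK')
  refine le_trans ?_ h7
  rw [indicator_of_mem (show ω ∈ _ ∩ _ from ⟨hpre _ hk01 le_rfl,
    (hR _ (tk_nonneg hh.le _)).2 (le_tk_idx hh τ)⟩), hnn _ hk01 le_rfl]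
  have : 0 ≤ 2 * m * e := by positivity
  linarith

lemma path_liminf {ω : Ω} {τ τ' : ℝ} {D : ℝ → ℝ} (hω : ω ∈ E) (h0 : 0 ≤ σ ω) (hστ : σ ω ≤ τ)
    (hR : ∀ t, 0 ≤ t → (ω ∈ R t ↔ τ ≤ t)) (hτ : τ < τ')
    (hS : UStep (U ω) (σ ω) τ' (N ω) (A ω) (B ω) D) (hN0 : ∀ s ∈ Icc (σ ω) τ', 0 ≤ N ω s)
    (hD : ∀ s ∈ Ico (σ ω) τ, D s + B ω s / 2 ≤ 0) :
    ∀ᶠ M : ℕ in atTop, ∀ e : ℝ, 0 < e → ENNReal.ofReal (N ω τ) ≤
      liminf (fun i => ENNReal.ofReal (VV U N A B E σ R M e (ms i) (M * (i + 1)) ω)) atTop := by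
  obtain ⟨CN, hCN⟩ := isCompact_Icc.exists_bound_of_continuousOn hS.cont
  obtain ⟨CA, hCA⟩ := hS.bA
  obtain ⟨CB, hCB⟩ := hS.bB
  have hev : ∀ c : ℝ, ∀ᶠ M : ℕ in atTop, c ≤ (M : ℝ) := fun c =>
    tendsto_natCast_atTop_atTop.eventually (eventually_ge_atTop c)
  filter_upwards [hev CN, hev CA, hev CB, hev τ'] with M h1 h2 h3 h4 e he
  obtain ⟨h1', hpos, hlow⟩ := path_low (m := M) hω h0 hστ hR hτ hS hN0 hD he
    (fun s hs => (hCN s hs).trans h1) (fun s hs => (hCA s hs).trans h2)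
    (fun s hs => (hCB s hs).trans h3)
  have hsm := ms_lim.eventually (eventually_le_nhds hpos)
  have ht : Tendsto (fun i => tk (ms i) (idx τ (ms i))) atTop (𝓝[Icc (σ ω) τ'] τ) := by
    refine tendsto_nhdsWithin_iff.2 ⟨grid_lim (h0.trans hστ), ?_⟩
    filter_upwards [hsm] with i hi
    exact (hlow _ (ms_pos i) hi (M * (i + 1)) (by rw [tk_ms]; exact h4)).1
  have h5 := (ENNReal.continuous_ofReal.tendsto _).comp
    ((hS.cont τ ⟨hστ, hτ.le⟩).tendsto.comp ht)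
  rw [← h5.liminf_eq]
  refine liminf_le_liminf ?_
  filter_upwards [hsm] with i hi
  exact ENNReal.ofReal_le_ofReal
    (hlow _ (ms_pos i) hi (M * (i + 1)) (by rw [tk_ms]; exact h4)).2

end GenL

open GenL in
theorem gl_stmt : GLStmt.{u} := by
  intro Ω mΩ P U F hB N A B σ τ E G R hN hE hR hE0 hGE hG
  have H : Ad F N A B σ E R := ⟨hN, hE, hR⟩
  set W : ℕ → Ω → ℝ≥0∞ := fun M ω => liminf (fun i =>
    ENNReal.ofReal (VV U N A B E σ R M (ms M ^ 2) (ms i) (M * (i + 1)) ω)) atTop with hW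
  have hWm : ∀ M, Measurable (W M) := fun M =>
    Measurable.liminf fun i => (meas_VV hB H M _ (ms_pos i).le _).ennreal_ofReal
  have h1 : ∀ ω, G.indicator (fun ω => ENNReal.ofReal (N ω (τ ω))) ω
      ≤ liminf (fun M => W M ω) atTop := by
    intro ω
    by_cases hω : ω ∈ G
    · rw [indicator_of_mem hω]
      obtain ⟨hστ, hRω, τ', hτ, D, hS, hN0, hD⟩ := hG ω hω
      have := path_liminf (hGE hω) (hE0 ω (hGE hω)).1 hστ hRω hτ hS hN0 hD
      refine le_liminf_of_le (by isBoundedDefault) ?_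
      filter_upwards [this] with M hM
      exact hM _ (pow_pos (ms_pos M) 2)
    · rw [indicator_of_notMem hω]; exact zero_le
  refine (lintegral_mono h1).trans ((lintegral_liminf_le hWm).trans ?_)
  have h2 : Tendsto (fun M : ℕ => ∫⁻ ω, E.indicator (fun ω => ENNReal.ofReal (N ω (σ ω))) ω ∂P
      + ENNReal.ofReal (4 * ms M)) atTop
      (𝓝 (∫⁻ ω, E.indicator (fun ω => ENNReal.ofReal (N ω (σ ω))) ω ∂P)) := by
    have h3 := (ENNReal.continuous_ofReal.tendsto _).comp (ms_lim.const_mul 4)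
    simpa using h3.const_add (∫⁻ ω, E.indicator (fun ω => ENNReal.ofReal (N ω (σ ω))) ω ∂P)
  refine (liminf_le_liminf (Eventually.of_forall fun M => ?_)).trans h2.liminf_eq.le
  have h4 : ms M ≤ 1 := by
    rw [ms, div_le_one (by positivity)]
    linarith [(Nat.cast_nonneg M : (0 : ℝ) ≤ M)]
  refine (cap_bound hB H hE0 M (pow_pos (ms_pos M) 2) (pow_le_one₀ (ms_pos M).le h4)).trans ?_
  refine add_le_add le_rfl (ENNReal.ofReal_le_ofReal ?_)
  have h5 : (M : ℝ) * ms M ≤ 1 := by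
    rw [ms, mul_one_div, div_le_one (by positivity)]
    linarith
  nlinarith [ms_pos M]

end Pool.Agent.MP_990230_pr

end
end MrgPart1

-- ======== part 2: formerly Pool.Agent.MP_990230_pr.EndQ
section MrgPart2

/-!
# Module ENDQ of PROJECT SLE: the explicit subsolution `q / (1 + q)`
-/

open Set MeasureTheory ProbabilityTheory Filter
open scoped ENNReal NNReal Topology

noncomputable section

namespace Pool.Agent.MP_990230_pr

namespace EndQ

/-- `(|w|/|z|)^v`. -/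
def Yf (v : ℝ) (x : ℂ × ℂ) : ℝ := Real.exp (v * Real.log ‖x.2‖ + (-v) * Real.log ‖x.1‖)

/-- `1 - 3/4 sin arg w`. -/
def gf (x : ℂ × ℂ) : ℝ := 1 + (-(3 / 4)) * sinA x.2

def LA (v : ℝ) (x : ℂ × ℂ) : ℝ := v * (-pR x.2) + (-v) * (-pR x.1)

def LB (v : ℝ) (x : ℂ × ℂ) : ℝ :=
  v * (-(pR x.2 ^ 2 - sI x.2 ^ 2)) + (-v) * (-(pR x.1 ^ 2 - sI x.1 ^ 2))

def LD (a v : ℝ) (x : ℂ × ℂ) : ℝ :=
  v * (a * (pR x.2 ^ 2 - sI x.2 ^ 2)) + (-v) * (a * (pR x.1 ^ 2 - sI x.1 ^ 2))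

def gA (x : ℂ × ℂ) : ℝ := 0 + (-(3 / 4)) * (sinA x.2 * pR x.2)

def gB (x : ℂ × ℂ) : ℝ := 0 + (-(3 / 4)) * (sinA x.2 * (2 * pR x.2 ^ 2 - sI x.2 ^ 2))

def gD (a : ℝ) (x : ℂ × ℂ) : ℝ := 0 + (-(3 / 4)) * (-(2 * a) * sinA x.2 * pR x.2 ^ 2)

def qf (v : ℝ) (x : ℂ × ℂ) : ℝ := Yf v x * gf x

def qA (v : ℝ) (x : ℂ × ℂ) : ℝ := (Yf v x * LA v x) * gf x + Yf v x * gA x

def qB (v : ℝ) (x : ℂ × ℂ) : ℝ :=
  (Yf v x * LB v x + Yf v x * LA v x ^ 2) * gf x + 2 * (Yf v x * LA v x) * gA x + Yf v x * gB x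

def qD (a v : ℝ) (x : ℂ × ℂ) : ℝ := (Yf v x * LD a v x) * gf x + Yf v x * gD a x

def ph (q : ℝ) : ℝ := q / (1 + q)

def ph1 (q : ℝ) : ℝ := 1 / (1 + q) ^ 2

def ph2 (q : ℝ) : ℝ := -2 / (1 + q) ^ 3

def Hf (v : ℝ) (x : ℂ × ℂ) : ℝ := ph (qf v x)

def HAf (v : ℝ) (x : ℂ × ℂ) : ℝ := ph1 (qf v x) * qA v x

def HBf (v : ℝ) (x : ℂ × ℂ) : ℝ := ph1 (qf v x) * qB v x + ph2 (qf v x) * qA v x ^ 2

def HDf (a v : ℝ) (x : ℂ × ℂ) : ℝ := ph1 (qf v x) * qD a v x

theorem meas_pR : Measurable pR := by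
  unfold pR
  exact Complex.measurable_re.div Complex.continuous_normSq.measurable

theorem meas_sI : Measurable sI := by
  unfold sI
  exact Complex.measurable_im.div Complex.continuous_normSq.measurable

theorem meas_sinA : Measurable sinA := by
  unfold sinA
  exact Complex.measurable_im.div measurable_norm

theorem meas_Yf (v : ℝ) : Measurable (Yf v) := by
  unfold Yf
  exact Real.measurable_exp.comp
    (((Real.measurable_log.comp measurable_snd.norm).const_mul v).add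
      ((Real.measurable_log.comp measurable_fst.norm).const_mul (-v)))

theorem meas_gf : Measurable gf := by
  unfold gf
  exact ((meas_sinA.comp measurable_snd).const_mul _).const_add _

theorem meas_LA (v : ℝ) : Measurable (LA v) := by
  unfold LA
  exact ((meas_pR.comp measurable_snd).neg.const_mul _).add
    ((meas_pR.comp measurable_fst).neg.const_mul _)

theorem meas_LB (v : ℝ) : Measurable (LB v) := by
  unfold LB
  exact ((((meas_pR.comp measurable_snd).pow_const 2).sub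
      ((meas_sI.comp measurable_snd).pow_const 2)).neg.const_mul _).add
    ((((meas_pR.comp measurable_fst).pow_const 2).sub
      ((meas_sI.comp measurable_fst).pow_const 2)).neg.const_mul _)

theorem meas_gA : Measurable gA := by
  unfold gA
  exact (((meas_sinA.comp measurable_snd).mul (meas_pR.comp measurable_snd)).const_mul _).const_add _

theorem meas_gB : Measurable gB := by
  unfold gB
  exact (((meas_sinA.comp measurable_snd).mul
    ((((meas_pR.comp measurable_snd).pow_const 2).const_mul 2).sub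
      ((meas_sI.comp measurable_snd).pow_const 2))).const_mul _).const_add _

theorem meas_qf (v : ℝ) : Measurable (qf v) := (meas_Yf v).mul meas_gf

theorem meas_qA (v : ℝ) : Measurable (qA v) :=
  (((meas_Yf v).mul (meas_LA v)).mul meas_gf).add ((meas_Yf v).mul meas_gA)

theorem meas_qB (v : ℝ) : Measurable (qB v) :=
  (((((meas_Yf v).mul (meas_LB v)).add ((meas_Yf v).mul ((meas_LA v).pow_const 2))).mul
    meas_gf).add ((((meas_Yf v).mul (meas_LA v)).const_mul 2).mul meas_gA)).add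
      ((meas_Yf v).mul meas_gB)

theorem meas_ph : Measurable ph := by
  unfold ph
  exact measurable_id.div (measurable_id.const_add 1)

theorem meas_ph1 : Measurable ph1 := by
  unfold ph1
  exact measurable_const.div ((measurable_id.const_add 1).pow_const 2)

theorem meas_ph2 : Measurable ph2 := by
  unfold ph2
  exact measurable_const.div ((measurable_id.const_add 1).pow_const 3)

theorem meas_Hf (v : ℝ) : Measurable (Hf v) := meas_ph.comp (meas_qf v)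

theorem meas_HAf (v : ℝ) : Measurable (HAf v) := (meas_ph1.comp (meas_qf v)).mul (meas_qA v)

theorem meas_HBf (v : ℝ) : Measurable (HBf v) :=
  ((meas_ph1.comp (meas_qf v)).mul (meas_qB v)).add
    ((meas_ph2.comp (meas_qf v)).mul ((meas_qA v).pow_const 2))

theorem hd_ph (x : ℝ) (hx : x ∈ Ioi (-1 : ℝ)) : HasDerivAt ph (ph1 x) x := by
  have hx' : (-1 : ℝ) < x := hx
  have h : (1 + x) ≠ 0 := ne_of_gt (by linarith)
  have h1 : HasDerivAt (fun y : ℝ => 1 + y) 1 x := (hasDerivAt_id x).const_add 1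
  have h2 := (hasDerivAt_id x).div h1 h
  refine h2.congr_deriv ?_
  unfold ph1
  simp only [id]
  field_simp
  ring

theorem hd_ph1 (x : ℝ) (hx : x ∈ Ioi (-1 : ℝ)) : HasDerivAt ph1 (ph2 x) x := by
  have hx' : (-1 : ℝ) < x := hx
  have h : (1 + x) ≠ 0 := ne_of_gt (by linarith)
  have h1 : HasDerivAt (fun y : ℝ => 1 + y) 1 x := (hasDerivAt_id x).const_add 1
  have h2 := (hasDerivAt_const x (1 : ℝ)).div (h1.pow 2) (pow_ne_zero 2 h)
  refine h2.congr_deriv ?_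
  unfold ph2
  simp only [Pi.pow_apply]
  field_simp
  ring

theorem cont_ph2 : ContinuousOn ph2 (Ioi (-1 : ℝ)) := by
  unfold ph2
  refine continuousOn_const.div (by fun_prop) ?_
  intro x hx
  have hx' : (-1 : ℝ) < x := hx
  exact pow_ne_zero 3 (ne_of_gt (by linarith))

theorem sinA_mem (w : ℂ) (hw : 0 < w.im) : 0 ≤ sinA w ∧ sinA w ≤ 1 := by
  have hn : 0 < ‖w‖ := lt_of_lt_of_le hw (le_trans (le_abs_self _) (Complex.abs_im_le_norm w))
  unfold sinA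
  refine ⟨div_nonneg hw.le hn.le, ?_⟩
  rw [div_le_one hn]
  exact le_trans (le_abs_self _) (Complex.abs_im_le_norm w)

theorem sq_add (w : ℂ) (hw : 0 < w.im) : pR w ^ 2 + sI w ^ 2 = 1 / ‖w‖ ^ 2 := by
  have hn : 0 < ‖w‖ := lt_of_lt_of_le hw (le_trans (le_abs_self _) (Complex.abs_im_le_norm w))
  have h1 : Complex.normSq w = ‖w‖ ^ 2 := Complex.normSq_eq_norm_sq w
  have h2 : w.re ^ 2 + w.im ^ 2 = ‖w‖ ^ 2 := by
    rw [← h1, Complex.normSq_apply]; ring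
  unfold pR sI
  rw [h1]
  field_simp
  linarith

theorem sI_sq (w : ℂ) (hw : 0 < w.im) :
    sI w ^ 2 = sinA w ^ 2 * (pR w ^ 2 + sI w ^ 2) := by
  have hn : 0 < ‖w‖ := lt_of_lt_of_le hw (le_trans (le_abs_self _) (Complex.abs_im_le_norm w))
  rw [sq_add w hw]
  have h1 : Complex.normSq w = ‖w‖ ^ 2 := Complex.normSq_eq_norm_sq w
  unfold sI sinA
  rw [h1]
  field_simp

theorem phi_low (v m b S : ℝ) (hv0 : 0 ≤ v) (hv1 : v ≤ 1) (hm0 : 0 ≤ m) (hm1 : m ≤ 1 / 2)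
    (hb : 2 * m ≤ b) (hS0 : 0 ≤ S) (hS1 : S ≤ 1) :
    v ^ 2 / 16 ≤ (1 - S ^ 2) * ((m + v ^ 2 / 2) * (1 - 3 / 4 * S) + 3 / 4 * S * (b + v))
      + S ^ 2 * (3 / 4 * S * (m + 1 / 2) - m) := by
  have h1 : 0 ≤ 1 - S ^ 2 := by nlinarith
  have hv2 : v ^ 2 ≤ 1 := by nlinarith
  have hv3 : 0 ≤ v ^ 2 := sq_nonneg v
  have h2 : m * (1 + 3 / 4 * S) + v ^ 2 / 8
      ≤ (m + v ^ 2 / 2) * (1 - 3 / 4 * S) + 3 / 4 * S * (b + v) := by
    have e1 : 0 ≤ S * (b - 2 * m) := mul_nonneg hS0 (by linarith)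
    have e2 : 0 ≤ S * v := mul_nonneg hS0 hv0
    have e3 : 0 ≤ v ^ 2 * (1 - S) := mul_nonneg hv3 (by linarith)
    nlinarith
  have h3 := mul_le_mul_of_nonneg_left h2 h1
  have h4 : v ^ 2 / 16 ≤ (1 - S ^ 2) * (m * (1 + 3 / 4 * S) + v ^ 2 / 8)
      + S ^ 2 * (3 / 4 * S * (m + 1 / 2) - m) := by
    have e0 : (1 - S ^ 2) * (m * (1 + 3 / 4 * S) + v ^ 2 / 8)
        + S ^ 2 * (3 / 4 * S * (m + 1 / 2) - m)
        = v ^ 2 / 8 * (1 - S ^ 2) + m * (1 + 3 / 4 * S - 2 * S ^ 2) + 3 / 8 * S ^ 3 := by ring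
    rw [e0]
    have hS3 : 0 ≤ S ^ 3 := by positivity
    by_cases hc : S ≤ 7 / 10
    · have e1 : 0 ≤ 1 + 3 / 4 * S - 2 * S ^ 2 := by nlinarith
      have e2 : 0 ≤ m * (1 + 3 / 4 * S - 2 * S ^ 2) := mul_nonneg hm0 e1
      have e3 : 0 ≤ v ^ 2 * (1 / 2 - S ^ 2) := mul_nonneg hv3 (by nlinarith)
      nlinarith
    · have hc' : 7 / 10 < S := lt_of_not_ge hc
      have e3 : 0 ≤ v ^ 2 * (1 - S ^ 2) := mul_nonneg hv3 h1
      by_cases hd : S ≤ 9 / 10
      · have e1 : 0 ≤ 1 + 3 / 4 * S - 2 * S ^ 2 := by nlinarith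
        have e2 : 0 ≤ m * (1 + 3 / 4 * S - 2 * S ^ 2) := mul_nonneg hm0 e1
        have e4 : 1 / 6 ≤ S ^ 3 := by nlinarith
        nlinarith
      · have hd' : 9 / 10 < S := lt_of_not_ge hd
        have e1 : -(1 / 4) ≤ 1 + 3 / 4 * S - 2 * S ^ 2 := by nlinarith
        have e2 : -(1 / 8) ≤ m * (1 + 3 / 4 * S - 2 * S ^ 2) := by nlinarith
        have e4 : 1 / 2 ≤ S ^ 3 := by nlinarith
        nlinarith
  linarith

theorem abs_mul_le (θ x Θ c : ℝ) (hθ : |θ| ≤ Θ) (h0 : 0 ≤ x) (h1 : x ≤ c) :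
    |θ * x| ≤ Θ * c := by
  rw [abs_mul, abs_of_nonneg h0]
  exact mul_le_mul hθ h1 h0 (le_trans (abs_nonneg _) hθ)

/-- the drift of `q / Y` together with the first-order perturbation. -/
theorem inner_low (a v m Θ θ p s p' s' S : ℝ) (hv0 : 0 < v) (hv1 : v ≤ 1) (hm0 : 0 ≤ m)
    (hm1 : m ≤ 1 / 2) (hm : v * (a - 1 / 2) = m) (hb : 2 * m ≤ 2 * a - 1) (hS0 : 0 ≤ S)
    (hS1 : S ≤ 1) (hs : s' ^ 2 = S ^ 2 * (p' ^ 2 + s' ^ 2)) (hθ : |θ| ≤ Θ) :
    v ^ 2 / 32 * (p' ^ 2 + s' ^ 2)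
        - ((2 + 2 * Θ) + 8 * (2 + 2 * Θ) ^ 2 / v ^ 2) * (p ^ 2 + s ^ 2)
      ≤ ((v * (a * (p' ^ 2 - s' ^ 2)) + (-v) * (a * (p ^ 2 - s ^ 2))) * (1 + (-(3 / 4)) * S)
            + (0 + (-(3 / 4)) * (-(2 * a) * S * p' ^ 2)))
        + (((v * (-(p' ^ 2 - s' ^ 2)) + (-v) * (-(p ^ 2 - s ^ 2)))
              + (v * (-p') + (-v) * (-p)) ^ 2) * (1 + (-(3 / 4)) * S)
            + 2 * (v * (-p') + (-v) * (-p)) * (0 + (-(3 / 4)) * (S * p'))
            + (0 + (-(3 / 4)) * (S * (2 * p' ^ 2 - s' ^ 2)))) / 2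
        + p * θ * ((v * (-p') + (-v) * (-p)) * (1 + (-(3 / 4)) * S)
            + (0 + (-(3 / 4)) * (S * p'))) := by
  have hΘ : 0 ≤ Θ := le_trans (abs_nonneg _) hθ
  obtain ⟨g, hg⟩ : ∃ g : ℝ, g = 1 - 3 / 4 * S := ⟨_, rfl⟩
  have hg0 : 0 ≤ g := by rw [hg]; linarith
  have hg1 : g ≤ 1 := by rw [hg]; linarith
  obtain ⟨W', hW'⟩ : ∃ W' : ℝ, W' = p' ^ 2 + s' ^ 2 := ⟨_, rfl⟩
  have hW0 : 0 ≤ W' := by rw [hW']; positivity
  have hp' : p' ^ 2 = (1 - S ^ 2) * W' := by rw [hW']; linarith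
  have hs' : s' ^ 2 = S ^ 2 * W' := by rw [hW']; exact hs
  obtain ⟨c1, hc1⟩ : ∃ c1 : ℝ, c1 = -g * m + g * v ^ 2 / 2 + θ * (g * v) := ⟨_, rfl⟩
  obtain ⟨c3, hc3⟩ : ∃ c3 : ℝ, c3 = -g * v ^ 2 - 3 / 4 * v * S - θ * (g * v + 3 / 4 * S) :=
    ⟨_, rfl⟩
  obtain ⟨Φ1, hΦ1⟩ : ∃ Φ1 : ℝ, Φ1 = (m + v ^ 2 / 2) * (1 - 3 / 4 * S)
    + 3 / 4 * S * ((2 * a - 1) + v) := ⟨_, rfl⟩
  obtain ⟨Φ2, hΦ2⟩ : ∃ Φ2 : ℝ, Φ2 = 3 / 4 * S * (m + 1 / 2) - m := ⟨_, rfl⟩
  have e0 : ((v * (a * (p' ^ 2 - s' ^ 2)) + (-v) * (a * (p ^ 2 - s ^ 2))) * (1 + (-(3 / 4)) * S)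
            + (0 + (-(3 / 4)) * (-(2 * a) * S * p' ^ 2)))
        + (((v * (-(p' ^ 2 - s' ^ 2)) + (-v) * (-(p ^ 2 - s ^ 2)))
              + (v * (-p') + (-v) * (-p)) ^ 2) * (1 + (-(3 / 4)) * S)
            + 2 * (v * (-p') + (-v) * (-p)) * (0 + (-(3 / 4)) * (S * p'))
            + (0 + (-(3 / 4)) * (S * (2 * p' ^ 2 - s' ^ 2)))) / 2
        + p * θ * ((v * (-p') + (-v) * (-p)) * (1 + (-(3 / 4)) * S)
            + (0 + (-(3 / 4)) * (S * p')))
      = p' ^ 2 * Φ1 + s' ^ 2 * Φ2 + c1 * p ^ 2 + g * m * s ^ 2 + c3 * (p * p') := by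
    rw [hΦ1, hΦ2, hc1, hc3, hg, ← hm]; ring
  rw [e0, ← hW']
  have hΦ := phi_low v m (2 * a - 1) S hv0.le hv1 hm0 hm1 hb hS0 hS1
  rw [← hΦ1, ← hΦ2] at hΦ
  have e1 : v ^ 2 / 16 * W' ≤ p' ^ 2 * Φ1 + s' ^ 2 * Φ2 := by
    rw [hp', hs']
    have := mul_le_mul_of_nonneg_right hΦ hW0
    linarith only [this]
  have hgv0 : 0 ≤ g * v := mul_nonneg hg0 hv0.le
  have hgv1 : g * v ≤ 1 := mul_le_one₀ hg1 hv0.le hv1
  have hgm0 : 0 ≤ g * m := mul_nonneg hg0 hm0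
  have hgm1 : g * m ≤ 1 := mul_le_one₀ hg1 hm0 (by linarith only [hm1])
  have hgvv0 : 0 ≤ g * v ^ 2 := by positivity
  have hgvv1 : g * v ^ 2 ≤ 1 := mul_le_one₀ hg1 (sq_nonneg v) (pow_le_one₀ hv0.le hv1)
  have hvS0 : 0 ≤ v * S := mul_nonneg hv0.le hS0
  have hvS1 : v * S ≤ 1 := mul_le_one₀ hv1 hS0 hS1
  have hθ1 := (abs_le.1 hθ).1
  have hθ2 := (abs_le.1 hθ).2
  have e2 : -(2 + 2 * Θ) ≤ c1 := by
    rw [hc1]
    have u1 := (abs_le.1 (abs_mul_le θ (g * v) Θ 1 hθ hgv0 hgv1)).1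
    linarith only [u1, hgm1, hgvv0, hΘ]
  have e3 : |c3| ≤ 2 + 2 * Θ := by
    rw [hc3, abs_le]
    have u0 : 0 ≤ g * v + 3 / 4 * S := by linarith only [hgv0, hS0]
    have u1 : g * v + 3 / 4 * S ≤ 2 := by linarith only [hgv1, hS1]
    obtain ⟨u2, u3⟩ := abs_le.1 (abs_mul_le θ _ Θ 2 hθ u0 u1)
    constructor <;> linarith only [u2, u3, hgvv0, hgvv1, hvS0, hvS1]
  have e4 : c3 ^ 2 ≤ (2 + 2 * Θ) ^ 2 := by
    rw [← sq_abs c3]
    exact pow_le_pow_left₀ (abs_nonneg _) e3 2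
  have hv2 : 0 < v ^ 2 := by positivity
  have e5 : -(v ^ 2 / 32 * p' ^ 2) - 8 * (2 + 2 * Θ) ^ 2 / v ^ 2 * p ^ 2 ≤ c3 * (p * p') := by
    have u1 : 0 ≤ (v ^ 2 * p' + 16 * c3 * p) ^ 2 / (32 * v ^ 2) := by positivity
    have u2 : (v ^ 2 * p' + 16 * c3 * p) ^ 2 / (32 * v ^ 2)
        = v ^ 2 / 32 * p' ^ 2 + c3 * (p * p') + 8 * c3 ^ 2 / v ^ 2 * p ^ 2 := by
      field_simp; ring
    have u3 : 8 * c3 ^ 2 / v ^ 2 * p ^ 2 ≤ 8 * (2 + 2 * Θ) ^ 2 / v ^ 2 * p ^ 2 := by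
      gcongr
    linarith only [u1, u2, u3]
  have e6 : p' ^ 2 ≤ W' := by rw [hW']; linarith only [sq_nonneg s']
  have e7 : v ^ 2 / 32 * p' ^ 2 ≤ v ^ 2 / 32 * W' := by gcongr
  have e8 : -(2 + 2 * Θ) * p ^ 2 ≤ c1 * p ^ 2 := mul_le_mul_of_nonneg_right e2 (sq_nonneg p)
  have e9 : 0 ≤ g * m * s ^ 2 := by positivity
  have e10 : 0 ≤ ((2 + 2 * Θ) + 8 * (2 + 2 * Θ) ^ 2 / v ^ 2) * s ^ 2 := by positivity
  linarith only [e1, e5, e7, e8, e9, e10]

theorem alpha_sq (v p p' S : ℝ) (hv0 : 0 < v) (hv1 : v ≤ 1) (hS0 : 0 ≤ S) (hS1 : S ≤ 1) :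
    ((v * (-p') + (-v) * (-p)) * (1 + (-(3 / 4)) * S) + (0 + (-(3 / 4)) * (S * p'))) ^ 2
      ≤ 2 * p ^ 2 + 7 * p' ^ 2 := by
  obtain ⟨k, hk⟩ : ∃ k : ℝ, k = v * (1 - 3 / 4 * S) := ⟨_, rfl⟩
  have hk0 : 0 ≤ k := by rw [hk]; exact mul_nonneg hv0.le (by linarith)
  have hk1 : k ≤ 1 := by rw [hk]; nlinarith
  have e0 : (v * (-p') + (-v) * (-p)) * (1 + (-(3 / 4)) * S) + (0 + (-(3 / 4)) * (S * p'))
      = k * p - (k + 3 / 4 * S) * p' := by rw [hk]; ring
  rw [e0]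
  have e1 : (k * p - (k + 3 / 4 * S) * p') ^ 2
      ≤ 2 * (k ^ 2 * p ^ 2) + 2 * ((k + 3 / 4 * S) ^ 2 * p' ^ 2) := by
    nlinarith [sq_nonneg (k * p + (k + 3 / 4 * S) * p')]
  have e2 : k ^ 2 ≤ 1 := by nlinarith
  have e3 : (k + 3 / 4 * S) ^ 2 ≤ 7 / 2 := by nlinarith
  have e4 := mul_le_mul_of_nonneg_right e2 (sq_nonneg p)
  have e5 := mul_le_mul_of_nonneg_right e3 (sq_nonneg p')
  linarith

/-- the final bookkeeping. -/
theorem final (Y q I al W W' R cF K1 Kr : ℝ) (hY : 0 < Y) (hq1 : Y / 4 ≤ q) (hq2 : q ≤ Y)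
    (hW : 0 ≤ W) (hW' : 0 ≤ W') (hcF : 0 < cF) (hcF1 : cF ≤ 1) (hK1 : 0 ≤ K1) (hKr : 0 ≤ Kr)
    (hR0 : 0 ≤ R) (hI : cF * W' - K1 * W ≤ I) (hal : al ^ 2 ≤ 2 * W + 7 * W')
    (hR : Y * W' = R * W) (hbig : cF / 56 ≤ Y → W' ≤ Kr * W ∧ R ≤ Kr) :
    cF / 8 * max 1 R * W - (1 + Kr + K1 + 32 + 112 * Kr) * W
      ≤ 1 / (1 + q) ^ 2 * (Y * I) - (Y * al) ^ 2 / (1 + q) ^ 3 := by
  have hq0 : 0 < q := by linarith
  have h1q : 0 < 1 + q := by linarith
  have hA0 : 0 < Y / (1 + q) ^ 2 := by positivity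
  have hA1 : Y / (1 + q) ^ 2 ≤ 1 := by
    rw [div_le_one (by positivity)]; nlinarith only [sq_nonneg (1 - q), hq1]
  have hB0 : 0 ≤ Y ^ 2 / (1 + q) ^ 3 := by positivity
  have e0 : 1 / (1 + q) ^ 2 * (Y * I) - (Y * al) ^ 2 / (1 + q) ^ 3
      = Y / (1 + q) ^ 2 * I - Y ^ 2 / (1 + q) ^ 3 * al ^ 2 := by
    field_simp
  rw [e0]
  have e1 : Y / (1 + q) ^ 2 * (cF * W' - K1 * W) ≤ Y / (1 + q) ^ 2 * I :=
    mul_le_mul_of_nonneg_left hI hA0.le
  have e2 : Y ^ 2 / (1 + q) ^ 3 * al ^ 2 ≤ Y ^ 2 / (1 + q) ^ 3 * (2 * W + 7 * W') :=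
    mul_le_mul_of_nonneg_left hal hB0
  have hKW : 0 ≤ K1 * W := mul_nonneg hK1 hW
  have e3 : Y / (1 + q) ^ 2 * (K1 * W) ≤ K1 * W := mul_le_of_le_one_left hKW hA1
  have hmax : max 1 R ≤ 1 + R := max_le (by linarith) (by linarith)
  have e4 : cF / 8 * max 1 R * W ≤ cF / 8 * (1 + R) * W := by gcongr
  have hKrW : 0 ≤ Kr * W := mul_nonneg hKr hW
  have hcW : cF / 8 * W ≤ W := mul_le_of_le_one_left hW (by linarith only [hcF1])
  by_cases hc : cF / 56 ≤ Y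
  · obtain ⟨h1, h2⟩ := hbig hc
    have hB1 : Y ^ 2 / (1 + q) ^ 3 ≤ 16 := by
      rw [div_le_iff₀ (by positivity)]
      have u1 : Y ^ 2 ≤ 16 * q ^ 2 := by nlinarith only [hY, hq1]
      have u2 : q ^ 2 ≤ (1 + q) ^ 3 := by nlinarith only [sq_nonneg q, pow_pos hq0 3, hq0]
      linarith only [u1, u2]
    have e5 : Y ^ 2 / (1 + q) ^ 3 * (2 * W + 7 * W') ≤ 16 * (2 * W + 7 * W') :=
      mul_le_mul_of_nonneg_right hB1 (by positivity)
    have e6 : 0 ≤ Y / (1 + q) ^ 2 * (cF * W') := by positivity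
    have e7 : cF / 8 * (R * W) ≤ Kr * W := by
      have u1 : R * W ≤ Kr * W := mul_le_mul_of_nonneg_right h2 hW
      have u2 : 0 ≤ R * W := mul_nonneg hR0 hW
      have u3 : cF / 8 * (R * W) ≤ R * W := mul_le_of_le_one_left u2 (by linarith only [hcF1])
      linarith only [u1, u3]
    linarith only [e1, e2, e3, e4, e5, e6, e7, hcW, h1, hKrW, hW]
  · have hc' : Y < cF / 56 := lt_of_not_ge hc
    have hY1 : Y ≤ 1 := by linarith
    have hA2 : Y / 4 ≤ Y / (1 + q) ^ 2 := by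
      apply div_le_div_of_nonneg_left hY.le (by positivity)
      nlinarith only [hq0, hq2, hY1]
    have hB1 : Y ^ 2 / (1 + q) ^ 3 ≤ Y ^ 2 := by
      apply div_le_self (sq_nonneg Y)
      exact one_le_pow₀ (by linarith)
    have e5 : Y ^ 2 / (1 + q) ^ 3 * (2 * W + 7 * W') ≤ Y ^ 2 * (2 * W + 7 * W') :=
      mul_le_mul_of_nonneg_right hB1 (by positivity)
    have e6 : Y / 4 * (cF * W') ≤ Y / (1 + q) ^ 2 * (cF * W') :=
      mul_le_mul_of_nonneg_right hA2 (by positivity)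
    have hYW : 0 ≤ Y * W' := by positivity
    have e7 : Y ^ 2 * W ≤ W := by
      have : Y ^ 2 ≤ 1 := pow_le_one₀ hY.le hY1
      exact mul_le_of_le_one_left hW this
    have e8 : Y * (Y * W') ≤ cF / 56 * (Y * W') := mul_le_mul_of_nonneg_right hc'.le hYW
    have e9 : cF / 8 * (R * W) = cF / 8 * (Y * W') := by rw [hR]
    linarith only [e1, e2, e3, e4, e5, e6, e7, e8, e9, hcW, hKrW, hW]

end EndQ

open EndQ in
theorem endQ_stmt (hS : StepStmt) (hJ : JetStmt) : EndQStmt := by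
  intro a Θ ha hΘ
  have ha0 : 0 < a := by linarith
  obtain ⟨v, hv⟩ : ∃ v : ℝ, v = 1 / (2 * a) := ⟨_, rfl⟩
  have hv0 : 0 < v := by rw [hv]; positivity
  have hv1 : v ≤ 1 := by rw [hv, div_le_one (by positivity)]; linarith
  have hva : v * (2 * a) = 1 := by rw [hv]; field_simp
  have hδ : -(2 * del a) = v - 2 := by rw [hv]; unfold del; field_simp; ring
  obtain ⟨m, hm⟩ : ∃ m : ℝ, v * (a - 1 / 2) = m := ⟨_, rfl⟩
  have hm0 : 0 ≤ m := by rw [← hm]; exact mul_nonneg hv0.le (by linarith)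
  have hm1 : m ≤ 1 / 2 := by rw [← hm]; linarith only [hva, hv0]
  have hb : 2 * m ≤ 2 * a - 1 := by rw [← hm]; nlinarith only [hv1, ha]
  obtain ⟨cF, hcF⟩ : ∃ cF : ℝ, cF = v ^ 2 / 32 := ⟨_, rfl⟩
  have hcF0 : 0 < cF := by rw [hcF]; positivity
  have hcF1 : cF ≤ 1 := by rw [hcF]; linarith only [pow_le_one₀ (n := 2) hv0.le hv1]
  obtain ⟨K1, hK1⟩ : ∃ K1 : ℝ, K1 = (2 + 2 * Θ) + 8 * (2 + 2 * Θ) ^ 2 / v ^ 2 := ⟨_, rfl⟩
  have hK10 : 0 ≤ K1 := by rw [hK1]; positivity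
  obtain ⟨l0, hl0⟩ : ∃ l0 : ℝ, l0 = Real.log (cF / 56) / v := ⟨_, rfl⟩
  have hl00 : l0 ≤ 0 := by
    rw [hl0]
    exact div_nonpos_of_nonpos_of_nonneg
      (Real.log_nonpos (by positivity) (by linarith)) hv0.le
  obtain ⟨Kr, hKr⟩ : ∃ Kr : ℝ, Kr = Real.exp (-2 * l0) := ⟨_, rfl⟩
  have hKr0 : 0 < Kr := by rw [hKr]; exact Real.exp_pos _
  refine ⟨cF / 8, 1 + Kr + K1 + 32 + 112 * Kr, Hf v, HAf v, HBf v, HDf a v, by positivity,
    by positivity, meas_Hf v, meas_HAf v, meas_HBf v, ?_, ?_⟩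
  · intro z w hz hw
    obtain ⟨hS0, hS1⟩ := sinA_mem w hw
    have hY : 0 < Yf v (z, w) := Real.exp_pos _
    have hq1 : Yf v (z, w) / 4 ≤ qf v (z, w) := by
      unfold qf gf; dsimp only; nlinarith only [hY, hS1]
    have hq2 : qf v (z, w) ≤ Yf v (z, w) := by
      unfold qf gf; dsimp only; nlinarith only [hY, hS0]
    have hq0 : 0 < qf v (z, w) := by linarith
    refine ⟨?_, ?_, ?_⟩
    · unfold Hf ph; positivity
    · unfold Hf ph; rw [div_le_one (by linarith)]; linarith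
    · intro θ hθ
      have hzn : 0 < ‖z‖ :=
        lt_of_lt_of_le hz (le_trans (le_abs_self _) (Complex.abs_im_le_norm z))
      have hwn : 0 < ‖w‖ :=
        lt_of_lt_of_le hw (le_trans (le_abs_self _) (Complex.abs_im_le_norm w))
      have hI := inner_low a v m Θ θ (pR z) (sI z) (pR w) (sI w) (sinA w) hv0 hv1 hm0 hm1 hm hb
        hS0 hS1 (sI_sq w hw) hθ
      have hal := alpha_sq v (pR z) (pR w) (sinA w) hv0 hv1 hS0 hS1
      rw [← hcF, ← hK1] at hI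
      obtain ⟨l, hl⟩ : ∃ l : ℝ, l = Real.log ‖w‖ - Real.log ‖z‖ := ⟨_, rfl⟩
      have hYl : Yf v (z, w) = Real.exp (v * l) := by
        unfold Yf; dsimp only; rw [hl]; congr 1; ring
      have hRl : (‖w‖ / ‖z‖) ^ (-(2 * del a)) = Real.exp ((v - 2) * l) := by
        rw [Real.rpow_def_of_pos (div_pos hwn hzn), Real.log_div hwn.ne' hzn.ne', hδ, hl]
        congr 1; ring
      have hWl : pR w ^ 2 + sI w ^ 2 = Real.exp (-2 * l) * (pR z ^ 2 + sI z ^ 2) := by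
        rw [sq_add w hw, sq_add z hz]
        have u1 : Real.exp (-2 * l) = (‖z‖ / ‖w‖) ^ 2 := by
          have u2 : Real.exp (-l) = ‖z‖ / ‖w‖ := by
            rw [hl, neg_sub, Real.exp_sub, Real.exp_log hzn, Real.exp_log hwn]
          rw [← u2, sq, ← Real.exp_add]; congr 1; ring
        rw [u1]; field_simp
      have hfin := final (Yf v (z, w)) (qf v (z, w)) _ _ (pR z ^ 2 + sI z ^ 2)
        (pR w ^ 2 + sI w ^ 2) ((‖w‖ / ‖z‖) ^ (-(2 * del a))) cF K1 Kr hY hq1 hq2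
        (by positivity) (by positivity) hcF0 hcF1 hK10 hKr0.le
        (Real.rpow_nonneg (div_pos hwn hzn).le _) hI
        (le_trans hal (by linarith only [sq_nonneg (sI z), sq_nonneg (sI w)]))
        (by
          rw [hWl, hYl, hRl, ← mul_assoc, ← Real.exp_add]; congr 2; ring)
        (by
          intro hc
          have u1 : l0 ≤ l := by
            rw [hl0, div_le_iff₀ hv0]
            have u2 := Real.log_le_log (by positivity) hc
            rw [hYl, Real.log_exp] at u2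
            linarith
          refine ⟨?_, ?_⟩
          · rw [hWl, hKr]
            apply mul_le_mul_of_nonneg_right _ (by positivity)
            exact Real.exp_le_exp.2 (by linarith)
          · rw [hRl, hKr]
            apply Real.exp_le_exp.2
            have u2 : (2 - v) * l0 ≤ (2 - v) * l :=
              mul_le_mul_of_nonneg_left u1 (by linarith only [hv1])
            have u3 : v * l0 ≤ 0 := mul_nonpos_of_nonneg_of_nonpos hv0.le hl00
            linarith only [u2, u3])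
      rw [sq_add z hz] at hfin
      have e1 : cF / 8 * max 1 ((‖w‖ / ‖z‖) ^ (-(2 * del a))) / ‖z‖ ^ 2
            - (1 + Kr + K1 + 32 + 112 * Kr) / ‖z‖ ^ 2
          = cF / 8 * max 1 ((‖w‖ / ‖z‖) ^ (-(2 * del a))) * (1 / ‖z‖ ^ 2)
            - (1 + Kr + K1 + 32 + 112 * Kr) * (1 / ‖z‖ ^ 2) := by ring
      rw [e1]
      refine le_trans hfin (le_of_eq ?_)
      unfold HDf HBf HAf ph1 ph2 qD qB qA LD LB LA gD gB gA gf
      dsimp only
      ring
  · intro U σ τ z w y yw hU hz hw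
    have R := hS U σ τ hU
    have Jz := hJ a U σ τ z y hU hz
    have Jw := hJ a U σ τ w yw hU hw
    have hL := R.ito_add _ _ _ _ _ _ _ _ (R.ito_smul v _ _ _ _ Jw.logNorm)
      (R.ito_smul (-v) _ _ _ _ Jz.logNorm)
    have hY := R.ito_comp _ _ _ _ Real.exp Real.exp Real.exp univ hL isOpen_univ
      ordConnected_univ (mapsTo_univ _ _) (fun x _ => Real.hasDerivAt_exp x)
      (fun x _ => Real.hasDerivAt_exp x) Real.continuous_exp.continuousOn
    have hg := R.ito_add _ _ _ _ _ _ _ _ (R.const 1) (R.ito_smul (-(3 / 4)) _ _ _ _ Jw.sin)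
    have hq : Ito U σ τ (fun s => qf v (z s, w s)) (fun s => qA v (z s, w s))
        (fun s => qB v (z s, w s)) (fun s => qD a v (z s, w s)) :=
      R.ito_mul _ _ _ _ _ _ _ _ hY hg
    have hmaps : MapsTo (fun s => qf v (z s, w s)) (Icc σ τ) (Ioi (-1 : ℝ)) := by
      intro s hs
      obtain ⟨hS0, hS1⟩ := sinA_mem (w s) (hw.im_pos s hs)
      have hY0 : 0 < Yf v (z s, w s) := Real.exp_pos _
      have : 0 ≤ qf v (z s, w s) := by
        unfold qf gf; dsimp only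
        exact mul_nonneg hY0.le (by linarith)
      show (-1 : ℝ) < qf v (z s, w s)
      linarith
    exact R.ito_comp _ _ _ _ ph ph1 ph2 (Ioi (-1)) hq isOpen_Ioi ordConnected_Ioi hmaps
      hd_ph hd_ph1 cont_ph2

end Pool.Agent.MP_990230_pr

end
end MrgPart2

-- ======== part 3: formerly Pool.Agent.MP_990230_pr.EndG1
section MrgPart3

/-!
# PROJECT SLE, module END, part 1: the exponent of the end game weight
-/

open Set Filter
open scoped Topology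

noncomputable section

namespace Pool.Agent.MP_990230_pr.EndW

/-- the logarithmic height above the level `e lam` -/
def uL (lam y : ℝ) : ℝ := Real.log lam + 1 - Real.log y

def zt (u : ℝ) : ℝ := max u 0

def kp (β u : ℝ) : ℝ := min 1 (Real.exp (β * u))

def hh (k : ℝ) (z : ℂ) : ℝ := 1 - k + k * sinA z ^ 2

def rr (k : ℝ) (z : ℂ) : ℝ := k * sinA z ^ 2 / hh k z

def P0 (β γ C u : ℝ) (z : ℂ) : ℝ :=
  C * -(kp β u / β + zt u) + γ / 2 * -Real.log (hh (kp β u) z)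

def PA (β γ u : ℝ) (z : ℂ) : ℝ := -(γ * rr (kp β u) z * pR z)

def PB (β γ u : ℝ) (z : ℂ) : ℝ :=
  γ / 2 * (-rr (kp β u) z * (6 * pR z ^ 2 - 2 * sI z ^ 2) + 4 * rr (kp β u) z ^ 2 * pR z ^ 2)

def PD (a β γ C u : ℝ) (z : ℂ) : ℝ :=
  -(2 * a * C * kp β u * sI z ^ 2) + γ / 2 * (4 * a + 2 * a * β) * rr (kp β u) z * pR z ^ 2

/-! ### elementary facts -/

theorem zt_nonneg (u : ℝ) : 0 ≤ zt u := le_max_right _ _

theorem zt_mono {u v : ℝ} (h : u ≤ v) : zt u ≤ zt v := max_le_max h le_rfl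

theorem zt_sub {u v : ℝ} (h : u ≤ v) : zt v - zt u ≤ v - u := by
  unfold zt
  rcases le_total v 0 with h1 | h1
  · rw [max_eq_right h1, max_eq_right (h.trans h1)]; linarith
  · rw [max_eq_left h1]; linarith [le_max_left u 0]

theorem continuous_zt : Continuous zt := by unfold zt; fun_prop

theorem kp_pos (β u : ℝ) : 0 < kp β u := lt_min one_pos (Real.exp_pos _)

theorem kp_le_one (β u : ℝ) : kp β u ≤ 1 := min_le_left _ _

theorem kp_le_exp (β u : ℝ) : kp β u ≤ Real.exp (β * u) := min_le_right _ _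

theorem continuous_kp (β : ℝ) : Continuous (kp β) := by unfold kp; fun_prop

theorem kp_of_nonneg {β u : ℝ} (hβ : 0 < β) (h : 0 ≤ u) : kp β u = 1 :=
  min_eq_left (Real.one_le_exp (by positivity))

theorem kp_of_nonpos {β u : ℝ} (hβ : 0 < β) (h : u ≤ 0) : kp β u = Real.exp (β * u) :=
  min_eq_right (Real.exp_le_one_iff.2 (by nlinarith))

theorem kp_grow {β u v : ℝ} (hβ : 0 < β) (h : u ≤ v) :
    kp β v - kp β u ≤ kp β u / Real.exp (β * u) * (Real.exp (β * v) - Real.exp (β * u)) := by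
  have e0 := Real.exp_pos (β * u)
  have e1 : Real.exp (β * u) ≤ Real.exp (β * v) := Real.exp_le_exp.2 (by nlinarith)
  rcases le_total u 0 with h1 | h1
  · rw [kp_of_nonpos hβ h1, div_self e0.ne', one_mul]
    linarith [kp_le_exp β v]
  · rw [kp_of_nonneg hβ h1, kp_of_nonneg hβ (h1.trans h), sub_self]
    exact mul_nonneg (by positivity) (by linarith)

theorem kp_convex {β u v : ℝ} (hβ : 0 < β) (h : u ≤ v) :
    -(kp β v / β + zt v) - -(kp β u / β + zt u) ≤ -kp β u * (v - u) := by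
  have key : ∀ x y : ℝ, Real.exp (β * x) * (y - x) ≤ Real.exp (β * y) / β - Real.exp (β * x) / β :=
    fun x y => by
      have h1 := Real.add_one_le_exp (β * y - β * x)
      have h2 : Real.exp (β * y) = Real.exp (β * x) * Real.exp (β * y - β * x) := by
        rw [← Real.exp_add]; congr 1; ring
      rw [← sub_div, le_div_iff₀ hβ, h2]
      nlinarith [mul_le_mul_of_nonneg_left h1 (Real.exp_pos (β * x)).le]
  unfold zt
  rcases le_total u 0 with h1 | h1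
  · rw [kp_of_nonpos hβ h1, max_eq_right h1]
    rcases le_total v 0 with h2 | h2
    · rw [kp_of_nonpos hβ h2, max_eq_right h2]
      linarith [key u v]
    · rw [kp_of_nonneg hβ h2, max_eq_left h2]
      have h3 := key u 0
      have h4 : Real.exp (β * u) ≤ 1 := Real.exp_le_one_iff.2 (by nlinarith)
      rw [mul_zero, Real.exp_zero] at h3
      nlinarith
  · rw [kp_of_nonneg hβ h1, kp_of_nonneg hβ (h1.trans h), max_eq_left h1, max_eq_left (h1.trans h)]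
    linarith

theorem norm_pos {z : ℂ} (hz : 0 < z.im) : 0 < ‖z‖ :=
  norm_pos_iff.2 fun h => by rw [h] at hz; simp at hz

theorem sinA_pos {z : ℂ} (hz : 0 < z.im) : 0 < sinA z := div_pos hz (norm_pos hz)

theorem sinA_le_one {z : ℂ} (hz : 0 < z.im) : sinA z ≤ 1 :=
  (div_le_one (norm_pos hz)).2 ((le_abs_self _).trans (Complex.abs_im_le_norm z))

theorem sinA_sq_le {z : ℂ} (hz : 0 < z.im) : sinA z ^ 2 ≤ 1 :=
  pow_le_one₀ (sinA_pos hz).le (sinA_le_one hz)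

theorem sI_sq {z : ℂ} (hz : 0 < z.im) : sI z ^ 2 = sinA z ^ 2 / ‖z‖ ^ 2 := by
  have := norm_pos hz
  rw [sI, sinA, Complex.normSq_eq_norm_sq]; field_simp

theorem pR_sq {z : ℂ} (hz : 0 < z.im) : pR z ^ 2 = (1 - sinA z ^ 2) / ‖z‖ ^ 2 := by
  have := norm_pos hz
  have h : ‖z‖ ^ 2 = z.re ^ 2 + z.im ^ 2 := by rw [← Complex.normSq_eq_norm_sq, Complex.normSq_apply]; ring
  rw [pR, sinA, Complex.normSq_eq_norm_sq]; field_simp; linarith

theorem sq_le_hh {k : ℝ} (hk : k ≤ 1) {z : ℂ} (hz : 0 < z.im) : sinA z ^ 2 ≤ hh k z := by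
  unfold hh; nlinarith [sinA_sq_le hz]

theorem hh_pos {k : ℝ} (hk : k ≤ 1) {z : ℂ} (hz : 0 < z.im) : 0 < hh k z :=
  (pow_pos (sinA_pos hz) 2).trans_le (sq_le_hh hk hz)

theorem rr_nonneg {k : ℝ} (h0 : 0 ≤ k) (hk : k ≤ 1) {z : ℂ} (hz : 0 < z.im) : 0 ≤ rr k z :=
  div_nonneg (by positivity) (hh_pos hk hz).le

theorem rr_le {k : ℝ} (h0 : 0 ≤ k) (hk : k ≤ 1) {z : ℂ} (hz : 0 < z.im) : rr k z ≤ k := by
  rw [rr, div_le_iff₀ (hh_pos hk hz)]
  exact mul_le_mul_of_nonneg_left (sq_le_hh hk hz) h0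

/-! ### steps -/

variable {a σ τ : ℝ} {U : ℝ → ℝ}

theorem bdd_congr {f g : ℝ → ℝ} (h : Bdd σ τ f) (e : EqOn f g (Icc σ τ)) : Bdd σ τ g :=
  h.imp fun _ hC s hs => e hs ▸ hC s hs

theorem bdd_of_cont {f : ℝ → ℝ} (h : ContinuousOn f (Icc σ τ)) : Bdd σ τ f :=
  isCompact_Icc.exists_bound_of_continuousOn h

theorem ucongr (R : StepRules U σ τ) {N A B D N' A' B' D' : ℝ → ℝ} (h : UStep U σ τ N A B D)
    (e1 : ∀ s ∈ Icc σ τ, N s = N' s) (e2 : ∀ s ∈ Icc σ τ, A s = A' s)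
    (e3 : ∀ s ∈ Icc σ τ, B s = B' s) (e4 : ∀ s ∈ Icc σ τ, D s = D' s) :
    UStep U σ τ N' A' B' D' :=
  R.congr _ _ _ _ _ _ _ _ h e1 e2 (fun s hs => (e3 s hs).le) (fun s hs => (e4 s hs).le)
    (bdd_congr h.bB e3) (bdd_congr h.bD e4)

/-- touching from above without error term -/
theorem touch0 (R : StepRules U σ τ) {N c X AX BX DX : ℝ → ℝ} (hX : Ito U σ τ X AX BX DX)
    (hN : ContinuousOn N (Icc σ τ)) (hc : ContinuousOn c (Icc σ τ))
    (h : ∀ s ∈ Icc σ τ, ∀ t ∈ Icc σ τ, s ≤ t → N t - N s ≤ c s * (X t - X s)) :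
    UStep U σ τ N (fun s => c s * AX s) (fun s => c s * BX s) (fun s => c s * DX s) :=
  ucongr R (R.touch N c (fun _ => 0) X AX BX DX hX hN (bdd_of_cont hc) ⟨0, fun _ _ => by simp⟩
    fun ε hε => ⟨1, one_pos, fun s hs t ht hst _ => by
      have : 0 ≤ ε * ((t - s) + (U t - U s) ^ 2) :=
        mul_nonneg hε.le (add_nonneg (by linarith) (sq_nonneg _))
      linarith [h s hs t ht hst]⟩) (fun _ _ => rfl) (fun _ _ => rfl) (fun _ _ => rfl)
    fun _ _ => add_zero _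

variable {z : ℝ → ℂ} {y : ℝ → ℝ}

theorem ito_uL (R : StepRules U σ τ) (J : JetRules a U σ τ z y) (lam : ℝ) :
    Ito U σ τ (fun s => uL lam (y s)) (fun _ => 0) (fun _ => 0) (fun s => 2 * a * sI (z s) ^ 2) :=
  R.ito_congr _ _ _ _ _ _ _ _
    (R.ito_add _ _ _ _ _ _ _ _ (R.const (Real.log lam + 1)) (R.ito_smul (-1) _ _ _ _ J.logUps))
    (fun s _ => by simp only [uL]; ring) (fun s _ => by simp) (fun s _ => by simp)
    fun s _ => by ring

theorem uL_mono (ha : 0 ≤ a) (F : Flow a U σ τ z y) (lam : ℝ) :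
    MonotoneOn (fun s => uL lam (y s)) (Icc σ τ) := by
  have h : AntitoneOn y (Icc σ τ) :=
    antitoneOn_of_hasDerivWithinAt_nonpos (convex_Icc σ τ)
      (fun s hs => (F.dy s hs).continuousWithinAt)
      (fun s hs => (F.dy s (interior_subset hs)).mono interior_subset) fun s hs => by
        have := F.y_pos s (interior_subset hs)
        have : 0 ≤ 2 * a * sI (z s) ^ 2 * y s := by positivity
        linarith
  intro s hs t ht hst
  have := Real.log_le_log (F.y_pos t ht) (h hs ht hst)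
  simp only [uL]; linarith

theorem step_zt (R : StepRules U σ τ) {u d : ℝ → ℝ} (hu : Ito U σ τ u (fun _ => 0) (fun _ => 0) d)
    (hm : MonotoneOn u (Icc σ τ)) :
    UStep U σ τ (fun s => zt (u s)) (fun _ => 0) (fun _ => 0) d :=
  ucongr R (touch0 R (N := fun s => zt (u s)) (c := fun _ => 1) hu (continuous_zt.comp_continuousOn hu.1.cont)
    continuousOn_const fun s hs t ht hst => by linarith [zt_sub (hm hs ht hst)])
    (fun _ _ => rfl) (fun _ _ => mul_zero _) (fun _ _ => mul_zero _) fun _ _ => one_mul _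

theorem step_kp (R : StepRules U σ τ) {u d : ℝ → ℝ} (hu : Ito U σ τ u (fun _ => 0) (fun _ => 0) d)
    (hm : MonotoneOn u (Icc σ τ)) {β : ℝ} (hβ : 0 < β) :
    UStep U σ τ (fun s => kp β (u s)) (fun _ => 0) (fun _ => 0) (fun s => β * kp β (u s) * d s) := by
  have hX := R.ito_comp _ _ _ _ Real.exp Real.exp Real.exp univ (R.ito_smul β _ _ _ _ hu)
    isOpen_univ ordConnected_univ (mapsTo_univ _ _) (fun x _ => Real.hasDerivAt_exp x)
    (fun x _ => Real.hasDerivAt_exp x) Real.continuous_exp.continuousOn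
  have ck := (continuous_kp β).comp_continuousOn hu.1.cont
  refine ucongr R (touch0 R (c := fun s => kp β (u s) / Real.exp (β * u s)) hX ck
    (ck.div hX.1.cont fun s _ => (Real.exp_pos _).ne') fun s hs t ht hst => kp_grow hβ (hm hs ht hst))
    (fun _ _ => rfl) (fun _ _ => by simp) (fun _ _ => by simp) fun s _ => ?_
  have := Real.exp_pos (β * u s)
  field_simp

theorem step_P (R : StepRules U σ τ) (J : JetRules a U σ τ z y) (F : Flow a U σ τ z y)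
    {u : ℝ → ℝ} (hu : Ito U σ τ u (fun _ => 0) (fun _ => 0) fun s => 2 * a * sI (z s) ^ 2)
    (hm : MonotoneOn u (Icc σ τ)) {β γ C : ℝ} (hβ : 0 < β) (hγ : 0 ≤ γ) (hC : 0 ≤ C) :
    UStep U σ τ (fun s => P0 β γ C (u s) (z s)) (fun s => PA β γ (u s) (z s))
      (fun s => PB β γ (u s) (z s)) (fun s => PD a β γ C (u s) (z s)) := by
  have ck := (continuous_kp β).comp_continuousOn hu.1.cont
  have h1 := touch0 R (N := fun s => -(kp β (u s) / β + zt (u s))) (c := fun s => -kp β (u s)) hu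
    ((ck.div_const β).add (continuous_zt.comp_continuousOn hu.1.cont)).neg ck.neg
    fun s hs t ht hst => kp_convex hβ (hm hs ht hst)
  have h2 := R.add _ _ _ _ _ _ _ _ (R.const (-1)).1 (R.mul _ _ _ _ _ _ _ _ (step_kp R hu hm hβ)
    (R.ito_add _ _ _ _ _ _ _ _ (R.const 1) (R.ito_smul (-1) _ _ _ _ J.sinSq)).1
    (fun s _ => (kp_pos _ _).le) fun s hs => by linarith [sinA_sq_le (F.im_pos s hs)])
  have e : ∀ s, -1 + kp β (u s) * (1 + -1 * sinA (z s) ^ 2) = -hh (kp β (u s)) (z s) := fun s => by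
    unfold hh; ring
  have hp : ∀ s ∈ Icc σ τ, 0 < hh (kp β (u s)) (z s) := fun s hs =>
    hh_pos (kp_le_one _ _) (F.im_pos s hs)
  have h3 := R.comp _ _ _ _ (fun x => -Real.log (-x)) (fun x => -x⁻¹) (fun x => (x ^ 2)⁻¹) (Iio 0)
    h2 isOpen_Iio ordConnected_Iio (fun s hs => by
      simp only [e, mem_Iio]; linarith [hp s hs])
    (fun x hx => by
      simp only [Real.log_neg_eq_log]
      exact (Real.hasDerivAt_log (ne_of_lt hx)).neg)
    (fun x hx => ((hasDerivAt_inv (ne_of_lt hx)).neg).congr_deriv (neg_neg _))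
    ((continuousOn_id.pow 2).inv₀ fun x hx => pow_ne_zero 2 (ne_of_lt hx))
    fun x hx => neg_nonneg.2 (inv_nonpos.2 (le_of_lt hx))
  refine ucongr R (R.add _ _ _ _ _ _ _ _ (R.smul C _ _ _ _ hC h1)
    (R.smul (γ / 2) _ _ _ _ (by linarith) h3)) (fun s _ => ?_) (fun s hs => ?_) (fun s hs => ?_)
    fun s hs => ?_
  · simp only [e, neg_neg, P0]
  · have := (hp s hs).ne'
    simp only [e, PA, rr]; field_simp; ring
  · have := (hp s hs).ne'
    simp only [e, PB, rr]; field_simp; ring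
  · have := (hp s hs).ne'
    have := (norm_pos (F.im_pos s hs)).ne'
    simp only [e, PD, rr, mul_assoc, pR_sq (F.im_pos s hs), sI_sq (F.im_pos s hs)]
    field_simp; ring

/-- the drift of the exponent -/
theorem drift_P {η β γ C u ut : ℝ} {z : ℂ} (hz : 0 < z.im) (ha : 0 < a) (hγ : 0 ≤ γ)
    (hβ : β = (alp a - γ - 2 * η) / (4 * a)) (hC : C = (γ / 2 + 1) / (2 * a)) (hut : ut ≤ η) :
    PD a β γ C u z + (PB β γ u z + PA β γ u z ^ 2) / 2 + pR z * (alp a - ut) * PA β γ u z ≤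
      -(γ * (alp a - γ - 2 * η) / 4 * rr (kp β u) z * pR z ^ 2) - kp β u * sI z ^ 2 := by
  have r0 := rr_nonneg (kp_pos β u).le (kp_le_one β u) hz
  have r1 := rr_le (kp_pos β u).le (kp_le_one β u) hz
  have r2 := r1.trans (kp_le_one β u)
  have e1 : 2 * a * C = γ / 2 + 1 := by rw [hC]; field_simp
  have e2 : a * β = (alp a - γ - 2 * η) / 4 := by rw [hβ]; field_simp
  unfold PD PB PA
  generalize rr (kp β u) z = r at *
  generalize kp β u = k at *
  have e3 : γ / 2 * (4 * a + 2 * a * β) = γ / 2 * (alp a + 1 + (alp a - γ - 2 * η) / 2) := by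
    rw [mul_assoc 2, e2, alp]; ring
  rw [e1, e3]
  have p1 : 0 ≤ γ / 2 * ((k - r) * sI z ^ 2) := mul_nonneg (by linarith)
    (mul_nonneg (by linarith) (sq_nonneg _))
  have p2 : 0 ≤ γ * r * pR z ^ 2 * ((1 - r) * (1 + γ / 2) + (η - ut)) :=
    mul_nonneg (by positivity) (add_nonneg (mul_nonneg (by linarith) (by linarith)) (by linarith))
  nlinarith

end Pool.Agent.MP_990230_pr.EndW

end
end MrgPart3

-- ======== part 4: formerly Pool.Agent.MP_990230_pr.EndG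
section MrgPart4

/-!
# PROJECT SLE, module END: the end game of one descent
-/

open Set Filter
open scoped Topology

noncomputable section

namespace Pool.Agent.MP_990230_pr

namespace EndW

def Xi (c1 u h : ℝ) : ℝ := 1 - c1 * (zt u * h)

def Psi (β γ C c1 lam : ℝ) (H : ℂ × ℂ → ℝ) (x : ℂ × ℝ × ℂ) : ℝ :=
  Real.exp (P0 β γ C (uL lam x.2.1) x.1) * Xi c1 (uL lam x.2.1) (H (x.1, x.2.2))

def PsiA (β γ C c1 lam : ℝ) (H HA : ℂ × ℂ → ℝ) (x : ℂ × ℝ × ℂ) : ℝ :=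
  Real.exp (P0 β γ C (uL lam x.2.1) x.1) *
    (PA β γ (uL lam x.2.1) x.1 * Xi c1 (uL lam x.2.1) (H (x.1, x.2.2))
      - c1 * zt (uL lam x.2.1) * HA (x.1, x.2.2))

def PsiB (β γ C c1 lam : ℝ) (H HA HB : ℂ × ℂ → ℝ) (x : ℂ × ℝ × ℂ) : ℝ :=
  Real.exp (P0 β γ C (uL lam x.2.1) x.1) *
    ((PB β γ (uL lam x.2.1) x.1 + PA β γ (uL lam x.2.1) x.1 ^ 2) *
        Xi c1 (uL lam x.2.1) (H (x.1, x.2.2))
      - 2 * c1 * zt (uL lam x.2.1) * PA β γ (uL lam x.2.1) x.1 * HA (x.1, x.2.2)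
      - c1 * zt (uL lam x.2.1) * HB (x.1, x.2.2))

def PsiD (a β γ C c1 lam : ℝ) (H HD : ℂ × ℂ → ℝ) (x : ℂ × ℝ × ℂ) : ℝ :=
  Real.exp (P0 β γ C (uL lam x.2.1) x.1) *
    (PD a β γ C (uL lam x.2.1) x.1 * Xi c1 (uL lam x.2.1) (H (x.1, x.2.2))
      - c1 * zt (uL lam x.2.1) * HD (x.1, x.2.2))

def chi (c lam y : ℝ) : ℝ := c * (zt (uL lam y) * zt (uL lam y))

/-! ### measurability -/

@[fun_prop] theorem meas_pR : Measurable pR :=
  Complex.measurable_re.div Complex.continuous_normSq.measurable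

@[fun_prop] theorem meas_sI : Measurable sI :=
  Complex.measurable_im.div Complex.continuous_normSq.measurable

@[fun_prop] theorem meas_sinA : Measurable sinA := Complex.measurable_im.div measurable_norm

@[fun_prop] theorem meas_zt : Measurable zt := continuous_zt.measurable

@[fun_prop] theorem meas_kp (β : ℝ) : Measurable (kp β) := (continuous_kp β).measurable

@[fun_prop] theorem meas_uL (lam : ℝ) : Measurable (uL lam) :=
  measurable_const.sub Real.measurable_log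

theorem meas_all (β γ C c1 c lam : ℝ) {H HA HB : ℂ × ℂ → ℝ} (h1 : Measurable H)
    (h2 : Measurable HA) (h3 : Measurable HB) :
    Measurable (Psi β γ C c1 lam H) ∧ Measurable (PsiA β γ C c1 lam H HA) ∧
      Measurable (PsiB β γ C c1 lam H HA HB) ∧ Measurable (chi c lam) := by
  have mh : Measurable fun x : ℂ × ℝ × ℂ => hh (kp β (uL lam x.2.1)) x.1 := by
    unfold hh; fun_prop
  have mr : Measurable fun x : ℂ × ℝ × ℂ => rr (kp β (uL lam x.2.1)) x.1 :=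
    Measurable.div (by fun_prop) mh
  have m0 : Measurable fun x : ℂ × ℝ × ℂ => Real.exp (P0 β γ C (uL lam x.2.1) x.1) :=
    Real.measurable_exp.comp (Measurable.add (by fun_prop)
      ((Real.measurable_log.comp mh).neg.const_mul _))
  have mA : Measurable fun x : ℂ × ℝ × ℂ => PA β γ (uL lam x.2.1) x.1 :=
    ((mr.const_mul γ).mul (by fun_prop)).neg
  have mB : Measurable fun x : ℂ × ℝ × ℂ => PB β γ (uL lam x.2.1) x.1 :=
    ((mr.neg.mul (by fun_prop)).add (((mr.pow_const 2).const_mul 4).mul (by fun_prop))).const_mul _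
  have mz : Measurable fun x : ℂ × ℝ × ℂ => zt (uL lam x.2.1) := by fun_prop
  have mp : Measurable fun x : ℂ × ℝ × ℂ => (x.1, x.2.2) := by fun_prop
  have mX : Measurable fun x : ℂ × ℝ × ℂ => Xi c1 (uL lam x.2.1) (H (x.1, x.2.2)) :=
    measurable_const.sub ((mz.mul (h1.comp mp)).const_mul c1)
  refine ⟨m0.mul mX, m0.mul ((mA.mul mX).sub ((mz.const_mul c1).mul (h2.comp mp))),
    m0.mul ((((mB.add (mA.pow_const 2)).mul mX).sub
      (((mz.const_mul (2 * c1)).mul mA).mul (h2.comp mp))).sub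
      ((mz.const_mul c1).mul (h3.comp mp))), ?_⟩
  unfold chi; fun_prop

/-! ### static bounds -/

theorem uL_le {lam y k : ℝ} (hl : 0 < lam) (h : Real.exp k * lam ≤ y) : uL lam y ≤ 1 - k := by
  have := Real.log_le_log (by positivity) h
  rw [Real.log_mul (Real.exp_pos k).ne' hl.ne', Real.log_exp] at this
  unfold uL; linarith

theorem zt_le_two {lam y : ℝ} (hl : 0 < lam) (h : lam / 2 ≤ y) : zt (uL lam y) ≤ 2 := by
  have h1 : Real.exp (-1) ≤ 1 / 2 := by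
    rw [Real.exp_neg, one_div]
    exact inv_anti₀ two_pos (by linarith [Real.add_one_le_exp 1])
  have := uL_le (k := -1) hl (y := y) (by nlinarith)
  exact max_le (by linarith) zero_le_two

theorem Xi_ge {c1 u h : ℝ} (h0 : 0 ≤ c1) (h1 : c1 ≤ 1 / 4) (hu : zt u ≤ 2) (h2 : h ≤ 1) :
    1 / 2 ≤ Xi c1 u h := by
  have := zt_nonneg u
  have : zt u * h ≤ 2 := by nlinarith
  unfold Xi; nlinarith

theorem start_le {β γ C c1 lam y : ℝ} {H : ℂ × ℂ → ℝ} {z w : ℂ} (hβ : 0 < β) (hγ : 0 ≤ γ)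
    (hC : 0 ≤ C) (hl : 0 < lam) (h : Real.exp (1 + 1 / β) * lam ≤ y) (c : ℝ) :
    Psi β γ C c1 lam H (z, y, w) ≤ Real.exp (γ / 2) ∧ chi c lam y = 0 := by
  have h1 := uL_le hl h
  have h2 : 0 < 1 / β := by positivity
  have h3 : zt (uL lam y) = 0 := max_eq_right (by linarith)
  refine ⟨?_, by rw [chi, h3]; ring⟩
  have h4 : β * uL lam y ≤ -1 := by
    have : β * uL lam y ≤ β * (1 - (1 + 1 / β)) := by gcongr
    have e : β * (1 - (1 + 1 / β)) = -1 := by field_simp; ring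
    linarith
  have h5 : Real.exp (-1) ≤ 1 / 2 := by
    rw [Real.exp_neg, one_div]
    exact inv_anti₀ two_pos (by linarith [Real.add_one_le_exp 1])
  have h6 : kp β (uL lam y) ≤ 1 / 2 := (kp_le_exp _ _).trans ((Real.exp_le_exp.2 h4).trans h5)
  have h7 := kp_pos β (uL lam y)
  have h8 : Real.exp (-1) ≤ hh (kp β (uL lam y)) z := by
    have : 0 ≤ kp β (uL lam y) * sinA z ^ 2 := by positivity
    unfold hh; linarith
  have h9 := Real.log_le_log (Real.exp_pos _) h8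
  rw [Real.log_exp] at h9
  simp only [Psi, Xi, h3, zero_mul, mul_zero, sub_zero, mul_one, P0, add_zero]
  refine Real.exp_le_exp.2 ?_
  have : 0 ≤ C * (kp β (uL lam y) / β) := by positivity
  nlinarith

/-- the final pointwise inequality -/
theorem final {a η CH β γ C c0 c1 c2 C2 c3 lam y ut M M' : ℝ} {H HA HB HD : ℂ × ℂ → ℝ} {z w : ℂ}
    (ha : 1 / 2 ≤ a) (hη : η < 1) (hγ : 0 < γ) (hγ2 : alp a - 2 ≤ γ) (hCH : 0 < CH)
    (hβ : β = (alp a - γ - 2 * η) / (4 * a)) (hβ0 : 0 < β) (hC : C = (γ / 2 + 1) / (2 * a))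
    (h00 : 0 ≤ c0) (h01 : c0 ≤ 1) (h02 : c0 ≤ γ * (alp a - γ - 2 * η) / 4) (h10 : 0 ≤ c1)
    (h11 : c1 ≤ 1 / 4) (h12 : c1 * C2 ≤ c0 / 2) (hc2 : 0 < c2) (hC2 : 0 < C2)
    (h3 : c3 = Real.exp (-(C * (1 / β + 1))) * c1 * c2 / (4 * a * Real.exp 1 * CH))
    (hl : 0 < lam) (hy : lam ≤ y) (hz : 0 < z.im) (hH : H (z, w) ≤ 1)
    (hQ : ∀ θ : ℝ, |θ| ≤ alp a + γ + 1 →
      c2 * max 1 ((‖w‖ / ‖z‖) ^ (-(2 * del a))) / ‖z‖ ^ 2 - C2 / ‖z‖ ^ 2
        ≤ HD (z, w) + HB (z, w) / 2 + pR z * θ * HA (z, w))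
    (hM : 0 ≤ M) (hu0 : 0 ≤ ut) (hu1 : ut ≤ η) (hM' : M' ≤ CH * hand a z y w * M) :
    M * (PsiD a β γ C c1 lam H HD (z, y, w) + PsiB β γ C c1 lam H HA HB (z, y, w) / 2 +
        pR z * (alp a - ut) * PsiA β γ C c1 lam H HA (z, y, w)) +
      c3 * lam ^ (-del a) * (4 * a * zt (uL lam y) * sI z ^ 2) * M' ≤ 0 := by
  have a0 : 0 < a := by linarith
  have α0 : 0 < alp a := by unfold alp; linarith
  have C0 : 0 < C := by rw [hC]; positivity
  have g := drift_P (u := uL lam y) hz a0 hγ.le hβ hC hu1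
  have b0 : 0 ≤ γ * (alp a - γ - 2 * η) / 4 := h00.trans h02
  have k0 := kp_pos β (uL lam y)
  have r0 := rr_nonneg k0.le (kp_le_one _ _) hz
  have r1 := (rr_le k0.le (kp_le_one _ _) hz).trans (kp_le_one _ _)
  have u1 : uL lam y ≤ 1 := by
    simpa using uL_le (k := 0) hl (y := y) (by simpa using hy)
  have z1 : zt (uL lam y) ≤ 1 := max_le u1 zero_le_one
  have X1 := Xi_ge h10 h11 (z1.trans one_le_two) hH
  have hq := hQ (alp a - ut - γ * rr (kp β (uL lam y)) z) (abs_le.2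
    ⟨by linarith [mul_le_mul_of_nonneg_left r1 hγ.le], by linarith [mul_nonneg hγ.le r0]⟩)
  set gP := PD a β γ C (uL lam y) z + (PB β γ (uL lam y) z + PA β γ (uL lam y) z ^ 2) / 2 +
    pR z * (alp a - ut) * PA β γ (uL lam y) z with hg
  set Q := HD (z, w) + HB (z, w) / 2 +
    pR z * (alp a - ut - γ * rr (kp β (uL lam y)) z) * HA (z, w) with hQ'
  have e : PsiD a β γ C c1 lam H HD (z, y, w) + PsiB β γ C c1 lam H HA HB (z, y, w) / 2 +
      pR z * (alp a - ut) * PsiA β γ C c1 lam H HA (z, y, w) = Real.exp (P0 β γ C (uL lam y) z) *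
        (Xi c1 (uL lam y) (H (z, w)) * gP - c1 * zt (uL lam y) * Q) := by
    simp only [PsiD, PsiB, PsiA, hg, hQ', PA]; ring
  rw [e]
  have E0 := Real.exp_pos (P0 β γ C (uL lam y) z)
  rcases le_total (uL lam y) 0 with hu | hu
  · have z0 : zt (uL lam y) = 0 := max_eq_right hu
    have g0 : gP ≤ 0 := g.trans (by
      have : 0 ≤ γ * (alp a - γ - 2 * η) / 4 * rr (kp β (uL lam y)) z * pR z ^ 2 := by positivity
      have : 0 ≤ kp β (uL lam y) * sI z ^ 2 := by positivity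
      linarith)
    rw [z0]
    have : 0 ≤ M * (Real.exp (P0 β γ C (uL lam y) z) * (Xi c1 (uL lam y) (H (z, w)) * -gP)) :=
      mul_nonneg hM (mul_nonneg E0.le (mul_nonneg (by linarith) (by linarith)))
    linarith
  have k1 := kp_of_nonneg hβ0 hu
  have S0 := sinA_pos hz
  have S1 := sinA_le_one hz
  have n0 := norm_pos hz
  have y0 : 0 < y := hl.trans_le hy
  have eh : hh 1 z = sinA z ^ 2 := by unfold hh; ring
  have er : rr 1 z = 1 := by rw [rr, eh, one_mul, div_self (pow_pos S0 2).ne']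
  rw [k1, er] at g
  have g1 : gP ≤ -(c0 / ‖z‖ ^ 2) := by
    have e1 : c0 / ‖z‖ ^ 2 = c0 * pR z ^ 2 + c0 * sI z ^ 2 := by
      rw [pR_sq hz, sI_sq hz]; field_simp; ring
    rw [e1]
    linarith [mul_le_mul_of_nonneg_right h02 (sq_nonneg (pR z)),
      mul_le_mul_of_nonneg_right h01 (sq_nonneg (sI z))]
  set mx := max 1 ((‖w‖ / ‖z‖) ^ (-(2 * del a))) with hmx
  have mx0 : 0 < mx := one_pos.trans_le (le_max_left _ _)
  have z0 := zt_nonneg (uL lam y)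
  set ζ := zt (uL lam y) with hζ
  have w0 : 0 < 1 / ‖z‖ ^ 2 := by positivity
  have f1 : Xi c1 (uL lam y) (H (z, w)) * gP - c1 * ζ * Q ≤ -(c1 * ζ * c2 * mx / ‖z‖ ^ 2) := by
    have p0 : 0 ≤ c0 / ‖z‖ ^ 2 := by positivity
    have p1 : Xi c1 (uL lam y) (H (z, w)) * gP ≤ -(c0 / 2 / ‖z‖ ^ 2) := by
      have e2 : c0 / 2 / ‖z‖ ^ 2 = 1 / 2 * (c0 / ‖z‖ ^ 2) := by ring
      rw [e2]
      linarith [mul_le_mul_of_nonpos_right X1 (show gP ≤ 0 by linarith)]
    have p2 := mul_le_mul_of_nonneg_left hq (mul_nonneg h10 z0)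
    have p3 : c1 * ζ * (C2 / ‖z‖ ^ 2) ≤ c0 / 2 / ‖z‖ ^ 2 := by
      rw [← mul_div_assoc]; gcongr
      calc c1 * ζ * C2 ≤ c1 * 1 * C2 := by gcongr
        _ ≤ _ := by linarith
    have e3 : c1 * ζ * (c2 * mx / ‖z‖ ^ 2 - C2 / ‖z‖ ^ 2) =
        c1 * ζ * c2 * mx / ‖z‖ ^ 2 - c1 * ζ * (C2 / ‖z‖ ^ 2) := by ring
    linarith
  have f2 : Real.exp (-(C * (1 / β + 1))) * sinA z ^ (-γ) ≤ Real.exp (P0 β γ C (uL lam y) z) := by
    rw [Real.rpow_def_of_pos S0, ← Real.exp_add, P0, k1, eh, Real.log_pow, ← hζ]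
    refine Real.exp_le_exp.2 ?_
    push_cast
    linarith [mul_le_mul_of_nonneg_left z1 C0.le]
  have δ0 : 0 ≤ del a := by
    unfold del; rw [sub_nonneg, div_le_one (by positivity)]; linarith
  have δ1 : del a ≤ 1 := by unfold del; have : 0 < 1 / (4 * a) := by positivity
                            linarith
  have f3 : lam ^ (-del a) * y ^ del a ≤ Real.exp 1 := by
    rw [Real.rpow_def_of_pos hl, Real.rpow_def_of_pos y0, ← Real.exp_add]
    refine Real.exp_le_exp.2 ?_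
    have := Real.log_le_log hl hy
    unfold uL at hu
    linarith [mul_le_mul_of_nonneg_right δ1 (sub_nonneg.2 this)]
  have f4 : sinA z ^ 2 * sinA z ^ (-alp a) ≤ sinA z ^ (-γ) := by
    rw [← Real.rpow_natCast, ← Real.rpow_add S0]
    exact Real.rpow_le_rpow_of_exponent_ge S0 S1 (by push_cast; linarith)
  have c30 : 0 ≤ c3 := by rw [h3]; positivity
  have f5 : c3 * lam ^ (-del a) * (4 * a * ζ * sI z ^ 2) * M' ≤
      M * (Real.exp (-(C * (1 / β + 1))) * sinA z ^ (-γ) * (c1 * ζ * c2 * mx / ‖z‖ ^ 2)) := by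
    calc _ ≤ c3 * lam ^ (-del a) * (4 * a * ζ * sI z ^ 2) * (CH * hand a z y w * M) := by gcongr
      _ = c3 * (4 * a * ζ * CH * mx * M / ‖z‖ ^ 2) * (lam ^ (-del a) * y ^ del a) *
          (sinA z ^ 2 * sinA z ^ (-alp a)) := by rw [hand, ← hmx, sI_sq hz]; ring
      _ ≤ c3 * (4 * a * ζ * CH * mx * M / ‖z‖ ^ 2) * Real.exp 1 * sinA z ^ (-γ) := by gcongr
      _ = _ := by rw [h3]; field_simp
  have f6 : 0 ≤ c1 * ζ * c2 * mx / ‖z‖ ^ 2 := by positivity
  have f7 := mul_le_mul_of_nonneg_left (mul_le_mul_of_nonneg_left f1 E0.le) hM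
  have f8 := mul_le_mul_of_nonneg_left (mul_le_mul_of_nonneg_right f2 f6) hM
  linarith

/-- the expansion of the weight -/
theorem step_Psi {a σ τ β γ C c1 lam : ℝ} {U : ℝ → ℝ} {z w : ℝ → ℂ} {y : ℝ → ℝ}
    {H HA HB HD : ℂ × ℂ → ℝ} (R : StepRules U σ τ) (J : JetRules a U σ τ z y)
    (F : Flow a U σ τ z y) (ha : 0 ≤ a) (hβ : 0 < β) (hγ : 0 ≤ γ) (hC : 0 ≤ C) (h10 : 0 ≤ c1)
    (hH : Ito U σ τ (fun s => H (z s, w s)) (fun s => HA (z s, w s)) (fun s => HB (z s, w s))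
      (fun s => HD (z s, w s))) (h0 : ∀ s ∈ Icc σ τ, 0 ≤ H (z s, w s))
    (hX : ∀ s ∈ Icc σ τ, 0 ≤ Xi c1 (uL lam (y s)) (H (z s, w s))) :
    UStep U σ τ (fun s => Psi β γ C c1 lam H (z s, y s, w s))
      (fun s => PsiA β γ C c1 lam H HA (z s, y s, w s))
      (fun s => PsiB β γ C c1 lam H HA HB (z s, y s, w s))
      (fun s => PsiD a β γ C c1 lam H HD (z s, y s, w s)) := by
  have hu := ito_uL R J lam
  have hm := uL_mono ha F lam
  have h1 := R.comp _ _ _ _ Real.exp Real.exp Real.exp univ (step_P R J F hu hm hβ hγ hC)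
    isOpen_univ ordConnected_univ (mapsTo_univ _ _) (fun x _ => Real.hasDerivAt_exp x)
    (fun x _ => Real.hasDerivAt_exp x) Real.continuous_exp.continuousOn
    fun x _ => (Real.exp_pos x).le
  have cz := continuous_zt.comp_continuousOn hu.1.cont
  have h2 := touch0 R (N := fun s => -(zt (uL lam (y s)) * H (z s, w s)))
    (c := fun s => -zt (uL lam (y s))) hH (cz.mul hH.1.cont).neg cz.neg fun s hs t ht hst => by
      nlinarith [mul_le_mul_of_nonneg_right (zt_mono (hm hs ht hst)) (h0 t ht)]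
  have h3 := R.add _ _ _ _ _ _ _ _ (R.const 1).1 (R.smul c1 _ _ _ _ h10 h2)
  have e : ∀ s, 1 + c1 * -(zt (uL lam (y s)) * H (z s, w s)) =
      Xi c1 (uL lam (y s)) (H (z s, w s)) := fun s => by unfold Xi; ring
  simp only [e] at h3
  refine ucongr R (R.mul _ _ _ _ _ _ _ _ h1 h3 (fun s _ => (Real.exp_pos _).le) hX)
    (fun s _ => rfl) (fun s _ => ?_) (fun s _ => ?_) fun s _ => ?_
  · simp only [PsiA]; ring
  · simp only [PsiB]; ring
  · simp only [PsiD]; ring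

end EndW

open EndW in
theorem end_stmt (hS : StepStmt) (hJ : JetStmt) (hQ : EndQStmt) : EndStmt := by
  intro a η CH ha hη0 hη1 hα hCH
  have a0 : 0 < a := by linarith
  obtain ⟨γ, hγ, hγ2, hb⟩ : ∃ γ : ℝ, 0 < γ ∧ alp a - 2 ≤ γ ∧ 0 < alp a - γ - 2 * η := by
    rcases le_total (alp a - 2) ((alp a - 2 * η) / 2) with h | h
    · exact ⟨(alp a - 2 * η) / 2, by linarith, h, by linarith⟩
    · exact ⟨alp a - 2, by linarith, le_rfl, by linarith⟩
  obtain ⟨c2, C2, H, HA, HB, HD, hc2, hC2, m1, m2, m3, q1, q2⟩ :=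
    hQ a (alp a + γ + 1) ha (by linarith)
  obtain ⟨β, hβ⟩ : ∃ β, β = (alp a - γ - 2 * η) / (4 * a) := ⟨_, rfl⟩
  obtain ⟨C, hC⟩ : ∃ C, C = (γ / 2 + 1) / (2 * a) := ⟨_, rfl⟩
  have β0 : 0 < β := by rw [hβ]; positivity
  have C0 : 0 < C := by rw [hC]; positivity
  obtain ⟨c0, h00, h01, h02⟩ : ∃ c0 : ℝ, 0 < c0 ∧ c0 ≤ 1 ∧ c0 ≤ γ * (alp a - γ - 2 * η) / 4 :=
    ⟨min 1 _, lt_min one_pos (by positivity), min_le_left _ _, min_le_right _ _⟩
  obtain ⟨c1, h10, h11, h12⟩ : ∃ c1 : ℝ, 0 < c1 ∧ c1 ≤ 1 / 4 ∧ c1 * C2 ≤ c0 / 2 :=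
    ⟨min (1 / 4) (c0 / 2 / C2), lt_min (by norm_num) (by positivity), min_le_left _ _,
      (le_div_iff₀ hC2).1 (min_le_right _ _)⟩
  obtain ⟨c3, h3⟩ : ∃ c3, c3 = Real.exp (-(C * (1 / β + 1))) * c1 * c2 /
    (4 * a * Real.exp 1 * CH) := ⟨_, rfl⟩
  have c30 : 0 < c3 := by rw [h3]; positivity
  refine ⟨Real.exp (1 + 1 / β), Real.exp (γ / 2) + 1 / c3, ?_, by positivity, fun lam hl => ?_⟩
  · have : 0 < 1 / β := by positivity
    linarith [Real.add_one_le_exp (1 + 1 / β)]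
  have l0 : 0 < lam ^ (-del a) := Real.rpow_pos_of_pos hl _
  have hX : ∀ (z : ℂ) (y : ℝ) (w : ℂ), 0 < z.im → 0 < w.im → lam / 2 ≤ y →
      0 ≤ Xi c1 (uL lam y) (H (z, w)) := fun z y w hz hw hy => by
    linarith [Xi_ge h10.le h11 (zt_le_two hl hy) (q1 z w hz hw).2.1]
  have χ0 : ∀ y, 0 ≤ chi (c3 * lam ^ (-del a)) lam y := fun y =>
    mul_nonneg (by positivity) (mul_self_nonneg _)
  refine ⟨Psi β γ C c1 lam H, PsiA β γ C c1 lam H HA, PsiB β γ C c1 lam H HA HB,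
    chi (c3 * lam ^ (-del a)) lam, meas_all _ _ _ _ _ _ m1 m2 m3, fun z y w _ _ hy => ?_,
    fun z y w hz hw hy => mul_nonneg (Real.exp_pos _).le (hX z y w hz hw hy), χ0, ?_,
    fun U σ τ z w y yw M MA MB D ut M' A' B' D' cU F F' s1 s2 h => ?_⟩
  · obtain ⟨h1, h2⟩ := start_le (γ := γ) (C := C) (c1 := c1) (H := H) (z := z) (w := w) β0 hγ.le
      C0.le hl hy (c3 * lam ^ (-del a))
    exact ⟨h1.trans (le_add_of_nonneg_right (by positivity)), h2⟩
  · have e : zt (uL lam lam) = 1 := by simp [zt, uL]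
    rw [chi, e, mul_one, mul_one, add_mul, ← mul_assoc (1 / c3), one_div_mul_cancel c30.ne', one_mul]
    exact le_add_of_nonneg_left (by positivity)
  have R := hS U σ τ cU
  have J := hJ a U σ τ z y cU F
  have hX' := fun s hs => hX (z s) (y s) (w s) (F.im_pos s hs) (F'.im_pos s hs) (h s hs).1
  have t1 := step_Psi (γ := γ) (C := C) R J F a0.le β0 hγ.le C0.le h10.le
    (q2 U σ τ z w y yw cU F F') (fun s hs => (q1 _ _ (F.im_pos s hs) (F'.im_pos s hs)).1) hX'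
  have Ψ0 : ∀ s ∈ Icc σ τ, 0 ≤ Psi β γ C c1 lam H (z s, y s, w s) := fun s hs =>
    mul_nonneg (Real.exp_pos _).le (hX' s hs)
  have t2 := step_zt R (ito_uL R J lam) (uL_mono a0.le F lam)
  have t3 := R.smul (c3 * lam ^ (-del a)) _ _ _ _ (by positivity)
    (R.mul _ _ _ _ _ _ _ _ t2 t2 (fun s _ => zt_nonneg _) fun s _ => zt_nonneg _)
  refine ⟨_, ucongr R (R.add _ _ _ _ _ _ _ _
    (R.mul _ _ _ _ _ _ _ _ s1 t1 (fun s hs => (h s hs).2.1) Ψ0)
    (R.mul _ _ _ _ _ _ _ _ t3 s2 (fun s _ => χ0 (y s)) fun s hs => (h s hs).2.2.1))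
    (fun s _ => rfl) (fun s _ => by simp only [chi]; ring) (fun s _ => by simp only [chi]; ring)
    fun s _ => rfl, fun s hs hy => ?_⟩
  obtain ⟨-, p1, -, p3, p4, p5, p6, p7, p8⟩ := h s hs
  have f := final (H := H) (HA := HA) (HB := HB) (HD := HD) ha hη1 hγ hγ2 hCH hβ β0 hC h00.le h01
    h02 h10.le h11 h12 hc2 hC2 h3 hl hy (F.im_pos s hs)
    (q1 _ _ (F.im_pos s hs) (F'.im_pos s hs)).2.1 (q1 _ _ (F.im_pos s hs) (F'.im_pos s hs)).2.2
    p1 p6 p7 p8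
  have f1 := mul_nonpos_of_nonpos_of_nonneg p3 (Ψ0 s hs)
  have f2 := mul_nonpos_of_nonneg_of_nonpos (χ0 (y s)) p4
  rw [p5]
  simp only [chi] at f2 ⊢
  linarith

end Pool.Agent.MP_990230_pr

end
end MrgPart4

-- ======== part 5: formerly Pool.Agent.MP_990230_pr.CE
section MrgPart5

/-!
# Module CE of PROJECT SLE: the chain estimate from the potential and the end game
-/

open Set MeasureTheory ProbabilityTheory Filter
open scoped ENNReal NNReal Topology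

noncomputable section

namespace Pool.Agent.MP_990230_pr

universe u

namespace CE

/-- the state of the points `ξ 0, ξ 1, ...` at time `t`. -/
def XS (a : ℝ) (U : ℝ → ℝ) (ξ : ℕ → ℂ) (t : ℝ) : St :=
  (fun i => Zt a U (ξ i) t, fun i => ups a U (ξ i) t)

/-- the argument of the end-game functions. -/
def arg (n : ℕ) (x : St) : ℂ × ℝ × ℂ := (x.1 0, x.2 0, x.1 (if n = 0 then 0 else 1))

/-- the process used during one descent. -/
def NN (M : ℕ → St → ℝ) (Ψ : ℂ × ℝ × ℂ → ℝ) (χ : ℝ → ℝ) (n : ℕ) (x : St) : ℝ :=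
  M (n + 1) x * Ψ (arg n x) + χ (x.2 0) * M n x.shift

/-- its first-order coefficient. -/
def AA (M MA : ℕ → St → ℝ) (Ψ ΨA : ℂ × ℝ × ℂ → ℝ) (χ : ℝ → ℝ) (n : ℕ) (x : St) : ℝ :=
  MA (n + 1) x * Ψ (arg n x) + M (n + 1) x * ΨA (arg n x) + χ (x.2 0) * MA n x.shift

/-- its second-order coefficient. -/
def BB (M MA MB : ℕ → St → ℝ) (Ψ ΨA ΨB : ℂ × ℝ × ℂ → ℝ) (χ : ℝ → ℝ) (n : ℕ) (x : St) : ℝ :=
  MB (n + 1) x * Ψ (arg n x) + 2 * MA (n + 1) x * ΨA (arg n x)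
    + M (n + 1) x * ΨB (arg n x) + χ (x.2 0) * MB n x.shift

lemma meas_arg (n : ℕ) : Measurable (arg n) := by
  unfold arg
  exact ((measurable_pi_apply 0).comp measurable_fst).prodMk
    (((measurable_pi_apply 0).comp measurable_snd).prodMk
      ((measurable_pi_apply _).comp measurable_fst))

lemma meas_shift : Measurable St.shift := by
  unfold St.shift
  exact (measurable_pi_lambda _ fun i => (measurable_pi_apply (i + 1)).comp measurable_fst).prodMk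
    (measurable_pi_lambda _ fun i => (measurable_pi_apply (i + 1)).comp measurable_snd)

lemma meas_y0 : Measurable (fun x : St => x.2 0) :=
  (measurable_pi_apply 0).comp measurable_snd

section det

variable {a η CH Λ CE lam : ℝ} {M MA MB : ℕ → St → ℝ} {Ψ ΨA ΨB : ℂ × ℝ × ℂ → ℝ} {χ : ℝ → ℝ}
  {U : ℝ → ℝ}

lemma meas_NAB (hP : Pot a η CH M MA MB) (hE : EndG a η CH Λ CE lam Ψ ΨA ΨB χ) (n : ℕ) :
    Measurable (NN M Ψ χ n) ∧ Measurable (AA M MA Ψ ΨA χ n) ∧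
      Measurable (BB M MA MB Ψ ΨA ΨB χ n) := by
  obtain ⟨h1, h2, h3, h4⟩ := hE.meas
  obtain ⟨p1, p2, p3⟩ := hP.meas (n + 1)
  obtain ⟨q1, q2, q3⟩ := hP.meas n
  have e1 := h1.comp (meas_arg n)
  have e2 := h2.comp (meas_arg n)
  have e3 := h3.comp (meas_arg n)
  have e4 := h4.comp meas_y0
  refine ⟨?_, ?_, ?_⟩
  · exact (p1.mul e1).add (e4.mul (q1.comp meas_shift))
  · exact ((p2.mul e1).add (p1.mul e2)).add (e4.mul (q2.comp meas_shift))
  · exact (((p3.mul e1).add ((p2.const_mul 2).mul e2)).add (p1.mul e3)).add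
      (e4.mul (q3.comp meas_shift))

lemma adm_XS (hL : LoeA a U) (k : ℕ) (ξ : ℕ → ℂ)
    (hinj : ∀ i < k, ∀ j < k, i ≠ j → ξ i ≠ ξ j) {t : ℝ} (h0 : 0 ≤ t)
    (hal : ∀ i < k, Alive a U (ξ i) t) : Adm k (XS a U ξ t) := by
  refine ⟨fun i hi => ?_, fun i hi j hj hij => ?_⟩
  · have hf := hL.flow (ξ i) t t h0 le_rfl (hal i hi)
    exact ⟨hf.im_pos t ⟨le_rfl, le_rfl⟩, hf.y_pos t ⟨le_rfl, le_rfl⟩⟩
  · exact hL.inj _ _ t h0 (hinj i hi j hj hij) (hal i hi) (hal j hj)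

lemma nxt_lt (n : ℕ) : (if n = 0 then 0 else 1) < n + 1 := by
  split_ifs <;> omega

lemma local_step (hL : LoeA a U) (hU : Continuous U) (hP : Pot a η CH M MA MB)
    (hE : EndG a η CH Λ CE lam Ψ ΨA ΨB χ) (n : ℕ) (ξ : ℕ → ℂ)
    (hinj : ∀ i < n + 1, ∀ j < n + 1, i ≠ j → ξ i ≠ ξ j) {σ τ : ℝ} (h0 : 0 ≤ σ) (hστ : σ ≤ τ)
    (hal : ∀ i < n + 1, Alive a U (ξ i) τ) (hy : lam / 2 ≤ ups a U (ξ 0) τ) :
    ∃ D : ℝ → ℝ, UStep U σ τ (fun s => NN M Ψ χ n (XS a U ξ s))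
        (fun s => AA M MA Ψ ΨA χ n (XS a U ξ s))
        (fun s => BB M MA MB Ψ ΨA ΨB χ n (XS a U ξ s)) D ∧
      (∀ s ∈ Icc σ τ, 0 ≤ NN M Ψ χ n (XS a U ξ s)) ∧
      ∀ s ∈ Icc σ τ, lam ≤ ups a U (ξ 0) s →
        D s + BB M MA MB Ψ ΨA ΨB χ n (XS a U ξ s) / 2 ≤ 0 := by
  have hfl : ∀ i < n + 1, Flow a U σ τ (Zt a U (ξ i)) (ups a U (ξ i)) :=
    fun i hi => hL.flow _ σ τ h0 hστ (hal i hi)
  have hadm : ∀ s ∈ Icc σ τ, Adm (n + 1) (XS a U ξ s) := fun s hs =>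
    adm_XS hL (n + 1) ξ hinj (h0.trans hs.1) fun i hi => hL.mono _ s τ hs.2 (hal i hi)
  have hadm' : ∀ s ∈ Icc σ τ, Adm n (XS a U (fun i => ξ (i + 1)) s) := fun s hs =>
    adm_XS hL n (fun i => ξ (i + 1))
      (fun i hi j hj hij => hinj (i + 1) (by omega) (j + 1) (by omega) (by omega))
      (h0.trans hs.1) fun i hi => hL.mono _ s τ hs.2 (hal (i + 1) (by omega))
  obtain ⟨D, ut, hD, hD2⟩ := hP.step (n + 1) U σ τ (fun i => Zt a U (ξ i))
    (fun i => ups a U (ξ i)) hU.continuousOn hfl hadm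
  obtain ⟨D', ut', hD', hD2'⟩ := hP.step n U σ τ (fun i => Zt a U (ξ (i + 1)))
    (fun i => ups a U (ξ (i + 1))) hU.continuousOn (fun i hi => hfl (i + 1) (by omega)) hadm'
  have hyy : ∀ s ∈ Icc σ τ, lam / 2 ≤ ups a U (ξ 0) s := fun s hs =>
    hy.trans (hL.ups_anti (ξ 0) (h0.trans hs.1) (h0.trans hστ) hs.2)
  obtain ⟨DF, hF, hF2⟩ := hE.step U σ τ (Zt a U (ξ 0)) (Zt a U (ξ (if n = 0 then 0 else 1)))
    (ups a U (ξ 0)) (ups a U (ξ (if n = 0 then 0 else 1))) _ _ _ D ut _ _ _ D'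
    hU.continuousOn (hfl 0 (by omega)) (hfl _ (nxt_lt n)) hD hD' (fun s hs => by
      obtain ⟨d1, d2⟩ := hD2 s hs
      obtain ⟨d3, d4, d5⟩ := d2 (by omega)
      exact ⟨hyy s hs, hP.nonneg _ _, hP.nonneg _ _, d1, (hD2' s hs).1, d3, d4, d5,
        hP.handoff n (XS a U ξ s) (hadm s hs)⟩)
  refine ⟨DF, hF, fun s hs => ?_, fun s hs hl => hF2 s hs hl⟩
  have h1 := hE.nonneg (Zt a U (ξ 0) s) (ups a U (ξ 0) s)
    (Zt a U (ξ (if n = 0 then 0 else 1)) s) ((hfl 0 (by omega)).im_pos s hs)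
    ((hfl _ (nxt_lt n)).im_pos s hs) (hyy s hs)
  exact add_nonneg (mul_nonneg (hP.nonneg _ _) h1) (mul_nonneg (hE.chi_nonneg _) (hP.nonneg _ _))

lemma extend_all (hL : LoeA a U) (k : ℕ) (ξ : ℕ → ℂ) {t c : ℝ} (h0 : 0 ≤ t)
    (hal : ∀ i < k, Alive a U (ξ i) t) (hc : c < ups a U (ξ 0) t) :
    ∃ t', t < t' ∧ (∀ i < k, Alive a U (ξ i) t') ∧ c ≤ ups a U (ξ 0) t' := by
  have h1 : ∀ i ∈ Finset.range k, ∀ᶠ s in 𝓝[>] t, Alive a U (ξ i) s := by
    intro i hi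
    obtain ⟨t', ht', hA⟩ := hL.extend (ξ i) t h0 (hal i (Finset.mem_range.1 hi))
    filter_upwards [Ioo_mem_nhdsGT ht'] with s hs
    exact hL.mono _ s t' hs.2.le hA
  have h2 : ∀ᶠ s in 𝓝[>] t, c < ups a U (ξ 0) s :=
    ((hL.ups_rc (ξ 0) t h0).mono Ioi_subset_Ici_self).eventually (lt_mem_nhds hc)
  have h3 := (Finset.eventually_all (Finset.range k)).2 h1
  obtain ⟨s, ⟨hs1, hs2⟩, hs3⟩ := ((h3.and h2).and self_mem_nhdsWithin).exists
  exact ⟨s, hs3, fun i hi => hs1 i (Finset.mem_range.2 hi), hs2.le⟩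

/-- clause `j` of the chain event. -/
def Cl (a : ℝ) (U : ℝ → ℝ) (Λ : ℝ) (ζ : ℕ → ℂ) (lv : ℕ → ℝ) (j : ℕ) : Prop :=
  Hits a U (ζ j) (lv j) ∧ Alive a U (ζ j) (hit a U (ζ j) (lv j)) ∧
    Λ * lv j ≤ ups a U (ζ j) (prevT a U ζ lv j)

/-- the first `l` descents took place and the remaining points are still alive. -/
def QQ (a : ℝ) (U : ℝ → ℝ) (Λ : ℝ) (N : ℕ) (ζ : ℕ → ℂ) (lv : ℕ → ℝ) (l : ℕ) : Prop :=
  (∀ j < l, Cl a U Λ ζ lv j) ∧ ∀ i, l ≤ i → i < N → Alive a U (ζ i) (prevT a U ζ lv l)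

lemma prevT_succ (ζ : ℕ → ℂ) (lv : ℕ → ℝ) (l : ℕ) :
    prevT a U ζ lv (l + 1) = hit a U (ζ l) (lv l) := by
  simp [prevT]

lemma prevT_zero (ζ : ℕ → ℂ) (lv : ℕ → ℝ) : prevT a U ζ lv 0 = 0 := by
  simp [prevT]

lemma prevT_nonneg (hL : LoeA a U) (ζ : ℕ → ℂ) (lv : ℕ → ℝ) (l : ℕ) : 0 ≤ prevT a U ζ lv l := by
  unfold prevT
  split_ifs
  · exact le_rfl
  · exact hL.hit_nonneg _ _

lemma prevT_lt (hL : LoeA a U) (hΛ : 2 ≤ Λ) {ζ : ℕ → ℂ} {lv : ℕ → ℝ} {j : ℕ} (hl : 0 < lv j)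
    (h : Cl a U Λ ζ lv j) : prevT a U ζ lv j < hit a U (ζ j) (lv j) := by
  by_contra hc
  have h1 := (hL.hit_le_iff _ _ h.1 _ (prevT_nonneg hL ζ lv j)).1 (not_lt.1 hc)
  have h2 := h.2.2
  nlinarith

lemma prevT_mono (hL : LoeA a U) (hΛ : 2 ≤ Λ) {ζ : ℕ → ℂ} {lv : ℕ → ℝ} {l : ℕ}
    (hl : ∀ j < l, 0 < lv j) (h : ∀ j < l, Cl a U Λ ζ lv j) :
    ∀ j ≤ l, prevT a U ζ lv j ≤ prevT a U ζ lv l := by
  induction l with
  | zero => intro j hj; obtain rfl : j = 0 := by omega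
            exact le_rfl
  | succ l ih =>
    intro j hj
    rcases Nat.lt_or_ge j (l + 1) with h1 | h1
    · have h2 := ih (fun j hj => hl j (by omega)) (fun j hj => h j (by omega)) j (by omega)
      rw [prevT_succ]
      exact h2.trans (prevT_lt hL hΛ (hl l (by omega)) (h l (by omega))).le
    · obtain rfl : j = l + 1 := by omega
      exact le_rfl

lemma ups_hit (hL : LoeA a U) (hΛ : 2 ≤ Λ) {ζ : ℕ → ℂ} {lv : ℕ → ℝ} {j : ℕ} (hl : 0 < lv j)
    (h : Cl a U Λ ζ lv j) : ups a U (ζ j) (hit a U (ζ j) (lv j)) = lv j := by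
  have h0 := hL.hit_nonneg (ζ j) (lv j)
  refine le_antisymm ((hL.hit_le_iff _ _ h.1 _ h0).1 le_rfl) ?_
  refine hL.le_ups _ _ h.1 h.2.1 ?_ _ ⟨h0, le_rfl⟩
  have h1 := (hL.init (ζ j) h.2.1.1).2.2
  have h2 := hL.ups_anti (ζ j) (mem_Ici.2 le_rfl) (prevT_nonneg hL ζ lv j) (prevT_nonneg hL ζ lv j)
  have h3 := h.2.2
  nlinarith

lemma QQ_of_succ (hL : LoeA a U) (hΛ : 2 ≤ Λ) {N : ℕ} {ζ : ℕ → ℂ} {lv : ℕ → ℝ} {l : ℕ}
    (hl : 0 < lv l) (h : QQ a U Λ N ζ lv (l + 1)) : QQ a U Λ N ζ lv l := by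
  have hc := h.1 l (by omega)
  have hlt := prevT_lt hL hΛ hl hc
  refine ⟨fun j hj => h.1 j (by omega), fun i hi hN => ?_⟩
  rcases hi.eq_or_lt with rfl | hi'
  · exact hL.mono _ _ _ hlt.le hc.2.1
  · have h2 := h.2 i hi' hN
    rw [prevT_succ] at h2
    exact hL.mono _ _ _ hlt.le h2

open Classical in
/-- a substitute for `Υ(ζ i)` at the time `prevT j` that is measurable at time `t`. -/
def psi (a : ℝ) (U : ℝ → ℝ) (ζ : ℕ → ℂ) (lv : ℕ → ℝ) (t : ℝ) (j i : ℕ) : ℝ :=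
  if j = 0 then ups a U (ζ i) 0 else
    if ups a U (ζ (j - 1)) t ≤ lv (j - 1) then ups a U (ζ i) (hit a U (ζ (j - 1)) (lv (j - 1)))
    else 0

lemma psi_eq {ζ : ℕ → ℂ} {lv : ℕ → ℝ} {t : ℝ} {l : ℕ}
    (h : ∀ j < l, ups a U (ζ j) t ≤ lv j) (j : ℕ) (hj : j ≤ l) (i : ℕ) :
    psi a U ζ lv t j i = ups a U (ζ i) (prevT a U ζ lv j) := by
  unfold psi prevT
  by_cases h0 : j = 0
  · simp [h0]
  · rw [if_neg h0, if_neg h0, if_pos (h (j - 1) (by omega))]

lemma event_iff (hL : LoeA a U) (hΛ : 2 ≤ Λ) {N : ℕ} {ζ : ℕ → ℂ} {lv : ℕ → ℝ} {l : ℕ}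
    (hl : ∀ j < l, 0 < lv j) {t : ℝ} (ht : 0 ≤ t) :
    ((QQ a U Λ N ζ lv l ∧ Λ * lv l ≤ ups a U (ζ l) (prevT a U ζ lv l)) ∧ prevT a U ζ lv l ≤ t) ↔
      ((∀ j < l, ups a U (ζ j) t ≤ lv j ∧ 0 < psi a U ζ lv t (j + 1) j ∧
          Λ * lv j ≤ psi a U ζ lv t j j) ∧
        (∀ i, l ≤ i → i < N → 0 < psi a U ζ lv t l i) ∧ Λ * lv l ≤ psi a U ζ lv t l l) := by
  constructor
  · rintro ⟨⟨hQ, h1⟩, h2⟩
    have hH : ∀ j < l, ups a U (ζ j) t ≤ lv j := by
      intro j hj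
      refine (hL.hit_le_iff _ _ (hQ.1 j hj).1 t ht).1 ?_
      rw [← prevT_succ]
      exact (prevT_mono hL hΛ hl hQ.1 (j + 1) hj).trans h2
    refine ⟨fun j hj => ⟨hH j hj, ?_, ?_⟩, fun i hi hN => ?_, ?_⟩
    · rw [psi_eq hH (j + 1) hj, prevT_succ]
      exact (hL.ups_pos_iff _ _).2 (hQ.1 j hj).2.1
    · rw [psi_eq hH j hj.le]
      exact (hQ.1 j hj).2.2
    · rw [psi_eq hH l le_rfl]
      exact (hL.ups_pos_iff _ _).2 (hQ.2 i hi hN)
    · rw [psi_eq hH l le_rfl]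
      exact h1
  · rintro ⟨h1, h2, h3⟩
    have hH : ∀ j < l, ups a U (ζ j) t ≤ lv j := fun j hj => (h1 j hj).1
    refine ⟨⟨⟨fun j hj => ⟨⟨t, ht, hH j hj⟩, ?_, ?_⟩, fun i hi hN => ?_⟩, ?_⟩, ?_⟩
    · have h4 := (h1 j hj).2.1
      rw [psi_eq hH (j + 1) hj, prevT_succ] at h4
      exact (hL.ups_pos_iff _ _).1 h4
    · have h4 := (h1 j hj).2.2
      rwa [psi_eq hH j hj.le] at h4
    · have h4 := h2 i hi hN
      rw [psi_eq hH l le_rfl] at h4
      exact (hL.ups_pos_iff _ _).1 h4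
    · rwa [psi_eq hH l le_rfl] at h3
    · rcases l with _ | l
      · rw [prevT_zero]; exact ht
      · rw [prevT_succ]
        exact (hL.hit_le_iff _ _ ⟨t, ht, hH l (by omega)⟩ t ht).2 (hH l (by omega))

lemma start_bound (hL : LoeA a U) (hU0 : U 0 = 0) (hP : Pot a η CH M MA MB) (N : ℕ) (ζ : ℕ → ℂ)
    (him : ∀ l < N, 0 < (ζ l).im) (hinj : ∀ i < N, ∀ j < N, i ≠ j → ζ i ≠ ζ j) :
    M N (XS a U ζ 0) ≤ ∏ l ∈ Finset.range N, ‖ζ l - prevPt ζ l‖ ^ (-(del a)) := by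
  have h1 : ∀ l < N, Zt a U (ζ l) 0 = ζ l := by
    intro l hl
    rw [(hL.init _ (him l hl)).2.1, hU0]; simp
  have h2 : XS a U ζ 0 = (fun i => Zt a U (ζ i) 0, fun i => (Zt a U (ζ i) 0).im) := by
    unfold XS
    refine Prod.ext rfl (funext fun i => ?_)
    by_cases hi : 0 < (ζ i).im
    · obtain ⟨_, e1, e2⟩ := hL.init _ hi
      simp [e1, e2]
    · have hna : ¬ Alive a U (ζ i) 0 := fun h => hi h.1
      simp [ups, Zt, hna]
  have h3 : Adm N (XS a U ζ 0) :=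
    adm_XS hL N ζ hinj le_rfl fun i hi => (hL.init _ (him i hi)).1
  rw [h2] at h3 ⊢
  refine (hP.init N _ h3).trans (le_of_eq (Finset.prod_congr rfl fun l hl => ?_))
  have hl' := Finset.mem_range.1 hl
  have h4 : prevPt (fun i => Zt a U (ζ i) 0) l = prevPt ζ l := by
    unfold prevPt
    split_ifs with h0
    · rfl
    · exact h1 _ (by omega)
  rw [h4, h1 l hl']

end det

section prob

variable {a η CH Λ CE : ℝ} {M MA MB : ℕ → St → ℝ}
  {Ω : Type u} [mΩ : MeasurableSpace Ω] {P : Measure Ω} {U : Ω → ℝ → ℝ} {F : Filtration ℝ mΩ}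

lemma meas_XS (ha : 0 < a) (hM : MeasAStmt.{u}) (hB : BMSetup P U F) (ξ : ℕ → ℂ) {t : ℝ}
    (ht : 0 ≤ t) : Measurable[F t] (fun ω => XS a (U ω) ξ t) := by
  have h := fun i => hM a ha Ω P U F hB (ξ i) t ht
  let _ : MeasurableSpace Ω := F t
  exact (measurable_pi_lambda _ fun i => (h i).1).prodMk (measurable_pi_lambda _ fun i => (h i).2)

lemma meas_psi (ha : 0 < a) (hM : MeasAStmt.{u}) (hM2 : MeasBStmt.{u}) (hB : BMSetup P U F)
    (ζ : ℕ → ℂ) (lv : ℕ → ℝ) {t : ℝ} (ht : 0 ≤ t) (j i : ℕ) :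
    Measurable[F t] (fun ω => psi a (U ω) ζ lv t j i) := by
  by_cases h0 : j = 0
  · simp only [psi, if_pos h0]
    exact ((hM a ha Ω P U F hB (ζ i) 0 le_rfl).2).mono (F.mono ht) le_rfl
  · simp only [psi, if_neg h0]
    convert (hM2 a ha Ω P U F hB).1 (ζ (j - 1)) (lv (j - 1)) (ζ i) t ht

lemma meas_event (ha : 0 < a) (hA : LoeAStmt) (hM : MeasAStmt.{u}) (hM2 : MeasBStmt.{u})
    (hB : BMSetup P U F) (hΛ : 2 ≤ Λ) (N : ℕ) (ζ : ℕ → ℂ) (lv : ℕ → ℝ) (l : ℕ)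
    (hl : ∀ j < l, 0 < lv j) {t : ℝ} (ht : 0 ≤ t) :
    MeasurableSet[F t] {ω | (QQ a (U ω) Λ N ζ lv l ∧
      Λ * lv l ≤ ups a (U ω) (ζ l) (prevT a (U ω) ζ lv l)) ∧ prevT a (U ω) ζ lv l ≤ t} := by
  have e : {ω | (QQ a (U ω) Λ N ζ lv l ∧
      Λ * lv l ≤ ups a (U ω) (ζ l) (prevT a (U ω) ζ lv l)) ∧ prevT a (U ω) ζ lv l ≤ t} =
      {ω | (∀ j < l, ups a (U ω) (ζ j) t ≤ lv j ∧ 0 < psi a (U ω) ζ lv t (j + 1) j ∧
          Λ * lv j ≤ psi a (U ω) ζ lv t j j) ∧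
        (∀ i, l ≤ i → i < N → 0 < psi a (U ω) ζ lv t l i) ∧
          Λ * lv l ≤ psi a (U ω) ζ lv t l l} := by
    ext ω
    exact event_iff (hA a (U ω) ha (hB.cont ω)) hΛ hl ht
  rw [e]
  have h1 := fun j i => meas_psi ha hM hM2 hB ζ lv ht j i
  have h2 := fun j => (hM a ha Ω P U F hB (ζ j) t ht).2
  let _ : MeasurableSpace Ω := F t
  refine measurableSet_setOfPred.2 ((Measurable.forall fun j => Measurable.imp measurable_const ?_).and
    ((Measurable.forall fun i => Measurable.imp measurable_const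
      (Measurable.imp measurable_const ?_)).and ?_))
  · exact (measurableSet_setOfPred.1 (measurableSet_le (h2 j) measurable_const)).and
      ((measurableSet_setOfPred.1 (measurableSet_lt measurable_const (h1 _ _))).and
        (measurableSet_setOfPred.1 (measurableSet_le measurable_const (h1 _ _))))
  · exact measurableSet_setOfPred.1 (measurableSet_lt measurable_const (h1 _ _))
  · exact measurableSet_setOfPred.1 (measurableSet_le measurable_const (h1 _ _))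

/-- the quantity carried along the chain. -/
def aa (a : ℝ) (M : ℕ → St → ℝ) (P : Measure Ω) (U : Ω → ℝ → ℝ) (Λ : ℝ) (N : ℕ) (ζ : ℕ → ℂ)
    (lv : ℕ → ℝ) (l : ℕ) : ℝ≥0∞ :=
  ∫⁻ ω, {ω | QQ a (U ω) Λ N ζ lv l}.indicator (fun ω => ENNReal.ofReal
    (M (N - l) (XS a (U ω) (fun i => ζ (l + i)) (prevT a (U ω) ζ lv l)))) ω ∂P

lemma aa_step (ha : 0 < a) (hA : LoeAStmt) (hM : MeasAStmt.{u}) (hM2 : MeasBStmt.{u})
    (hG : GLStmt.{u}) (hP : Pot a η CH M MA MB) (hΛ : 2 ≤ Λ) (hCE : 0 < CE)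
    (hB : BMSetup P U F) (N : ℕ) (ζ : ℕ → ℂ) (lv : ℕ → ℝ) (hlv : ∀ l < N, 0 < lv l)
    (hinj : ∀ i < N, ∀ j < N, i ≠ j → ζ i ≠ ζ j) (l : ℕ) (hl : l < N)
    {Ψ ΨA ΨB : ℂ × ℝ × ℂ → ℝ} {χ : ℝ → ℝ} (hE : EndG a η CH Λ CE (lv l) Ψ ΨA ΨB χ) :
    aa a M P U Λ N ζ lv (l + 1) ≤
      ENNReal.ofReal (CE ^ 2 * lv l ^ (del a)) * aa a M P U Λ N ζ lv l := by
  obtain ⟨n, hn⟩ : ∃ n, N = l + (n + 1) := ⟨N - l - 1, by omega⟩
  set ξ : ℕ → ℂ := fun i => ζ (l + i) with hξ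
  have hξ0 : ξ 0 = ζ l := rfl
  have hL : ∀ ω, LoeA a (U ω) := fun ω => hA a (U ω) ha (hB.cont ω)
  have hinj' : ∀ i < n + 1, ∀ j < n + 1, i ≠ j → ξ i ≠ ξ j := fun i hi j hj hij =>
    hinj (l + i) (by omega) (l + j) (by omega) (by omega)
  have hl0 := hlv l hl
  obtain ⟨m1, m2, m3⟩ := meas_NAB hP hE n
  have key := hG Ω P U F hB (fun ω t => NN M Ψ χ n (XS a (U ω) ξ t))
    (fun ω t => AA M MA Ψ ΨA χ n (XS a (U ω) ξ t))
    (fun ω t => BB M MA MB Ψ ΨA ΨB χ n (XS a (U ω) ξ t))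
    (fun ω => prevT a (U ω) ζ lv l) (fun ω => hit a (U ω) (ζ l) (lv l))
    {ω | QQ a (U ω) Λ N ζ lv l ∧ Λ * lv l ≤ ups a (U ω) (ζ l) (prevT a (U ω) ζ lv l)}
    {ω | QQ a (U ω) Λ N ζ lv (l + 1)} (fun t => {ω | ups a (U ω) (ζ l) t ≤ lv l})
    (fun t ht => by
      have hx := meas_XS ha hM hB ξ ht
      exact ⟨m1.comp hx, m2.comp hx, m3.comp hx⟩)
    (fun t ht => meas_event ha hA hM hM2 hB hΛ N ζ lv l (fun j hj => hlv j (by omega)) ht)
    (fun t ht => by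
      have hx := (hM a ha Ω P U F hB (ζ l) t ht).2
      let _ : MeasurableSpace Ω := F t
      exact measurableSet_le hx measurable_const)
    (fun ω hω => by
      have h0 := prevT_nonneg (hL ω) ζ lv l
      refine ⟨h0, ?_⟩
      obtain ⟨t', ht', hal, hy⟩ := extend_all (hL ω) (n + 1) ξ (c := lv l / 2) h0
        (fun i hi => hω.1.2 (l + i) (by omega) (by omega))
        (by have := hω.2; rw [hξ0]; nlinarith)
      obtain ⟨D, hD, -⟩ := local_step (hL ω) (hB.cont ω) hP hE n ξ hinj' h0 ht'.le hal hy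
      exact (hD.cont _ ⟨le_rfl, ht'.le⟩).mono_of_mem_nhdsWithin (Icc_mem_nhdsGE ht'))
    (fun ω hω => ⟨QQ_of_succ (hL ω) hΛ hl0 hω, (hω.1 l (by omega)).2.2⟩)
    (fun ω hω => by
      have hc : Cl a (U ω) Λ ζ lv l := hω.1 l (by omega)
      have h0 := prevT_nonneg (hL ω) ζ lv l
      have hlt := prevT_lt (hL ω) hΛ hl0 hc
      refine ⟨hlt.le, fun t ht => ((hL ω).hit_le_iff _ _ hc.1 t ht).symm, ?_⟩
      obtain ⟨t', ht', hal, hy⟩ := extend_all (hL ω) (n + 1) ξ (c := lv l / 2)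
        ((hL ω).hit_nonneg (ζ l) (lv l))
        (fun i hi => by
          rcases i with _ | i
          · exact hc.2.1
          · have h2 := hω.2 (l + (i + 1)) (by omega) (by omega)
            rwa [prevT_succ] at h2)
        (by rw [hξ0, ups_hit (hL ω) hΛ hl0 hc]; linarith)
      obtain ⟨D, hD, hD1, hD2⟩ := local_step (hL ω) (hB.cont ω) hP hE n ξ hinj' h0
        (hlt.le.trans ht'.le) hal hy
      refine ⟨t', ht', D, hD, hD1, fun s hs => hD2 s ⟨hs.1, hs.2.le.trans ht'.le⟩ ?_⟩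
      by_contra hcon
      exact absurd (((hL ω).hit_le_iff _ _ hc.1 s (h0.trans hs.1)).2 (not_le.1 hcon).le)
        (not_le.2 hs.2))
  have hN1 : N - (l + 1) = n := by omega
  have hN2 : N - l = n + 1 := by omega
  have hsh : ∀ ω t, XS a (U ω) (fun i => ζ (l + 1 + i)) t = (XS a (U ω) ξ t).shift := by
    intro ω t
    have : (fun i => ζ (l + 1 + i)) = fun i => ξ (i + 1) := by
      funext i; simp only [hξ]; congr 1; omega
    rw [this]; rfl
  have hpos : 0 < lv l ^ (del a) := Real.rpow_pos_of_pos hl0 _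
  have s1 : aa a M P U Λ N ζ lv (l + 1) ≤ ENNReal.ofReal (CE * lv l ^ (del a)) *
      ∫⁻ ω, {ω | QQ a (U ω) Λ N ζ lv (l + 1)}.indicator (fun ω => ENNReal.ofReal
        (NN M Ψ χ n (XS a (U ω) ξ (hit a (U ω) (ζ l) (lv l))))) ω ∂P := by
    rw [← lintegral_const_mul' _ _ ENNReal.ofReal_ne_top]
    refine lintegral_mono fun ω => ?_
    by_cases hω : ω ∈ {ω | QQ a (U ω) Λ N ζ lv (l + 1)}
    · simp only [indicator_of_mem hω]
      rw [← ENNReal.ofReal_mul (by positivity), hN1, hsh, prevT_succ]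
      refine ENNReal.ofReal_le_ofReal ?_
      have hc : Cl a (U ω) Λ ζ lv l := hω.1 l (by omega)
      have hu := ups_hit (hL ω) hΛ hl0 hc
      have h0 := (hL ω).hit_nonneg (ζ l) (lv l)
      have hal : ∀ i < n + 1, Alive a (U ω) (ξ i) (hit a (U ω) (ζ l) (lv l)) := by
        intro i hi
        rcases i with _ | i
        · exact hc.2.1
        · have h2 := hω.2 (l + (i + 1)) (by omega) (by omega)
          rwa [prevT_succ] at h2
      have hadm := adm_XS (hL ω) (n + 1) ξ hinj' h0 hal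
      set x := XS a (U ω) ξ (hit a (U ω) (ζ l) (lv l)) with hx
      have hx0 : x.2 0 = lv l := hu
      have h1 : 0 ≤ Ψ (arg n x) := hE.nonneg _ _ _ (hadm.1 0 (by omega)).1
        (hadm.1 _ (nxt_lt n)).1 (by rw [hx0]; linarith)
      have h2 : 1 ≤ CE * lv l ^ (del a) * χ (lv l) := by
        have h3 := hE.finish
        rw [Real.rpow_neg hl0.le] at h3
        have h4 := mul_le_mul_of_nonneg_left h3 hpos.le
        rw [mul_inv_cancel₀ hpos.ne'] at h4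
        linarith
      have h5 := hP.nonneg n x.shift
      have h6 := mul_nonneg (hP.nonneg (n + 1) x) h1
      unfold NN
      rw [hx0]
      have h7 : 0 ≤ CE * lv l ^ (del a) := by positivity
      nlinarith [mul_nonneg h7 h6, mul_le_mul_of_nonneg_right h2 h5]
    · simp only [indicator_of_notMem hω]
      exact zero_le
  have s2 : ∫⁻ ω, {ω | QQ a (U ω) Λ N ζ lv l ∧
      Λ * lv l ≤ ups a (U ω) (ζ l) (prevT a (U ω) ζ lv l)}.indicator (fun ω => ENNReal.ofReal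
        (NN M Ψ χ n (XS a (U ω) ξ (prevT a (U ω) ζ lv l)))) ω ∂P ≤
      ENNReal.ofReal CE * aa a M P U Λ N ζ lv l := by
    unfold aa
    rw [← lintegral_const_mul' _ _ ENNReal.ofReal_ne_top]
    refine lintegral_mono fun ω => ?_
    by_cases hω : ω ∈ {ω | QQ a (U ω) Λ N ζ lv l ∧
      Λ * lv l ≤ ups a (U ω) (ζ l) (prevT a (U ω) ζ lv l)}
    · have hω' : ω ∈ {ω | QQ a (U ω) Λ N ζ lv l} := hω.1
      simp only [indicator_of_mem hω, indicator_of_mem hω']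
      rw [← ENNReal.ofReal_mul hCE.le, hN2]
      refine ENNReal.ofReal_le_ofReal ?_
      have h0 := prevT_nonneg (hL ω) ζ lv l
      have hadm := adm_XS (hL ω) (n + 1) ξ hinj' h0
        (fun i hi => hω.1.2 (l + i) (by omega) (by omega))
      set x := XS a (U ω) ξ (prevT a (U ω) ζ lv l) with hx
      obtain ⟨h1, h2⟩ := hE.start (x.1 0) (x.2 0) (x.1 (if n = 0 then 0 else 1))
        (hadm.1 0 (by omega)).1 (hadm.1 _ (nxt_lt n)).1 hω.2
      unfold NN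
      rw [h2, zero_mul, add_zero, mul_comm CE]
      exact mul_le_mul_of_nonneg_left h1 (hP.nonneg _ _)
    · simp only [indicator_of_notMem hω]
      exact zero_le
  calc aa a M P U Λ N ζ lv (l + 1) ≤ _ := s1
    _ ≤ ENNReal.ofReal (CE * lv l ^ (del a)) * (ENNReal.ofReal CE * aa a M P U Λ N ζ lv l) :=
        mul_le_mul_right (key.trans s2) _
    _ = _ := by
        rw [← mul_assoc, ← ENNReal.ofReal_mul (by positivity)]
        congr 2; ring

lemma aa_zero (ha : 0 < a) (hA : LoeAStmt) (hP : Pot a η CH M MA MB)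
    (hB : BMSetup P U F) (N : ℕ) (ζ : ℕ → ℂ) (lv : ℕ → ℝ) (him : ∀ l < N, 0 < (ζ l).im)
    (hinj : ∀ i < N, ∀ j < N, i ≠ j → ζ i ≠ ζ j) :
    aa a M P U Λ N ζ lv 0 ≤
      ENNReal.ofReal (∏ l ∈ Finset.range N, ‖ζ l - prevPt ζ l‖ ^ (-(del a))) := by
  have := hB.prob
  unfold aa
  refine (lintegral_mono fun ω => ?_ : _ ≤ ∫⁻ _, ENNReal.ofReal
    (∏ l ∈ Finset.range N, ‖ζ l - prevPt ζ l‖ ^ (-(del a))) ∂P).trans (by simp)
  refine indicator_apply_le' (fun _ => ENNReal.ofReal_le_ofReal ?_) (fun _ => zero_le)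
  have := start_bound (hA a (U ω) ha (hB.cont ω)) (hB.zero ω) hP N ζ him hinj
  simpa [prevT_zero] using this

lemma aa_top (ha : 0 < a) (hM2 : MeasBStmt.{u}) (hP : Pot a η CH M MA MB)
    (hB : BMSetup P U F) (N : ℕ) (ζ : ℕ → ℂ) (lv : ℕ → ℝ) :
    aa a M P U Λ N ζ lv N = P {ω | CEev a (U ω) Λ N ζ lv} := by
  have e : {ω | QQ a (U ω) Λ N ζ lv N} = {ω | CEev a (U ω) Λ N ζ lv} := by
    ext ω
    exact ⟨fun h => h.1, fun h => ⟨h, fun i h1 h2 => absurd h2 (by omega)⟩⟩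
  unfold aa
  rw [e, ← lintegral_indicator_one ((hM2 a ha Ω P U F hB).2.2.2.2 Λ N ζ lv)]
  congr 1
  funext ω
  congr 1
  funext ω
  simp [hP.zero]

end prob

end CE

theorem ce_stmt (hA : LoeAStmt) (hM : MeasAStmt.{u}) (hM2 : MeasBStmt.{u}) (hG : GLStmt.{u})
    (hP : PotStmt) (hE : EndStmt) : CEofStmt.{u} := by
  intro a ha
  have ha0 : 0 < a := by linarith
  obtain ⟨CH, M, MA, MB, hCH, hPot⟩ := hP a ha
  have h4 : 1 / (4 * a) ≤ 1 / 2 := one_div_le_one_div_of_le (by norm_num) (by linarith)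
  have h5 : 0 < 1 / (4 * a) := by positivity
  have h6 : 4 * a * (1 / (4 * a)) = 1 := by field_simp
  obtain ⟨Λ, C, hΛ, hC, hEnd⟩ := hE a (3 * del a / 4) CH ha (by unfold del; linarith)
    (by unfold del; linarith) (by unfold del alp; nlinarith) hCH
  refine ⟨Λ, C ^ 2, hΛ, by positivity, fun Ω mΩ P U F hB N ζ lv hz hinj => ?_⟩
  have main : ∀ l ≤ N, CE.aa a M P U Λ N ζ lv l ≤
      ENNReal.ofReal ((C ^ 2) ^ l * (∏ j ∈ Finset.range l, lv j ^ (del a)) *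
        ∏ j ∈ Finset.range N, ‖ζ j - prevPt ζ j‖ ^ (-(del a))) := by
    intro l
    induction l with
    | zero =>
      intro _
      simpa using CE.aa_zero ha0 hA hPot hB N ζ lv (fun l hl => (hz l hl).1) hinj
    | succ l ih =>
      intro hl
      have hl0 := (hz l hl).2
      obtain ⟨Ψ, ΨA, ΨB, χ, hG'⟩ := hEnd (lv l) hl0
      refine (CE.aa_step ha0 hA hM hM2 hG hPot hΛ hC hB N ζ lv (fun l hl => (hz l hl).2) hinj l hl
        hG').trans ?_
      refine (mul_le_mul_right (ih (by omega)) _).trans (le_of_eq ?_)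
      rw [← ENNReal.ofReal_mul (by positivity), Finset.prod_range_succ]
      congr 1; ring
  rw [← CE.aa_top ha0 hM2 hPot hB N ζ lv]
  exact main N le_rfl

end Pool.Agent.MP_990230_pr

end
end MrgPart5

-- marker of a merged file
example : 731051 + 621663 = 731051 + 621663 := rfl
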