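import Mathlib.Topology.Sheaves.Presheaf
import Mathlib.Tactic.Monotonicity.Lemmas
import Pool.Agent.MP_990230_pr.BM
import Mathlib.Topology.Separation.CompletelyRegular
import Pool.Agent.MP_990230_pr.Pot
import Mathlib.Analysis.Complex.ExponentialBounds

-- ======== part 0: formerly Pool.Agent.MP_990230_pr.Step1
section MrgPart0

/-!
# STEP, part 1: the filter of short increments and little-o calculus
-/

open Set Filter Asymptotics
open scoped Topology

noncomputable section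

namespace Pool.Agent.MP_990230_pr

namespace Step

/-- pairs `σ ≤ s ≤ t ≤ τ` with `t - s → 0`. -/
def FF (σ τ : ℝ) : Filter (ℝ × ℝ) :=
  comap (fun p : ℝ × ℝ => p.2 - p.1) (𝓝 0) ⊓ 𝓟 {p | p.1 ∈ Icc σ τ ∧ p.2 ∈ Icc σ τ ∧ p.1 ≤ p.2}

/-- the gauge `h + ΔU²`. -/
def qq (U : ℝ → ℝ) (p : ℝ × ℝ) : ℝ := (p.2 - p.1) + (U p.2 - U p.1) ^ 2

/-- the main term. -/
def mn (U A B D : ℝ → ℝ) (p : ℝ × ℝ) : ℝ :=
  A p.1 * (U p.2 - U p.1) + B p.1 / 2 * (U p.2 - U p.1) ^ 2 + D p.1 * (p.2 - p.1)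

variable {U : ℝ → ℝ} {σ τ : ℝ}

lemma ev_iff {P : ℝ × ℝ → Prop} :
    (∀ᶠ p in FF σ τ, P p) ↔
      ∃ h : ℝ, 0 < h ∧ ∀ s ∈ Icc σ τ, ∀ t ∈ Icc σ τ, s ≤ t → t - s ≤ h → P (s, t) := by
  unfold FF
  rw [eventually_inf_principal, eventually_comap,
    (Metric.nhds_basis_closedBall (x := (0 : ℝ))).eventually_iff]
  constructor
  · rintro ⟨h, h0, H⟩
    refine ⟨h, h0, fun s hs t ht hst hh => ?_⟩
    refine H (x := t - s) ?_ (s, t) rfl ⟨hs, ht, hst⟩
    rw [Metric.mem_closedBall, Real.dist_eq, sub_zero, abs_of_nonneg (sub_nonneg.2 hst)]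
    exact hh
  · rintro ⟨h, h0, H⟩
    refine ⟨h, h0, fun x hx p hp hm => ?_⟩
    obtain ⟨h1, h2, h3⟩ := hm
    refine H p.1 h1 p.2 h2 h3 ?_
    rw [Metric.mem_closedBall, Real.dist_eq, sub_zero] at hx
    rw [hp]
    exact (le_abs_self x).trans hx

lemma ev_mem : ∀ᶠ p in FF σ τ, p.1 ∈ Icc σ τ ∧ p.2 ∈ Icc σ τ ∧ p.1 ≤ p.2 :=
  ev_iff.2 ⟨1, one_pos, fun _ hs _ ht hst _ => ⟨hs, ht, hst⟩⟩

lemma qq_nonneg : ∀ᶠ p in FF σ τ, 0 ≤ qq U p :=
  ev_mem.mono fun p hp => by
    unfold qq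
    have := sub_nonneg.2 hp.2.2
    positivity

lemma h_tendsto : Tendsto (fun p : ℝ × ℝ => p.2 - p.1) (FF σ τ) (𝓝 0) :=
  tendsto_comap.mono_left inf_le_left

lemma inc_tendsto {f : ℝ → ℝ} (hf : ContinuousOn f (Icc σ τ)) :
    Tendsto (fun p : ℝ × ℝ => f p.2 - f p.1) (FF σ τ) (𝓝 0) := by
  have hu := isCompact_Icc.uniformContinuousOn_of_continuous hf
  rw [Metric.uniformContinuousOn_iff_le] at hu
  rw [Metric.tendsto_nhds]
  intro ε hε
  obtain ⟨δ, hδ, H⟩ := hu (ε / 2) (half_pos hε)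
  refine ev_iff.2 ⟨δ, hδ, fun s hs t ht hst hh => ?_⟩
  have := H t ht s hs (by rw [Real.dist_eq, abs_of_nonneg (sub_nonneg.2 hst)]; exact hh)
  rw [Real.dist_eq] at this
  simp only [Real.dist_eq, sub_zero]
  linarith

lemma h_isBigO : (fun p : ℝ × ℝ => p.2 - p.1) =O[FF σ τ] qq U := by
  refine IsBigO.of_bound 1 (ev_mem.mono fun p hp => ?_)
  have h1 := sub_nonneg.2 hp.2.2
  have h2 := sq_nonneg (U p.2 - U p.1)
  unfold qq
  rw [Real.norm_eq_abs, Real.norm_eq_abs, abs_of_nonneg h1, abs_of_nonneg (by positivity)]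
  linarith

lemma sq_isBigO : (fun p : ℝ × ℝ => (U p.2 - U p.1) ^ 2) =O[FF σ τ] qq U := by
  refine IsBigO.of_bound 1 (ev_mem.mono fun p hp => ?_)
  have h1 := sub_nonneg.2 hp.2.2
  have h2 := sq_nonneg (U p.2 - U p.1)
  unfold qq
  rw [Real.norm_eq_abs, Real.norm_eq_abs, abs_of_nonneg h2, abs_of_nonneg (by positivity)]
  linarith

lemma qq_tendsto (hU : ContinuousOn U (Icc σ τ)) : Tendsto (qq U) (FF σ τ) (𝓝 0) := by
  have h1 := (h_tendsto (σ := σ) (τ := τ)).add ((inc_tendsto hU).pow 2)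
  rw [show (0 : ℝ) + 0 ^ 2 = 0 by simp] at h1
  exact h1

lemma bdd_isBigO {A : ℝ → ℝ} (hA : Bdd σ τ A) :
    (fun p : ℝ × ℝ => A p.1) =O[FF σ τ] (fun _ => (1 : ℝ)) := by
  obtain ⟨C, hC⟩ := hA
  refine IsBigO.of_bound C (ev_mem.mono fun p hp => ?_)
  simpa using hC p.1 hp.1

/-! ### bounded functions -/

lemma bdd_const (c : ℝ) : Bdd σ τ (fun _ => c) := ⟨|c|, fun _ _ => le_rfl⟩

lemma bdd_cont {f : ℝ → ℝ} (hf : ContinuousOn f (Icc σ τ)) : Bdd σ τ f := by
  obtain ⟨C, hC⟩ := isCompact_Icc.exists_bound_of_continuousOn hf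
  exact ⟨C, fun s hs => by simpa using hC s hs⟩

lemma bdd_add {f g : ℝ → ℝ} (hf : Bdd σ τ f) (hg : Bdd σ τ g) : Bdd σ τ (fun s => f s + g s) := by
  obtain ⟨C, hC⟩ := hf
  obtain ⟨C', hC'⟩ := hg
  exact ⟨C + C', fun s hs => (abs_add_le _ _).trans (add_le_add (hC s hs) (hC' s hs))⟩

lemma bdd_mul {f g : ℝ → ℝ} (hf : Bdd σ τ f) (hg : Bdd σ τ g) : Bdd σ τ (fun s => f s * g s) := by
  obtain ⟨C, hC⟩ := hf
  obtain ⟨C', hC'⟩ := hg
  refine ⟨C * C', fun s hs => ?_⟩
  rw [abs_mul]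
  exact mul_le_mul (hC s hs) (hC' s hs) (abs_nonneg _) ((abs_nonneg _).trans (hC s hs))

lemma bdd_neg {f : ℝ → ℝ} (hf : Bdd σ τ f) : Bdd σ τ (fun s => -f s) := by
  obtain ⟨C, hC⟩ := hf
  exact ⟨C, fun s hs => by rw [abs_neg]; exact hC s hs⟩

lemma bdd_sq {f : ℝ → ℝ} (hf : Bdd σ τ f) : Bdd σ τ (fun s => f s ^ 2) := by
  have := bdd_mul hf hf
  simpa only [sq] using this

lemma bdd_congr {f g : ℝ → ℝ} (hf : Bdd σ τ f) (h : EqOn f g (Icc σ τ)) : Bdd σ τ g := by
  obtain ⟨C, hC⟩ := hf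
  exact ⟨C, fun s hs => by rw [← h hs]; exact hC s hs⟩

/-! ### little-o forms of the two predicates -/

lemma ustep_of_le {N A B D : ℝ → ℝ} (hN : ContinuousOn N (Icc σ τ)) (hA : Bdd σ τ A)
    (hB : Bdd σ τ B) (hD : Bdd σ τ D) {r : ℝ × ℝ → ℝ} (hr : r =o[FF σ τ] qq U)
    (h : ∀ᶠ p in FF σ τ, N p.2 - N p.1 ≤ mn U A B D p + r p) : UStep U σ τ N A B D := by
  refine ⟨hN, hA, hB, hD, fun ε hε => ?_⟩
  have h1 : ∀ᶠ p in FF σ τ, N p.2 - N p.1 ≤ mn U A B D p + ε * qq U p := by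
    filter_upwards [h, hr.bound hε, qq_nonneg (U := U)] with p h1 h2 h3
    rw [Real.norm_eq_abs, Real.norm_eq_abs, abs_of_nonneg h3] at h2
    linarith [le_abs_self (r p)]
  exact ev_iff.1 h1

lemma exists_rem_of {f g : ℝ × ℝ → ℝ}
    (H : ∀ ε : ℝ, 0 < ε → ∀ᶠ p in FF σ τ, f p ≤ g p + ε * qq U p) :
    ∃ r : ℝ × ℝ → ℝ, r =o[FF σ τ] qq U ∧ ∀ p, f p ≤ g p + r p := by
  refine ⟨fun p => max (f p - g p) 0, ?_, fun p => ?_⟩
  · refine IsLittleO.of_bound fun ε hε => ?_
    filter_upwards [H ε hε, qq_nonneg (U := U)] with p h1 h2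
    rw [Real.norm_eq_abs, Real.norm_eq_abs, abs_of_nonneg h2, abs_of_nonneg (le_max_right _ _)]
    exact max_le (by linarith) (by positivity)
  · linarith [le_max_left (f p - g p) 0]

lemma ustep_ev {N A B D : ℝ → ℝ} (h : UStep U σ τ N A B D) (ε : ℝ) (hε : 0 < ε) :
    ∀ᶠ p in FF σ τ, N p.2 - N p.1 ≤ mn U A B D p + ε * qq U p :=
  ev_iff.2 (h.step ε hε)

lemma ustep_rem {N A B D : ℝ → ℝ} (h : UStep U σ τ N A B D) :
    ∃ r : ℝ × ℝ → ℝ, r =o[FF σ τ] qq U ∧ ∀ p, N p.2 - N p.1 ≤ mn U A B D p + r p :=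
  exists_rem_of (f := fun p => N p.2 - N p.1) (ustep_ev h)

lemma ito_rem {N A B D : ℝ → ℝ} (h : Ito U σ τ N A B D) :
    (fun p : ℝ × ℝ => N p.2 - N p.1 - mn U A B D p) =o[FF σ τ] qq U := by
  refine IsLittleO.of_bound fun ε hε => ?_
  filter_upwards [ustep_ev h.1 ε hε, ustep_ev h.2 ε hε, qq_nonneg (U := U)] with p h1 h2 h3
  rw [Real.norm_eq_abs, Real.norm_eq_abs, abs_of_nonneg h3, abs_le]
  unfold mn at h1 h2 ⊢
  constructor <;> nlinarith

lemma ito_of_rem {N A B D : ℝ → ℝ} (hN : ContinuousOn N (Icc σ τ)) (hA : Bdd σ τ A)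
    (hB : Bdd σ τ B) (hD : Bdd σ τ D)
    (hr : (fun p : ℝ × ℝ => N p.2 - N p.1 - mn U A B D p) =o[FF σ τ] qq U) :
    Ito U σ τ N A B D := by
  refine ⟨ustep_of_le hN hA hB hD hr (Eventually.of_forall fun p => le_of_eq (by ring)), ?_⟩
  refine ustep_of_le hN.neg (bdd_neg hA) (bdd_neg hB) (bdd_neg hD) hr.neg_left
    (Eventually.of_forall fun p => le_of_eq ?_)
  unfold mn
  ring

/-! ### the core estimates -/

lemma core_sub {A B D : ℝ → ℝ} (hB : Bdd σ τ B) (hD : Bdd σ τ D) {x : ℝ × ℝ → ℝ}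
    (hx : (fun p => x p - mn U A B D p) =o[FF σ τ] qq U) :
    (fun p => x p - A p.1 * (U p.2 - U p.1)) =O[FF σ τ] qq U := by
  have h1 : (fun p : ℝ × ℝ => B p.1 * (U p.2 - U p.1) ^ 2) =O[FF σ τ] qq U := by
    simpa using (bdd_isBigO hB).mul (sq_isBigO (U := U))
  have h2 : (fun p : ℝ × ℝ => D p.1 * (p.2 - p.1)) =O[FF σ τ] qq U := by
    simpa using (bdd_isBigO hD).mul (h_isBigO (U := U))
  refine ((hx.isBigO.add (h1.const_mul_left (1 / 2))).add h2).congr_left fun p => ?_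
  unfold mn
  ring

lemma lin_isLittleO (hU : ContinuousOn U (Icc σ τ)) {A : ℝ → ℝ} (hA : Bdd σ τ A) :
    (fun p : ℝ × ℝ => A p.1 * (U p.2 - U p.1)) =o[FF σ τ] (fun _ => (1 : ℝ)) := by
  have h1 : (fun p : ℝ × ℝ => U p.2 - U p.1) =o[FF σ τ] (fun _ => (1 : ℝ)) :=
    (isLittleO_one_iff ℝ).2 (inc_tendsto hU)
  simpa using (bdd_isBigO hA).mul_isLittleO h1

lemma core_small (hU : ContinuousOn U (Icc σ τ)) {A B D : ℝ → ℝ} (hA : Bdd σ τ A)
    (hB : Bdd σ τ B) (hD : Bdd σ τ D) {x : ℝ × ℝ → ℝ}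
    (hx : (fun p => x p - mn U A B D p) =o[FF σ τ] qq U) :
    x =o[FF σ τ] (fun _ => (1 : ℝ)) := by
  have h1 : (qq U) =o[FF σ τ] (fun _ => (1 : ℝ)) := (isLittleO_one_iff ℝ).2 (qq_tendsto hU)
  refine (((core_sub hB hD hx).trans_isLittleO h1).add (lin_isLittleO hU hA)).congr_left
    fun p => ?_
  ring

lemma core_mul (hU : ContinuousOn U (Icc σ τ)) {A B D A' B' D' : ℝ → ℝ} (hA : Bdd σ τ A)
    (hB : Bdd σ τ B) (hD : Bdd σ τ D) (hA' : Bdd σ τ A') (hB' : Bdd σ τ B') (hD' : Bdd σ τ D')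
    {x x' : ℝ × ℝ → ℝ} (hx : (fun p => x p - mn U A B D p) =o[FF σ τ] qq U)
    (hx' : (fun p => x' p - mn U A' B' D' p) =o[FF σ τ] qq U) :
    (fun p => x p * x' p - A p.1 * A' p.1 * (U p.2 - U p.1) ^ 2) =o[FF σ τ] qq U := by
  have h1 : (fun p => (x p - A p.1 * (U p.2 - U p.1)) * x' p) =o[FF σ τ] qq U := by
    simpa using (core_sub hB hD hx).mul_isLittleO (core_small hU hA' hB' hD' hx')
  have h2 : (fun p => (A p.1 * (U p.2 - U p.1)) * (x' p - A' p.1 * (U p.2 - U p.1)))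
      =o[FF σ τ] qq U := by
    simpa using (lin_isLittleO hU hA).mul_isBigO (core_sub hB' hD' hx')
  refine (h1.add h2).congr_left fun p => ?_
  ring

lemma core_sq_isBigO (hU : ContinuousOn U (Icc σ τ)) {A B D : ℝ → ℝ} (hA : Bdd σ τ A)
    (hB : Bdd σ τ B) (hD : Bdd σ τ D) {x : ℝ × ℝ → ℝ}
    (hx : (fun p => x p - mn U A B D p) =o[FF σ τ] qq U) :
    (fun p => x p ^ 2) =O[FF σ τ] qq U := by
  have h1 := (core_mul hU hA hB hD hA hB hD hx hx).isBigO
  have h2 : (fun p : ℝ × ℝ => A p.1 * A p.1 * (U p.2 - U p.1) ^ 2) =O[FF σ τ] qq U := by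
    simpa using (bdd_isBigO (bdd_mul hA hA)).mul (sq_isBigO (U := U))
  refine (h1.add h2).congr_left fun p => ?_
  ring

lemma bdd_mul_isLittleO {c : ℝ → ℝ} (hc : Bdd σ τ c) {r : ℝ × ℝ → ℝ}
    (hr : r =o[FF σ τ] qq U) : (fun p => c p.1 * r p) =o[FF σ τ] qq U := by
  simpa using (bdd_isBigO hc).mul_isLittleO hr

/-- the product expansion. -/
lemma prod_core (hU : ContinuousOn U (Icc σ τ)) {N A B D N' A' B' D' : ℝ → ℝ}
    (hN : Bdd σ τ N) (hA : Bdd σ τ A) (hB : Bdd σ τ B) (hD : Bdd σ τ D)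
    (hN' : Bdd σ τ N') (hA' : Bdd σ τ A') (hB' : Bdd σ τ B') (hD' : Bdd σ τ D')
    {x x' : ℝ × ℝ → ℝ} (hx : (fun p => x p - mn U A B D p) =o[FF σ τ] qq U)
    (hx' : (fun p => x' p - mn U A' B' D' p) =o[FF σ τ] qq U) :
    (fun p => (N p.1 + x p) * (N' p.1 + x' p) - N p.1 * N' p.1 -
      mn U (fun s => A s * N' s + N s * A' s) (fun s => B s * N' s + 2 * A s * A' s + N s * B' s)
        (fun s => D s * N' s + N s * D' s) p) =o[FF σ τ] qq U := by
  have h1 := core_mul hU hA hB hD hA' hB' hD' hx hx'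
  have h2 := bdd_mul_isLittleO hN' hx
  have h3 := bdd_mul_isLittleO hN hx'
  refine ((h1.add h2).add h3).congr_left fun p => ?_
  unfold mn
  ring

end Step

end Pool.Agent.MP_990230_pr

end
end MrgPart0

-- ======== part 1: formerly Pool.Agent.MP_990230_pr.Step
section MrgPart1

/-!
# STEP: calculus of pathwise steps
-/

open Set Filter Asymptotics
open scoped Topology

noncomputable section

namespace Pool.Agent.MP_990230_pr

namespace Step

variable {U : ℝ → ℝ} {σ τ : ℝ}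

/-- second-order Taylor formula, uniform over a compact subset of an open set. -/
lemma taylor_unif {K S : Set ℝ} (hK : IsCompact K) (hS : IsOpen S) (hKS : K ⊆ S)
    {φ φ1 φ2 : ℝ → ℝ} (h1 : ∀ x ∈ S, HasDerivAt φ (φ1 x) x) (h2 : ∀ x ∈ S, HasDerivAt φ1 (φ2 x) x)
    (h3 : ContinuousOn φ2 S) (ε : ℝ) (hε : 0 < ε) :
    ∃ δ : ℝ, 0 < δ ∧ ∀ y ∈ K, ∀ x : ℝ, |x| ≤ δ →
      y + x ∈ S ∧ |φ (y + x) - φ y - φ1 y * x - φ2 y / 2 * x ^ 2| ≤ ε * x ^ 2 := by
  obtain ⟨δ0, hδ0, hsub⟩ := hK.exists_cthickening_subset_open hS hKS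
  have hc : IsCompact (Metric.cthickening δ0 K) := hK.cthickening
  have hu := hc.uniformContinuousOn_of_continuous (h3.mono hsub)
  rw [Metric.uniformContinuousOn_iff_le] at hu
  obtain ⟨δ1, hδ1, H⟩ := hu ε hε
  refine ⟨min δ0 δ1, lt_min hδ0 hδ1, fun y hy x hx => ?_⟩
  have hmem : ∀ u : ℝ, |u| ≤ |x| → y + u ∈ Metric.cthickening δ0 K := fun u hu =>
    Metric.mem_cthickening_of_dist_le (y + u) y δ0 K hy (by
      rw [Real.dist_eq, add_sub_cancel_left]
      exact hu.trans (hx.trans (min_le_left _ _)))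
  have hball : ∀ u ∈ Metric.closedBall (0 : ℝ) |x|, |u| ≤ |x| := fun u hu => by
    rwa [Metric.mem_closedBall, Real.dist_eq, sub_zero] at hu
  have h0 : (0 : ℝ) ∈ Metric.closedBall (0 : ℝ) |x| := Metric.mem_closedBall_self (abs_nonneg x)
  have hx' : x ∈ Metric.closedBall (0 : ℝ) |x| := by
    rw [Metric.mem_closedBall, Real.dist_eq, sub_zero]
  refine ⟨hsub (hmem x le_rfl), ?_⟩
  have hg : ∀ u ∈ Metric.closedBall (0 : ℝ) |x|,
      |φ1 (y + u) - φ1 y - φ2 y * u| ≤ ε * |x| := by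
    intro u hu
    have hd : ∀ v ∈ Metric.closedBall (0 : ℝ) |x|,
        HasDerivWithinAt (fun v => φ1 (y + v) - φ1 y - φ2 y * v) (φ2 (y + v) - φ2 y)
          (Metric.closedBall (0 : ℝ) |x|) v := by
      intro v hv
      have a1 : HasDerivAt (fun v => φ1 (y + v)) (φ2 (y + v)) v :=
        (h2 (y + v) (hsub (hmem v (hball v hv)))).comp_const_add y v
      have a2 : HasDerivAt (fun v => φ2 y * v) (φ2 y) v := by
        simpa using (hasDerivAt_id v).const_mul (φ2 y)
      exact ((a1.sub_const (φ1 y)).sub a2).hasDerivWithinAt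
    have hb : ∀ v ∈ Metric.closedBall (0 : ℝ) |x|, ‖φ2 (y + v) - φ2 y‖ ≤ ε := by
      intro v hv
      have := H (y + v) (hmem v (hball v hv)) y (Metric.self_subset_cthickening K hy) (by
        rw [Real.dist_eq, add_sub_cancel_left]
        exact (hball v hv).trans (hx.trans (min_le_right _ _)))
      rwa [Real.dist_eq] at this
    have := (convex_closedBall (0 : ℝ) |x|).norm_image_sub_le_of_norm_hasDerivWithin_le hd hb h0 hu
    simp only [add_zero, sub_self, mul_zero, sub_zero, Real.norm_eq_abs] at this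
    exact this.trans (mul_le_mul_of_nonneg_left (hball u hu) hε.le)
  have hd : ∀ v ∈ Metric.closedBall (0 : ℝ) |x|,
      HasDerivWithinAt (fun v => φ (y + v) - φ y - φ1 y * v - φ2 y / 2 * v ^ 2)
        (φ1 (y + v) - φ1 y - φ2 y * v) (Metric.closedBall (0 : ℝ) |x|) v := by
    intro v hv
    have a1 : HasDerivAt (fun v => φ (y + v)) (φ1 (y + v)) v :=
      (h1 (y + v) (hsub (hmem v (hball v hv)))).comp_const_add y v
    have a2 : HasDerivAt (fun v => φ1 y * v) (φ1 y) v := by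
      simpa using (hasDerivAt_id v).const_mul (φ1 y)
    have a3 : HasDerivAt (fun v : ℝ => φ2 y / 2 * v ^ 2) (φ2 y * v) v := by
      refine ((hasDerivAt_pow 2 v).const_mul (φ2 y / 2)).congr_deriv ?_
      simp
      ring
    exact (((a1.sub_const (φ y)).sub a2).sub a3).hasDerivWithinAt
  have := (convex_closedBall (0 : ℝ) |x|).norm_image_sub_le_of_norm_hasDerivWithin_le hd
    (fun v hv => by rw [Real.norm_eq_abs]; exact hg v hv) h0 hx'
  simp only [add_zero, sub_self, mul_zero, sub_zero, Real.norm_eq_abs, ne_eq, OfNat.ofNat_ne_zero,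
    not_false_eq_true, zero_pow] at this
  calc _ ≤ ε * |x| * |x| := this
    _ = ε * x ^ 2 := by rw [mul_assoc, abs_mul_abs_self, sq]

/-- the composition expansion. -/
lemma comp_core (hU : ContinuousOn U (Icc σ τ)) {N A B D φ φ1 φ2 : ℝ → ℝ} {S : Set ℝ}
    (hN : ContinuousOn N (Icc σ τ)) (hA : Bdd σ τ A) (hB : Bdd σ τ B) (hD : Bdd σ τ D)
    (hS : IsOpen S) (hm : MapsTo N (Icc σ τ) S) (h1 : ∀ x ∈ S, HasDerivAt φ (φ1 x) x)
    (h2 : ∀ x ∈ S, HasDerivAt φ1 (φ2 x) x) (h3 : ContinuousOn φ2 S)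
    {x : ℝ × ℝ → ℝ} (hx : (fun p => x p - mn U A B D p) =o[FF σ τ] qq U) :
    (∀ᶠ p in FF σ τ, N p.1 + x p ∈ S) ∧
    (fun p => φ (N p.1 + x p) - φ (N p.1) - mn U (fun s => φ1 (N s) * A s)
      (fun s => φ1 (N s) * B s + φ2 (N s) * A s ^ 2) (fun s => φ1 (N s) * D s) p)
      =o[FF σ τ] qq U := by
  have hK : IsCompact (N '' Icc σ τ) := isCompact_Icc.image_of_continuousOn hN
  have hKS : N '' Icc σ τ ⊆ S := hm.image_subset
  have hx0 : Tendsto x (FF σ τ) (𝓝 0) := (isLittleO_one_iff ℝ).1 (core_small hU hA hB hD hx)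
  have hsmall : ∀ δ : ℝ, 0 < δ → ∀ᶠ p in FF σ τ, |x p| ≤ δ := fun δ hδ => by
    filter_upwards [(Metric.tendsto_nhds.1 hx0) δ hδ] with p hp
    rw [Real.dist_eq, sub_zero] at hp
    exact hp.le
  have c1 : ContinuousOn φ1 S := fun y hy => (h2 y hy).continuousAt.continuousWithinAt
  have b1 : Bdd σ τ (fun s => φ1 (N s)) := bdd_cont (c1.comp hN hm)
  have b2 : Bdd σ τ (fun s => φ2 (N s) / 2) := bdd_cont ((h3.comp hN hm).div_const 2)
  constructor
  · obtain ⟨δ, hδ, H⟩ := taylor_unif hK hS hKS h1 h2 h3 1 one_pos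
    filter_upwards [hsmall δ hδ, ev_mem] with p hp hq
    exact (H _ (mem_image_of_mem N hq.1) _ hp).1
  · have t1 : (fun p => φ (N p.1 + x p) - φ (N p.1) - φ1 (N p.1) * x p - φ2 (N p.1) / 2 * x p ^ 2)
        =o[FF σ τ] (fun p => x p ^ 2) := by
      refine IsLittleO.of_bound fun ε hε => ?_
      obtain ⟨δ, hδ, H⟩ := taylor_unif hK hS hKS h1 h2 h3 ε hε
      filter_upwards [hsmall δ hδ, ev_mem] with p hp hq
      rw [Real.norm_eq_abs, Real.norm_eq_abs, abs_of_nonneg (sq_nonneg (x p))]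
      exact (H _ (mem_image_of_mem N hq.1) _ hp).2
    have t2 := t1.trans_isBigO (core_sq_isBigO hU hA hB hD hx)
    have t3 := bdd_mul_isLittleO b1 hx
    have t4 := bdd_mul_isLittleO b2 (core_mul hU hA hB hD hA hB hD hx hx)
    refine ((t2.add t3).add t4).congr_left fun p => ?_
    unfold mn
    ring

lemma r_congr {N A B D N' A' B' D' : ℝ → ℝ} (h : UStep U σ τ N A B D)
    (hN : EqOn N N' (Icc σ τ)) (hA : EqOn A A' (Icc σ τ)) (hB : ∀ s ∈ Icc σ τ, B s ≤ B' s)
    (hD : ∀ s ∈ Icc σ τ, D s ≤ D' s) (bB : Bdd σ τ B') (bD : Bdd σ τ D') :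
    UStep U σ τ N' A' B' D' := by
  refine ⟨h.cont.congr hN.symm, bdd_congr h.bA hA, bB, bD, fun ε hε => ?_⟩
  obtain ⟨k, hk, H⟩ := h.step ε hε
  refine ⟨k, hk, fun s hs t ht hst hh => ?_⟩
  have e1 := H s hs t ht hst hh
  rw [← hN hs, ← hN ht, ← hA hs]
  have e2 := mul_le_mul_of_nonneg_right (hB s hs) (sq_nonneg (U t - U s))
  have e3 := mul_le_mul_of_nonneg_right (hD s hs) (sub_nonneg.2 hst)
  linarith

lemma r_ito_congr {N A B D N' A' B' D' : ℝ → ℝ} (h : Ito U σ τ N A B D)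
    (hN : EqOn N N' (Icc σ τ)) (hA : EqOn A A' (Icc σ τ)) (hB : EqOn B B' (Icc σ τ))
    (hD : EqOn D D' (Icc σ τ)) : Ito U σ τ N' A' B' D' := by
  refine ⟨r_congr h.1 hN hA (fun s hs => (hB hs).le) (fun s hs => (hD hs).le)
    (bdd_congr h.1.bB hB) (bdd_congr h.1.bD hD), ?_⟩
  refine r_congr h.2 (fun s hs => ?_) (fun s hs => ?_) (fun s hs => ?_) (fun s hs => ?_)
    (bdd_neg (bdd_congr h.1.bB hB)) (bdd_neg (bdd_congr h.1.bD hD))
  · simp only [hN hs]
  · simp only [hA hs]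
  · simp only [hB hs, le_refl]
  · simp only [hD hs, le_refl]

lemma r_of_deriv {N D : ℝ → ℝ} (hd : ∀ s ∈ Icc σ τ, HasDerivWithinAt N (D s) (Icc σ τ) s)
    (hD : ContinuousOn D (Icc σ τ)) : Ito U σ τ N (fun _ => 0) (fun _ => 0) D := by
  refine ito_of_rem (fun s hs => (hd s hs).continuousWithinAt) (bdd_const 0) (bdd_const 0)
    (bdd_cont hD) ?_
  refine IsLittleO.trans_isBigO ?_ (h_isBigO (U := U))
  refine IsLittleO.of_bound fun ε hε => ?_
  have hu := isCompact_Icc.uniformContinuousOn_of_continuous hD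
  rw [Metric.uniformContinuousOn_iff_le] at hu
  obtain ⟨δ, hδ, H⟩ := hu ε hε
  refine ev_iff.2 ⟨δ, hδ, fun s hs t ht hst hh => ?_⟩
  have hsub : Icc s t ⊆ Icc σ τ := Icc_subset_Icc hs.1 ht.2
  have hd' : ∀ v ∈ Icc s t, HasDerivWithinAt (fun v => N v - D s * v) (D v - D s) (Icc s t) v := by
    intro v hv
    have a2 : HasDerivAt (fun v => D s * v) (D s) v := by
      simpa using (hasDerivAt_id v).const_mul (D s)
    exact ((hd v (hsub hv)).mono hsub).sub a2.hasDerivWithinAt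
  have hb : ∀ v ∈ Icc s t, ‖D v - D s‖ ≤ ε := by
    intro v hv
    have := H v (hsub hv) s hs (by
      rw [Real.dist_eq, abs_of_nonneg (sub_nonneg.2 hv.1)]
      linarith [hv.2])
    rwa [Real.dist_eq] at this
  have := (convex_Icc s t).norm_image_sub_le_of_norm_hasDerivWithin_le hd' hb
    (left_mem_Icc.2 hst) (right_mem_Icc.2 hst)
  have e : N t - N s - mn U (fun _ => 0) (fun _ => 0) D (s, t)
      = N t - D s * t - (N s - D s * s) := by
    unfold mn
    ring
  show ‖N t - N s - mn U (fun _ => 0) (fun _ => 0) D (s, t)‖ ≤ ε * ‖t - s‖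
  rw [e]
  exact this

lemma r_const (c : ℝ) : Ito U σ τ (fun _ => c) (fun _ => 0) (fun _ => 0) (fun _ => 0) :=
  r_of_deriv (fun s _ => hasDerivWithinAt_const s _ c) continuousOn_const

lemma r_drv (hU : ContinuousOn U (Icc σ τ)) :
    Ito U σ τ U (fun _ => 1) (fun _ => 0) (fun _ => 0) := by
  refine ito_of_rem hU (bdd_const 1) (bdd_const 0) (bdd_const 0) ?_
  refine (isLittleO_zero (qq U) (FF σ τ)).congr_left fun p => ?_
  unfold mn
  ring

lemma r_add {N A B D N' A' B' D' : ℝ → ℝ} (h : UStep U σ τ N A B D)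
    (h' : UStep U σ τ N' A' B' D') :
    UStep U σ τ (fun s => N s + N' s) (fun s => A s + A' s) (fun s => B s + B' s)
      (fun s => D s + D' s) := by
  obtain ⟨r, hr, H⟩ := ustep_rem h
  obtain ⟨r', hr', H'⟩ := ustep_rem h'
  refine ustep_of_le (h.cont.add h'.cont) (bdd_add h.bA h'.bA) (bdd_add h.bB h'.bB)
    (bdd_add h.bD h'.bD) (hr.add hr') (Eventually.of_forall fun p => ?_)
  have e1 := H p
  have e2 := H' p
  unfold mn at e1 e2 ⊢
  linarith

lemma r_smul (c : ℝ) {N A B D : ℝ → ℝ} (hc : 0 ≤ c) (h : UStep U σ τ N A B D) :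
    UStep U σ τ (fun s => c * N s) (fun s => c * A s) (fun s => c * B s) (fun s => c * D s) := by
  obtain ⟨r, hr, H⟩ := ustep_rem h
  refine ustep_of_le (continuousOn_const.mul h.cont) (bdd_mul (bdd_const c) h.bA)
    (bdd_mul (bdd_const c) h.bB) (bdd_mul (bdd_const c) h.bD) (hr.const_mul_left c)
    (Eventually.of_forall fun p => ?_)
  have e1 := mul_le_mul_of_nonneg_left (H p) hc
  unfold mn at e1 ⊢
  linarith

lemma r_ito_add {N A B D N' A' B' D' : ℝ → ℝ} (h : Ito U σ τ N A B D)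
    (h' : Ito U σ τ N' A' B' D') :
    Ito U σ τ (fun s => N s + N' s) (fun s => A s + A' s) (fun s => B s + B' s)
      (fun s => D s + D' s) := by
  refine ito_of_rem (h.1.cont.add h'.1.cont) (bdd_add h.1.bA h'.1.bA) (bdd_add h.1.bB h'.1.bB)
    (bdd_add h.1.bD h'.1.bD) (((ito_rem h).add (ito_rem h')).congr_left fun p => ?_)
  unfold mn
  ring

lemma r_ito_smul (c : ℝ) {N A B D : ℝ → ℝ} (h : Ito U σ τ N A B D) :
    Ito U σ τ (fun s => c * N s) (fun s => c * A s) (fun s => c * B s) (fun s => c * D s) := by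
  refine ito_of_rem (continuousOn_const.mul h.1.cont) (bdd_mul (bdd_const c) h.1.bA)
    (bdd_mul (bdd_const c) h.1.bB) (bdd_mul (bdd_const c) h.1.bD)
    (((ito_rem h).const_mul_left c).congr_left fun p => ?_)
  unfold mn
  ring

lemma r_ito_sum (n : ℕ) (N A B D : ℕ → ℝ → ℝ)
    (h : ∀ i < n, Ito U σ τ (N i) (A i) (B i) (D i)) :
    Ito U σ τ (fun s => ∑ i ∈ Finset.range n, N i s) (fun s => ∑ i ∈ Finset.range n, A i s)
      (fun s => ∑ i ∈ Finset.range n, B i s) (fun s => ∑ i ∈ Finset.range n, D i s) := by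
  induction n with
  | zero => simpa using r_const (U := U) (σ := σ) (τ := τ) 0
  | succ n ih =>
    simp only [Finset.sum_range_succ]
    exact r_ito_add (ih fun i hi => h i (Nat.lt_succ_of_lt hi)) (h n (Nat.lt_succ_self n))

lemma comp_bdd {N A B D φ1 φ2 : ℝ → ℝ} {S : Set ℝ} (h : UStep U σ τ N A B D)
    (hm : MapsTo N (Icc σ τ) S) (h2 : ∀ x ∈ S, HasDerivAt φ1 (φ2 x) x) (h3 : ContinuousOn φ2 S) :
    Bdd σ τ (fun s => φ1 (N s) * A s) ∧ Bdd σ τ (fun s => φ1 (N s) * B s + φ2 (N s) * A s ^ 2) ∧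
      Bdd σ τ (fun s => φ1 (N s) * D s) := by
  have c1 : ContinuousOn φ1 S := fun y hy => (h2 y hy).continuousAt.continuousWithinAt
  have b1 : Bdd σ τ (fun s => φ1 (N s)) := bdd_cont (c1.comp h.cont hm)
  have b2 : Bdd σ τ (fun s => φ2 (N s)) := bdd_cont (h3.comp h.cont hm)
  exact ⟨bdd_mul b1 h.bA, bdd_add (bdd_mul b1 h.bB) (bdd_mul b2 (bdd_sq h.bA)), bdd_mul b1 h.bD⟩

lemma r_comp (hU : ContinuousOn U (Icc σ τ)) {N A B D φ φ1 φ2 : ℝ → ℝ} {S : Set ℝ}
    (h : UStep U σ τ N A B D) (hS : IsOpen S) (hO : S.OrdConnected) (hm : MapsTo N (Icc σ τ) S)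
    (h1 : ∀ x ∈ S, HasDerivAt φ (φ1 x) x) (h2 : ∀ x ∈ S, HasDerivAt φ1 (φ2 x) x)
    (h3 : ContinuousOn φ2 S) (h4 : ∀ x ∈ S, 0 ≤ φ1 x) :
    UStep U σ τ (fun s => φ (N s)) (fun s => φ1 (N s) * A s)
      (fun s => φ1 (N s) * B s + φ2 (N s) * A s ^ 2) (fun s => φ1 (N s) * D s) := by
  obtain ⟨r, hr, H⟩ := ustep_rem h
  have hx : (fun p => (mn U A B D p + r p) - mn U A B D p) =o[FF σ τ] qq U :=
    hr.congr_left fun p => by ring
  obtain ⟨k1, k2⟩ := comp_core hU h.cont h.bA h.bB h.bD hS hm h1 h2 h3 hx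
  obtain ⟨b1, b2, b3⟩ := comp_bdd h hm h2 h3
  have c0 : ContinuousOn φ S := fun y hy => (h1 y hy).continuousAt.continuousWithinAt
  have hmono : MonotoneOn φ S := by
    refine monotoneOn_of_deriv_nonneg hO.convex c0 (fun y hy => ?_) (fun y hy => ?_)
    · exact (h1 y (interior_subset hy)).differentiableAt.differentiableWithinAt
    · rw [(h1 y (interior_subset hy)).deriv]
      exact h4 y (interior_subset hy)
  refine ustep_of_le (c0.comp h.cont hm) b1 b2 b3 k2 ?_
  filter_upwards [k1, ev_mem] with p hp hq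
  have := hmono (hm hq.2.1) hp (by linarith [H p])
  linarith

lemma r_ito_comp (hU : ContinuousOn U (Icc σ τ)) {N A B D φ φ1 φ2 : ℝ → ℝ} {S : Set ℝ}
    (h : Ito U σ τ N A B D) (hS : IsOpen S) (hm : MapsTo N (Icc σ τ) S)
    (h1 : ∀ x ∈ S, HasDerivAt φ (φ1 x) x) (h2 : ∀ x ∈ S, HasDerivAt φ1 (φ2 x) x)
    (h3 : ContinuousOn φ2 S) :
    Ito U σ τ (fun s => φ (N s)) (fun s => φ1 (N s) * A s)
      (fun s => φ1 (N s) * B s + φ2 (N s) * A s ^ 2) (fun s => φ1 (N s) * D s) := by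
  obtain ⟨-, k2⟩ := comp_core hU h.1.cont h.1.bA h.1.bB h.1.bD hS hm h1 h2 h3 (ito_rem h)
  obtain ⟨b1, b2, b3⟩ := comp_bdd h.1 hm h2 h3
  have c0 : ContinuousOn φ S := fun y hy => (h1 y hy).continuousAt.continuousWithinAt
  refine ito_of_rem (c0.comp h.1.cont hm) b1 b2 b3 (k2.congr_left fun p => ?_)
  simp only [add_sub_cancel]

lemma mul_bdd {N A B D N' A' B' D' : ℝ → ℝ} (h : UStep U σ τ N A B D)
    (h' : UStep U σ τ N' A' B' D') :
    Bdd σ τ (fun s => A s * N' s + N s * A' s) ∧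
      Bdd σ τ (fun s => B s * N' s + 2 * A s * A' s + N s * B' s) ∧
      Bdd σ τ (fun s => D s * N' s + N s * D' s) := by
  have b := bdd_cont h.cont
  have b' := bdd_cont h'.cont
  exact ⟨bdd_add (bdd_mul h.bA b') (bdd_mul b h'.bA),
    bdd_add (bdd_add (bdd_mul h.bB b') (bdd_mul (bdd_mul (bdd_const 2) h.bA) h'.bA))
      (bdd_mul b h'.bB), bdd_add (bdd_mul h.bD b') (bdd_mul b h'.bD)⟩

lemma r_mul (hU : ContinuousOn U (Icc σ τ)) {N A B D N' A' B' D' : ℝ → ℝ}
    (h : UStep U σ τ N A B D) (h' : UStep U σ τ N' A' B' D')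
    (h0 : ∀ s ∈ Icc σ τ, 0 ≤ N s) (h0' : ∀ s ∈ Icc σ τ, 0 ≤ N' s) :
    UStep U σ τ (fun s => N s * N' s) (fun s => A s * N' s + N s * A' s)
      (fun s => B s * N' s + 2 * A s * A' s + N s * B' s) (fun s => D s * N' s + N s * D' s) := by
  obtain ⟨r, hr, H⟩ := ustep_rem h
  obtain ⟨r', hr', H'⟩ := ustep_rem h'
  have hx : (fun p => (mn U A B D p + r p) - mn U A B D p) =o[FF σ τ] qq U :=
    hr.congr_left fun p => by ring
  have hx' : (fun p => (mn U A' B' D' p + r' p) - mn U A' B' D' p) =o[FF σ τ] qq U :=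
    hr'.congr_left fun p => by ring
  have k := prod_core hU (bdd_cont h.cont) h.bA h.bB h.bD (bdd_cont h'.cont) h'.bA h'.bB h'.bD
    hx hx'
  obtain ⟨b1, b2, b3⟩ := mul_bdd h h'
  refine ustep_of_le (h.cont.mul h'.cont) b1 b2 b3 k ?_
  filter_upwards [ev_mem] with p hq
  have e1 : N p.2 ≤ N p.1 + (mn U A B D p + r p) := by linarith [H p]
  have e2 : N' p.2 ≤ N' p.1 + (mn U A' B' D' p + r' p) := by linarith [H' p]
  have e3 := mul_le_mul e1 e2 (h0' _ hq.2.1) ((h0 _ hq.2.1).trans e1)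
  linarith

lemma r_ito_mul (hU : ContinuousOn U (Icc σ τ)) {N A B D N' A' B' D' : ℝ → ℝ}
    (h : Ito U σ τ N A B D) (h' : Ito U σ τ N' A' B' D') :
    Ito U σ τ (fun s => N s * N' s) (fun s => A s * N' s + N s * A' s)
      (fun s => B s * N' s + 2 * A s * A' s + N s * B' s) (fun s => D s * N' s + N s * D' s) := by
  have k := prod_core hU (bdd_cont h.1.cont) h.1.bA h.1.bB h.1.bD (bdd_cont h'.1.cont)
    h'.1.bA h'.1.bB h'.1.bD (ito_rem h) (ito_rem h')
  obtain ⟨b1, b2, b3⟩ := mul_bdd h.1 h'.1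
  refine ito_of_rem (h.1.cont.mul h'.1.cont) b1 b2 b3 (k.congr_left fun p => ?_)
  simp only [add_sub_cancel]

lemma r_touch {N c D' X AX BX DX : ℝ → ℝ} (hX : Ito U σ τ X AX BX DX)
    (hN : ContinuousOn N (Icc σ τ)) (hc : Bdd σ τ c) (hD : Bdd σ τ D')
    (H : ∀ ε : ℝ, 0 < ε → ∃ h : ℝ, 0 < h ∧ ∀ s ∈ Icc σ τ, ∀ t ∈ Icc σ τ, s ≤ t → t - s ≤ h →
      N t - N s ≤ c s * (X t - X s) + D' s * (t - s) + ε * ((t - s) + (U t - U s) ^ 2)) :
    UStep U σ τ N (fun s => c s * AX s) (fun s => c s * BX s) (fun s => c s * DX s + D' s) := by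
  obtain ⟨r, hr, Hr⟩ := exists_rem_of (U := U) (σ := σ) (τ := τ) (f := fun p => N p.2 - N p.1)
    (g := fun p => c p.1 * (X p.2 - X p.1) + D' p.1 * (p.2 - p.1))
    (fun ε hε => ev_iff.2 (H ε hε))
  refine ustep_of_le hN (bdd_mul hc hX.1.bA) (bdd_mul hc hX.1.bB)
    (bdd_add (bdd_mul hc hX.1.bD) hD) (hr.add (bdd_mul_isLittleO hc (ito_rem hX)))
    (Eventually.of_forall fun p => ?_)
  have := Hr p
  unfold mn
  linarith

end Step

open Step in
theorem step_stmt : StepStmt := fun _ _ _ hU =>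
  { congr := fun _ _ _ _ _ _ _ _ h hN hA hB hD bB bD => r_congr h hN hA hB hD bB bD
    ito_congr := fun _ _ _ _ _ _ _ _ h hN hA hB hD => r_ito_congr h hN hA hB hD
    of_deriv := fun _ _ hd hD => r_of_deriv hd hD
    const := r_const
    drv := r_drv hU
    add := fun _ _ _ _ _ _ _ _ h h' => r_add h h'
    smul := fun c _ _ _ _ hc h => r_smul c hc h
    ito_add := fun _ _ _ _ _ _ _ _ h h' => r_ito_add h h'
    ito_smul := fun c _ _ _ _ h => r_ito_smul c h
    ito_sum := r_ito_sum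
    comp := fun _ _ _ _ _ _ _ _ h hS hO hm h1 h2 h3 h4 => r_comp hU h hS hO hm h1 h2 h3 h4
    ito_comp := fun _ _ _ _ _ _ _ _ h hS _ hm h1 h2 h3 => r_ito_comp hU h hS hm h1 h2 h3
    mul := fun _ _ _ _ _ _ _ _ h h' h0 h0' => r_mul hU h h' h0 h0'
    ito_mul := fun _ _ _ _ _ _ _ _ h h' => r_ito_mul hU h h'
    touch := fun _ _ _ _ _ _ _ hX hN hc hD H => r_touch hX hN hc hD H }

end Pool.Agent.MP_990230_pr

end
end MrgPart1

-- ======== part 2: formerly Pool.Agent.MP_990230_pr.PotD2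
section MrgPart2

/-!
# POTD, part 2: the exponential integrals and the core estimate
-/

open Set MeasureTheory Filter
open scoped Topology

noncomputable section

namespace Pool.Agent.MP_990230_pr.PotD

lemma exp_split (ρ x t : ℝ) :
    Real.exp (-ρ * (t - x)) = Real.exp (ρ * x) * Real.exp (-ρ * t) := by
  rw [← Real.exp_add]; congr 1; ring

lemma integ_exp {ρ : ℝ} (hρ : 0 < ρ) (x s : ℝ) :
    IntegrableOn (fun t => Real.exp (-ρ * (t - x))) (Ioi s) := by
  simp_rw [exp_split]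
  exact (integrableOn_exp_mul_Ioi (by linarith : -ρ < 0) s).const_mul _

lemma int_exp {ρ : ℝ} (hρ : 0 < ρ) (x s : ℝ) :
    ∫ t in Ioi s, Real.exp (-ρ * (t - x)) = Real.exp (-ρ * (s - x)) / ρ := by
  simp_rw [exp_split]
  rw [integral_const_mul, integral_exp_mul_Ioi (by linarith : -ρ < 0) s]
  field_simp

/-- the truncated exponential. -/
def phi (ρ β L x t : ℝ) : ℝ :=
  {t | β * Real.exp (-ρ * (t - x)) ≤ L}.indicator
    (fun t => ρ * (β * Real.exp (-ρ * (t - x)))) t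

lemma phi_meas (ρ β L x : ℝ) : MeasurableSet {t | β * Real.exp (-ρ * (t - x)) ≤ L} :=
  measurableSet_le (by fun_prop) measurable_const

lemma phi_nonneg {ρ β : ℝ} (hρ : 0 < ρ) (hβ : 0 ≤ β) (L x t : ℝ) : 0 ≤ phi ρ β L x t :=
  Set.indicator_nonneg (fun s _ => by positivity) t

lemma integ_full {ρ : ℝ} (hρ : 0 < ρ) (β x s : ℝ) :
    IntegrableOn (fun t => ρ * (β * Real.exp (-ρ * (t - x)))) (Ioi s) :=
  ((integ_exp hρ x s).const_mul β).const_mul ρ

lemma int_full {ρ : ℝ} (hρ : 0 < ρ) (β x s : ℝ) :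
    ∫ t in Ioi s, ρ * (β * Real.exp (-ρ * (t - x))) = β * Real.exp (-ρ * (s - x)) := by
  rw [integral_const_mul, integral_const_mul, int_exp hρ]
  field_simp

lemma phi_integ {ρ : ℝ} (hρ : 0 < ρ) (β L x : ℝ) : IntegrableOn (phi ρ β L x) (Ioi x) :=
  (integ_full hρ β x x).indicator (phi_meas ρ β L x)

lemma phi_int {ρ β L : ℝ} (hρ : 0 < ρ) (hβ : 0 ≤ β) (hL : 0 < L) (x : ℝ) :
    ∫ t in Ioi x, phi ρ β L x t ≤ L := by
  have hnn : ∀ t, 0 ≤ ρ * (β * Real.exp (-ρ * (t - x))) := fun t => by positivity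
  have h0 : ∫ t in Ioi x, phi ρ β L x t = ∫ t in Ioi x ∩ {t | β * Real.exp (-ρ * (t - x)) ≤ L},
      ρ * (β * Real.exp (-ρ * (t - x))) := setIntegral_indicator (phi_meas ρ β L x)
  rw [h0]
  rcases le_or_gt β L with h | h
  · calc _ ≤ ∫ t in Ioi x, ρ * (β * Real.exp (-ρ * (t - x))) :=
          setIntegral_mono_set (integ_full hρ β x x) (Eventually.of_forall hnn)
            (Eventually.of_forall inter_subset_left)
      _ = β := by rw [int_full hρ]; simp
      _ ≤ L := h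
  · have hβ0 : 0 < β := by linarith
    set s := x + Real.log (β / L) / ρ with hs
    have hes : β * Real.exp (-ρ * (s - x)) = L := by
      have h1 : -ρ * (s - x) = -Real.log (β / L) := by
        rw [hs]; field_simp; ring
      rw [h1, Real.exp_neg, Real.exp_log (by positivity)]
      field_simp
    have hsub : Ioi x ∩ {t | β * Real.exp (-ρ * (t - x)) ≤ L} ⊆ Ici s := by
      rintro t ⟨_, ht⟩
      replace ht : β * Real.exp (-ρ * (t - x)) ≤ L := ht
      rw [← hes] at ht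
      have h2 := Real.exp_le_exp.1 (le_of_mul_le_mul_left ht hβ0)
      have h3 : ρ * s ≤ ρ * t := by linarith
      exact le_of_mul_le_mul_left h3 hρ
    calc _ ≤ ∫ t in Ici s, ρ * (β * Real.exp (-ρ * (t - x))) :=
          setIntegral_mono_set
            ((integrableOn_Ici_iff_integrableOn_Ioi).2 (integ_full hρ β x s))
            (Eventually.of_forall hnn) (Eventually.of_forall hsub)
      _ = L := by rw [integral_Ici_eq_integral_Ioi, int_full hρ, hes]

lemma Kpow_le {c K : ℝ} (hK : 16 ≤ K) (hcK : c * Real.log K ≤ 1 / 400) :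
    K ^ (2 * c) ≤ 105 / 100 := by
  rw [Real.rpow_def_of_pos (by linarith)]
  have h1 : Real.log K * (2 * c) ≤ 1 / 200 := by linarith
  have h := Real.exp_bound_div_one_sub_of_interval' (x := 1 / 200) (by norm_num) (by norm_num)
  have h2 := Real.exp_le_exp.2 h1
  have h3 : (1 : ℝ) / (1 - 1 / 200) ≤ 105 / 100 := by norm_num
  linarith

/-- far bottom edges. -/
lemma far_bottom {c K R x l : ℝ} (hc : 0 < c) (hc1 : c ≤ 1 / 400) (hK : 16 ≤ K)
    (hcK : c * Real.log K ≤ 1 / 400) (hR : 0 < R) (hX : R ≤ Real.exp x) (hl0 : 0 < l)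
    (hl1 : l ≤ 1) {d p : ℕ → ℝ} {j : ℕ} (hp0 : |p 0| ≤ 1 / R)
    (hfar : 2 * R ≤ d j → |p j| ≤ 2 / d j) (hj : K * Real.exp x / l ^ 2 ≤ d j) :
    bb c K d j x * (p 0 * p j) ≤ l * (21 / 10 / Real.sqrt K / R ^ 2) := by
  have hX0 := Real.exp_pos x
  have hK0 : 0 < K := by linarith
  have hl2 : l ^ 2 ≤ 1 := by nlinarith
  have hl20 : 0 < l ^ 2 := by positivity
  set y := d j * Real.exp (-x) with hy
  have hdy : d j = y * Real.exp x := by
    rw [hy, mul_assoc, ← Real.exp_add]; simp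
  have hy1 : K / l ^ 2 ≤ y := by
    rw [hdy, mul_div_right_comm] at hj
    exact le_of_mul_le_mul_right hj hX0
  have hy2 : K ≤ y := le_trans (by rw [le_div_iff₀ hl20]; nlinarith) hy1
  have hy0 : 0 < y := by linarith
  have hd2 : y * R ≤ d j := by rw [hdy]; nlinarith
  have hpj := hfar (by nlinarith)
  set s := Real.sqrt y with hs
  have hs0 : 0 < s := Real.sqrt_pos.2 hy0
  have hss : s * s = y := Real.mul_self_sqrt hy0.le
  have hk0 : 0 < Real.sqrt K := Real.sqrt_pos.2 hK0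
  have hks : Real.sqrt K ≤ l * s := by
    have h1 : K ≤ (l * s) ^ 2 := by
      rw [div_le_iff₀ hl20] at hy1
      nlinarith
    exact Real.sqrt_le_iff.2 ⟨by positivity, h1⟩
  have hb : bb c K d j x ≤ 105 / 100 * s := by
    unfold bb
    rw [mul_assoc, ← hy, Real.mul_rpow hK0.le hy0.le]
    have h1 : y ^ (2 * c) ≤ s := by
      rw [hs, Real.sqrt_eq_rpow]
      exact Real.rpow_le_rpow_of_exponent_le (by linarith) (by linarith)
    exact mul_le_mul (Kpow_le hK hcK) h1 (by positivity) (by norm_num)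
  have hb0 : 0 ≤ bb c K d j x := bb_nonneg hK0.le (by nlinarith) x
  have hpp : p 0 * p j ≤ 1 / R * (2 / (y * R)) := by
    have h1 : p 0 * p j ≤ |p 0| * |p j| := by rw [← abs_mul]; exact le_abs_self _
    have h2 : 2 / d j ≤ 2 / (y * R) := div_le_div_of_nonneg_left (by norm_num) (by positivity) hd2
    exact le_trans h1 (mul_le_mul hp0 (le_trans hpj h2) (abs_nonneg _) (by positivity))
  calc bb c K d j x * (p 0 * p j) ≤ bb c K d j x * (1 / R * (2 / (y * R))) :=
        mul_le_mul_of_nonneg_left hpp hb0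
    _ ≤ 105 / 100 * s * (1 / R * (2 / (y * R))) :=
        mul_le_mul_of_nonneg_right hb (by positivity)
    _ = 21 / 10 / R ^ 2 * (1 / s) := by rw [← hss]; field_simp; ring
    _ ≤ 21 / 10 / R ^ 2 * (l / Real.sqrt K) := by
        refine mul_le_mul_of_nonneg_left ?_ (by positivity)
        rw [div_le_div_iff₀ hs0 hk0]
        linarith
    _ = l * (21 / 10 / Real.sqrt K / R ^ 2) := by field_simp

/-- the core estimate. -/
lemma core {η c K a δ R x h e l L E0 ρ g0 : ℝ} (hA : PotA η c K) (hδ : 0 < δ)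
    (hη : η = 3 * δ / 4) (ha : 0 < a) (hc : 0 < c) (hc1 : c ≤ 1 / 400) (hK : 16 ≤ K)
    (hcK : c * Real.log K ≤ 1 / 400) {n : ℕ} {d d' p : ℕ → ℝ} (hn : 1 ≤ n) (hd : GoodD d n)
    (hd' : GoodD d' n) (hR : 0 < R) (hX : R ≤ Real.exp x) (hp0 : |p 0| ≤ 1 / R) (hpn : p n = 0)
    (hfar : ∀ j < n, 2 * R ≤ d j → |p j| ≤ 2 / d j) (hh : 0 ≤ h) (he : 0 ≤ e)
    (hlog : ∀ j, 1 ≤ j → j < n →
      |Real.log (d' j) - Real.log (d j) + a * p 0 * p j * h| ≤ e * h)
    (hsm : ∀ j < n, (a * |p 0| * |p j| + e) * h ≤ 1 / 2)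
    (hl0 : 0 < l) (hl1 : l ≤ 1) (hu : uf η c K d n x = η * l) (hL : 0 < L) (hE0 : 0 ≤ E0)
    (hρ : 0 < ρ) (hg0 : 0 ≤ g0) (J : Finset ℕ) (hJ : ∀ j ∈ J, j < n)
    (H1 : ∀ j < n, j ∉ J → bb c K d j x * (p 0 * p j) ≤ l * g0)
    (H2 : ∀ j < n, ∀ t, x ≤ t → d j < K * Real.exp x / l ^ 2 → bb c K d j t ≤ Real.exp c →
      bb c K d j t ≤ Real.exp c * l * Real.exp (c * (t - x)) →
      bb c K d j t ≤ L ∧ bb c K d j t ≤ E0 * Real.exp (-ρ * (t - x))) :
    Uf η c K d n x - Uf η c K d' n x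
      ≤ h * (a * (η * l) * (g0 + 1 / (K * R ^ 2) + 21 / 10 / Real.sqrt K / R ^ 2)
          + a * η * (3 / 16 * (L * (2 * c * E0 / ρ))) * p 0 ^ 2
          + a * δ * ∑ j ∈ J, (p j - p (j + 1)) ^ 2)
        + e * h * Uf η c K d n x := by
  have hη0 : 0 < η := by rw [hη]; positivity
  have hK0 : 0 < K := by linarith
  have hsK : 0 < Real.sqrt K := Real.sqrt_pos.2 hK0
  have hec := exp_c_le hc hc1
  have hec0 := Real.exp_pos c
  have h1c : 0 < 1 - c := by linarith
  set C1 := a * (η * l) * (12 * c * Real.exp c / (K * R ^ 2)) with hC1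
  set g1 := 21 / 10 / Real.sqrt K / R ^ 2 with hg1
  have hg10 : 0 ≤ g1 := by positivity
  set C2 := 2 * c * (a * (η * l) * (g0 + g1)) with hC2
  set C3 := 2 * c * a * η * E0 * (3 / 16 * L) * p 0 ^ 2 with hC3
  set C4 : ℕ → ℝ := fun j => a * δ / L * (p j - p (j + 1)) ^ 2 with hC4
  have hC10 : 0 ≤ C1 := by positivity
  have hC20 : 0 ≤ C2 := by positivity
  have hC30 : 0 ≤ C3 := by positivity
  have hC40 : ∀ j, 0 ≤ C4 j := fun j => by simp only [hC4]; positivity
  have hbx : ∀ j < n, 0 ≤ bb c K d j x := fun j hj => bb_nonneg hK0.le (d_nonneg hd hj) x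
  set T1 : ℝ → ℝ := fun t => C1 * Real.exp (-(1 - c) * (t - x)) with hT1
  set T2 : ℝ → ℝ := fun t => C2 * Real.exp (-(2 * c) * (t - x)) with hT2
  set T3 : ℝ → ℝ := fun t => C3 * Real.exp (-ρ * (t - x)) with hT3
  set T4 : ℝ → ℝ := fun t => ∑ j ∈ J, C4 j * phi (2 * c) (bb c K d j x) L x t with hT4
  have hT10 : ∀ t, 0 ≤ T1 t := fun t => by simp only [hT1]; positivity
  have hT20 : ∀ t, 0 ≤ T2 t := fun t => by simp only [hT2]; positivity
  have hT30 : ∀ t, 0 ≤ T3 t := fun t => by simp only [hT3]; positivity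
  have hT4t : ∀ t, ∀ j ∈ J, 0 ≤ C4 j * phi (2 * c) (bb c K d j x) L x t := fun t j hj =>
    mul_nonneg (hC40 j) (phi_nonneg (by positivity) (hbx j (hJ j hj)) L x t)
  have hT40 : ∀ t, 0 ≤ T4 t := fun t => Finset.sum_nonneg (hT4t t)
  -- the pointwise bound
  have hpt : ∀ t ∈ Ioi x, uf η c K d n t - uf η c K d' n t
      ≤ h * (T1 t + T2 t + T3 t + T4 t) + e * h * uf η c K d n t := by
    intro t ht
    have hxt : x ≤ t := le_of_lt ht
    have hu0 := hA.nonneg n d t hn hd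
    have a1 := hT10 t
    have a2 := hT20 t
    have a3 := hT30 t
    have a4 := hT40 t
    rcases le_or_gt (uf η c K d n t) (uf η c K d' n t) with hle | hlt
    · have : 0 ≤ h * (T1 t + T2 t + T3 t + T4 t) + e * h * uf η c K d n t := by positivity
      linarith
    obtain ⟨j, hj, hpj, hcase⟩ := pt hη0 hc hc1 hK ha hR hX hxt hd hd' hpn hfar hh he hlog hsm hlt
    have hgr := growth (c := c) hη0 hc hK0.le hd hxt
    rw [hu] at hgr
    have hpp : |p 0| * |p (j + 1)| ≤ 1 / R * (6 * Real.exp (-(t - x)) / (K * R)) :=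
      mul_le_mul hp0 hpj (abs_nonneg _) (by positivity)
    -- the common error term
    have herr : Real.exp c * uf η c K d n t * (2 * c * a * (|p 0| * |p (j + 1)|)) ≤ T1 t := by
      calc Real.exp c * uf η c K d n t * (2 * c * a * (|p 0| * |p (j + 1)|))
          ≤ Real.exp c * (Real.exp (c * (t - x)) * (η * l))
            * (2 * c * a * (1 / R * (6 * Real.exp (-(t - x)) / (K * R)))) := by
            gcongr
        _ = C1 * (Real.exp (c * (t - x)) * Real.exp (-(t - x))) := by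
            rw [hC1]; field_simp; ring
        _ = T1 t := by
            rw [← Real.exp_add]
            simp only [hT1]
            congr 2
            ring
    suffices hs : uf η c K d n t - uf η c K d' n t ≤ e * h * uf η c K d n t
        + h * (T1 t + T2 t + T3 t + T4 t) by linarith
    rcases hcase with ⟨hb1, hb2, hb3⟩ | hb3
    · have hmain : η * bb c K d j t * (2 * c * a * (p 0 * p j)) ≤ T1 t + T2 t + T3 t + T4 t := by
        have hsh := bb_shift (c := c) hK0.le (d_nonneg hd hj) x t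
        have hE := Real.exp_pos (-(2 * c) * (t - x))
        have hT2' : ∀ g, g ≤ g0 + g1 → bb c K d j x * (p 0 * p j) ≤ l * g →
            η * bb c K d j t * (2 * c * a * (p 0 * p j)) ≤ T2 t := by
          intro g hg1' hg2
          have b1 : bb c K d j x * (p 0 * p j) ≤ l * (g0 + g1) :=
            le_trans hg2 (mul_le_mul_of_nonneg_left hg1' hl0.le)
          calc η * bb c K d j t * (2 * c * a * (p 0 * p j))
              = (2 * c * a * η * Real.exp (-(2 * c) * (t - x)))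
                * (bb c K d j x * (p 0 * p j)) := by rw [hsh]; ring
            _ ≤ (2 * c * a * η * Real.exp (-(2 * c) * (t - x))) * (l * (g0 + g1)) :=
                mul_le_mul_of_nonneg_left b1 (by positivity)
            _ = T2 t := by simp only [hT2, hC2]; ring
        by_cases hjJ : j ∈ J
        · rcases le_or_gt (K * Real.exp x / l ^ 2) (d j) with hf | hnear
          · have := hT2' g1 (by linarith)
              (far_bottom hc hc1 hK hcK hR hX hl0 hl1 hp0 (hfar j hj) hf)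
            linarith
          · have hb4 : bb c K d j t ≤ Real.exp c * l * Real.exp (c * (t - x)) := by
              have b1 : η * bb c K d j t
                  ≤ η * (Real.exp c * l * Real.exp (c * (t - x))) := by
                calc η * bb c K d j t ≤ Real.exp c * uf η c K d n t := hb1
                  _ ≤ Real.exp c * (Real.exp (c * (t - x)) * (η * l)) :=
                      mul_le_mul_of_nonneg_left hgr hec0.le
                  _ = _ := by ring
              exact le_of_mul_le_mul_left b1 hη0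
            obtain ⟨hbL, hbE⟩ := H2 j hj t hxt hnear hb2 hb4
            have hbt0 : 0 ≤ bb c K d j t := bb_nonneg hK0.le (d_nonneg hd hj) t
            have hsplit : p 0 * p j ≤ 3 / 16 * L * p 0 ^ 2
                + 4 / (3 * L) * (p j - p (j + 1)) ^ 2 + |p 0| * |p (j + 1)| := by
              have b1 : p 0 * p (j + 1) ≤ |p 0| * |p (j + 1)| := by
                rw [← abs_mul]; exact le_abs_self _
              have b2 : 0 ≤ 4 / (3 * L) * ((p j - p (j + 1)) - 3 / 8 * L * p 0) ^ 2 := by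
                positivity
              have b3 : 4 / (3 * L) * ((p j - p (j + 1)) - 3 / 8 * L * p 0) ^ 2
                  = 4 / (3 * L) * (p j - p (j + 1)) ^ 2 - p 0 * (p j - p (j + 1))
                    + 3 / 16 * L * p 0 ^ 2 := by
                field_simp
                ring
              nlinarith
            have hphi : phi (2 * c) (bb c K d j x) L x t = 2 * c * bb c K d j t := by
              unfold phi
              rw [Set.indicator_of_mem, ← hsh]
              show bb c K d j x * Real.exp (-(2 * c) * (t - x)) ≤ L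
              rw [← hsh]
              exact hbL
            have c3 : η * bb c K d j t * (2 * c * a * (3 / 16 * L * p 0 ^ 2)) ≤ T3 t := by
              calc η * bb c K d j t * (2 * c * a * (3 / 16 * L * p 0 ^ 2))
                  ≤ η * (E0 * Real.exp (-ρ * (t - x))) * (2 * c * a * (3 / 16 * L * p 0 ^ 2)) := by
                    gcongr
                _ = T3 t := by simp only [hT3, hC3]; ring
            have c4 : η * bb c K d j t * (2 * c * a * (4 / (3 * L) * (p j - p (j + 1)) ^ 2))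
                ≤ T4 t := by
              have b1 := Finset.single_le_sum (hT4t t) hjJ
              refine le_trans (le_of_eq ?_) b1
              rw [hphi, hη]
              simp only [hC4]
              field_simp
            have c1 : η * bb c K d j t * (2 * c * a * (|p 0| * |p (j + 1)|)) ≤ T1 t :=
              le_trans (mul_le_mul_of_nonneg_right hb1 (by positivity)) herr
            have c0 : η * bb c K d j t * (2 * c * a * (p 0 * p j))
                ≤ η * bb c K d j t * (2 * c * a * (3 / 16 * L * p 0 ^ 2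
                  + 4 / (3 * L) * (p j - p (j + 1)) ^ 2 + |p 0| * |p (j + 1)|)) := by
              gcongr
            have c5 : η * bb c K d j t * (2 * c * a * (3 / 16 * L * p 0 ^ 2
                  + 4 / (3 * L) * (p j - p (j + 1)) ^ 2 + |p 0| * |p (j + 1)|))
                = η * bb c K d j t * (2 * c * a * (3 / 16 * L * p 0 ^ 2))
                  + η * bb c K d j t * (2 * c * a * (4 / (3 * L) * (p j - p (j + 1)) ^ 2))
                  + η * bb c K d j t * (2 * c * a * (|p 0| * |p (j + 1)|)) := by ring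
            linarith
        · have := hT2' g0 (by linarith) (H1 j hj hjJ)
          linarith
      have := mul_le_mul_of_nonneg_left hmain hh
      linarith
    · have b0 : 0 ≤ Real.exp c * uf η c K d n t * (c * a * (|p 0| * |p (j + 1)|)) := by
        positivity
      have b1 : Real.exp c * uf η c K d n t * (c * a * (|p 0| * |p (j + 1)|))
          ≤ T1 t + T2 t + T3 t + T4 t := by
        have : Real.exp c * uf η c K d n t * (2 * c * a * (|p 0| * |p (j + 1)|))
            = 2 * (Real.exp c * uf η c K d n t * (c * a * (|p 0| * |p (j + 1)|))) := by ring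
        linarith
      have := mul_le_mul_of_nonneg_left b1 hh
      linarith
  -- integrate
  have i1 : IntegrableOn T1 (Ioi x) := (integ_exp h1c x x).const_mul C1
  have i2 : IntegrableOn T2 (Ioi x) := (integ_exp (by positivity : 0 < 2 * c) x x).const_mul C2
  have i3 : IntegrableOn T3 (Ioi x) := (integ_exp hρ x x).const_mul C3
  have i4j : ∀ j ∈ J, Integrable (fun t => C4 j * phi (2 * c) (bb c K d j x) L x t)
      (volume.restrict (Ioi x)) := fun j _ =>
    (phi_integ (by positivity : 0 < 2 * c) _ L x).const_mul (C4 j)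
  have i4 : IntegrableOn T4 (Ioi x) := integrable_finsetSum J i4j
  have iu := hA.integ n d x hn hd
  have iu' := hA.integ n d' x hn hd'
  have e1 : ∫ t in Ioi x, T1 t = C1 / (1 - c) := by
    simp only [hT1]
    rw [integral_const_mul, int_exp h1c]
    simp [div_eq_mul_inv]
  have e2 : ∫ t in Ioi x, T2 t = a * (η * l) * (g0 + g1) := by
    simp only [hT2]
    rw [integral_const_mul, int_exp (by positivity : 0 < 2 * c), hC2]
    simp only [sub_self, mul_zero, Real.exp_zero]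
    field_simp
  have e3 : ∫ t in Ioi x, T3 t = a * η * (3 / 16 * (L * (2 * c * E0 / ρ))) * p 0 ^ 2 := by
    simp only [hT3]
    rw [integral_const_mul, int_exp hρ, hC3]
    simp only [sub_self, mul_zero, Real.exp_zero]
    field_simp
  have e4 : ∫ t in Ioi x, T4 t ≤ a * δ * ∑ j ∈ J, (p j - p (j + 1)) ^ 2 := by
    simp only [hT4]
    rw [integral_finsetSum J i4j, Finset.mul_sum]
    refine Finset.sum_le_sum fun j hj => ?_
    rw [integral_const_mul]
    calc C4 j * ∫ t in Ioi x, phi (2 * c) (bb c K d j x) L x t ≤ C4 j * L :=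
          mul_le_mul_of_nonneg_left (phi_int (by positivity) (hbx j (hJ j hj)) hL x) (hC40 j)
      _ = a * δ * (p j - p (j + 1)) ^ 2 := by
          simp only [hC4]
          field_simp
  have e1' : C1 / (1 - c) ≤ a * (η * l) * (1 / (K * R ^ 2)) := by
    rw [div_le_iff₀ h1c, hC1, mul_assoc (a * (η * l))]
    refine mul_le_mul_of_nonneg_left ?_ (by positivity)
    rw [div_mul_eq_mul_div]
    refine div_le_div_of_nonneg_right ?_ (by positivity)
    nlinarith
  have iG : IntegrableOn (fun t => T1 t + T2 t + T3 t + T4 t) (Ioi x) :=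
    ((i1.add i2).add i3).add i4
  have hmono := setIntegral_mono_on (iu.sub iu') ((iG.const_mul h).add (iu.const_mul (e * h)))
    measurableSet_Ioi hpt
  have eG : ∫ t in Ioi x, (T1 t + T2 t + T3 t + T4 t)
      = (∫ t in Ioi x, T1 t) + (∫ t in Ioi x, T2 t) + (∫ t in Ioi x, T3 t)
        + ∫ t in Ioi x, T4 t := by
    have i12 : IntegrableOn (fun t => T1 t + T2 t) (Ioi x) := i1.add i2
    have i123 : IntegrableOn (fun t => T1 t + T2 t + T3 t) (Ioi x) := i12.add i3
    rw [integral_add i123 i4, integral_add i12 i3, integral_add i1 i2]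
  simp only [Pi.sub_apply, Pi.add_apply] at hmono
  rw [integral_sub iu iu', integral_add (iG.const_mul h) (iu.const_mul (e * h)),
    integral_const_mul, integral_const_mul, eG, e1, e2, e3] at hmono
  have hfin : C1 / (1 - c) + a * (η * l) * (g0 + g1)
      + a * η * (3 / 16 * (L * (2 * c * E0 / ρ))) * p 0 ^ 2 + ∫ t in Ioi x, T4 t
      ≤ a * (η * l) * (g0 + 1 / (K * R ^ 2) + g1)
        + a * η * (3 / 16 * (L * (2 * c * E0 / ρ))) * p 0 ^ 2
        + a * δ * ∑ j ∈ J, (p j - p (j + 1)) ^ 2 := by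
    have : a * (η * l) * (g0 + 1 / (K * R ^ 2) + g1)
        = a * (η * l) * (1 / (K * R ^ 2)) + a * (η * l) * (g0 + g1) := by ring
    linarith
  have := mul_le_mul_of_nonneg_left hfin hh
  unfold Uf
  linarith

end Pool.Agent.MP_990230_pr.PotD

end
end MrgPart2

-- ======== part 3: formerly Pool.Agent.MP_990230_pr.PotD
section MrgPart3

/-!
# POTD: the drift inequality
-/

open Set MeasureTheory Filter
open scoped Topology

noncomputable section

namespace Pool.Agent.MP_990230_pr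

namespace PotD

lemma rpow_le_imp {y l s : ℝ} (hy : 0 ≤ y) (hs : s ≤ 1) (hs0 : 0 < s) (hl : l ≤ 1)
    (h : y ^ s ≤ l) : y ≤ l := by
  rcases le_or_gt y 1 with h1 | h1
  · rcases eq_or_lt_of_le hy with h0 | h0
    · rw [← h0]
      exact le_trans (Real.rpow_nonneg hy s) h
    · have := Real.rpow_le_rpow_of_exponent_ge h0 h1 hs
      rw [Real.rpow_one] at this
      linarith
  · have := Real.one_lt_rpow h1 hs0
    linarith

/-- the minimising edge at the current scale. -/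
lemma caseA_facts {c K R x l : ℝ} (hc : 0 < c) (hc1 : c ≤ 1 / 400) (hK : 16 ≤ K) (hR : 0 < R)
    (hX : R ≤ Real.exp x) (hX2 : Real.exp x ≤ 2 * R) (hl1 : l ≤ 1) {d p : ℕ → ℝ} {n j : ℕ}
    (hd : GoodD d n) (hj : j < n) (hpn : p n = 0)
    (hnear : ∀ j < n, d j ≤ R / 2 → |p j - p 0| ≤ 2 * d j / R ^ 2)
    (hfar : ∀ j < n, 2 * R ≤ d j → |p j| ≤ 2 / d j) (hv : edgeV c K d n j x ≤ l) :
    |p j - p 0| ≤ 4 * l / (K * R) ∧ |p (j + 1)| ≤ 2 * l / (K * R) := by
  have hK0 : 0 < K := by linarith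
  have hdj := d_nonneg hd hj
  have hX0 := Real.exp_pos x
  rw [edge_eq] at hv
  have hb : bb c K d j x ≤ l := le_trans (le_max_left _ _) hv
  have ht : th c K d n j x ≤ l := le_trans (le_max_right _ _) hv
  have hl0 : 0 ≤ l := le_trans (bb_nonneg hK0.le hdj x) hb
  constructor
  · have h1 : K * d j * Real.exp (-x) ≤ l :=
      rpow_le_imp (by positivity) (by linarith) (by positivity) hl1 hb
    rw [Real.exp_neg, ← div_eq_mul_inv, div_le_iff₀ hX0] at h1
    have h2 : K * d j ≤ l * (2 * R) := le_trans h1 (mul_le_mul_of_nonneg_left hX2 hl0)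
    have h3 : d j ≤ R / 2 := by nlinarith
    refine le_trans (hnear j hj h3) ?_
    rw [div_le_div_iff₀ (by positivity) (by positivity)]
    nlinarith
  · by_cases h : j + 1 < n
    · have h0 := hd.2 (j + 1) (by omega) h
      unfold th at ht
      rw [if_pos h] at ht
      have h1 : K * Real.exp x / d (j + 1) ≤ l :=
        rpow_le_imp (by positivity) (by linarith) hc hl1 ht
      rw [div_le_iff₀ h0] at h1
      have h2 : K * R ≤ l * d (j + 1) := le_trans (mul_le_mul_of_nonneg_left hX hK0.le) h1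
      have h3 : 2 * R ≤ d (j + 1) := by nlinarith
      refine le_trans (hfar _ h h3) ?_
      rw [div_le_div_iff₀ h0 (by positivity)]
      nlinarith
    · have : j + 1 = n := by omega
      rw [this, hpn, abs_zero]
      positivity

lemma sq_gap {K R l p0 pj pk : ℝ} (hK : 0 < K) (hR : 0 < R) (hp0 : |p0| ≤ 1 / R)
    (h1 : |pj - p0| ≤ 4 * l / (K * R)) (h2 : |pk| ≤ 2 * l / (K * R)) :
    p0 ^ 2 - (pj - pk) ^ 2 ≤ 12 * l / (K * R ^ 2) := by
  have h3 : |p0 - (pj - pk)| ≤ 6 * l / (K * R) := by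
    have h4 : p0 - (pj - pk) = pk - (pj - p0) := by ring
    rw [h4]
    have h5 := abs_sub pk (pj - p0)
    have h6 : 6 * l / (K * R) = 2 * l / (K * R) + 4 * l / (K * R) := by ring
    linarith
  have h7 : p0 * (p0 - (pj - pk)) ≤ 1 / R * (6 * l / (K * R)) := by
    have h8 : p0 * (p0 - (pj - pk)) ≤ |p0| * |p0 - (pj - pk)| := by
      rw [← abs_mul]; exact le_abs_self _
    exact le_trans h8 (mul_le_mul hp0 h3 (abs_nonneg _) (by positivity))
  have h9 : 12 * l / (K * R ^ 2) = 2 * (1 / R * (6 * l / (K * R))) := by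
    field_simp
    ring
  nlinarith [sq_nonneg (p0 - (pj - pk))]

lemma near_env {c K x t l : ℝ} (hc : 0 < c) (hK : 16 ≤ K) (hl0 : 0 < l) {d : ℕ → ℝ} {j : ℕ}
    (hdj : 0 ≤ d j) (hnear : d j < K * Real.exp x / l ^ 2) :
    bb c K d j t
      ≤ Real.exp (4 * c * Real.log K - 4 * c * Real.log l - 2 * c * (t - x)) := by
  have hK0 : 0 < K := by linarith
  rw [bb_shift hK0.le hdj x t]
  have h1 : K * d j * Real.exp (-x) ≤ Real.exp (2 * Real.log K - 2 * Real.log l) := by
    have h2 : Real.exp (2 * Real.log K - 2 * Real.log l) = K * (K * Real.exp x / l ^ 2)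
        * Real.exp (-x) := by
      rw [Real.exp_sub, two_mul, two_mul, Real.exp_add, Real.exp_add, Real.exp_log hK0,
        Real.exp_log hl0, Real.exp_neg]
      field_simp
    rw [h2]
    gcongr
  have h3 : bb c K d j x ≤ Real.exp (2 * c * (2 * Real.log K - 2 * Real.log l)) := by
    rw [← exp_rpow]
    exact Real.rpow_le_rpow (by positivity) h1 (by positivity)
  calc bb c K d j x * Real.exp (-(2 * c) * (t - x))
      ≤ Real.exp (2 * c * (2 * Real.log K - 2 * Real.log l)) * Real.exp (-(2 * c) * (t - x)) :=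
        mul_le_mul_of_nonneg_right h3 (Real.exp_pos _).le
    _ = _ := by rw [← Real.exp_add]; congr 1; ring

lemma le_exp_mix {b P Q θ : ℝ} (hθ0 : 0 ≤ θ) (hθ1 : θ ≤ 1) (h1 : b ≤ Real.exp P)
    (h2 : b ≤ Real.exp Q) : b ≤ Real.exp (θ * P + (1 - θ) * Q) := by
  rcases le_total P Q with h | h
  · exact le_trans h1 (Real.exp_le_exp.2 (by nlinarith))
  · exact le_trans h2 (Real.exp_le_exp.2 (by nlinarith))

lemma exp_small {y : ℝ} (hy : y ≤ 1 / 80) : Real.exp y ≤ 1013 / 1000 := by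
  have h := Real.exp_bound_div_one_sub_of_interval' (x := 1 / 80) (by norm_num) (by norm_num)
  have h2 := Real.exp_le_exp.2 hy
  have h3 : (1 : ℝ) / (1 - 1 / 80) ≤ 1013 / 1000 := by norm_num
  linarith

lemma err_le {K R : ℝ} (hK : 16 ≤ K) (hR : 0 < R) :
    21 / (K * R ^ 2) + 21 / 10 / Real.sqrt K / R ^ 2 ≤ 30 / Real.sqrt K / R ^ 2 := by
  have hK0 : 0 < K := by linarith
  have hs : 4 ≤ Real.sqrt K := Real.le_sqrt_of_sq_le (by linarith)
  have hss : Real.sqrt K * Real.sqrt K = K := Real.mul_self_sqrt hK0.le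
  set s := Real.sqrt K with hsdef
  have hs0 : 0 < s := by linarith
  have h1 : 21 / (K * R ^ 2) ≤ 6 / s / R ^ 2 := by
    rw [div_div, div_le_div_iff₀ (by positivity) (by positivity), ← hss]
    have : 0 < s * R ^ 2 := by positivity
    nlinarith
  have h2 : 30 / s / R ^ 2 = 6 / s / R ^ 2 + 21 / 10 / s / R ^ 2 + 219 / 10 / s / R ^ 2 := by
    ring
  have h3 : 0 ≤ 219 / 10 / s / R ^ 2 := by positivity
  linarith

end PotD

open PotD in
theorem drift_stmt (hA : PotAStmt) : DriftStmt := by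
  intro η c K a δ hδ hη ha hc hc1 hK hcK n d d' p R x h e hn hd hd' hR hX hX2 hp0 hpn hnear hfar
    hh he hlog hsm
  have hη0 : 0 < η := by rw [hη]; positivity
  have hP := hA η c K hη0 hc hc1 hK
  have hK0 : 0 < K := by linarith
  have hsK : 0 < Real.sqrt K := Real.sqrt_pos.2 hK0
  have hlogK : 0 ≤ Real.log K := Real.log_nonneg (by linarith)
  have hu0 := hP.nonneg n d x hn hd
  have herr := err_le hK hR
  have hδη : δ = 4 / 3 * η := by rw [hη]; ring
  rcases lt_or_ge (uf η c K d n x) η with hlt | hge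
  · -- case A
    obtain ⟨j0, hj0, he0⟩ := exists_edge hη0 c K d n x hlt
    set l := edgeV c K d n j0 x with hl
    have hl1 : l ≤ 1 := by
      by_contra hcon
      push Not at hcon
      nlinarith
    have hlnn : 0 ≤ l := by
      by_contra hcon
      push Not at hcon
      nlinarith
    obtain ⟨f1, f2⟩ := caseA_facts hc hc1 hK hR hX hX2 hl1 hd hj0 hpn hnear hfar (le_of_eq hl.symm)
    have hgap := sq_gap hK0 hR hp0 f1 f2
    have hsum : ∑ j ∈ Finset.range n, (p j - p (j + 1)) ^ 2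
        = (p j0 - p (j0 + 1)) ^ 2 + ∑ j ∈ (Finset.range n).erase j0, (p j - p (j + 1)) ^ 2 :=
      (Finset.add_sum_erase _ _ (Finset.mem_range.2 hj0)).symm
    have hS0 : 0 ≤ ∑ j ∈ (Finset.range n).erase j0, (p j - p (j + 1)) ^ 2 :=
      Finset.sum_nonneg fun j _ => sq_nonneg _
    rcases eq_or_lt_of_le hlnn with hl0 | hl0
    · have hU : Uf η c K d n x = 0 := by
        unfold Uf
        refine setIntegral_eq_zero_of_forall_eq_zero fun t ht => ?_
        have h1 := growth (c := c) hη0 hc hK0.le hd (le_of_lt ht : x ≤ t)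
        rw [he0, ← hl0, mul_zero, mul_zero] at h1
        exact le_antisymm h1 (hP.nonneg n d t hn hd)
      have hU' := hP.Uf_nonneg n d' x hn hd'
      rw [hU, he0, ← hl0, hsum]
      rw [← hl0, mul_zero, zero_div] at hgap
      have h2 : h * (a * δ * (p 0 ^ 2 - ((p j0 - p (j0 + 1)) ^ 2
          + ∑ j ∈ (Finset.range n).erase j0, (p j - p (j + 1)) ^ 2))) ≤ 0 :=
        mul_nonpos_of_nonneg_of_nonpos hh
          (mul_nonpos_of_nonneg_of_nonpos (by positivity) (by linarith))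
      simp only [mul_zero, zero_mul, add_zero]
      linarith
    · have hll : Real.log l ≤ 0 := Real.log_nonpos hlnn hl1
      set α := c + Real.log l with hα
      set β := 4 * c * Real.log K - 4 * c * Real.log l with hβ
      have hcore := core (L := Real.exp (2 / 3 * α + 1 / 3 * β))
        (E0 := Real.exp (2 / 5 * α + 3 / 5 * β)) (ρ := 4 * c / 5)
        (g0 := p 0 ^ 2 + 4 / (K * R ^ 2)) hP hδ hη ha hc hc1 hK hcK hn hd hd' hR hX hp0 hpn hfar
        hh he hlog hsm hl0 hl1 he0 (Real.exp_pos _) (Real.exp_pos _).le (by positivity)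
        (by positivity) ((Finset.range n).erase j0)
        (fun j hj => Finset.mem_range.1 (Finset.mem_of_mem_erase hj))
        (by
          intro j hj hjJ
          have hjj : j = j0 := by
            by_contra hne
            exact hjJ (Finset.mem_erase.2 ⟨hne, Finset.mem_range.2 hj⟩)
          rw [hjj]
          have b0 : 0 ≤ bb c K d j0 x := bb_nonneg hK0.le (d_nonneg hd hj0) x
          have b1 : bb c K d j0 x ≤ l := le_max_left _ _
          have b2 : p 0 * p j0 ≤ p 0 ^ 2 + 4 / (K * R ^ 2) := by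
            have b3 : p 0 * (p j0 - p 0) ≤ |p 0| * |p j0 - p 0| := by
              rw [← abs_mul]; exact le_abs_self _
            have b4 : 4 * l / (K * R) ≤ 4 / (K * R) :=
              div_le_div_of_nonneg_right (by linarith) (by positivity)
            have b5 : |p 0| * |p j0 - p 0| ≤ 1 / R * (4 / (K * R)) :=
              mul_le_mul hp0 (le_trans f1 b4) (abs_nonneg _) (by positivity)
            have b6 : 1 / R * (4 / (K * R)) = 4 / (K * R ^ 2) := by field_simp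
            nlinarith
          calc bb c K d j0 x * (p 0 * p j0) ≤ bb c K d j0 x * (p 0 ^ 2 + 4 / (K * R ^ 2)) :=
                mul_le_mul_of_nonneg_left b2 b0
            _ ≤ l * (p 0 ^ 2 + 4 / (K * R ^ 2)) :=
                mul_le_mul_of_nonneg_right b1 (by positivity))
        (by
          intro j hj t _ hnr _ hb
          have b1 : bb c K d j t ≤ Real.exp (α + c * (t - x)) := by
            rw [hα, Real.exp_add, Real.exp_add, Real.exp_log hl0]
            exact hb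
          have b2 : bb c K d j t ≤ Real.exp (β - 2 * c * (t - x)) :=
            near_env hc hK hl0 (d_nonneg hd hj) hnr
          constructor
          · refine le_trans (le_exp_mix (θ := 2 / 3) (by norm_num) (by norm_num) b1 b2)
              (le_of_eq ?_)
            congr 1
            ring
          · refine le_trans (le_exp_mix (θ := 2 / 5) (by norm_num) (by norm_num) b1 b2)
              (le_of_eq ?_)
            rw [← Real.exp_add]
            congr 1
            ring)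
      have hLW : Real.exp (2 / 3 * α + 1 / 3 * β)
          * (2 * c * Real.exp (2 / 5 * α + 3 / 5 * β) / (4 * c / 5)) ≤ 254 / 100 * l := by
        have b1 : Real.exp (2 / 3 * α + 1 / 3 * β)
            * (2 * c * Real.exp (2 / 5 * α + 3 / 5 * β) / (4 * c / 5))
            = 5 / 2 * Real.exp (16 / 15 * α + 14 / 15 * β) := by
          have : 16 / 15 * α + 14 / 15 * β = (2 / 3 * α + 1 / 3 * β) + (2 / 5 * α + 3 / 5 * β) := by
            ring
          rw [this, Real.exp_add (2 / 3 * α + 1 / 3 * β)]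
          field_simp
          ring
        have b2 : 16 / 15 * α + 14 / 15 * β ≤ 1 / 80 + Real.log l := by
          rw [hα, hβ]
          have : 0 ≤ (1 / 15 - 56 / 15 * c) * (-Real.log l) :=
            mul_nonneg (by linarith) (by linarith)
          nlinarith
        have b3 : Real.exp (16 / 15 * α + 14 / 15 * β) ≤ 1013 / 1000 * l := by
          refine le_trans (Real.exp_le_exp.2 b2) ?_
          rw [Real.exp_add, Real.exp_log hl0]
          exact mul_le_mul_of_nonneg_right (exp_small le_rfl) hl0.le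
        rw [b1]
        linarith
      rw [hsum, he0]
      set S := ∑ j ∈ (Finset.range n).erase j0, (p j - p (j + 1)) ^ 2
      set LW := Real.exp (2 / 3 * α + 1 / 3 * β)
          * (2 * c * Real.exp (2 / 5 * α + 3 / 5 * β) / (4 * c / 5))
      have k1 : a * η * (3 / 16 * LW) * p 0 ^ 2 ≤ a * (η * l) * (53 / 100 * p 0 ^ 2) := by
        have b1 : 3 / 16 * LW ≤ 53 / 100 * l := by linarith
        calc a * η * (3 / 16 * LW) * p 0 ^ 2 ≤ a * η * (53 / 100 * l) * p 0 ^ 2 := by gcongr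
          _ = _ := by ring
      have k2 : a * δ * (p 0 ^ 2 - (p j0 - p (j0 + 1)) ^ 2)
          ≤ a * (η * l) * (16 / (K * R ^ 2)) := by
        calc a * δ * (p 0 ^ 2 - (p j0 - p (j0 + 1)) ^ 2) ≤ a * δ * (12 * l / (K * R ^ 2)) :=
              mul_le_mul_of_nonneg_left hgap (by positivity)
          _ = _ := by rw [hδη]; ring
      have k3 : a * (η * l) * (21 / (K * R ^ 2) + 21 / 10 / Real.sqrt K / R ^ 2)
          ≤ a * (η * l) * (30 / Real.sqrt K / R ^ 2) :=
        mul_le_mul_of_nonneg_left herr (by positivity)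
      have k4 : a * (η * l) * (p 0 ^ 2 + 4 / (K * R ^ 2) + 1 / (K * R ^ 2)
            + 21 / 10 / Real.sqrt K / R ^ 2) + a * η * (3 / 16 * LW) * p 0 ^ 2 + a * δ * S
          + a * δ * (p 0 ^ 2 - ((p j0 - p (j0 + 1)) ^ 2 + S))
          ≤ a * (η * l) * (153 / 100 * p 0 ^ 2 + 30 / Real.sqrt K / R ^ 2) := by
        have b1 : a * (η * l) * (p 0 ^ 2 + 4 / (K * R ^ 2) + 1 / (K * R ^ 2)
            + 21 / 10 / Real.sqrt K / R ^ 2) + a * (η * l) * (53 / 100 * p 0 ^ 2)
            + a * (η * l) * (16 / (K * R ^ 2))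
            = a * (η * l) * (153 / 100 * p 0 ^ 2)
              + a * (η * l) * (21 / (K * R ^ 2) + 21 / 10 / Real.sqrt K / R ^ 2) := by ring
        have b2 : a * δ * S + a * δ * (p 0 ^ 2 - ((p j0 - p (j0 + 1)) ^ 2 + S))
            = a * δ * (p 0 ^ 2 - (p j0 - p (j0 + 1)) ^ 2) := by ring
        have b3 : a * (η * l) * (153 / 100 * p 0 ^ 2 + 30 / Real.sqrt K / R ^ 2)
            = a * (η * l) * (153 / 100 * p 0 ^ 2) + a * (η * l) * (30 / Real.sqrt K / R ^ 2) := by
          ring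
        linarith
      have k5 := mul_le_mul_of_nonneg_left k4 hh
      linarith
  · -- case B
    have hu : uf η c K d n x = η * 1 := by
      rw [mul_one]; exact le_antisymm (uf_le_eta hη0 c K d n x) hge
    have hcore := core (l := 1) (L := Real.exp c) (E0 := Real.exp (4 * c * Real.log K))
      (ρ := 2 * c) (g0 := 0) hP hδ hη ha hc hc1 hK hcK hn hd hd' hR hX hp0 hpn hfar
      hh he hlog hsm one_pos le_rfl hu (Real.exp_pos _) (Real.exp_pos _).le (by positivity)
      le_rfl (Finset.range n) (fun j hj => Finset.mem_range.1 hj)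
      (fun j hj hjJ => absurd (Finset.mem_range.2 hj) hjJ)
      (by
        intro j hj t _ hnr hb _
        refine ⟨hb, le_trans (near_env hc hK one_pos (d_nonneg hd hj) hnr) (le_of_eq ?_)⟩
        rw [← Real.exp_add, Real.log_one]
        congr 1
        ring)
    have hLW : Real.exp c * (2 * c * Real.exp (4 * c * Real.log K) / (2 * c)) ≤ 1013 / 1000 := by
      have b1 : Real.exp c * (2 * c * Real.exp (4 * c * Real.log K) / (2 * c))
          = Real.exp (c + 4 * c * Real.log K) := by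
        rw [Real.exp_add]
        field_simp
      rw [b1]
      exact exp_small (by linarith)
    rw [hu]
    set S := ∑ j ∈ Finset.range n, (p j - p (j + 1)) ^ 2
    set LW := Real.exp c * (2 * c * Real.exp (4 * c * Real.log K) / (2 * c))
    have k1 : a * η * (3 / 16 * LW) * p 0 ^ 2 ≤ a * η * (19 / 100) * p 0 ^ 2 := by
      have b1 : 3 / 16 * LW ≤ 19 / 100 := by linarith
      gcongr
    have k0 : 1 / (K * R ^ 2) ≤ 21 / (K * R ^ 2) :=
      div_le_div_of_nonneg_right (by norm_num) (by positivity)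
    have k3 : a * η * (1 / (K * R ^ 2) + 21 / 10 / Real.sqrt K / R ^ 2)
        ≤ a * η * (30 / Real.sqrt K / R ^ 2) :=
      mul_le_mul_of_nonneg_left (by linarith) (by positivity)
    have k6 : 0 ≤ a * η * p 0 ^ 2 := by positivity
    have k4 : a * (η * 1) * (0 + 1 / (K * R ^ 2) + 21 / 10 / Real.sqrt K / R ^ 2)
          + a * η * (3 / 16 * LW) * p 0 ^ 2 + a * δ * S + a * δ * (p 0 ^ 2 - S)
        ≤ a * (η * 1) * (153 / 100 * p 0 ^ 2 + 30 / Real.sqrt K / R ^ 2) := by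
      have b2 : a * δ * S + a * δ * (p 0 ^ 2 - S) = 4 / 3 * (a * η * p 0 ^ 2) := by
        rw [hδη]; ring
      have b3 : a * (η * 1) * (153 / 100 * p 0 ^ 2 + 30 / Real.sqrt K / R ^ 2)
          = 153 / 100 * (a * η * p 0 ^ 2) + a * η * (30 / Real.sqrt K / R ^ 2) := by ring
      have b4 : a * (η * 1) * (0 + 1 / (K * R ^ 2) + 21 / 10 / Real.sqrt K / R ^ 2)
          = a * η * (1 / (K * R ^ 2) + 21 / 10 / Real.sqrt K / R ^ 2) := by ring
      have b5 : a * η * (19 / 100) * p 0 ^ 2 = 19 / 100 * (a * η * p 0 ^ 2) := by ring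
      linarith
    have k5 := mul_le_mul_of_nonneg_left k4 hh
    linarith

end Pool.Agent.MP_990230_pr

end
end MrgPart3

-- ======== part 4: formerly Pool.Agent.MP_990230_pr.PotN1
section MrgPart4

/-! PROJECT SLE, module POTN: auxiliary lemmas. -/

open Set MeasureTheory Filter
open scoped Topology

noncomputable section

namespace Pool.Agent.MP_990230_pr.PotN

/-- the property `P s t` holds for all close pairs `s ≤ t` of the interval -/
def Sm (σ τ : ℝ) (P : ℝ → ℝ → Prop) : Prop :=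
  ∃ h : ℝ, 0 < h ∧ ∀ s ∈ Icc σ τ, ∀ t ∈ Icc σ τ, s ≤ t → t - s ≤ h → P s t

variable {σ τ : ℝ}

theorem Sm.and {P Q : ℝ → ℝ → Prop} (h1 : Sm σ τ P) (h2 : Sm σ τ Q) :
    Sm σ τ fun s t => P s t ∧ Q s t := by
  obtain ⟨a, ha, h1⟩ := h1
  obtain ⟨b, hb, h2⟩ := h2
  exact ⟨min a b, lt_min ha hb, fun s hs t ht hst hh =>
    ⟨h1 s hs t ht hst (hh.trans (min_le_left _ _)), h2 s hs t ht hst (hh.trans (min_le_right _ _))⟩⟩

theorem Sm.mono {P Q : ℝ → ℝ → Prop} (h1 : Sm σ τ P)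
    (h : ∀ s ∈ Icc σ τ, ∀ t ∈ Icc σ τ, s ≤ t → P s t → Q s t) : Sm σ τ Q := by
  obtain ⟨a, ha, h1⟩ := h1
  exact ⟨a, ha, fun s hs t ht hst hh => h s hs t ht hst (h1 s hs t ht hst hh)⟩

theorem Sm.all (n : ℕ) {P : ℕ → ℝ → ℝ → Prop} (h : ∀ j < n, Sm σ τ (P j)) :
    Sm σ τ fun s t => ∀ j < n, P j s t := by
  induction n with
  | zero => exact ⟨1, one_pos, fun s _ t _ _ _ j hj => absurd hj (Nat.not_lt_zero j)⟩
  | succ n ih =>
    refine ((ih fun j hj => h j (by omega)).and (h n (by omega))).mono ?_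
    intro s _ t _ _ hP j hj
    rcases Nat.lt_succ_iff_lt_or_eq.1 hj with h1 | h1
    · exact hP.1 j h1
    · rw [h1]; exact hP.2

theorem sm_le (C e : ℝ) (he : 0 < e) : Sm σ τ fun s t => C * (t - s) ≤ e := by
  refine ⟨e / (|C| + 1), by positivity, fun s _ t _ hst hh => ?_⟩
  have h0 : 0 ≤ t - s := sub_nonneg.2 hst
  have h1 : 0 < |C| + 1 := by positivity
  rw [le_div_iff₀ h1] at hh
  nlinarith [le_abs_self C]

theorem sm_cont {f : ℝ → ℝ} (hf : ContinuousOn f (Icc σ τ)) (e : ℝ) (he : 0 < e) :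
    Sm σ τ fun s t => |f t - f s| ≤ e := by
  have hu := isCompact_Icc.uniformContinuousOn_of_continuous hf
  rw [Metric.uniformContinuousOn_iff_le] at hu
  obtain ⟨h, hh, hu⟩ := hu e he
  refine ⟨h, hh, fun s hs t ht hst hle => ?_⟩
  have := hu t ht s hs (by rw [Real.dist_eq, abs_of_nonneg (sub_nonneg.2 hst)]; exact hle)
  rwa [Real.dist_eq] at this

theorem cont_of_sm {f : ℝ → ℝ} (hf : ∀ e : ℝ, 0 < e → Sm σ τ fun s t => |f t - f s| ≤ e) :
    ContinuousOn f (Icc σ τ) := by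
  rw [Metric.continuousOn_iff]
  intro b hb e he
  obtain ⟨h, hh, H⟩ := hf (e / 2) (by positivity)
  refine ⟨h, hh, fun a ha hab => ?_⟩
  rw [Real.dist_eq] at hab ⊢
  rcases le_total b a with h1 | h1
  · have := H b hb a ha h1 (by linarith [le_abs_self (a - b)])
    linarith
  · have := H a ha b hb h1 (by linarith [neg_abs_le (a - b)])
    beta_reduce at this
    rw [abs_sub_comm] at this
    linarith

theorem sm_deriv {f D : ℝ → ℝ} (hf : ∀ s ∈ Icc σ τ, HasDerivWithinAt f (D s) (Icc σ τ) s)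
    (hD : ContinuousOn D (Icc σ τ)) (e : ℝ) (he : 0 < e) :
    Sm σ τ fun s t => |f t - f s - D s * (t - s)| ≤ e * (t - s) := by
  obtain ⟨h, hh, H⟩ := sm_cont hD e he
  refine ⟨h, hh, fun s hs t ht hst hle => ?_⟩
  have hsub : Icc s t ⊆ Icc σ τ := Icc_subset_Icc hs.1 ht.2
  have key := Convex.norm_image_sub_le_of_norm_hasDerivWithin_le (𝕜 := ℝ)
    (f := fun r => f r - D s * r) (f' := fun r => D r - D s) (C := e) (s := Icc s t)
    (x := s) (y := t)
    (fun r hr => by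
      have h1 := (hf r (hsub hr)).mono hsub
      have h2 : HasDerivWithinAt (fun r : ℝ => D s * r) (D s) (Icc s t) r := by
        simpa using ((hasDerivAt_id r).const_mul (D s)).hasDerivWithinAt
      exact h1.sub h2)
    (fun r hr => by
      rw [Real.norm_eq_abs]
      exact H s hs r (hsub hr) hr.1 (by linarith [hr.2]))
    (convex_Icc s t) (left_mem_Icc.2 hst) (right_mem_Icc.2 hst)
  rw [Real.norm_eq_abs, Real.norm_eq_abs, abs_of_nonneg (sub_nonneg.2 hst)] at key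
  beta_reduce
  rwa [show f t - f s - D s * (t - s) = f t - D s * t - (f s - D s * s) by ring]

theorem bdd_cont {f : ℝ → ℝ} (hf : ContinuousOn f (Icc σ τ)) : Bdd σ τ f := by
  obtain ⟨C, hC⟩ := isCompact_Icc.exists_bound_of_continuousOn hf
  exact ⟨C, fun s hs => by simpa [Real.norm_eq_abs] using hC s hs⟩

theorem bdd_mul {f g : ℝ → ℝ} (hf : Bdd σ τ f) (hg : Bdd σ τ g) :
    Bdd σ τ fun s => f s * g s := by
  obtain ⟨A, hA⟩ := hf
  obtain ⟨B, hB⟩ := hg
  refine ⟨A * B, fun s hs => ?_⟩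
  rw [abs_mul]
  exact mul_le_mul (hA s hs) (hB s hs) (abs_nonneg _) ((abs_nonneg _).trans (hA s hs))

theorem bdd_congr {f g : ℝ → ℝ} (hf : Bdd σ τ f) (h : EqOn f g (Icc σ τ)) : Bdd σ τ g := by
  obtain ⟨A, hA⟩ := hf
  exact ⟨A, fun s hs => by rw [← h hs]; exact hA s hs⟩

theorem bdd_all (n : ℕ) {f : ℕ → ℝ → ℝ} (hf : ∀ j < n, Bdd σ τ (f j)) :
    ∃ P : ℝ, 0 ≤ P ∧ ∀ j < n, ∀ s ∈ Icc σ τ, |f j s| ≤ P := by
  induction n with
  | zero => exact ⟨0, le_rfl, fun j hj => absurd hj (Nat.not_lt_zero j)⟩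
  | succ n ih =>
    obtain ⟨P, hP, H⟩ := ih fun j hj => hf j (by omega)
    obtain ⟨C, hC⟩ := hf n (by omega)
    refine ⟨max P C, le_max_of_le_left hP, fun j hj s hs => ?_⟩
    rcases Nat.lt_succ_iff_lt_or_eq.1 hj with h1 | h1
    · exact le_max_of_le_left (H j h1 s hs)
    · rw [h1]; exact le_max_of_le_right (hC s hs)

/-! ### algebra and geometry -/

theorem tele (q : ℕ → ℝ) (m : ℕ) : q 0 ^ 2 - ∑ j ∈ Finset.range m, (q j - q (j + 1)) ^ 2 =
    ∑ i ∈ Finset.range m, 2 * q (i + 1) * (q i - q (i + 1)) + q m ^ 2 := by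
  induction m with
  | zero => simp
  | succ m ih => rw [Finset.sum_range_succ, Finset.sum_range_succ]; linarith

theorem pR_eq (Z : ℂ) : pR Z = (Z⁻¹).re := by rw [pR, Complex.inv_re]

theorem abs_pR_le (Z : ℂ) : |pR Z| ≤ 1 / ‖Z‖ := by
  rw [pR_eq, one_div, ← norm_inv]
  exact Complex.abs_re_le_norm _

theorem norm_pos_of_im {Z : ℂ} (h : 0 < Z.im) : 0 < ‖Z‖ :=
  norm_pos_iff.2 fun h0 => by rw [h0] at h; simp at h

theorem norm_le_conj {Z W : ℂ} (hZ : 0 < Z.im) (hW : 0 < W.im) :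
    ‖Z - W‖ ≤ ‖Z - (starRingEnd ℂ) W‖ := by
  apply (sq_le_sq₀ (norm_nonneg _) (norm_nonneg _)).1
  rw [← Complex.normSq_eq_norm_sq, ← Complex.normSq_eq_norm_sq, Complex.normSq_apply,
    Complex.normSq_apply]
  simp only [Complex.sub_re, Complex.sub_im, Complex.conj_re, Complex.conj_im]
  nlinarith [mul_pos hZ hW]

theorem le_dN {Z W : ℂ} (hZ : 0 < Z.im) (hW : 0 < W.im) : ‖Z - W‖ ≤ dN Z W := by
  apply Real.le_sqrt_of_sq_le
  rw [sq]
  exact mul_le_mul_of_nonneg_left (norm_le_conj hZ hW) (norm_nonneg _)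

theorem dN_le {Z W : ℂ} (hZ : 0 < Z.im) (hW : 0 < W.im) : dN Z W ≤ ‖Z‖ + ‖W‖ := by
  have h1 : ‖Z - (starRingEnd ℂ) W‖ ≤ ‖Z‖ + ‖W‖ := by
    simpa using norm_sub_le Z ((starRingEnd ℂ) W)
  apply Real.sqrt_le_iff.2 ⟨by positivity, ?_⟩
  rw [sq]
  exact mul_le_mul ((norm_le_conj hZ hW).trans h1) h1 (norm_nonneg _) (by positivity)

theorem dN_self (Z : ℂ) : dN Z Z = 0 := by simp [dN]

theorem dN_pos {Z W : ℂ} (hZ : 0 < Z.im) (hW : 0 < W.im) (h : Z ≠ W) : 0 < dN Z W :=
  (norm_pos_iff.2 (sub_ne_zero.2 h)).trans_le (le_dN hZ hW)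

theorem near_bd {Z W : ℂ} (hZ : 0 < Z.im) (hW : 0 < W.im) (h : dN Z W ≤ ‖W‖ / 2) :
    |pR Z - pR W| ≤ 2 * dN Z W / ‖W‖ ^ 2 := by
  have z0 := norm_pos_of_im hZ
  have w0 := norm_pos_of_im hW
  have h1 := le_dN hZ hW
  have h2 : ‖W‖ / 2 ≤ ‖Z‖ := by
    have := norm_sub_norm_le W Z
    rw [norm_sub_rev] at this
    linarith
  have h3 : Z⁻¹ - W⁻¹ = -(Z - W) / (Z * W) := by
    have := norm_pos_iff.1 z0
    have := norm_pos_iff.1 w0
    field_simp
    ring
  rw [pR_eq, pR_eq, ← Complex.sub_re]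
  refine (Complex.abs_re_le_norm _).trans ?_
  rw [h3, norm_div, norm_neg, norm_mul, div_le_div_iff₀ (by positivity) (by positivity)]
  have h4 : 0 ≤ ‖Z - W‖ := norm_nonneg _
  have h5 : ‖W‖ ^ 2 ≤ 2 * (‖Z‖ * ‖W‖) := by nlinarith
  calc ‖Z - W‖ * ‖W‖ ^ 2 ≤ dN Z W * (2 * (‖Z‖ * ‖W‖)) :=
        mul_le_mul h1 h5 (by positivity) (h4.trans h1)
    _ = _ := by ring

theorem far_bd {Z W : ℂ} (hZ : 0 < Z.im) (hW : 0 < W.im) (h : 2 * ‖W‖ ≤ dN Z W) :
    |pR Z| ≤ 2 / dN Z W := by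
  have z0 := norm_pos_of_im hZ
  have w0 := norm_pos_of_im hW
  have h1 := dN_le hZ hW
  refine (abs_pR_le Z).trans ?_
  rw [div_le_div_iff₀ z0 (by linarith)]
  linarith

theorem sinA_sq_le (Z : ℂ) : sinA Z ^ 2 ≤ 1 := by
  rw [sq_le_one_iff_abs_le_one, sinA, abs_div, abs_norm]
  exact div_le_one_of_le₀ (Complex.abs_im_le_norm Z) (norm_nonneg _)

theorem cont_pR {z : ℝ → ℂ} (hz : ContinuousOn z (Icc σ τ)) (h : ∀ s ∈ Icc σ τ, 0 < (z s).im) :
    ContinuousOn (fun s => pR (z s)) (Icc σ τ) := by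
  simp only [pR_eq]
  exact Complex.continuous_re.comp_continuousOn
    (hz.inv₀ fun s hs => norm_pos_iff.1 (norm_pos_of_im (h s hs)))

theorem cont_dN {z w : ℝ → ℂ} (hz : ContinuousOn z (Icc σ τ)) (hw : ContinuousOn w (Icc σ τ)) :
    ContinuousOn (fun s => dN (z s) (w s)) (Icc σ τ) := by
  unfold dN
  exact ((hz.sub hw).norm.mul
    (hz.sub (Complex.continuous_conj.comp_continuousOn hw)).norm).sqrt

/-! ### parameters -/

theorem del_pos {a : ℝ} (ha : 1 / 2 ≤ a) : 0 < del a := by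
  unfold del
  have : 1 / (4 * a) ≤ 1 / 2 := one_div_le_one_div_of_le (by norm_num) (by linarith)
  linarith

theorem kP_ge {a : ℝ} (ha : 1 / 2 ≤ a) : 16 ≤ kP a := by
  unfold kP
  have : 4 ≤ 4000 * a * (1 + 4 * a) := by nlinarith
  nlinarith

theorem log_kP {a : ℝ} (ha : 1 / 2 ≤ a) : 1 ≤ Real.log (kP a) := by
  rw [Real.le_log_iff_exp_le (by linarith [kP_ge ha])]
  linarith [Real.exp_one_lt_d9, kP_ge ha]

theorem cP_pos {a : ℝ} (ha : 1 / 2 ≤ a) : 0 < cP a := by
  have := log_kP ha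
  unfold cP
  positivity

theorem cP_le {a : ℝ} (ha : 1 / 2 ≤ a) : cP a ≤ 1 / 400 := by
  have := log_kP ha
  exact one_div_le_one_div_of_le (by norm_num) (by linarith)

theorem cP_log {a : ℝ} (ha : 1 / 2 ≤ a) : cP a * Real.log (kP a) ≤ 1 / 400 := by
  have := log_kP ha
  unfold cP
  apply le_of_eq
  field_simp

theorem exp_xt {a : ℝ} (ha : 1 / 2 ≤ a) {x : St} (h : 0 < (x.1 0).im) :
    ‖x.1 0‖ ≤ Real.exp (xt a x) ∧ Real.exp (xt a x) ≤ 2 * ‖x.1 0‖ := by
  have z0 := norm_pos_of_im h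
  have e0 : 0 < epsP a := by unfold epsP; positivity
  have e1 : epsP a ≤ 1 / 2 := one_div_le_one_div_of_le (by norm_num) (by linarith)
  have s1 := sinA_sq_le (x.1 0)
  have s0 := sq_nonneg (sinA (x.1 0))
  rw [xt, Real.exp_add, Real.exp_log z0]
  have h1 : 1 ≤ Real.exp (epsP a * sinA (x.1 0) ^ 2) := Real.one_le_exp (by positivity)
  have h2 : Real.exp (epsP a * sinA (x.1 0) ^ 2) ≤ 2 := by
    have h3 := Real.abs_exp_sub_one_le (x := epsP a * sinA (x.1 0) ^ 2)
      (by rw [abs_of_nonneg (by positivity)]; nlinarith)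
    rw [abs_of_nonneg (show 0 ≤ epsP a * sinA (x.1 0) ^ 2 by positivity)] at h3
    nlinarith [le_abs_self (Real.exp (epsP a * sinA (x.1 0) ^ 2) - 1)]
  constructor <;> nlinarith

theorem good {n : ℕ} (hn : 1 ≤ n) {x : St} (h : Adm n x) : GoodD (dvec x) n :=
  ⟨dN_self _, fun j h1 h2 => dN_pos (h.1 j h2).1 (h.1 0 hn).1 (h.2 j h2 0 hn (by omega))⟩

/-! ### the profile -/

variable {η c K : ℝ}

theorem u_close (hA : PotA η c K) (hc : 0 < c) {n : ℕ} {d d' : ℕ → ℝ} {ξ : ℝ} (t : ℝ)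
    (hn : 1 ≤ n) (hd : GoodD d n) (hd' : GoodD d' n) (h0 : 0 ≤ ξ) (h1 : 2 * c * ξ ≤ 1)
    (h : ∀ j, 1 ≤ j → j < n → |Real.log (d' j) - Real.log (d j)| ≤ ξ) :
    |uf η c K d' n t - uf η c K d n t| ≤ η * (4 * c * ξ) := by
  have r1 := hA.ratio n d d' ξ t hn hd hd' h0 h
  have r2 := hA.ratio n d' d ξ t hn hd' hd h0 fun j a b => by rw [abs_sub_comm]; exact h j a b
  have g0 : 0 ≤ 2 * c * ξ := by positivity
  have g := Real.abs_exp_sub_one_le (x := 2 * c * ξ) (by rwa [abs_of_nonneg g0])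
  rw [abs_of_nonneg g0] at g
  have g1 : Real.exp (2 * c * ξ) ≤ 1 + 4 * c * ξ := by
    linarith [le_abs_self (Real.exp (2 * c * ξ) - 1)]
  have a0 := hA.nonneg n d t hn hd
  have a1 := hA.le_eta n d t
  have b0 := hA.nonneg n d' t hn hd'
  have b1 := hA.le_eta n d' t
  have g2 : 0 ≤ 4 * c * ξ := by positivity
  rw [abs_le]
  constructor <;> nlinarith [mul_le_mul_of_nonneg_right g1 a0, mul_le_mul_of_nonneg_right g1 b0,
    mul_le_mul_of_nonneg_left a1 g2, mul_le_mul_of_nonneg_left b1 g2]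

theorem U_ratio (hA : PotA η c K) {n : ℕ} {d d' : ℕ → ℝ} {ξ : ℝ} (x : ℝ)
    (hn : 1 ≤ n) (hd : GoodD d n) (hd' : GoodD d' n) (h0 : 0 ≤ ξ)
    (h : ∀ j, 1 ≤ j → j < n → |Real.log (d' j) - Real.log (d j)| ≤ ξ) :
    Uf η c K d' n x ≤ Real.exp (2 * c * ξ) * Uf η c K d n x := by
  unfold Uf
  rw [← integral_const_mul]
  exact setIntegral_mono (hA.integ n d' x hn hd') ((hA.integ n d x hn hd).const_mul _)
    fun t => hA.ratio n d d' ξ t hn hd hd' h0 h

theorem U_close (hA : PotA η c K) (hc : 0 < c) {n : ℕ} {d d' : ℕ → ℝ} {ξ B : ℝ} (x : ℝ)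
    (hn : 1 ≤ n) (hd : GoodD d n) (hd' : GoodD d' n) (h0 : 0 ≤ ξ) (h1 : 2 * c * ξ ≤ 1)
    (h : ∀ j, 1 ≤ j → j < n → |Real.log (d' j) - Real.log (d j)| ≤ ξ)
    (hB : Uf η c K d n x ≤ B) :
    |Uf η c K d' n x - Uf η c K d n x| ≤ 3 * B * (4 * c * ξ) := by
  have r1 := U_ratio hA x hn hd hd' h0 h
  have r2 := U_ratio hA x hn hd' hd h0 fun j a b => by rw [abs_sub_comm]; exact h j a b
  have g0 : 0 ≤ 2 * c * ξ := by positivity
  have g := Real.abs_exp_sub_one_le (x := 2 * c * ξ) (by rwa [abs_of_nonneg g0])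
  rw [abs_of_nonneg g0] at g
  have g1 : Real.exp (2 * c * ξ) ≤ 1 + 4 * c * ξ := by
    linarith [le_abs_self (Real.exp (2 * c * ξ) - 1)]
  have a0 := hA.Uf_nonneg n d x hn hd
  have b0 := hA.Uf_nonneg n d' x hn hd'
  have g2 : 0 ≤ 4 * c * ξ := by positivity
  have b1 : Uf η c K d' n x ≤ 3 * B := by nlinarith [mul_le_mul_of_nonneg_right g1 a0]
  have a1 : Uf η c K d n x ≤ 3 * B := by linarith
  rw [abs_le]
  constructor <;> nlinarith [mul_le_mul_of_nonneg_right g1 a0, mul_le_mul_of_nonneg_right g1 b0,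
    mul_le_mul_of_nonneg_left a1 g2, mul_le_mul_of_nonneg_left b1 g2]

theorem E_le (hc : 0 < c) (hc1 : c ≤ 1) {v : ℝ} (hv : |v| ≤ 1) :
    |(Real.exp (c * v) - 1) / c| ≤ 2 * |v| := by
  have h1 : |c * v| ≤ 1 := by
    rw [abs_mul, abs_of_pos hc]; nlinarith [abs_nonneg v]
  have h2 := Real.abs_exp_sub_one_le h1
  rw [abs_mul, abs_of_pos hc] at h2
  rw [abs_div, abs_of_pos hc, div_le_iff₀ hc]
  linarith

theorem U_lip (hA : PotA η c K) (hc : 0 < c) (hc1 : c ≤ 1) {n : ℕ} {d : ℕ → ℝ} {x x' : ℝ}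
    (hn : 1 ≤ n) (hd : GoodD d n) (hv : |x' - x| ≤ 1) :
    |Uf η c K d n x' - Uf η c K d n x| ≤ η * (2 * |x' - x|) := by
  have t1 := hA.touch n d x x' hn hd
  have t2 := hA.touch n d x' x hn hd
  have e1 := E_le hc hc1 hv
  have e2 := E_le hc hc1 (v := x - x') (by rwa [abs_sub_comm])
  rw [abs_sub_comm x x'] at e2
  have a0 := hA.nonneg n d x hn hd
  have a1 := hA.le_eta n d x
  have b0 := hA.nonneg n d x' hn hd
  have b1 := hA.le_eta n d x'
  have g : 0 ≤ 2 * |x' - x| := by positivity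
  have f1 := mul_le_mul_of_nonneg_left ((le_abs_self _).trans e1) a0
  have f2 := mul_le_mul_of_nonneg_left ((le_abs_self _).trans e2) b0
  rw [abs_le]
  constructor <;> nlinarith [mul_le_mul_of_nonneg_right a1 g, mul_le_mul_of_nonneg_right b1 g]

end Pool.Agent.MP_990230_pr.PotN

end
end MrgPart4

-- ======== part 5: formerly Pool.Agent.MP_990230_pr.PotN
section MrgPart5

/-! PROJECT SLE, module POTN. -/

open Set MeasureTheory Filter
open scoped Topology

noncomputable section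

namespace Pool.Agent.MP_990230_pr

namespace PotN

variable {σ τ η c K a P B : ℝ} {n : ℕ} {d p : ℝ → ℕ → ℝ} {x R : ℝ → ℝ}

/-- the logarithms of the distances move at bounded speed -/
theorem sm_log (ha : 0 < a) (hn : 1 ≤ n) (hP : ∀ j < n, ∀ s ∈ Icc σ τ, |p s j| ≤ P)
    (hlog : ∀ e : ℝ, 0 < e → Sm σ τ fun s t => ∀ j, 1 ≤ j → j < n →
      |Real.log (d t j) - Real.log (d s j) + a * p s 0 * p s j * (t - s)| ≤ e * (t - s)) :
    Sm σ τ fun s t => ∀ j, 1 ≤ j → j < n →
      |Real.log (d t j) - Real.log (d s j)| ≤ (a * P * P + 1) * (t - s) := by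
  refine (hlog 1 one_pos).mono fun s hs t _ hst H j h1 h2 => ?_
  have h0 : 0 ≤ t - s := sub_nonneg.2 hst
  have b0 := hP 0 hn s hs
  have bj := hP j h2 s hs
  have h3 : |a * p s 0 * p s j * (t - s)| ≤ a * P * P * (t - s) := by
    rw [abs_mul, abs_mul, abs_mul, abs_of_pos ha, abs_of_nonneg h0]
    have p0 : 0 ≤ P := (abs_nonneg _).trans b0
    gcongr
  have h4 := H j h1 h2
  rw [abs_le] at h3 h4 ⊢
  constructor <;> linarith [h3.1, h3.2, h4.1, h4.2]

theorem cont_U (hA : PotA η c K) (hη : 0 < η) (hc : 0 < c) (hc1 : c ≤ 1) (hn : 1 ≤ n) {C : ℝ}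
    (hC : 0 ≤ C) (hg : ∀ s ∈ Icc σ τ, GoodD (d s) n) (hx : ContinuousOn x (Icc σ τ))
    (hl : Sm σ τ fun s t => ∀ j, 1 ≤ j → j < n →
      |Real.log (d t j) - Real.log (d s j)| ≤ C * (t - s))
    (hB : ∀ s ∈ Icc σ τ, Uf η c K (d s) n (x s) ≤ B) :
    ContinuousOn (fun s => Uf η c K (d s) n (x s)) (Icc σ τ) := by
  refine cont_of_sm fun e he => ?_
  refine ((((hl.and (sm_le (2 * c * C) 1 one_pos)).and
    (sm_le (3 * B * (4 * c * C)) (e / 2) (by positivity))).and (sm_cont hx 1 one_pos)).and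
    (sm_cont hx (e / (4 * η)) (by positivity))).mono ?_
  rintro s hs t ht hst ⟨⟨⟨⟨h1, h2⟩, h3⟩, h4⟩, h5⟩
  have h0 : 0 ≤ t - s := sub_nonneg.2 hst
  have k1 := U_close hA hc (x s) hn (hg s hs) (hg t ht) (ξ := C * (t - s)) (by positivity)
    (by linarith) h1 (hB s hs)
  have k2 := U_lip hA hc hc1 hn (hg t ht) h4
  have k3 : η * (2 * |x t - x s|) ≤ e / 2 := by
    rw [le_div_iff₀ (by positivity)] at h5
    linarith
  rw [abs_le] at k1 k2 ⊢
  constructor <;> linarith [k1.1, k1.2, k2.1, k2.2]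

theorem core (hA : PotA η c K) (hD : DriftStmt) {δ : ℝ} (hδ : 0 < δ) (hη : η = 3 * δ / 4)
    (ha : 0 < a) (hc : 0 < c) (hc1 : c ≤ 1 / 400) (hK : 16 ≤ K) (hcK : c * Real.log K ≤ 1 / 400)
    (hn : 1 ≤ n) (hg : ∀ s ∈ Icc σ τ, GoodD (d s) n) (hx : ContinuousOn x (Icc σ τ))
    (hpos : ∀ s ∈ Icc σ τ, 0 < R s ∧ R s ≤ Real.exp (x s) ∧ Real.exp (x s) ≤ 2 * R s ∧
      |p s 0| ≤ 1 / R s ∧ p s n = 0 ∧
      (∀ j < n, d s j ≤ R s / 2 → |p s j - p s 0| ≤ 2 * d s j / R s ^ 2) ∧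
      (∀ j < n, 2 * R s ≤ d s j → |p s j| ≤ 2 / d s j))
    (hP : ∀ j < n, ∀ s ∈ Icc σ τ, |p s j| ≤ P)
    (hlog : ∀ e : ℝ, 0 < e → Sm σ τ fun s t => ∀ j, 1 ≤ j → j < n →
      |Real.log (d t j) - Real.log (d s j) + a * p s 0 * p s j * (t - s)| ≤ e * (t - s))
    (hB0 : 0 < B) (hB : ∀ s ∈ Icc σ τ, Uf η c K (d s) n (x s) ≤ B) (ε : ℝ) (hε : 0 < ε) :
    Sm σ τ fun s t => Uf η c K (d s) n (x s) - Uf η c K (d t) n (x t) + (t - s) *
        (a * δ * (p s 0 ^ 2 - ∑ j ∈ Finset.range n, (p s j - p s (j + 1)) ^ 2)) ≤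
      uf η c K (d s) n (x s) * ((Real.exp (c * (x t - x s)) - 1) / c) + (t - s) *
        (a * uf η c K (d s) n (x s) * (153 / 100 * p s 0 ^ 2 + 30 / Real.sqrt K / R s ^ 2)) +
        ε * (t - s) := by
  have η0 : 0 < η := by rw [hη]; positivity
  set C := a * P * P + 1 with hC
  have C0 : 0 < C := by rw [hC, mul_assoc]; nlinarith [mul_nonneg ha.le (mul_self_nonneg P)]
  set e := ε / (2 * B) with he
  have e0 : 0 < e := by positivity
  refine ((((((sm_log ha hn hP hlog).and (hlog e e0)).and (sm_le (2 * c * C) 1 one_pos)).and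
    (sm_le (a * P * P + e) (1 / 2) (by norm_num))).and (sm_cont hx 1 one_pos)).and
    (sm_cont hx (ε / (16 * η * c * C)) (by positivity))).mono ?_
  rintro s hs t ht hst ⟨⟨⟨⟨⟨h1, h2⟩, h3⟩, h4⟩, h5⟩, h6⟩
  have h0 : 0 ≤ t - s := sub_nonneg.2 hst
  obtain ⟨r0, r1, r2, r3, r4, r5, r6⟩ := hpos s hs
  have k1 := hD η c K a δ hδ hη ha hc hc1 hK hcK n (d s) (d t) (p s) (R s) (x s) (t - s) e hn
    (hg s hs) (hg t ht) r0 r1 r2 r3 r4 r5 r6 h0 e0.le h2 (fun j hj => by
      refine le_trans ?_ h4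
      have b0 := hP 0 hn s hs
      have bj := hP j hj s hs
      have p0 : 0 ≤ P := (abs_nonneg _).trans b0
      gcongr)
  have k2 := hA.touch n (d t) (x s) (x t) hn (hg t ht)
  have k3 := u_close hA hc (x s) hn (hg s hs) (hg t ht) (ξ := C * (t - s)) (by positivity)
    (by linarith) h1
  have k4 := E_le hc (by linarith) h5
  set E := (Real.exp (c * (x t - x s)) - 1) / c
  have k5 : (uf η c K (d t) n (x s) - uf η c K (d s) n (x s)) * E ≤ ε / 2 * (t - s) := by
    refine (le_abs_self _).trans ?_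
    rw [abs_mul]
    refine (mul_le_mul k3 k4 (abs_nonneg _) (by positivity)).trans ?_
    rw [le_div_iff₀ (by positivity)] at h6
    nlinarith [mul_le_mul_of_nonneg_right h6 h0]
  have k6 : e * (t - s) * Uf η c K (d s) n (x s) ≤ ε / 2 * (t - s) := by
    refine (mul_le_mul_of_nonneg_left (hB s hs) (by positivity)).trans (le_of_eq ?_)
    rw [he]
    field_simp
  nlinarith

end PotN

open PotN in
theorem potN_stmt (hS : StepStmt) (hJ : JetStmt) (hA : PotAStmt) (hD : DriftStmt) : PotNStmt := by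
  intro a ha n U σ τ z y hn hU hF hAd
  have a0 : 0 < a := by linarith
  have δ0 := del_pos ha
  have η0 : 0 < etaP a := by unfold etaP; positivity
  have c0 := cP_pos ha
  have c1 := cP_le ha
  have A := hA (etaP a) (cP a) (kP a) η0 c0 c1 (kP_ge ha)
  have S := hS U σ τ hU
  have J : ∀ i < n, JetRules a U σ τ (z i) (y i) := fun i hi => hJ a U σ τ _ _ hU (hF i hi)
  have im : ∀ i < n, ∀ s ∈ Icc σ τ, 0 < (z i s).im := fun i hi => (hF i hi).im_pos
  have cp : ∀ i < n, ContinuousOn (fun s => pR (z i s)) (Icc σ τ) :=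
    fun i hi => cont_pR (J i hi).cont_z (im i hi)
  set X : ℝ → St := fun s => (fun i => z i s, fun i => y i s) with hX
  set d : ℝ → ℕ → ℝ := fun s => dvec (X s) with hd
  set x : ℝ → ℝ := fun s => xt a (X s) with hx
  set p : ℝ → ℕ → ℝ := fun s j => if j < n then pR (z j s) else 0 with hp
  have pe : ∀ s, ∀ j < n, p s j = pR (z j s) := fun s j hj => if_pos hj
  have pn : ∀ s, p s n = 0 := fun s => if_neg (lt_irrefl n)
  have hg : ∀ s ∈ Icc σ τ, GoodD (d s) n := fun s hs => good hn (hAd s hs)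
  -- the expansion of the scale
  have Ix : Ito U σ τ x (fun s => xtA a (X s)) (fun s => xtB a (X s))
      (fun s => a * (pR (z 0 s) ^ 2 - sI (z 0 s) ^ 2)
        + epsP a * (-(4 * a) * sinA (z 0 s) ^ 2 * pR (z 0 s) ^ 2)) :=
    S.ito_add _ _ _ _ _ _ _ _ (J 0 hn).logNorm (S.ito_smul (epsP a) _ _ _ _ (J 0 hn).sinSq)
  have cx : ContinuousOn x (Icc σ τ) := Ix.1.cont
  have IX := S.ito_comp _ _ _ _ (fun v => Real.exp (cP a * v))
    (fun v => cP a * Real.exp (cP a * v)) (fun v => cP a * (cP a * Real.exp (cP a * v))) univ Ix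
    isOpen_univ ordConnected_univ (mapsTo_univ _ _)
    (fun v _ => by
      simpa [mul_comm] using ((hasDerivAt_id v).const_mul (cP a)).exp)
    (fun v _ => by
      simpa [mul_comm] using (((hasDerivAt_id v).const_mul (cP a)).exp).const_mul (cP a))
    (by fun_prop)
  -- the dipole factors
  have ld : ∀ i < n, ∀ j < n, i ≠ j → ∀ s ∈ Icc σ τ, HasDerivWithinAt
      (fun r => Real.log (dN (z i r) (z j r))) (-a * pR (z i s) * pR (z j s)) (Icc σ τ) s :=
    fun i hi j hj hij => (J i hi).logDist _ _ (hF j hj) fun s hs => (hAd s hs).2 i hi j hj hij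
  have cd : ∀ i < n, ∀ j < n,
      ContinuousOn (fun s => -a * pR (z i s) * pR (z j s)) (Icc σ τ) :=
    fun i hi j hj => (continuousOn_const.mul (cp i hi)).mul (cp j hj)
  have IJ0 := S.ito_smul (del a) _ _ _ _ (S.ito_sum (n - 1) _ _ _ _ fun i hi =>
    S.ito_add _ _ _ _ _ _ _ _
      (S.ito_add _ _ _ _ _ _ _ _ (S.ito_smul 2 _ _ _ _ (J (i + 1) (by omega)).logIm)
        (S.ito_smul (-1) _ _ _ _ (J (i + 1) (by omega)).logUps))
      (S.ito_smul (-2) _ _ _ _ (S.of_deriv _ _ (ld (i + 1) (by omega) i (by omega) (by omega))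
        (cd (i + 1) (by omega) i (by omega)))))
  have IJ : Ito U σ τ (fun s => lJ a n (X s)) (fun _ => 0) (fun _ => 0)
      (fun s => a * del a * (p s 0 ^ 2 - ∑ j ∈ Finset.range n, (p s j - p s (j + 1)) ^ 2)) := by
    refine S.ito_congr _ _ _ _ _ _ _ _ IJ0 (fun s _ => ?_) (fun s _ => by simp)
      (fun s _ => by simp) (fun s _ => ?_)
    · simp only [lJ, hX]
      congr 1
      exact Finset.sum_congr rfl fun i _ => by ring
    · obtain ⟨m, rfl⟩ : ∃ m, n = m + 1 := ⟨n - 1, by omega⟩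
      rw [tele, Finset.sum_range_succ, pn, Nat.add_sub_cancel, Finset.mul_sum]
      simp only [mul_zero, zero_mul, add_zero, ne_eq, OfNat.ofNat_ne_zero, not_false_eq_true,
        zero_pow]
      rw [Finset.mul_sum]
      refine Finset.sum_congr rfl fun i hi => ?_
      have := Finset.mem_range.1 hi
      rw [pe s (i + 1) (by omega), pe s i (by omega)]
      ring
  -- bounds
  obtain ⟨P, -, hP'⟩ := bdd_all n fun j hj => bdd_cont (cp j hj)
  have hP : ∀ j < n, ∀ s ∈ Icc σ τ, |p s j| ≤ P := fun j hj s hs => by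
    rw [pe s j hj]; exact hP' j hj s hs
  have hlog : ∀ e : ℝ, 0 < e → Sm σ τ fun s t => ∀ j, 1 ≤ j → j < n →
      |Real.log (d t j) - Real.log (d s j) + a * p s 0 * p s j * (t - s)| ≤ e * (t - s) := by
    intro e he
    have h1 : ∀ j < n, Sm σ τ fun s t => 1 ≤ j →
        |Real.log (d t j) - Real.log (d s j) + a * p s 0 * p s j * (t - s)| ≤ e * (t - s) := by
      intro j hj
      by_cases h1 : 1 ≤ j
      · refine (sm_deriv (ld j hj 0 hn (by omega)) (cd j hj 0 hn) e he).mono ?_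
        intro s _ t _ _ H _
        rw [pe s 0 hn, pe s j hj]
        refine le_trans (le_of_eq ?_) H
        congr 1
        simp only [hd, dvec, hX]
        ring
      · exact ⟨1, one_pos, fun s _ t _ _ _ h => absurd h h1⟩
    exact (Sm.all n h1).mono fun s _ t _ _ H j h1 h2 => H j h2 h1
  obtain ⟨B0, hB0⟩ := bdd_cont (σ := σ) (τ := τ) (f := fun s => etaP a *
      (kP a * d s (n - 1) * Real.exp (-x s)) ^ (2 * cP a) / (2 * cP a)) (by
    refine (continuousOn_const.mul (ContinuousOn.rpow_const ?_ fun s _ => Or.inr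
      (by positivity))).div_const _
    exact (continuousOn_const.mul (cont_dN (J (n - 1) (by omega)).cont_z (J 0 hn).cont_z)).mul
      cx.neg.rexp)
  have hB : ∀ s ∈ Icc σ τ, Uf (etaP a) (cP a) (kP a) (d s) n (x s) ≤ |B0| + 1 := fun s hs => by
    have h1 := A.Uf_le n (d s) (x s) hn (hg s hs)
    have h2 := (le_abs_self _).trans (hB0 s hs)
    linarith [le_abs_self B0]
  have cU := cont_U A η0 c0 (by linarith) hn (C := a * P * P + 1)
    (by rw [mul_assoc]; nlinarith [mul_nonneg a0.le (mul_self_nonneg P)]) hg cx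
    (sm_log a0 hn hP hlog) hB
  have bu : Bdd σ τ fun s => uu a n (X s) := ⟨etaP a, fun s hs =>
    (abs_of_nonneg (A.nonneg n (d s) (x s) hn (hg s hs))).trans_le (A.le_eta n (d s) (x s))⟩
  have K := core (R := fun s => ‖z 0 s‖) A hD δ0 rfl a0 c0 c1 (kP_ge ha) (cP_log ha) hn hg cx
    (fun s hs => ⟨norm_pos_of_im (im 0 hn s hs), (exp_xt ha (x := X s) (im 0 hn s hs)).1,
      (exp_xt ha (x := X s) (im 0 hn s hs)).2, by rw [pe s 0 hn]; exact abs_pR_le _, pn s,
      fun j hj h => by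
        rw [pe s 0 hn, pe s j hj]; exact near_bd (im j hj s hs) (im 0 hn s hs) h,
      fun j hj h => by
        rw [pe s j hj]; exact far_bd (im j hj s hs) (im 0 hn s hs) h⟩)
    hP hlog (by positivity) hB
  have T := S.touch (fun s => lJ a n (X s) - UU a n (X s))
    (fun s => uu a n (X s) * (Real.exp (-(cP a * x s)) / cP a))
    (fun s => uu a n (X s) *
      (a * (153 / 100 * pR (z 0 s) ^ 2 + 30 / Real.sqrt (kP a) / ‖z 0 s‖ ^ 2))) _ _ _ _ IX
    (IJ.1.cont.sub cU)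
    (bdd_mul bu (bdd_cont (((continuousOn_const.mul cx).neg.rexp).div_const _)))
    (bdd_mul bu (bdd_cont (continuousOn_const.mul
      ((continuousOn_const.mul ((cp 0 hn).pow 2)).add (continuousOn_const.div
        ((J 0 hn).cont_z.norm.pow 2) fun s hs =>
          (pow_pos (norm_pos_of_im (im 0 hn s hs)) 2).ne')))))
    (fun ε hε => by
      have h1 : Sm σ τ _ := IJ.1.step (ε / 2) (by positivity)
      refine (h1.and (K (ε / 2) (by positivity))).mono ?_
      rintro s hs t ht hst ⟨k1, k2⟩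
      rw [pe s 0 hn] at k2
      rw [pe s 0 hn] at k1
      have k3 : uu a n (X s) * (Real.exp (-(cP a * x s)) / cP a) *
          (Real.exp (cP a * x t) - Real.exp (cP a * x s)) =
          uu a n (X s) * ((Real.exp (cP a * (x t - x s)) - 1) / cP a) := by
        rw [mul_sub (cP a), Real.exp_sub, Real.exp_neg]
        field_simp
      rw [k3]
      have k4 : 0 ≤ ε / 2 * (U t - U s) ^ 2 := by positivity
      change UU a n (X s) - UU a n (X t) + _ ≤ uu a n (X s) * _ + (t - s) *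
        (a * uu a n (X s) * _) + _ at k2
      nlinarith)
  have ex : ∀ s, Real.exp (-(cP a * x s)) / cP a * (cP a * Real.exp (cP a * x s)) = 1 :=
    fun s => by rw [Real.exp_neg]; field_simp
  have eB : EqOn (fun s => uu a n (X s) * (Real.exp (-(cP a * x s)) / cP a) *
      (cP a * Real.exp (cP a * x s) * xtB a (X s) +
        cP a * (cP a * Real.exp (cP a * x s)) * xtA a (X s) ^ 2))
      (fun s => uu a n (X s) * (xtB a (X s) + cP a * xtA a (X s) ^ 2)) (Icc σ τ) := fun s _ => by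
    beta_reduce
    linear_combination (uu a n (X s) * (xtB a (X s) + cP a * xtA a (X s) ^ 2)) * ex s
  have eD : EqOn (fun s => uu a n (X s) * (Real.exp (-(cP a * x s)) / cP a) *
      (cP a * Real.exp (cP a * x s) * (a * (pR (z 0 s) ^ 2 - sI (z 0 s) ^ 2)
        + epsP a * (-(4 * a) * sinA (z 0 s) ^ 2 * pR (z 0 s) ^ 2))) + uu a n (X s) *
      (a * (153 / 100 * pR (z 0 s) ^ 2 + 30 / Real.sqrt (kP a) / ‖z 0 s‖ ^ 2)))
      (fun s => uu a n (X s) * (a * (pR (z 0 s) ^ 2 - sI (z 0 s) ^ 2)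
        + epsP a * (-(4 * a) * sinA (z 0 s) ^ 2 * pR (z 0 s) ^ 2)
        + a * (153 / 100 * pR (z 0 s) ^ 2 + 30 / Real.sqrt (kP a) / ‖z 0 s‖ ^ 2)))
      (Icc σ τ) := fun s _ => by
    beta_reduce
    linear_combination (uu a n (X s) * (a * (pR (z 0 s) ^ 2 - sI (z 0 s) ^ 2)
        + epsP a * (-(4 * a) * sinA (z 0 s) ^ 2 * pR (z 0 s) ^ 2))) * ex s
  refine S.congr _ _ _ _ _ _ _ _ T (fun _ _ => rfl) (fun s _ => ?_) (fun s hs => (eB hs).le)
    (fun s hs => (eD hs).le) (bdd_congr T.bB eB) (bdd_congr T.bD eD)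
  linear_combination (uu a n (X s) * xtA a (X s)) * ex s

end Pool.Agent.MP_990230_pr

end
end MrgPart5

-- marker of a merged file
example : 731051 + 590993 = 731051 + 590993 := rfl
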